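import Mathlib

set_option autoImplicit false

namespace Pool.Agent.Work.MP_c04246_lc

/-- Propositional formulas over the variables `V`: constants, negation, disjunctions (`big true`)
and conjunctions (`big false`) of `k` formulas, and the connectives `MOD_{p,i}` of `k` formulas. -/
inductive NF (p : ℕ) (V : Type) : Type
  | var : V → NF p V
  | cst : Bool → NF p V
  | neg : NF p V → NF p V
  | big : Bool → (k : ℕ) → (Fin k → NF p V) → NF p V
  | mod : ZMod p → (k : ℕ) → (Fin k → NF p V) → NF p V

namespace NF

variable {p : ℕ} {V W : Type}

/-- truth value under an assignment -/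
def eval (v : V → Bool) : NF p V → Bool
  | var x => v x
  | cst b => b
  | neg a => !(eval v a)
  | big c _ f => if c then decide (∃ j, eval v (f j) = true) else decide (∀ j, eval v (f j) = true)
  | mod i _ f => decide ((∑ j, if eval v (f j) = true then (1 : ZMod p) else 0) = i)

/-- number of symbols -/
def size : NF p V → ℕ
  | var _ => 1
  | cst _ => 1
  | neg a => size a + 1
  | big _ _ f => (∑ j, size (f j)) + 1
  | mod _ _ f => (∑ j, size (f j)) + 1

open Classical in
/-- subformulas -/
noncomputable def subs : NF p V → Finset (NF p V)
  | var x => {var x}
  | cst b => {cst b}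
  | neg a => insert (neg a) (subs a)
  | big c k f => insert (big c k f) (Finset.univ.biUnion fun j => subs (f j))
  | mod i k f => insert (mod i k f) (Finset.univ.biUnion fun j => subs (f j))

/-- Depth below a connective of the kind `r` (`some none` is the negation, `some (some c)` is
`big c`, `none` means: no connective), where consecutive negations, consecutive disjunctions and
consecutive conjunctions are merged, and where subformulas whose outermost connective is
`MOD_{p,i}` are counted like variables. -/
def dpt : Option (Option Bool) → NF p V → ℕ
  | _, var _ => 0
  | _, cst _ => 0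
  | r, neg a => (if r = some none then 0 else 1) + dpt (some none) a
  | r, big c _ f => (if r = some (some c) then 0 else 1) +
      Finset.univ.sup fun j => dpt (some (some c)) (f j)
  | _, mod _ _ _ => 0

/-- depth of the part of the formula above its MOD-connectives -/
def depth (a : NF p V) : ℕ := dpt none a

/-- The assignment `v` of truth values to all formulas obeys the truth table of the outermost
connective of the given formula. -/
def Resp (v : NF p V → Bool) : NF p V → Prop
  | var _ => True
  | cst b => v (cst b) = b
  | neg a => v (neg a) = !(v a)
  | big c k f => v (big c k f) =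
      if c then decide (∃ j, v (f j) = true) else decide (∀ j, v (f j) = true)
  | mod i k f => v (mod i k f) = decide ((∑ j, if v (f j) = true then (1 : ZMod p) else 0) = i)

/-- the members of several lists of formulas, together -/
def join {k : ℕ} (m : Fin k → ℕ) (g : (j : Fin k) → Fin (m j) → NF p V) :
    Fin (∑ j, m j) → NF p V :=
  fun x => g (finSigmaFinEquiv.symm x).1 (finSigmaFinEquiv.symm x).2

/-- If `c` is the conjunction of the formulas `MOD_{p,i_j}(g_j)` and `v` makes `c` true, then `v`
makes `MOD_{p,i}(g)` true, where `i` is the sum of the `i_j` and `g` consists of all the formulas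
in all the lists `g_j`. -/
def SumRule (v : NF p V → Bool) (c : NF p V) : Prop :=
  ∀ (k : ℕ) (i : Fin k → ZMod p) (m : Fin k → ℕ) (g : (j : Fin k) → Fin (m j) → NF p V),
    c = big false k (fun j => mod (i j) (m j) (g j)) → v c = true →
      v (mod (∑ j, i j) (∑ j, m j) (join m g)) = true

/-- `K`-local inference of `a` from the premises `P`: there are at most `K` premises and a set `C`
of at most `K` subformulas of the premises and of `a` such that every assignment of truth values
to all formulas which obeys the truth tables of the outermost connectives of the members of `C`,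
obeys the sum rule for those members of `C` with the property `E`, and makes all premises true,
makes `a` true. -/
def LocInf (K : ℕ) (E : NF p V → Prop) (P : Finset (NF p V)) (a : NF p V) : Prop :=
  P.card ≤ K ∧ ∃ C : Finset (NF p V), C.card ≤ K ∧
    (∀ c ∈ C, c ∈ subs a ∨ ∃ b ∈ P, c ∈ subs b) ∧
    ∀ v : NF p V → Bool, (∀ c ∈ C, Resp v c ∧ (E c → SumRule v c)) →
      (∀ b ∈ P, v b = true) → v a = true

/-- Every line of `pi` follows from earlier lines by a `K`-local inference. -/
def IsProof (K : ℕ) (E : NF p V → Prop) (pi : List (NF p V)) : Prop :=
  ∀ i : Fin pi.length, ∃ P : Finset (NF p V),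
    (∀ b ∈ P, ∃ j : Fin pi.length, j < i ∧ pi.get j = b) ∧ LocInf K E P (pi.get i)

/-- renaming of the variables -/
def map (s : V → W) : NF p V → NF p W
  | var x => var (s x)
  | cst b => cst b
  | neg a => neg (map s a)
  | big c k f => big c k fun j => map s (f j)
  | mod i k f => mod i k fun j => map s (f j)

/-- equality up to the order of the arguments of the connectives -/
inductive Same : NF p V → NF p V → Prop
  | var (x : V) : Same (var x) (var x)
  | cst (b : Bool) : Same (cst b) (cst b)
  | neg {a b : NF p V} : Same a b → Same (neg a) (neg b)
  | big (c : Bool) {k : ℕ} {f f' : Fin k → NF p V} (σ : Equiv.Perm (Fin k)) :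
      (∀ j, Same (f j) (f' (σ j))) → Same (big c k f) (big c k f')
  | mod (i : ZMod p) {k : ℕ} {f f' : Fin k → NF p V} (σ : Equiv.Perm (Fin k)) :
      (∀ j, Same (f j) (f' (σ j))) → Same (mod i k f) (mod i k f')

/-- action of a permutation of the points on the variables -/
def mv {q : ℕ} {U : Type} (π : Equiv.Perm U) (S : {S : Finset U // S.card = q}) :
    {S : Finset U // S.card = q} := ⟨S.1.map π.toEmbedding, by rw [Finset.card_map]; exact S.2⟩

/-- The formula has at most `N` images, up to the order of the arguments of the connectives, under
the permutations of the set `C` of points. -/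
def FewImages {q n : ℕ} (C : Finset (Fin n)) (N : ℕ)
    (a : NF p {S : Finset (Fin n) // S.card = q}) : Prop :=
  ∃ R : Finset (NF p {S : Finset (Fin n) // S.card = q}), R.card ≤ N ∧
    ∀ π : Equiv.Perm (Fin n), (∀ u, u ∉ C → π u = u) → ∃ b ∈ R, Same (map (mv π) a) b

/-- the outermost connective is `MOD_{p,i}` -/
def IsMod : NF p V → Prop
  | mod _ _ _ => True
  | _ => False

/-- disjunction (`c = true`) or conjunction (`c = false`) of a list -/
def bigL (c : Bool) (l : List (NF p V)) : NF p V := big c l.length l.get

/-- `Count_q^n`: the set `{0,...,n-1}` cannot be partitioned into sets of size `q`. Variables are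
the `q`-element subsets. The formula is the disjunction of: for some `u` no `S ∋ u` is chosen; for
some two distinct intersecting sets `S`, `T`, both are chosen. -/
noncomputable def countNF (p q n : ℕ) : NF p {S : Finset (Fin n) // S.card = q} :=
  bigL true
    (((Finset.univ : Finset (Fin n)).toList.map fun u =>
      neg (bigL true (((Finset.univ : Finset {S : Finset (Fin n) // S.card = q}).filter
        fun S => u ∈ S.1).toList.map var))) ++
    (((Finset.univ : Finset ({S : Finset (Fin n) // S.card = q} ×
        {S : Finset (Fin n) // S.card = q})).filter
        fun x => x.1 ≠ x.2 ∧ ¬ Disjoint x.1.1 x.2.1).toList.map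
      fun x => bigL false [var x.1, var x.2]))

end NF

end Pool.Agent.Work.MP_c04246_lc
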