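import Mathlib
import Pool.Agent.Work.MP_c04246_lc.Y.Defs
import Pool.Agent.Work.MP_c04246_lc.TCore

set_option autoImplicit false
set_option linter.unusedSectionVars false
set_option linter.unusedSimpArgs false
set_option linter.unusedVariables false

namespace Pool.Agent.Work.MP_c04246_lc

open Finset

namespace NF

section same

variable {p : ℕ} {V W Z : Type}

lemma Same.refl (a : NF p V) : Same a a := by
  induction a with
  | var x => exact .var x
  | cst b => exact .cst b
  | neg a ih => exact .neg ih
  | big c k f ih => exact .big c (Equiv.refl _) ih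
  | mod i k f ih => exact .mod i (Equiv.refl _) ih

lemma Same.symm {a b : NF p V} (h : Same a b) : Same b a := by
  induction h with
  | var x => exact .var x
  | cst b => exact .cst b
  | neg _ ih => exact .neg ih
  | @big c k f f' σ _ ih =>
    exact .big c σ.symm fun j => by have := ih (σ.symm j); rwa [Equiv.apply_symm_apply] at this
  | @mod i k f f' σ _ ih =>
    exact .mod i σ.symm fun j => by have := ih (σ.symm j); rwa [Equiv.apply_symm_apply] at this

lemma Same.trans {a b : NF p V} (h : Same a b) : ∀ {c : NF p V}, Same b c → Same a c := by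
  induction h with
  | var x => intro c h; exact h
  | cst b => intro c h; exact h
  | neg _ ih => intro c h; cases h with | neg h => exact .neg (ih h)
  | @big c k f f' σ _ ih =>
    intro d h
    cases h with
    | big _ σ' h => exact .big c (σ.trans σ') fun j => ih j (h (σ j))
  | @mod i k f f' σ _ ih =>
    intro d h
    cases h with
    | mod _ σ' h => exact .mod i (σ.trans σ') fun j => ih j (h (σ j))

instance sameSetoid (p : ℕ) (V : Type) : Setoid (NF p V) :=
  ⟨Same, ⟨Same.refl, fun h => Same.symm h, fun h h' => Same.trans h h'⟩⟩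

/-- formulas up to the order of the arguments -/
def Cl (p : ℕ) (V : Type) : Type := Quotient (sameSetoid p V)

/-- class of a formula -/
def cl (a : NF p V) : Cl p V := Quotient.mk _ a

lemma cl_eq {a b : NF p V} : cl a = cl b ↔ Same a b :=
  ⟨fun h => Quotient.exact h, fun h => Quotient.sound h⟩

lemma Same.map (s : V → W) {a b : NF p V} (h : Same a b) : Same (map s a) (map s b) := by
  induction h with
  | var x => exact .var _
  | cst b => exact .cst b
  | neg _ ih => exact .neg ih
  | @big c k f f' σ _ ih => exact .big c σ ih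
  | @mod i k f f' σ _ ih => exact .mod i σ ih

lemma map_map (s : V → W) (t : W → Z) (a : NF p V) :
    NF.map t (NF.map s a) = NF.map (fun x => t (s x)) a := by
  induction a with
  | var x => rfl
  | cst b => rfl
  | neg a ih => simp only [NF.map, ih]
  | big c k f ih => simp only [NF.map, ih]
  | mod i k f ih => simp only [NF.map, ih]

lemma map_id (s : V → V) (hs : ∀ x, s x = x) (a : NF p V) : NF.map s a = a := by
  induction a with
  | var x => simp only [NF.map, hs]
  | cst b => rfl
  | neg a ih => simp only [NF.map, ih]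
  | big c k f ih => simp only [NF.map, ih]
  | mod i k f ih => simp only [NF.map, ih]

/-- number of the arguments of a given class -/
noncomputable def mult {k : ℕ} (f : Fin k → NF p V) (z : Cl p V) : ℕ :=
  open Classical in (univ.filter fun j => cl (f j) = z).card

end same

section act

variable {q : ℕ} {U : Type}

lemma mv_one (S : Vr q U) : mv (1 : Equiv.Perm U) S = S := by
  apply Subtype.ext
  show S.1.map _ = S.1
  ext u
  simp only [mem_map, Equiv.coe_toEmbedding]
  exact ⟨fun ⟨x, hx, h⟩ => h ▸ hx, fun h => ⟨u, h, rfl⟩⟩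

lemma mv_mul (π σ : Equiv.Perm U) (S : Vr q U) : mv (π * σ) S = mv π (mv σ S) := by
  apply Subtype.ext
  show S.1.map _ = (S.1.map _).map _
  ext u
  simp only [mem_map, Equiv.coe_toEmbedding]
  constructor
  · rintro ⟨x, hx, rfl⟩
    exact ⟨σ x, ⟨x, hx, rfl⟩, rfl⟩
  · rintro ⟨y, ⟨x, hx, rfl⟩, rfl⟩
    exact ⟨x, hx, rfl⟩

variable {p : ℕ}

instance : MulAction (Equiv.Perm U) (Cl p (Vr q U)) where
  smul π := Quotient.map (map (mv π)) fun a b (h : Same a b) => Same.map (mv π) h
  one_smul x := by
    obtain ⟨a, rfl⟩ := Quotient.exists_rep x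
    show cl (map (mv 1) a) = cl a
    rw [map_id _ mv_one]
  mul_smul π σ x := by
    obtain ⟨a, rfl⟩ := Quotient.exists_rep x
    show cl (map (mv (π * σ)) a) = cl (map (mv π) (map (mv σ) a))
    rw [map_map]
    congr 2
    funext S
    exact mv_mul π σ S

lemma smul_cl (π : Equiv.Perm U) (a : NF p (Vr q U)) : π • cl a = cl (map (mv π) a) := rfl

/-- action of a permutation on the worlds -/
def mw [DecidableEq U] (π : Equiv.Perm U) (τ : Finset (Finset U)) : Finset (Finset U) :=
  τ.image fun S => S.map π.toEmbedding

end act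

section supp

variable {U X : Type} [Fintype U] [DecidableEq U] [MulAction (Equiv.Perm U) X]

/-- the permutation fixes the points of `D` -/
def Fx (D : Finset U) (π : Equiv.Perm U) : Prop := ∀ u ∈ D, π u = u

/-- `D` is a support of `x` -/
def Sup (D : Finset U) (x : X) : Prop := ∀ π : Equiv.Perm U, Fx D π → π • x = x

/-- `x` has a support with at most `k` points outside of `D0` -/
def HSup (D0 : Finset U) (k : ℕ) (x : X) : Prop := ∃ B : Finset U, B.card ≤ k ∧ Sup (D0 ∪ B) x

/-- the least support outside of `D0` -/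
noncomputable def ms (D0 : Finset U) (k : ℕ) (x : X) : Finset U :=
  open Classical in
  univ.filter fun u => u ∉ D0 ∧ ∀ B : Finset U, B.card ≤ k → Sup (D0 ∪ B) x → u ∈ B

/-- orbit under the permutations fixing `D` -/
noncomputable def orb (D : Finset U) (x : X) : Finset X :=
  open Classical in (univ.filter fun π : Equiv.Perm U => Fx D π).image fun π => π • x

end supp

section worlds

variable {U : Type} [Fintype U] [DecidableEq U]

/-- minimal extensions of the world `τ` which cover `B` -/
noncomputable def Mn (q : ℕ) (B : Finset U) (τ : Finset (Finset U)) :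
    Finset (Finset (Finset U)) :=
  open Classical in
  univ.filter fun τ' => PP q τ' ∧ τ ⊆ τ' ∧ B ⊆ cov τ' ∧ ∀ S ∈ τ', S ∉ τ → ∃ u ∈ B, u ∈ S

/-- weight of `i` new parts in a world with `N` uncovered points -/
def wt (q N i : ℕ) : ℚ := ∏ l ∈ range i, (((N - q * l - 1).choose (q - 1) : ℕ) : ℚ)⁻¹

/-- virtual expectation of `F` at `τ`, where `B` is a support of `F` -/
noncomputable def Ex (q : ℕ) (B : Finset U) (F : Finset (Finset U) → ℚ) (τ : Finset (Finset U)) :
    ℚ := ∑ τ' ∈ Mn q B τ, wt q (nun τ) (τ'.card - τ.card) * F τ'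

/-- the parts which contain `u` and are disjoint from the covered points -/
noncomputable def adm (q : ℕ) (τ : Finset (Finset U)) (u : U) : Finset (Finset U) :=
  open Classical in univ.filter fun S => Adm q τ u S

/-- average of `G` over the answers to the query `u` -/
noncomputable def avg (q : ℕ) (τ : Finset (Finset U)) (u : U) (G : Finset (Finset U) → ℚ) : ℚ :=
  (((nun τ - 1).choose (q - 1) : ℕ) : ℚ)⁻¹ * ∑ S ∈ adm q τ u, G (insert S τ)

/-- the value of `F` depends only on the parts meeting the support `B` -/
def Gd0 (q : ℕ) (ρ0 : Finset (Finset U)) (B : Finset U) {α : Type}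
    (F : Finset (Finset U) → α) : Prop :=
  ∀ τ τ', PP q τ' → ρ0 ⊆ τ → τ ⊆ τ' → B ⊆ cov τ → F τ = F τ'

/-- harmonic functions of worlds -/
def Harm (q R : ℕ) (ρ0 : Finset (Finset U)) (G : Finset (Finset U) → ℚ) : Prop :=
  ∀ τ, PP q τ → ρ0 ⊆ τ → R ≤ nun τ → ∀ u, u ∉ cov τ → G τ = avg q τ u G

/-- the part of the world meeting `B` -/
def red (ρ0 : Finset (Finset U)) (B : Finset U) (τ : Finset (Finset U)) : Finset (Finset U) :=
  ρ0 ∪ τ.filter fun S => ∃ u ∈ B, u ∈ S

/-- The rational number `x` has a denominator coprime to `p` and the residue `c`. -/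
def Rm (p : ℕ) (x : ℚ) (c : ZMod p) : Prop :=
  ∃ (u : ℤ) (v : ℕ), v.Coprime p ∧ x * v = u ∧ ((u : ℤ) : ZMod p) = c * v

end worlds

section values

variable {p q : ℕ} {U : Type} [Fintype U] [DecidableEq U]

/-- all subformulas have small supports -/
def Hs (D0 : Finset U) (k : ℕ) (a : NF p (Vr q U)) : Prop := ∀ b ∈ subs a, HSup D0 k (cl b)

/-- virtual truth value of a formula with hereditarily small supports in a world -/
noncomputable def V (ρ0 : Finset (Finset U)) (k : ℕ) : NF p (Vr q U) → Finset (Finset U) → Bool
  | var S, τ => decide (S.1 ∈ τ)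
  | cst b, _ => b
  | neg a, τ => !(V ρ0 k a τ)
  | big c n f, τ =>
    open Classical in
    if c then decide ((∑ j, Ex q (ms (cov ρ0) k (cl (f j)))
        (fun σ => if V ρ0 k (f j) σ = true then (1 : ℚ) else 0)
        (red ρ0 (ms (cov ρ0) k (cl (big c n f))) τ)) ≠ 0)
      else decide ((∑ j, Ex q (ms (cov ρ0) k (cl (f j)))
        (fun σ => if V ρ0 k (f j) σ = true then (1 : ℚ) else 0)
        (red ρ0 (ms (cov ρ0) k (cl (big c n f))) τ)) = n)
  | mod i n f, τ =>
    open Classical in
    decide (Rm p (∑ j, Ex q (ms (cov ρ0) k (cl (f j)))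
        (fun σ => if V ρ0 k (f j) σ = true then (1 : ℚ) else 0)
        (red ρ0 (ms (cov ρ0) k (cl (mod i n f))) τ)) i)

/-- virtual probability of a formula in a world -/
noncomputable def mu (ρ0 : Finset (Finset U)) (k : ℕ) (a : NF p (Vr q U))
    (τ : Finset (Finset U)) : ℚ :=
  Ex q (ms (cov ρ0) k (cl a)) (fun σ => if V ρ0 k a σ = true then (1 : ℚ) else 0) τ

/-- the variables meeting the least support -/
noncomputable def vl (ρ0 : Finset (Finset U)) (k : ℕ) (a : NF p (Vr q U)) : List (Vr q U) :=
  open Classical in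
  (univ.filter fun S : Vr q U => ∃ u ∈ ms (cov ρ0) k (cl a), u ∈ S.1).toList

/-- a gate over the variables meeting the least support, computing the virtual value -/
noncomputable def vgate (ρ0 : Finset (Finset U)) (k : ℕ) (a : NF p (Vr q U)) : GF (Vr q U) :=
  GF.gate (vl ρ0 k a).length
    (fun β => V ρ0 k a (ρ0 ∪ (univ.filter fun j => β j = true).image fun j =>
      ((vl ρ0 k a).get j).1))
    (fun j => GF.var ((vl ρ0 k a).get j))

/-- iterated disjunction or conjunction -/
def foldG {V : Type} (c : Bool) (l : List (GF V)) : GF V := l.foldr (GF.bin c) (GF.cst (!c))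

open Classical in
/-- translation into gate formulas: formulas with hereditarily small supports become gates -/
noncomputable def tr (ρ0 : Finset (Finset U)) (k : ℕ) : NF p (Vr q U) → GF (Vr q U)
  | var S => if Hs (cov ρ0) k (var S : NF p (Vr q U)) then vgate ρ0 k (var S : NF p (Vr q U))
      else GF.var S
  | cst b => if Hs (cov ρ0) k (cst b : NF p (Vr q U)) then vgate ρ0 k (cst b : NF p (Vr q U))
      else GF.cst b
  | neg a => if Hs (cov ρ0) k (neg a) then vgate ρ0 k (neg a) else GF.neg (tr ρ0 k a)
  | big c n f => if Hs (cov ρ0) k (big c n f) then vgate ρ0 k (big c n f)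
      else foldG c (List.ofFn fun j => tr ρ0 k (f j))
  | mod i n f => if Hs (cov ρ0) k (mod i n f) then vgate ρ0 k (mod i n f) else GF.cst false

/-- assumptions on the base world -/
structure Ctx (q k : ℕ) (ρ0 : Finset (Finset U)) : Prop where
  hq : 2 ≤ q
  hρ : PP q ρ0
  hroom : q * (2 * k + 4) ≤ nun ρ0

/-- sum of the virtual probabilities of the arguments -/
noncomputable def asum (ρ0 : Finset (Finset U)) (k : ℕ) (a : NF p (Vr q U))
    (τ : Finset (Finset U)) : ℚ :=
  match a with
  | big _ _ f => ∑ j, mu ρ0 k (f j) τ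
  | mod _ _ f => ∑ j, mu ρ0 k (f j) τ
  | _ => 0

/-- the residue of a MOD-connective -/
def resi : NF p (Vr q U) → ZMod p
  | mod i _ _ => i
  | _ => 0

end values

end NF

end Pool.Agent.Work.MP_c04246_lc
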