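import Mathlib
import Pool.Agent.Work.MP_c04246_lc.Y.PDefs

set_option autoImplicit false
set_option linter.unusedSectionVars false
set_option linter.unusedSimpArgs false
set_option linter.unusedVariables false
set_option linter.unusedDecidableInType false
set_option linter.unusedFintypeInType false

/- MODULE Fold (M). Certificates of iterated disjunctions and conjunctions foldG c l =
l.foldr (GF.bin c) (GF.cst (!c)) in helper26's library (LCert.lean: GC, Gd, glv, isL, LC), with the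
scope parameter m = 0: then isL 0 a for a = neg, bin means that a has no variables.
* GD_fold_iff: induction on l. nil: foldG c [] = cst (!c): (GC ..).2 c = LC c, eval = !c ≠ c: empty.
  cons: if ¬ isL 0 (bin c a (foldG c l)): GC_bin, second component at e = c is the union. If isL 0: no
  variables in a and in foldG c l, so both are isL 0 (isL_of_card), all three GC's are LC, the condition
  on the variables is void, eval (bin c a b) = c iff eval a = c or eval b = c (c = true: or;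
  c = false: and).
* GD_GC: t ∈ (GC a).2 e, t' ∈ (GC a).1 (!e) → ¬ PP q (t ∪ t'): if isL 0 a: LC_consistent. neg, not
  isL: GC_neg: second component at e = first component at e of neg a: GC_consistent (union_comm for
  e = false). bin c: if e ≠ c the second component at e equals the first one at e: GC_consistent.
  If e = c: the first component at !c consists of the t' ∈ Sm such that ¬ PP (t ∪ t') for all t in the
  union = second component at c.
* fold_true: Gd (foldG c l) c tau: a certificate t ⊆ tau, by GC_to_GD it contains t1 ∈ (..).2 c;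
  GD_fold_iff.
* fold_false: Gd (foldG c l) (!c) tau: certificate t' ⊆ tau; for a ∈ l, t ∈ (GC a).2 c: GD_fold_iff puts
  t into (GC (foldG c l)).2 c; GD_GC: ¬ PP (t ∪ t'), and t' ⊆ tau (PP.mono).
* glv_fold: induction. GC_cst: Gd (cst b) e tau → e = b (LC: eval).
* neg: Gd (neg a) e tau ↔ Gd a (!e) tau for m = 0: if ¬ isL 0 (neg a): Gd_neg. If isL 0 (neg a): a has no
  variables, isL 0 a, LC.
-/
namespace Pool.Agent.Work.MP_c04246_lc

open Finset

namespace NF

section

variable {q : ℕ} {U : Type} [DecidableEq U] {ρ : ℕ → Finset (Finset U)} {κ : ℕ → ℕ} {c : Bool}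
  {l : List (GF (Vr q U))} {τ t t' : Finset (Finset U)}

theorem GD_fold_iff : t ∈ (GF.GC 0 q ρ κ (foldG c l)).2 c ↔ ∃ a ∈ l, t ∈ (GF.GC 0 q ρ κ a).2 c := by
  induction l with
  | nil =>
    show t ∈ (GF.GC 0 q ρ κ (GF.cst (!c) : GF (Vr q U))).2 c ↔ _
    constructor
    · intro h
      rw [GF.GC_isL (show GF.isL 0 (GF.cst (!c) : GF (Vr q U)) from trivial)] at h
      have h3 : (!c) = c := h.2.2
      exact absurd h3 (by cases c <;> simp)
    · rintro ⟨a, ha, _⟩
      exact absurd ha (List.not_mem_nil)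
  | cons a l ih =>
    have hf : foldG c (a :: l) = GF.bin c a (foldG c l) := rfl
    rw [hf]
    have hr : (∃ a' ∈ a :: l, t ∈ (GF.GC 0 q ρ κ a').2 c) ↔
        t ∈ (GF.GC 0 q ρ κ a).2 c ∨ ∃ a' ∈ l, t ∈ (GF.GC 0 q ρ κ a').2 c := by
      simp only [List.mem_cons, exists_eq_or_imp]
    rw [hr, ← ih]
    by_cases hl : GF.isL 0 (GF.bin c a (foldG c l))
    · obtain ⟨h1, h2⟩ := GF.isL_sub_bin hl
      have hv : GF.vars (GF.bin c a (foldG c l)) = ∅ := by
        have h' : (GF.vars (GF.bin c a (foldG c l))).card ≤ 0 := hl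
        exact card_eq_zero.mp (Nat.le_zero.mp h')
      have hva : GF.vars a = ∅ := by
        have h3 := GF.vars_subs _ a (GF.subs_bin_l c a (foldG c l) (GF.subs_self a))
        rw [hv] at h3
        exact subset_empty.mp h3
      have hvb : GF.vars (foldG c l) = ∅ := by
        have h3 := GF.vars_subs _ (foldG c l)
          (GF.subs_bin_r c a (foldG c l) (GF.subs_self (foldG c l)))
        rw [hv] at h3
        exact subset_empty.mp h3
      rw [GF.GC_isL hl, GF.GC_isL h1, GF.GC_isL h2]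
      show (t ∈ Sm q ρ κ 0 ∧ (∀ S ∈ GF.vars (GF.bin c a (foldG c l)), GF.Dcd t S) ∧
          GF.eval (GF.wa t) (GF.bin c a (foldG c l)) = c) ↔
        (t ∈ Sm q ρ κ 0 ∧ (∀ S ∈ GF.vars a, GF.Dcd t S) ∧ GF.eval (GF.wa t) a = c) ∨
        (t ∈ Sm q ρ κ 0 ∧ (∀ S ∈ GF.vars (foldG c l), GF.Dcd t S) ∧
          GF.eval (GF.wa t) (foldG c l) = c)
      rw [hv, hva, hvb]
      simp only [notMem_empty, IsEmpty.forall_iff, implies_true, true_and, GF.eval]
      cases c <;> cases GF.eval (GF.wa t) a <;> cases GF.eval (GF.wa t) (foldG _ l) <;> simp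
    · rw [GF.GC_bin hl]
      simp only [if_true]
      exact Iff.rfl

theorem GD_GC {m : ℕ} {a : GF (Vr q U)} {e : Bool} (h : t ∈ (GF.GC m q ρ κ a).2 e)
    (h' : t' ∈ (GF.GC m q ρ κ a).1 (!e)) : ¬ PP q (t ∪ t') := by
  intro hPP
  have hd : GF.Gd m q ρ κ a (!e) (t ∪ t') := ⟨t', h', subset_union_right⟩
  have := GF.Gd_of_D hPP h subset_union_left hd
  cases e <;> simp at this

theorem fold_true (h : GF.Gd 0 q ρ κ (foldG c l) c τ) :
    ∃ a ∈ l, ∃ t ∈ (GF.GC 0 q ρ κ a).2 c, t ⊆ τ := by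
  obtain ⟨t, ht, hsub⟩ := h
  obtain ⟨t1, ht1, hsub1⟩ := GF.GC_to_GD _ c t ht
  obtain ⟨a, ha, h1⟩ := GD_fold_iff.mp ht1
  exact ⟨a, ha, t1, h1, hsub1.trans hsub⟩

theorem fold_false (h : GF.Gd 0 q ρ κ (foldG c l) (!c) τ) {a : GF (Vr q U)} (ha : a ∈ l)
    (ht : t ∈ (GF.GC 0 q ρ κ a).2 c) : ¬ PP q (t ∪ τ) := by
  obtain ⟨t', ht', hsub⟩ := h
  intro hPP
  exact GD_GC (GD_fold_iff.mpr ⟨a, ha, ht⟩) ht' (hPP.mono (union_subset_union Subset.rfl hsub))

theorem glv_fold {D : ℕ} (h : ∀ a ∈ l, GF.glv 0 (some c) a ≤ D) :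
    GF.glv 0 (some c) (foldG c l) ≤ D ∧ GF.glv 0 none (foldG c l) ≤ D + 1 ∧
      GF.glv 0 (some (!c)) (foldG c l) ≤ D + 1 := by
  have key : ∀ l : List (GF (Vr q U)), (∀ a ∈ l, GF.glv 0 (some c) a ≤ D) →
      GF.glv 0 (some c) (foldG c l) ≤ D := by
    intro l
    induction l with
    | nil => intro _; show GF.glv 0 (some c) (GF.cst (!c) : GF (Vr q U)) ≤ D; simp [GF.glv]
    | cons a l ih =>
      intro h
      show GF.glv 0 (some c) (GF.bin c a (foldG c l)) ≤ D
      by_cases hl : GF.isL 0 (GF.bin c a (foldG c l))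
      · rw [GF.glv_isL hl]; exact Nat.zero_le _
      · simp only [GF.glv, if_neg hl, if_true, zero_add]
        exact max_le (h a (List.mem_cons_self)) (ih fun b hb => h b (List.mem_cons_of_mem _ hb))
  refine ⟨key l h, ?_, ?_⟩
  · exact (GF.glv_none_le 0 (some c) _).trans (Nat.add_le_add_right (key l h) 1)
  · cases l with
    | nil => show GF.glv 0 (some (!c)) (GF.cst (!c) : GF (Vr q U)) ≤ D + 1; simp [GF.glv]
    | cons a l =>
      show GF.glv 0 (some (!c)) (GF.bin c a (foldG c l)) ≤ D + 1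
      by_cases hl : GF.isL 0 (GF.bin c a (foldG c l))
      · rw [GF.glv_isL hl]; exact Nat.zero_le _
      · have hne : ¬ ((some (!c) : Option Bool) = some c) := by cases c <;> simp
        simp only [GF.glv, if_neg hl, if_neg hne]
        have h1 := h a (List.mem_cons_self)
        have h2 := key l fun b hb => h b (List.mem_cons_of_mem _ hb)
        omega

theorem Gd_neg0 {a : GF (Vr q U)} {e : Bool} :
    GF.Gd 0 q ρ κ (GF.neg a) e τ ↔ GF.Gd 0 q ρ κ a (!e) τ := by
  by_cases hl : GF.isL 0 (GF.neg a)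
  · unfold GF.Gd
    rw [GF.GC_isL hl, GF.GC_isL (GF.isL_sub_neg hl)]
    have hiff : ∀ t : Finset (Finset U), t ∈ GF.LC q ρ κ (GF.neg a) e ↔
        t ∈ GF.LC q ρ κ a (!e) := by
      intro t
      show (t ∈ Sm q ρ κ 0 ∧ (∀ S ∈ GF.vars (GF.neg a), GF.Dcd t S) ∧
          GF.eval (GF.wa t) (GF.neg a) = e) ↔
        (t ∈ Sm q ρ κ 0 ∧ (∀ S ∈ GF.vars a, GF.Dcd t S) ∧ GF.eval (GF.wa t) a = !e)
      simp only [GF.vars, GF.eval]
      cases e <;> cases GF.eval (GF.wa t) a <;> simp
    constructor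
    · rintro ⟨t, ht, hs⟩
      exact ⟨t, (hiff t).mp ht, hs⟩
    · rintro ⟨t, ht, hs⟩
      exact ⟨t, (hiff t).mpr ht, hs⟩
  · exact GF.Gd_neg hl

theorem Gd_cst {b e : Bool} (h : GF.Gd 0 q ρ κ (GF.cst b : GF (Vr q U)) e τ) : e = b := by
  obtain ⟨t, ht, _⟩ := h
  rw [GF.GC_isL (show GF.isL 0 (GF.cst b : GF (Vr q U)) from trivial)] at ht
  exact ht.2.2.symm

/-- a formula is decided if its certificate in the second component is contained in the world -/
theorem GD_Gd {a : GF (Vr q U)} {e e' : Bool} (hτ : PP q τ) (h : t ∈ (GF.GC 0 q ρ κ a).2 e)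
    (ht : t ⊆ τ) (hd : GF.Gd 0 q ρ κ a e' τ) : e' = e :=
  GF.Gd_of_D hτ h ht hd

end

end NF

end Pool.Agent.Work.MP_c04246_lc
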