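import Mathlib
import Pool.Agent.Work.MP_c04246_lc.Y.PDefs

set_option autoImplicit false
set_option linter.unusedSectionVars false
set_option linter.unusedSimpArgs false
set_option linter.unusedVariables false
set_option linter.unusedDecidableInType false
set_option linter.unusedFintypeInType false

/- MODULE ExA (M). The virtual expectation (PDefs: Mn, wt, Ex, adm, avg), one query.
Worlds are sets of disjoint parts (PP q), cov = covered points, nun = number of uncovered points.
* Mn_cov: if B ⊆ cov tau then Mn q B tau = {tau}: a part S of tau' not in tau is disjoint from the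
  parts of tau, but contains a point of B ⊆ cov tau. wt q N 0 = 1 (empty product).
* card_adm: S ↦ S.erase u is a bijection onto powersetCard (q-1) (univ \ (insert u (cov tau))),
  which has nun tau - 1 points. (q ≥ 1 since otherwise ... q > 0 is a hypothesis.)
* nun_ins: nun (insert S tau) + q = nun tau for S ∈ adm q tau u (nun_insert in Switch.lean).
* Ex_step: for u ∈ B, u ∉ cov tau: every tau' ∈ Mn q B tau has exactly one part S with u ∈ S; S is
  in adm q tau u, and tau' ∈ Mn q B (insert S tau); conversely every member of Mn q B (insert S tau)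
  for S ∈ adm q tau u is in Mn q B tau (S meets B in u) and contains S. So Mn q B tau is the disjoint
  union (Finset.sum_biUnion, or sum_sigma) of the sets Mn q B (insert S tau), S ∈ adm q tau u.
  Weights: with i = tau'.card - tau.card ≥ 1 we have tau'.card - (insert S tau).card = i - 1 and
  wt q N i = (choose (N-1) (q-1))^-1 * wt q (N-q) (i-1) (prod_range_succ'; N - q*(l+1) - 1 =
  (N - q) - q*l - 1), where nun (insert S tau) = N - q.
* linearity: sum_add_distrib, mul_sum, sum_comm.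
-/
namespace Pool.Agent.Work.MP_c04246_lc

open Finset

namespace NF

section

variable {q k : ℕ} {U : Type} [Fintype U] [DecidableEq U] {B : Finset U} {τ : Finset (Finset U)}
  {u : U}

lemma wt_zero (q N : ℕ) : wt q N 0 = 1 := by
  simp [wt]

lemma wt_nonneg (q N i : ℕ) : 0 ≤ wt q N i := by
  unfold wt
  exact prod_nonneg fun l _ => inv_nonneg.mpr (Nat.cast_nonneg _)

lemma wt_pos {N i : ℕ} (hq : 0 < q) (h : q * i ≤ N) : 0 < wt q N i := by
  unfold wt
  refine prod_pos fun l hl => inv_pos.mpr (Nat.cast_pos.mpr (Nat.choose_pos ?_))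
  have h1 : l + 1 ≤ i := mem_range.mp hl
  have h2 : q * (l + 1) ≤ q * i := Nat.mul_le_mul_left q h1
  rw [Nat.mul_succ] at h2
  omega

private lemma mem_Mn {σ : Finset (Finset U)} : σ ∈ Mn q B τ ↔
    PP q σ ∧ τ ⊆ σ ∧ B ⊆ cov σ ∧ ∀ S ∈ σ, S ∉ τ → ∃ u ∈ B, u ∈ S := by
  simp [Mn]

private lemma wt_succ (N j : ℕ) :
    wt q N (j + 1) = (((N - 1).choose (q - 1) : ℕ) : ℚ)⁻¹ * wt q (N - q) j := by
  unfold wt
  rw [prod_range_succ', mul_comm]
  congr 1
  apply prod_congr rfl
  intro l _
  have : N - q * (l + 1) - 1 = N - q - q * l - 1 := by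
    rw [Nat.mul_succ]
    omega
  rw [this]

private lemma ins_notMem {S : Finset U} (h : Adm q τ u S) : S ∉ τ := by
  intro hS
  have := disjoint_cov_iff.mp h.2.2 S hS
  exact (disjoint_left.mp this) h.1 h.1

private lemma Mn_eq (hu : u ∈ B) (hu' : u ∉ cov τ) :
    Mn q B τ = (adm q τ u).biUnion fun S => Mn q B (insert S τ) := by
  ext σ
  rw [mem_biUnion]
  constructor
  · intro h
    rw [mem_Mn] at h
    obtain ⟨h1, h2, h3, h4⟩ := h
    obtain ⟨S, hS, huS⟩ := mem_cov.mp (h3 hu)
    have hSτ : S ∉ τ := fun h => hu' (mem_cov.mpr ⟨S, h, huS⟩)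
    refine ⟨S, ?_, ?_⟩
    · simp only [adm, mem_filter, mem_univ, true_and]
      refine ⟨huS, h1.1 S hS, ?_⟩
      rw [disjoint_cov_iff]
      intro T hT
      exact h1.2 S hS T (h2 hT) (fun h => hSτ (h ▸ hT))
    · rw [mem_Mn]
      refine ⟨h1, insert_subset hS h2, h3, ?_⟩
      intro T hT hT'
      exact h4 T hT fun h => hT' (mem_insert_of_mem h)
  · rintro ⟨S, hS, h⟩
    rw [mem_Mn] at h ⊢
    obtain ⟨h1, h2, h3, h4⟩ := h
    refine ⟨h1, (subset_insert _ _).trans h2, h3, ?_⟩
    intro T hT hT'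
    by_cases hTS : T = S
    · subst hTS
      simp only [adm, mem_filter, mem_univ, true_and] at hS
      exact ⟨u, hu, hS.1⟩
    · refine h4 T hT ?_
      rw [mem_insert]
      rintro (h | h)
      · exact hTS h
      · exact hT' h

lemma Mn_cov (hτ : PP q τ) (hB : B ⊆ cov τ) : Mn q B τ = {τ} := by
  ext σ
  rw [mem_Mn, mem_singleton]
  constructor
  · rintro ⟨h1, h2, h3, h4⟩
    refine (h2.antisymm ?_).symm
    intro S hS
    by_contra hSτ
    obtain ⟨v, hv, hvS⟩ := h4 S hS hSτ
    obtain ⟨T, hT, hvT⟩ := mem_cov.mp (hB hv)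
    have := h1.2 S hS T (h2 hT) (fun h => hSτ (h ▸ hT))
    exact disjoint_left.mp this hvS hvT
  · rintro rfl
    exact ⟨hτ, Subset.rfl, hB, fun S hS hS' => absurd hS hS'⟩

lemma Ex_cov (hτ : PP q τ) (hB : B ⊆ cov τ) (F : Finset (Finset U) → ℚ) :
    Ex q B F τ = F τ := by
  unfold Ex
  rw [Mn_cov hτ hB, sum_singleton, Nat.sub_self, wt_zero, one_mul]

lemma mem_adm {S : Finset U} : S ∈ adm q τ u ↔ Adm q τ u S := by
  simp [adm]

lemma card_adm (hq : 0 < q) (hu : u ∉ cov τ) :
    (adm q τ u).card = (nun τ - 1).choose (q - 1) := by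
  have hc : (univ \ insert u (cov τ)).card = nun τ - 1 := by
    unfold nun
    have : univ \ insert u (cov τ) = (univ \ cov τ).erase u := by
      ext v
      simp only [mem_sdiff, mem_univ, true_and, mem_insert, mem_erase, not_or]
    rw [this, card_erase_of_mem (mem_sdiff.mpr ⟨mem_univ _, hu⟩)]
  rw [← hc, ← card_powersetCard]
  refine card_bij' (fun S _ => S.erase u) (fun T _ => insert u T) ?_ ?_ ?_ ?_
  · intro S hS
    rw [mem_adm] at hS
    rw [mem_powersetCard]
    refine ⟨?_, by rw [card_erase_of_mem hS.1, hS.2.1]⟩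
    intro v hv
    rw [mem_erase] at hv
    rw [mem_sdiff, mem_insert, not_or]
    exact ⟨mem_univ _, hv.1, fun h => disjoint_left.mp hS.2.2 hv.2 h⟩
  · intro T hT
    rw [mem_powersetCard] at hT
    have huT : u ∉ T := fun h => (mem_sdiff.mp (hT.1 h)).2 (mem_insert_self _ _)
    rw [mem_adm]
    refine ⟨mem_insert_self _ _, by rw [card_insert_of_notMem huT, hT.2]; omega, ?_⟩
    rw [disjoint_left]
    intro v hv hv'
    rcases mem_insert.mp hv with h | h
    · exact hu (h ▸ hv')
    · exact (mem_sdiff.mp (hT.1 h)).2 (mem_insert_of_mem hv')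
  · intro S hS
    rw [mem_adm] at hS
    exact insert_erase hS.1
  · intro T hT
    rw [mem_powersetCard] at hT
    have huT : u ∉ T := fun h => (mem_sdiff.mp (hT.1 h)).2 (mem_insert_self _ _)
    exact erase_insert huT

lemma nun_ins (hτ : PP q τ) {S : Finset U} (hS : S ∈ adm q τ u) :
    nun (insert S τ) + q = nun τ := nun_insert hτ (mem_adm.mp hS)

theorem Ex_step (hq : 0 < q) (hτ : PP q τ) (hu : u ∈ B) (hu' : u ∉ cov τ)
    (F : Finset (Finset U) → ℚ) : Ex q B F τ = avg q τ u (Ex q B F) := by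
  unfold avg Ex
  rw [Mn_eq hu hu', sum_biUnion, mul_sum]
  · apply sum_congr rfl
    intro S hS
    rw [mul_sum]
    apply sum_congr rfl
    intro σ hσ
    have h1 := ins_notMem (mem_adm.mp hS)
    have h2 : nun (insert S τ) = nun τ - q := by
      have := nun_ins hτ hS
      omega
    have h3 : (insert S τ).card = τ.card + 1 := card_insert_of_notMem h1
    have h4 : (insert S τ).card ≤ σ.card := card_le_card (mem_Mn.mp hσ).2.1
    have h5 : σ.card - τ.card = (σ.card - (insert S τ).card) + 1 := by omega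
    rw [h5, wt_succ, h2, mul_assoc]
  · intro S hS S' hS' hne
    rw [Function.onFun, disjoint_left]
    intro σ hσ hσ'
    have h1 := mem_Mn.mp hσ
    have h2 := mem_Mn.mp hσ'
    have h3 := h1.1.2 S (h1.2.1 (mem_insert_self _ _)) S' (h2.2.1 (mem_insert_self _ _)) hne
    exact disjoint_left.mp h3 (mem_adm.mp hS).1 (mem_adm.mp hS').1

lemma avg_congr {G G' : Finset (Finset U) → ℚ} (h : ∀ S ∈ adm q τ u, G (insert S τ) =
    G' (insert S τ)) : avg q τ u G = avg q τ u G' := by
  unfold avg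
  rw [sum_congr rfl h]

lemma avg_const (hq : 0 < q) (hu : u ∉ cov τ) (hn : q ≤ nun τ) (G : Finset (Finset U) → ℚ) (c : ℚ)
    (h : ∀ S ∈ adm q τ u, G (insert S τ) = c) : avg q τ u G = c := by
  unfold avg
  rw [sum_congr rfl h, sum_const, card_adm hq hu, nsmul_eq_mul, ← mul_assoc]
  have h1 : 0 < (nun τ - 1).choose (q - 1) := Nat.choose_pos (by omega)
  rw [inv_mul_cancel₀ (by exact_mod_cast h1.ne'), one_mul]

lemma Ex_add (F G : Finset (Finset U) → ℚ) :
    Ex q B (fun σ => F σ + G σ) τ = Ex q B F τ + Ex q B G τ := by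
  unfold Ex
  rw [← sum_add_distrib]
  exact sum_congr rfl fun σ _ => mul_add _ _ _

lemma Ex_mul (c : ℚ) (F : Finset (Finset U) → ℚ) :
    Ex q B (fun σ => c * F σ) τ = c * Ex q B F τ := by
  unfold Ex
  rw [mul_sum]
  exact sum_congr rfl fun σ _ => by ring

lemma Ex_sum {ι : Type} (s : Finset ι) (F : ι → Finset (Finset U) → ℚ) :
    Ex q B (fun σ => ∑ i ∈ s, F i σ) τ = ∑ i ∈ s, Ex q B (F i) τ := by
  unfold Ex
  rw [sum_comm]
  exact sum_congr rfl fun σ _ => mul_sum _ _ _

lemma Ex_congr {F G : Finset (Finset U) → ℚ} (h : ∀ σ ∈ Mn q B τ, F σ = G σ) :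
    Ex q B F τ = Ex q B G τ := by
  unfold Ex
  exact sum_congr rfl fun σ hσ => by rw [h σ hσ]

/-- the number of new parts is at most the number of points of `B` -/
lemma Mn_card (hτ : PP q τ) {σ : Finset (Finset U)} (hσ : σ ∈ Mn q B τ) :
    PP q σ ∧ τ ⊆ σ ∧ B ⊆ cov σ ∧ σ.card ≤ τ.card + B.card ∧ nun τ ≤ nun σ + q * B.card ∧
      q * (σ.card - τ.card) ≤ nun τ := by
  obtain ⟨h1, h2, h3, h4⟩ := mem_Mn.mp hσ
  have hc : (σ \ τ).card ≤ B.card := by
    have e1 : (σ \ τ).card = ∑ S ∈ σ \ τ, 1 := by simp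
    have e2 : ∑ S ∈ σ \ τ, 1 ≤ ∑ S ∈ σ \ τ, (S ∩ B).card := by
      refine sum_le_sum fun S hS => card_pos.mpr ?_
      have hS' := mem_sdiff.mp hS
      obtain ⟨v, hv, hvS⟩ := h4 S hS'.1 hS'.2
      exact ⟨v, mem_inter.mpr ⟨hvS, hv⟩⟩
    have e3 : ∑ S ∈ σ \ τ, (S ∩ B).card = ((σ \ τ).biUnion (fun S => S ∩ B)).card := by
      rw [card_biUnion]
      intro S hS T hT hne
      exact Disjoint.mono inter_subset_left inter_subset_left
        (h1.2 S (mem_sdiff.mp hS).1 T (mem_sdiff.mp hT).1 hne)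
    have e4 : ((σ \ τ).biUnion (fun S => S ∩ B)).card ≤ B.card := by
      apply card_le_card
      intro v hv
      obtain ⟨S, hS, hv⟩ := mem_biUnion.mp hv
      exact (mem_inter.mp hv).2
    omega
  have hc2 : (σ \ τ).card + τ.card = σ.card := card_sdiff_add_card_eq_card h2
  have n1 := nun_add hτ
  have n2 := nun_add h1
  have h5 : σ.card ≤ τ.card + B.card := by omega
  have h6 : q * σ.card ≤ q * τ.card + q * B.card := by
    rw [← Nat.mul_add]
    exact Nat.mul_le_mul_left q h5
  have h7 : q * (σ.card - τ.card) = q * σ.card - q * τ.card := Nat.mul_sub q _ _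
  exact ⟨h1, h2, h3, h5, by omega, by omega⟩

end

end NF

end Pool.Agent.Work.MP_c04246_lc
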