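import Mathlib
import Pool.Agent.Work.MP_c04246_lc.Y.PDefs

set_option autoImplicit false
set_option linter.unusedSectionVars false
set_option linter.unusedSimpArgs false
set_option linter.unusedVariables false
set_option linter.unusedDecidableInType false
set_option linter.unusedFintypeInType false

/- MODULE Supp (M). Supports for an arbitrary action of the permutations of the finite set U on X
(nominal sets). PDefs: Fx, Sup, HSup, ms, orb.
* Sup.inter: let c be outside of D and D'. Every permutation fixing D ∩ D' pointwise is a product of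
  transpositions swap a b with a, b outside of D ∩ D' (Equiv.Perm.swap_induction_on gives products
  of transpositions, but we need them inside the complement; alternative: the fixing subgroup of
  D ∩ D' is generated by such transpositions: induct on the number of moved points: if pi ≠ 1 moves
  a, then swap a (pi a) * pi moves fewer points and a, pi a are outside of D ∩ D'; or transfer
  Equiv.Perm.swap_induction_on along Equiv.Perm.subtypeEquivSubtypePerm). For a, b outside of
  D ∩ D': if both are outside of D, or both are outside of D', then swap a b fixes x. Otherwise,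
  say, a ∉ D, b ∉ D'; then swap a b = swap a c * swap b c * swap a c if a, b, c are distinct
  (if c = a then a, b ∉ D', if c = b then a, b ∉ D), swap a c fixes D pointwise, swap b c fixes D'
  pointwise.
* Sup.mono trivial. Sup.smul: if s fixes D.map pi pointwise then pi^-1 s pi fixes D pointwise.
* HSup.smul, ms_smul: for Fx D0 pi, Sup (D0 ∪ B) x iff Sup (D0 ∪ B.map pi) (pi • x)
  (D0.map pi = D0 since pi fixes D0 pointwise).
* ms_spec: the sets B with B.card ≤ k, Sup (D0 ∪ B) x are closed under intersection of two, up to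
  D0 (Sup.inter applied to D0 ∪ B, D0 ∪ B'; a point c outside of both exists since
  |D0| + 2k < |U|; (D0 ∪ B) ∩ (D0 ∪ B') = D0 ∪ (B ∩ B')). Take B of least cardinality among them
  (Finset.exists_min_image over a filter of univ) and B1 = B \ D0; for every other B' the set B ∩ B'
  has the property and at most |B| elements, so B ⊆ B'. Hence ms D0 k x = B \ D0, and
  D0 ∪ (B \ D0) = D0 ∪ B.
* ms_sub: ms ⊆ D if D0 ⊆ D and Sup D x: let B be a small support; Sup.inter for D and D0 ∪ B (a
  point c outside: |D ∪ B| < |U|) gives Sup (D ∩ (D0 ∪ B)) x, which is D0 ∪ (D ∩ B) as D0 ⊆ D; its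
  part D ∩ B has at most k points, so ms ⊆ D ∩ B.
* orb: mem_orb by definition; orb_eq: the permutations fixing D form a group.
* card_orb: if u0 ∈ ms D0 k x and u0 ∉ D ⊇ D0, then for each u ∉ D ∪ ms the element (swap u0 u) • x
  has ms = (ms x).map (swap u0 u), which contains u; these are pairwise different and different from
  x, so the orbit has at least 1 + |U \ (D ∪ ms)| elements (inject u ↦ swap u0 u • x from the set
  insert u0 (univ \ (D ∪ ms))). Note that swap u0 u fixes D pointwise, so it fixes D0.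
-/
namespace Pool.Agent.Work.MP_c04246_lc

open Finset

namespace NF

section

variable {U X : Type} [Fintype U] [DecidableEq U] [MulAction (Equiv.Perm U) X]
  {D D' D0 : Finset U} {k : ℕ} {x y : X}

lemma Fx.one : Fx D (1 : Equiv.Perm U) := fun _ _ => rfl

lemma Fx.mul {π σ : Equiv.Perm U} (h : Fx D π) (h' : Fx D σ) : Fx D (π * σ) := by
  intro u hu
  rw [Equiv.Perm.mul_apply, h' u hu, h u hu]

lemma Fx.inv {π : Equiv.Perm U} (h : Fx D π) : Fx D π⁻¹ := by
  intro u hu
  rw [Equiv.Perm.inv_eq_iff_eq, h u hu]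

lemma Fx.mono (hD : D ⊆ D') {π : Equiv.Perm U} (h : Fx D' π) : Fx D π :=
  fun u hu => h u (hD hu)

lemma Fx.map_eq {π : Equiv.Perm U} (h : Fx D π) : D.map π.toEmbedding = D := by
  ext u
  rw [mem_map_equiv]
  constructor
  · intro hu
    have := h _ hu
    rw [Equiv.apply_symm_apply] at this
    rwa [this]
  · intro hu
    have h1 : π.symm u = u := by rw [Equiv.symm_apply_eq, h u hu]
    rwa [h1]

lemma Sup.mono (hD : D ⊆ D') (h : Sup D x) : Sup D' x :=
  fun π hπ => h π (hπ.mono hD)

private lemma Supp_gen {E : Finset U}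
    (hs : ∀ a b, a ∉ E → b ∉ E → Equiv.swap a b • x = x) :
    ∀ (n : ℕ) (π : Equiv.Perm U), π.support.card ≤ n → Fx E π → π • x = x := by
  intro n
  induction n with
  | zero =>
    intro π hn _
    have h1 : π = 1 := by
      rw [← Equiv.Perm.support_eq_empty_iff, ← card_eq_zero]
      omega
    rw [h1, one_smul]
  | succ n ih =>
    intro π hn hπ
    by_cases h1 : π = 1
    · rw [h1, one_smul]
    obtain ⟨a, ha⟩ : ∃ a, π a ≠ a := by
      by_contra hcon
      push Not at hcon
      exact h1 (Equiv.ext hcon)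
    have haE : a ∉ E := fun h => ha (hπ a h)
    have hbE : π a ∉ E := fun h => ha (π.injective (hπ _ h))
    have h2 := Equiv.Perm.card_support_swap_mul ha
    have h3 : Fx E (Equiv.swap a (π a) * π) := by
      intro u hu
      rw [Equiv.Perm.mul_apply, hπ u hu]
      exact Equiv.swap_apply_of_ne_of_ne (fun h => haE (h ▸ hu)) (fun h => hbE (h ▸ hu))
    have h4 := ih _ (by omega) h3
    have h5 : π = Equiv.swap a (π a) * (Equiv.swap a (π a) * π) := by
      rw [← mul_assoc, Equiv.swap_mul_self, one_mul]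
    rw [h5, mul_smul, h4]
    exact hs _ _ haE hbE

private lemma Fx_swap {a b : U} (ha : a ∉ D) (hb : b ∉ D) : Fx D (Equiv.swap a b) := by
  intro u hu
  exact Equiv.swap_apply_of_ne_of_ne (fun h => ha (h ▸ hu)) (fun h => hb (h ▸ hu))

private lemma Supp_conj {a b c : U} (hab : a ≠ b) (hac : a ≠ c) (hbc : b ≠ c) :
    Equiv.swap a b = Equiv.swap a c * Equiv.swap b c * Equiv.swap a c := by
  have h := Equiv.swap_mul_swap_mul_swap (x := b) (y := c) (z := a) hbc hab.symm
  rw [Equiv.swap_comm c a] at h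
  exact h.symm

lemma Sup.inter (h : Sup D x) (h' : Sup D' x) (hc : ∃ c, c ∉ D ∧ c ∉ D') : Sup (D ∩ D') x := by
  obtain ⟨c, hc, hc'⟩ := hc
  have key : ∀ a b, a ∉ D → b ∉ D' → Equiv.swap a b • x = x := by
    intro a b ha hb
    by_cases hab : a = b
    · rw [hab, Equiv.swap_self]
      exact one_smul _ x
    by_cases hac : a = c
    · rw [hac]
      exact h' _ (Fx_swap hc' hb)
    by_cases hbc : b = c
    · rw [hbc]
      exact h _ (Fx_swap ha hc)
    rw [Supp_conj hab hac hbc, mul_smul, mul_smul, h _ (Fx_swap ha hc), h' _ (Fx_swap hb hc'),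
      h _ (Fx_swap ha hc)]
  intro π hπ
  refine Supp_gen (E := D ∩ D') ?_ _ π le_rfl hπ
  intro a b ha hb
  by_cases ha1 : a ∈ D
  · have ha2 : a ∉ D' := fun h => ha (mem_inter.2 ⟨ha1, h⟩)
    by_cases hb1 : b ∈ D
    · have hb2 : b ∉ D' := fun h => hb (mem_inter.2 ⟨hb1, h⟩)
      exact h' _ (Fx_swap ha2 hb2)
    · rw [Equiv.swap_comm]
      exact key b a hb1 ha2
  · by_cases hb1 : b ∈ D
    · exact key a b ha1 (fun h => hb (mem_inter.2 ⟨hb1, h⟩))
    · exact h _ (Fx_swap ha1 hb1)

lemma Sup.smul (h : Sup D x) (π : Equiv.Perm U) : Sup (D.map π.toEmbedding) (π • x) := by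
  intro σ hσ
  have h1 : Fx D (π⁻¹ * σ * π) := by
    intro u hu
    have h2 := hσ (π u) (by rw [mem_map_equiv, Equiv.symm_apply_apply]; exact hu)
    rw [Equiv.Perm.mul_apply, Equiv.Perm.mul_apply, h2, Equiv.Perm.inv_eq_iff_eq]
  have h3 := h _ h1
  rw [mul_smul, mul_smul, inv_smul_eq_iff] at h3
  exact h3

private lemma Supp_sup_iff {π : Equiv.Perm U} (hπ : Fx D0 π) (x : X) (B : Finset U) :
    Sup (D0 ∪ B.map π.toEmbedding) (π • x) ↔ Sup (D0 ∪ B) x := by
  constructor
  · intro h
    have h1 := h.smul π⁻¹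
    rw [inv_smul_smul, map_union, hπ.inv.map_eq, Finset.map_map] at h1
    have h2 : (π.toEmbedding.trans (π⁻¹).toEmbedding) = Function.Embedding.refl U := by
      ext u
      exact Equiv.symm_apply_apply π u
    rw [h2, map_refl] at h1
    exact h1
  · intro h
    have h1 := h.smul π
    rw [map_union, hπ.map_eq] at h1
    exact h1

lemma HSup.smul {π : Equiv.Perm U} (hπ : Fx D0 π) (h : HSup D0 k x) : HSup D0 k (π • x) := by
  obtain ⟨B, hB, h1⟩ := h
  exact ⟨B.map π.toEmbedding, by rwa [card_map], (Supp_sup_iff hπ x B).2 h1⟩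

private lemma mem_ms {u : U} :
    u ∈ ms D0 k x ↔ u ∉ D0 ∧ ∀ B : Finset U, B.card ≤ k → Sup (D0 ∪ B) x → u ∈ B := by
  classical
  unfold ms
  rw [mem_filter]
  exact ⟨fun h => h.2, fun h => ⟨mem_univ _, h⟩⟩

lemma ms_smul {π : Equiv.Perm U} (hπ : Fx D0 π) (x : X) :
    ms D0 k (π • x) = (ms D0 k x).map π.toEmbedding := by
  ext u
  rw [mem_map_equiv, mem_ms, mem_ms]
  have hu : u ∈ D0 ↔ π.symm u ∈ D0 := by
    conv_lhs => rw [← hπ.map_eq]
    rw [mem_map_equiv]
  constructor
  · rintro ⟨h1, h2⟩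
    refine ⟨fun h => h1 (hu.2 h), fun B hB hs => ?_⟩
    have h3 := h2 (B.map π.toEmbedding) (by rwa [card_map]) ((Supp_sup_iff hπ x B).2 hs)
    rwa [mem_map_equiv] at h3
  · rintro ⟨h1, h2⟩
    refine ⟨fun h => h1 (hu.1 h), fun B hB hs => ?_⟩
    have h4 : B = (B.map (π⁻¹).toEmbedding).map π.toEmbedding := by
      rw [Finset.map_map]
      have h2 : ((π⁻¹).toEmbedding.trans π.toEmbedding) = Function.Embedding.refl U := by
        ext u
        exact Equiv.apply_symm_apply π u
      rw [h2, map_refl]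
    rw [h4] at hs
    have h3 := h2 _ (by rwa [card_map]) ((Supp_sup_iff hπ x _).1 hs)
    rw [h4, mem_map_equiv]
    exact h3

lemma ms_disj : Disjoint (ms D0 k x) D0 := by
  rw [disjoint_left]
  intro u hu
  exact (mem_ms.1 hu).1

theorem ms_spec (h : HSup D0 k x) (hU : D0.card + 2 * k < Fintype.card U) :
    Sup (D0 ∪ ms D0 k x) x ∧ (ms D0 k x).card ≤ k := by
  classical
  set P : Finset (Finset U) := univ.filter fun B => B.card ≤ k ∧ Sup (D0 ∪ B) x with hP
  have hPne : P.Nonempty := by
    obtain ⟨B, hB, hs⟩ := h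
    exact ⟨B, mem_filter.2 ⟨mem_univ _, hB, hs⟩⟩
  obtain ⟨B, hBP, hBmin⟩ := exists_min_image P card hPne
  obtain ⟨_, hBk, hBs⟩ := mem_filter.1 hBP
  have hsub : ∀ B' : Finset U, B'.card ≤ k → Sup (D0 ∪ B') x → B ⊆ B' := by
    intro B' hB' hs'
    have hc : ∃ c, c ∉ D0 ∪ B ∧ c ∉ D0 ∪ B' := by
      by_contra hcon
      push Not at hcon
      have h1 : (univ : Finset U) ⊆ D0 ∪ (B ∪ B') := by
        intro c _
        by_cases h2 : c ∈ D0 ∪ B
        · rcases mem_union.1 h2 with h2 | h2
          · exact mem_union_left _ h2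
          · exact mem_union_right _ (mem_union_left _ h2)
        · rcases mem_union.1 (hcon c h2) with h2 | h2
          · exact mem_union_left _ h2
          · exact mem_union_right _ (mem_union_right _ h2)
      have h2 := card_le_card h1
      have h3 := card_union_le D0 (B ∪ B')
      have h4 := card_union_le B B'
      rw [card_univ] at h2
      omega
    have h1 := hBs.inter hs' hc
    rw [← union_inter_distrib_left] at h1
    have h2 : B ∩ B' ∈ P :=
      mem_filter.2 ⟨mem_univ _, (card_le_card inter_subset_left).trans hBk, h1⟩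
    have h3 := hBmin _ h2
    have h4 : B ∩ B' = B := eq_of_subset_of_card_le inter_subset_left h3
    rw [← h4]
    exact inter_subset_right
  have hms : ms D0 k x = B \ D0 := by
    ext u
    rw [mem_ms, mem_sdiff]
    constructor
    · rintro ⟨h1, h2⟩
      exact ⟨h2 B hBk hBs, h1⟩
    · rintro ⟨h1, h2⟩
      exact ⟨h2, fun B' hB' hs' => hsub B' hB' hs' h1⟩
  rw [hms]
  refine ⟨?_, (card_le_card sdiff_subset).trans hBk⟩
  rw [union_sdiff_self_eq_union]
  exact hBs

theorem ms_sub (h : HSup D0 k x) (hD : D0 ⊆ D) (hU : D.card + k < Fintype.card U)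
    (hs : Sup D x) : ms D0 k x ⊆ D := by
  intro u hu
  obtain ⟨B, hB, hBs⟩ := h
  have hc : ∃ c, c ∉ D ∧ c ∉ D0 ∪ B := by
    by_contra hcon
    push Not at hcon
    have h1 : (univ : Finset U) ⊆ D ∪ B := by
      intro c _
      by_cases h2 : c ∈ D
      · exact mem_union_left _ h2
      · rcases mem_union.1 (hcon c h2) with h3 | h3
        · exact absurd (hD h3) h2
        · exact mem_union_right _ h3
    have h2 := card_le_card h1
    have h3 := card_union_le D B
    rw [card_univ] at h2
    omega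
  have h1 := hs.inter hBs hc
  have h2 : D ∩ (D0 ∪ B) = D0 ∪ (D ∩ B) := by
    rw [inter_union_distrib_left, inter_eq_right.2 hD]
  rw [h2] at h1
  have h3 := (mem_ms.1 hu).2 (D ∩ B) ((card_le_card inter_subset_right).trans hB) h1
  exact (mem_inter.1 h3).1

lemma ms_congr (h : ∀ π : Equiv.Perm U, π • x = x ↔ π • y = y) : ms D0 k x = ms D0 k y := by
  have hS : ∀ D : Finset U, Sup D x ↔ Sup D y := fun D =>
    ⟨fun hs π hπ => (h π).1 (hs π hπ), fun hs π hπ => (h π).2 (hs π hπ)⟩
  ext u
  simp only [mem_ms, hS]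

lemma mem_orb : y ∈ orb D x ↔ ∃ π : Equiv.Perm U, Fx D π ∧ π • x = y := by
  classical
  unfold orb
  rw [mem_image]
  constructor
  · rintro ⟨π, hπ, h⟩
    exact ⟨π, (mem_filter.1 hπ).2, h⟩
  · rintro ⟨π, hπ, h⟩
    exact ⟨π, mem_filter.2 ⟨mem_univ _, hπ⟩, h⟩

lemma self_mem_orb (x : X) : x ∈ orb D x :=
  mem_orb.2 ⟨1, Fx.one, one_smul _ x⟩

lemma orb_eq (h : y ∈ orb D x) : orb D y = orb D x := by
  obtain ⟨π, hπ, rfl⟩ := mem_orb.1 h
  ext z
  rw [mem_orb, mem_orb]
  constructor
  · rintro ⟨σ, hσ, rfl⟩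
    exact ⟨σ * π, hσ.mul hπ, mul_smul _ _ _⟩
  · rintro ⟨σ, hσ, rfl⟩
    refine ⟨σ * π⁻¹, hσ.mul hπ.inv, ?_⟩
    rw [mul_smul, inv_smul_smul]

theorem card_orb (hD : D0 ⊆ D) (hx : ¬ ms D0 k x ⊆ D) :
    Fintype.card U < (orb D x).card + D.card + (ms D0 k x).card := by
  classical
  obtain ⟨u0, hu0, hu0D⟩ := not_subset.1 hx
  set T : Finset U := univ \ (D ∪ ms D0 k x) with hT
  have hTm : ∀ u ∈ T, u ∉ D ∧ u ∉ ms D0 k x := by
    intro u hu
    rw [hT, mem_sdiff, mem_union] at hu
    exact ⟨fun h => hu.2 (Or.inl h), fun h => hu.2 (Or.inr h)⟩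
  have hu0T : u0 ∉ T := fun h => (hTm u0 h).2 hu0
  have hfx : ∀ u ∈ insert u0 T, Fx D (Equiv.swap u0 u) := by
    intro u hu
    rcases mem_insert.1 hu with rfl | hu
    · exact Fx_swap hu0D hu0D
    · exact Fx_swap hu0D (hTm u hu).1
  have hms : ∀ u ∈ insert u0 T, ∀ v ∈ insert u0 T,
      (v ∈ ms D0 k (Equiv.swap u0 u • x) ↔ v = u) := by
    intro u hu v hv
    rw [ms_smul ((hfx u hu).mono hD), mem_map_equiv, Equiv.symm_swap]
    rcases mem_insert.1 hu with rfl | hu'
    · rw [Equiv.swap_self, Equiv.refl_apply]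
      rcases mem_insert.1 hv with rfl | hv'
      · exact ⟨fun _ => rfl, fun _ => hu0⟩
      · exact ⟨fun h => absurd h (hTm v hv').2, fun h => absurd (h ▸ hv') hu0T⟩
    · rcases mem_insert.1 hv with rfl | hv'
      · rw [Equiv.swap_apply_left]
        exact ⟨fun h => absurd h (hTm u hu').2, fun h => absurd (by rw [h]; exact hu') hu0T⟩
      · by_cases hvu : v = u
        · rw [hvu, Equiv.swap_apply_right]
          exact ⟨fun _ => rfl, fun _ => hu0⟩
        · have hvu0 : v ≠ u0 := by
            rintro rfl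
            exact hu0T hv'
          rw [Equiv.swap_apply_of_ne_of_ne hvu0 hvu]
          exact ⟨fun h => absurd h (hTm v hv').2, fun h => absurd h hvu⟩
  have hinj : Set.InjOn (fun u => Equiv.swap u0 u • x) (insert u0 T : Finset U) := by
    intro u hu v hv huv
    have h1 := (hms u hu u hu).2 rfl
    simp only at huv
    rw [huv] at h1
    exact (hms v hv u hu).1 h1
  have hmaps : ∀ u ∈ insert u0 T, Equiv.swap u0 u • x ∈ orb D x := fun u hu =>
    mem_orb.2 ⟨_, hfx u hu, rfl⟩
  have hcard := card_le_card_of_injOn _ hmaps hinj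
  rw [card_insert_of_notMem hu0T] at hcard
  have h2 : Fintype.card U ≤ T.card + (D ∪ ms D0 k x).card := by
    have h3 := card_univ_sdiff (D ∪ ms D0 k x)
    rw [hT]
    omega
  have h3 := card_union_le D (ms D0 k x)
  omega

end

end NF

end Pool.Agent.Work.MP_c04246_lc
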