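import Mathlib
import Pool.Agent.Work.MP_c04246_lc.Y.Supp
import Pool.Agent.Work.MP_c04246_lc.Y.ExA

set_option autoImplicit false
set_option linter.unusedSectionVars false
set_option linter.unusedSimpArgs false
set_option linter.unusedVariables false
set_option linter.unusedDecidableInType false
set_option linter.unusedFintypeInType false

/- MODULE ExD (M). Permutations acting on worlds (PDefs: mw pi tau = image of tau under S ↦ S.map pi).
* basic facts: mw is injective, preserves card, cov (mw pi tau) = (cov tau).map pi, PP, nun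
  (nun = card of the complement), ⊆; mw pi tau = tau if pi fixes cov tau pointwise; mw of insert,
  union, red.
* Mn_mw: sigma ∈ Mn q B tau iff mw pi sigma ∈ Mn q (B.map pi) (mw pi tau).
* Ex_mw: reindex the sum by mw pi (Finset.sum_bij' or sum_nbij with inverse mw pi^-1).
* exists_perm_world: if tau ⊆ sigma, sigma' (PP) have the same cardinality, there is pi fixing
  cov tau pointwise with mw pi sigma = sigma': choose a bijection between sigma \ tau and
  sigma' \ tau (same cardinality) and bijections between corresponding parts (all of size q); this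
  gives a bijection e from cov sigma \ cov tau to cov sigma' \ cov tau; together with the identity on
  cov tau it is a bijection from cov sigma to cov sigma'; extend it to a permutation of U
  (Equiv.extendSubtype : {x // p x} ≃ {x // q x} → Equiv.Perm U, with Equiv.extendSubtype_apply_of_mem).
  It is convenient to do an induction on the number of new parts, or to use the special case of one
  part S, S' first and compose: mw (pi' * pi); with one new part at a time: remove S from sigma, S'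
  from sigma', get pi for the smaller worlds (fixing cov tau) and then move mw pi S (a q-set disjoint
  from cov (sigma' \ {S'})) to S' by a permutation fixing cov (sigma' \ {S'}) pointwise.
-/
namespace Pool.Agent.Work.MP_c04246_lc

open Finset

namespace NF

section

variable {q : ℕ} {U : Type} [Fintype U] [DecidableEq U] {B D : Finset U}
  {ρ0 τ σ : Finset (Finset U)} {π : Equiv.Perm U}

private lemma map_one' (S : Finset U) : S.map (1 : Equiv.Perm U).toEmbedding = S := by
  ext u
  simp only [mem_map, Equiv.coe_toEmbedding, Equiv.Perm.coe_one, id]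
  exact ⟨fun ⟨x, hx, h⟩ => h ▸ hx, fun h => ⟨u, h, rfl⟩⟩

private lemma map_mul' (π σ : Equiv.Perm U) (S : Finset U) :
    S.map (π * σ).toEmbedding = (S.map σ.toEmbedding).map π.toEmbedding := by
  ext u
  simp only [mem_map, Equiv.coe_toEmbedding, Equiv.Perm.coe_mul, Function.comp]
  constructor
  · rintro ⟨x, hx, rfl⟩
    exact ⟨σ x, ⟨x, hx, rfl⟩, rfl⟩
  · rintro ⟨y, ⟨x, hx, rfl⟩, rfl⟩
    exact ⟨x, hx, rfl⟩

private lemma map_injective' (π : Equiv.Perm U) :
    Function.Injective fun S : Finset U => S.map π.toEmbedding :=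
  fun S T h => Finset.map_injective π.toEmbedding h

lemma mw_one (τ : Finset (Finset U)) : mw (1 : Equiv.Perm U) τ = τ := by
  unfold mw
  have : (fun S : Finset U => S.map (1 : Equiv.Perm U).toEmbedding) = id := by
    funext S; exact map_one' S
  rw [this, image_id]

lemma mw_mul (π σ : Equiv.Perm U) (τ : Finset (Finset U)) : mw (π * σ) τ = mw π (mw σ τ) := by
  unfold mw
  rw [image_image]
  congr 1
  funext S
  exact map_mul' π σ S

lemma mem_mw {S : Finset U} : S.map π.toEmbedding ∈ mw π τ ↔ S ∈ τ := by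
  unfold mw
  rw [mem_image]
  constructor
  · rintro ⟨T, hT, h⟩
    rw [← map_injective' π h]; exact hT
  · intro h
    exact ⟨S, h, rfl⟩

private lemma mem_mw' {T : Finset U} : T ∈ mw π τ ↔ ∃ S ∈ τ, S.map π.toEmbedding = T := by
  unfold mw
  rw [mem_image]

lemma mw_subset : mw π τ ⊆ mw π σ ↔ τ ⊆ σ := by
  constructor
  · intro h S hS
    exact mem_mw.1 (h (mem_mw.2 hS))
  · intro h T hT
    obtain ⟨S, hS, rfl⟩ := mem_mw'.1 hT
    exact mem_mw.2 (h hS)

lemma card_mw : (mw π τ).card = τ.card := by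
  unfold mw
  exact card_image_of_injective _ (map_injective' π)

private lemma mem_map' {S : Finset U} {u : U} : π u ∈ S.map π.toEmbedding ↔ u ∈ S := by
  rw [mem_map]
  constructor
  · rintro ⟨x, hx, h⟩
    have : x = u := π.injective h
    rw [← this]; exact hx
  · intro h
    exact ⟨u, h, rfl⟩

lemma cov_mw : cov (mw π τ) = (cov τ).map π.toEmbedding := by
  ext u
  obtain ⟨v, rfl⟩ := π.surjective u
  rw [mem_map', mem_cov, mem_cov]
  constructor
  · rintro ⟨T, hT, hu⟩
    obtain ⟨S, hS, rfl⟩ := mem_mw'.1 hT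
    exact ⟨S, hS, mem_map'.1 hu⟩
  · rintro ⟨S, hS, hu⟩
    exact ⟨_, mem_mw.2 hS, mem_map'.2 hu⟩

lemma nun_mw : nun (mw π τ) = nun τ := by
  unfold nun
  rw [card_univ_sdiff, card_univ_sdiff, cov_mw, card_map]

private lemma disj_map {S T : Finset U} :
    Disjoint (S.map π.toEmbedding) (T.map π.toEmbedding) ↔ Disjoint S T :=
  Finset.disjoint_map _

lemma PP_mw : PP q (mw π τ) ↔ PP q τ := by
  constructor
  · rintro ⟨h1, h2⟩
    refine ⟨fun S hS => ?_, fun S hS T hT hne => ?_⟩
    · have := h1 _ (mem_mw.2 hS)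
      rwa [card_map] at this
    · have := h2 _ (mem_mw.2 hS) _ (mem_mw.2 hT) fun h => hne (map_injective' π h)
      exact disj_map.1 this
  · rintro ⟨h1, h2⟩
    refine ⟨fun S hS => ?_, fun S hS T hT hne => ?_⟩
    · obtain ⟨S', hS', rfl⟩ := mem_mw'.1 hS
      rw [card_map]; exact h1 _ hS'
    · obtain ⟨S', hS', rfl⟩ := mem_mw'.1 hS
      obtain ⟨T', hT', rfl⟩ := mem_mw'.1 hT
      exact disj_map.2 (h2 _ hS' _ hT' fun h => hne (by rw [h]))

private lemma map_fix {S : Finset U} (h : ∀ u ∈ S, π u = u) : S.map π.toEmbedding = S := by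
  ext u
  rw [mem_map]
  constructor
  · rintro ⟨x, hx, hu⟩
    have h1 : π x = u := hu
    rw [h x hx] at h1
    rw [← h1]; exact hx
  · intro hu
    exact ⟨u, hu, h u hu⟩

lemma mw_fix (h : Fx (cov τ) π) : mw π τ = τ := by
  ext T
  rw [mem_mw']
  have key : ∀ S ∈ τ, S.map π.toEmbedding = S := fun S hS =>
    map_fix fun u hu => h u (mem_cov.2 ⟨S, hS, hu⟩)
  constructor
  · rintro ⟨S, hS, rfl⟩
    rw [key S hS]; exact hS
  · intro hT
    exact ⟨T, hT, key T hT⟩

lemma mw_insert (S : Finset U) : mw π (insert S τ) = insert (S.map π.toEmbedding) (mw π τ) := by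
  unfold mw
  rw [image_insert]

lemma mw_red (h : Fx (cov ρ0) π) : mw π (red ρ0 B τ) = red ρ0 (B.map π.toEmbedding) (mw π τ) := by
  ext T
  have h0 : mw π ρ0 = ρ0 := mw_fix h
  obtain ⟨S, rfl⟩ : ∃ S : Finset U, S.map π.toEmbedding = T := by
    refine ⟨T.map (π⁻¹).toEmbedding, ?_⟩
    rw [← map_mul', mul_inv_cancel, map_one']
  rw [mem_mw]
  unfold red
  rw [mem_union, mem_union, mem_filter, mem_filter, mem_mw]
  have h1 : S ∈ ρ0 ↔ S.map π.toEmbedding ∈ ρ0 := by
    conv_rhs => rw [← h0]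
    exact mem_mw.symm
  have h2 : (∃ u ∈ B, u ∈ S) ↔ ∃ u ∈ B.map π.toEmbedding, u ∈ S.map π.toEmbedding := by
    constructor
    · rintro ⟨u, hu, hu'⟩
      exact ⟨π u, mem_map'.2 hu, mem_map'.2 hu'⟩
    · rintro ⟨u, hu, hu'⟩
      obtain ⟨v, rfl⟩ := π.surjective u
      exact ⟨v, mem_map'.1 hu, mem_map'.1 hu'⟩
  rw [h1, h2]

private lemma mem_Mn {σ τ : Finset (Finset U)} {B : Finset U} : σ ∈ Mn q B τ ↔
    PP q σ ∧ τ ⊆ σ ∧ B ⊆ cov σ ∧ ∀ S ∈ σ, S ∉ τ → ∃ u ∈ B, u ∈ S := by
  simp [Mn]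

lemma Mn_mw : mw π σ ∈ Mn q (B.map π.toEmbedding) (mw π τ) ↔ σ ∈ Mn q B τ := by
  rw [mem_Mn, mem_Mn, PP_mw, mw_subset, cov_mw, map_subset_map]
  have h2 : ∀ S : Finset U, (∃ u ∈ B, u ∈ S) ↔
      ∃ u ∈ B.map π.toEmbedding, u ∈ S.map π.toEmbedding := by
    intro S
    constructor
    · rintro ⟨u, hu, hu'⟩
      exact ⟨π u, mem_map'.2 hu, mem_map'.2 hu'⟩
    · rintro ⟨u, hu, hu'⟩
      obtain ⟨v, rfl⟩ := π.surjective u
      exact ⟨v, mem_map'.1 hu, mem_map'.1 hu'⟩
  constructor
  · rintro ⟨a, b, c, d⟩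
    refine ⟨a, b, c, fun S hS hS' => ?_⟩
    exact (h2 S).2 (d _ (mem_mw.2 hS) fun h => hS' (mem_mw.1 h))
  · rintro ⟨a, b, c, d⟩
    refine ⟨a, b, c, fun S hS hS' => ?_⟩
    obtain ⟨S', hS'', rfl⟩ := mem_mw'.1 hS
    exact (h2 S').1 (d _ hS'' fun h => hS' (mem_mw.2 h))

theorem Ex_mw {F G : Finset (Finset U) → ℚ} (h : ∀ σ, G (mw π σ) = F σ) :
    Ex q (B.map π.toEmbedding) G (mw π τ) = Ex q B F τ := by
  unfold Ex
  symm
  refine sum_bij (fun σ _ => mw π σ) ?_ ?_ ?_ ?_
  · intro σ hσ
    exact Mn_mw.2 hσ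
  · intro σ _ σ' _ he
    have h1 : mw π⁻¹ (mw π σ) = mw π⁻¹ (mw π σ') := congrArg (mw π⁻¹) he
    rwa [← mw_mul, ← mw_mul, inv_mul_cancel, mw_one, mw_one] at h1
  · intro σ hσ
    have h1 : mw π (mw π⁻¹ σ) = σ := by rw [← mw_mul, mul_inv_cancel, mw_one]
    refine ⟨mw π⁻¹ σ, ?_, h1⟩
    rw [← Mn_mw (π := π), h1]
    exact hσ
  · intro σ hσ
    rw [nun_mw, card_mw, card_mw, h]

private lemma exists_move {A A' C : Finset U} (hc : A.card = A'.card) (hA : Disjoint A C)
    (hA' : Disjoint A' C) : ∃ π : Equiv.Perm U, Fx C π ∧ A.map π.toEmbedding = A' := by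
  classical
  let e : A ≃ A' := Finset.equivOfCardEq hc
  let f : U → U := fun u => if h : u ∈ A then (e ⟨u, h⟩ : U) else u
  have f1 : ∀ u (h : u ∈ A), f u = (e ⟨u, h⟩ : U) := fun u h => dif_pos h
  have f2 : ∀ u ∉ A, f u = u := fun u h => dif_neg h
  have f3 : ∀ u ∈ A, f u ∈ A' := fun u h => by rw [f1 u h]; exact (e ⟨u, h⟩).2
  have hinj : Set.InjOn f (C ∪ A : Finset U) := by
    intro u hu v hv he
    have hu' : u ∈ C ∨ u ∈ A := by simpa using hu
    have hv' : v ∈ C ∨ v ∈ A := by simpa using hv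
    by_cases hua : u ∈ A
    · by_cases hva : v ∈ A
      · rw [f1 u hua, f1 v hva] at he
        have := e.injective (Subtype.ext he)
        exact congrArg Subtype.val this
      · exfalso
        have hvC : v ∈ C := hv'.resolve_right hva
        have h1 := f3 u hua
        rw [he, f2 v hva] at h1
        exact (disjoint_left.1 hA' h1) hvC
    · by_cases hva : v ∈ A
      · exfalso
        have huC : u ∈ C := hu'.resolve_right hua
        have h1 := f3 v hva
        rw [← he, f2 u hua] at h1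
        exact (disjoint_left.1 hA' h1) huC
      · rwa [f2 u hua, f2 v hva] at he
  obtain ⟨g, hg⟩ := Finset.exists_equiv_extend_of_card_eq (α := U) (β := U) (t := univ)
    (by rw [card_univ]) (s := C ∪ A) (f := f) (subset_univ _) hinj
  let π : Equiv.Perm U := g.trans (Equiv.subtypeUnivEquiv fun u => mem_univ u)
  have hπ : ∀ u ∈ C ∪ A, π u = f u := fun u hu => hg u hu
  refine ⟨π, fun u hu => ?_, ?_⟩
  · rw [hπ u (mem_union_left _ hu), f2 u fun h => (disjoint_left.1 hA h) hu]
  · apply eq_of_subset_of_card_le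
    · intro v hv
      rw [mem_map] at hv
      obtain ⟨u, hu, rfl⟩ := hv
      show π u ∈ A'
      rw [hπ u (mem_union_right _ hu)]
      exact f3 u hu
    · rw [card_map, hc]

theorem exists_perm_world {σ' : Finset (Finset U)} (hσ : PP q σ) (hσ' : PP q σ') (h : τ ⊆ σ)
    (h' : τ ⊆ σ') (hc : σ.card = σ'.card) :
    ∃ π : Equiv.Perm U, Fx (cov τ) π ∧ mw π σ = σ' := by
  classical
  obtain ⟨n, hn⟩ : ∃ n, (σ \ τ).card = n := ⟨_, rfl⟩
  induction n generalizing σ σ' with
  | zero =>
    have h1 : σ ⊆ τ := sdiff_eq_empty_iff_subset.1 (card_eq_zero.1 hn)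
    have h2 : σ = τ := h1.antisymm h
    have h3 : τ = σ' := eq_of_subset_of_card_le h' (by rw [← hc, h2])
    exact ⟨1, fun u _ => rfl, by rw [mw_one, h2, h3]⟩
  | succ n ih =>
    have h1 : (σ \ τ).Nonempty := card_pos.1 (by omega)
    obtain ⟨S, hS⟩ := h1
    rw [mem_sdiff] at hS
    have h2 : (σ' \ τ).card = n + 1 := by
      have h3 := card_sdiff_add_card_eq_card h
      have h4 := card_sdiff_add_card_eq_card h'
      omega
    obtain ⟨S', hS'⟩ : (σ' \ τ).Nonempty := card_pos.1 (by omega)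
    rw [mem_sdiff] at hS'
    have hPP1 : PP q (σ.erase S) := hσ.mono (erase_subset _ _)
    have hPP1' : PP q (σ'.erase S') := hσ'.mono (erase_subset _ _)
    have hτ1 : τ ⊆ σ.erase S := fun T hT => mem_erase.2 ⟨fun e => hS.2 (e ▸ hT), h hT⟩
    have hτ1' : τ ⊆ σ'.erase S' := fun T hT => mem_erase.2 ⟨fun e => hS'.2 (e ▸ hT), h' hT⟩
    obtain ⟨π1, hπ1, hm1⟩ := ih hPP1 hPP1' hτ1 hτ1'
      (by rw [card_erase_of_mem hS.1, card_erase_of_mem hS'.1, hc])
      (by
        have h5 : σ.erase S \ τ = (σ \ τ).erase S := by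
          ext T; simp only [mem_sdiff, mem_erase]; tauto
        rw [h5, card_erase_of_mem (mem_sdiff.2 hS), hn]; rfl)
    -- the image of S
    have hσe : insert S (σ.erase S) = σ := insert_erase hS.1
    have hσe' : insert S' (σ'.erase S') = σ' := insert_erase hS'.1
    have h6 : mw π1 σ = insert (S.map π1.toEmbedding) (σ'.erase S') := by
      rw [← hm1, ← mw_insert, hσe]
    have h7 : Disjoint (S.map π1.toEmbedding) (cov (σ'.erase S')) := by
      rw [← hm1, cov_mw, disj_map, disjoint_cov_iff]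
      intro T hT
      rw [mem_erase] at hT
      exact hσ.2 S hS.1 T hT.2 (Ne.symm hT.1)
    have h8 : Disjoint S' (cov (σ'.erase S')) := by
      rw [disjoint_cov_iff]
      intro T hT
      rw [mem_erase] at hT
      exact hσ'.2 S' hS'.1 T hT.2 (Ne.symm hT.1)
    obtain ⟨π2, hπ2, hm2⟩ := exists_move (A := S.map π1.toEmbedding) (A' := S')
      (C := cov (σ'.erase S')) (by rw [card_map, hσ.1 S hS.1, hσ'.1 S' hS'.1]) h7 h8
    refine ⟨π2 * π1, fun u hu => ?_, ?_⟩
    · rw [Equiv.Perm.mul_apply, hπ1 u hu]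
      exact hπ2 u (cov_mono hτ1' hu)
    · rw [mw_mul, h6, mw_insert, hm2, mw_fix hπ2, hσe']

lemma exists_perm_adm {u : U} {S T : Finset U} (hS : S ∈ adm q τ u) (hT : T ∈ adm q τ u)
    (hτ : PP q τ) : ∃ π : Equiv.Perm U, Fx (cov τ) π ∧ mw π (insert S τ) = insert T τ := by
  rw [mem_adm] at hS hT
  have key : ∀ {R : Finset U}, Adm q τ u R → R ∉ τ := by
    intro R hR hR'
    have := disjoint_cov_iff.1 hR.2.2 R hR'
    exact (disjoint_left.1 this) hR.1 hR.1
  exact exists_perm_world (hS.PP hτ) (hT.PP hτ) (subset_insert _ _) (subset_insert _ _)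
    (by rw [card_insert_of_notMem (key hS), card_insert_of_notMem (key hT)])

end

end NF

end Pool.Agent.Work.MP_c04246_lc
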