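import Mathlib
import Pool.Agent.Work.MP_c04246_lc.Y.PDefs

set_option autoImplicit false
set_option linter.unusedSectionVars false
set_option linter.unusedSimpArgs false
set_option linter.unusedVariables false
set_option linter.unusedDecidableInType false
set_option linter.unusedFintypeInType false

/- MODULE Mult (S-M). Classes of formulas (PDefs: Same, cl, mult).
* cl_neg_iff, cl_var_iff: cl_eq and inversion of Same (cases).
* cl_big_iff / cl_mod_iff: (->) Same.big gives s : Perm (Fin n) with Same (f j) (f' (s j)), so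
  cl (f j) = cl (f' (s j)); s maps the filter of f at z onto the filter of f' at z
  (card_bij or card_equiv). (<-) for every z the types {j // cl (f j) = z} and {j // cl (f' j) = z}
  have the same cardinality (Fintype.card_subtype / mult), so there is an equivalence between them
  (Fintype.equivOfCardEq); Equiv.ofFiberEquiv glues them to a permutation s with
  cl (f' (s j)) = cl (f j) (Equiv.ofFiberEquiv_map); conclude by cl_eq and Same.big.
* mult_map: cl (map (mv pi) a) = pi . cl a (smul_cl), and pi . x = pi . y iff x = y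
  (smul_left_cancel_iff).
* smul_big_iff: pi . cl (big c n f) = cl (big c n (fun j => map (mv pi) (f j))) by definition; by
  cl_big_iff this is cl (big c n f) iff mult (map f) w = mult f w for all w; put w = pi . z and use
  mult_map (pi acts bijectively: w = pi . (pi^-1 . w)).
* sum_mult: Finset.sum_fiberwise_of_maps_to (or sum_comp) over the image.
-/
namespace Pool.Agent.Work.MP_c04246_lc

open Finset

namespace NF

section

variable {p : ℕ} {V : Type} {n : ℕ}

lemma cl_neg_iff {a b : NF p V} : cl (neg a) = cl (neg b) ↔ cl a = cl b := by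
  rw [cl_eq, cl_eq]
  exact ⟨fun h => by cases h with | neg h => exact h, fun h => .neg h⟩

lemma cl_var_iff {x y : V} : cl (var x : NF p V) = cl (var y) ↔ x = y := by
  rw [cl_eq]
  exact ⟨fun h => by cases h with | var _ => rfl, fun h => by rw [h]; exact Same.refl _⟩

private lemma mult_perm_aux {f f' : Fin n → NF p V} (σ : Equiv.Perm (Fin n))
    (h : ∀ j, Same (f j) (f' (σ j))) (z : Cl p V) : mult f z = mult f' z := by
  have h' : ∀ j, cl (f j) = cl (f' (σ j)) := fun j => cl_eq.2 (h j)
  unfold mult
  refine Finset.card_equiv σ fun j => ?_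
  simp only [mem_filter, mem_univ, true_and, h']

private lemma mult_equiv_aux {f f' : Fin n → NF p V} (h : ∀ z, mult f z = mult f' z) :
    ∃ σ : Equiv.Perm (Fin n), ∀ j, Same (f j) (f' (σ j)) := by
  classical
  have e : ∀ z : Cl p V, {j // cl (f j) = z} ≃ {j // cl (f' j) = z} := fun z =>
    Fintype.equivOfCardEq (by
      have h1 := h z
      unfold mult at h1
      rw [Fintype.card_subtype, Fintype.card_subtype]
      convert h1)
  refine ⟨Equiv.ofFiberEquiv e, fun j => cl_eq.1 ?_⟩
  exact (Equiv.ofFiberEquiv_map (f := fun j => cl (f j)) (g := fun j => cl (f' j)) e j).symm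

lemma cl_big_iff {c : Bool} {f f' : Fin n → NF p V} :
    cl (big c n f) = cl (big c n f') ↔ ∀ z, mult f z = mult f' z := by
  rw [cl_eq]
  constructor
  · intro h
    cases h with
    | big _ σ h => exact mult_perm_aux σ h
  · intro h
    obtain ⟨σ, hσ⟩ := mult_equiv_aux h
    exact .big c σ hσ

lemma cl_mod_iff {i : ZMod p} {f f' : Fin n → NF p V} :
    cl (mod i n f) = cl (mod i n f') ↔ ∀ z, mult f z = mult f' z := by
  rw [cl_eq]
  constructor
  · intro h
    cases h with
    | mod _ σ h => exact mult_perm_aux σ h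
  · intro h
    obtain ⟨σ, hσ⟩ := mult_equiv_aux h
    exact .mod i σ hσ

lemma mult_pos_iff {f : Fin n → NF p V} {z : Cl p V} : 0 < mult f z ↔ ∃ j, cl (f j) = z := by
  classical
  unfold mult
  rw [Finset.card_pos]
  constructor
  · rintro ⟨j, hj⟩
    exact ⟨j, (mem_filter.1 hj).2⟩
  · rintro ⟨j, hj⟩
    exact ⟨j, mem_filter.2 ⟨mem_univ j, hj⟩⟩

open Classical in
lemma sum_mult (f : Fin n → NF p V) (h : Cl p V → ℚ) :
    ∑ j, h (cl (f j)) = ∑ z ∈ univ.image (fun j => cl (f j)), (mult f z : ℚ) * h z := by
  rw [Finset.sum_comp h (fun j => cl (f j))]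
  refine Finset.sum_congr rfl fun z _ => ?_
  rw [nsmul_eq_mul]
  congr 2

end

section

variable {p q n : ℕ} {U : Type}

lemma mult_map (π : Equiv.Perm U) (f : Fin n → NF p (Vr q U)) (z : Cl p (Vr q U)) :
    mult (fun j => map (mv π) (f j)) (π • z) = mult f z := by
  unfold mult
  refine Finset.card_equiv (Equiv.refl _) fun j => ?_
  simp only [mem_filter, mem_univ, true_and, Equiv.refl_apply]
  rw [← smul_cl, smul_left_cancel_iff]

lemma smul_neg_iff {π : Equiv.Perm U} {a : NF p (Vr q U)} :
    π • cl (neg a) = cl (neg a) ↔ π • cl a = cl a := by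
  rw [smul_cl, smul_cl]
  exact cl_neg_iff

lemma smul_big_iff {π : Equiv.Perm U} {c : Bool} {f : Fin n → NF p (Vr q U)} :
    π • cl (big c n f) = cl (big c n f) ↔ ∀ z, mult f (π • z) = mult f z := by
  rw [smul_cl]
  refine Iff.trans (cl_big_iff (f := fun j => map (mv π) (f j)) (f' := f)) ?_
  constructor
  · intro h z
    rw [← h (π • z), mult_map]
  · intro h w
    have h1 := h (π⁻¹ • w)
    have h2 := mult_map π f (π⁻¹ • w)
    rw [smul_inv_smul] at h1 h2
    rw [h1, h2]

lemma smul_mod_iff {π : Equiv.Perm U} {i : ZMod p} {f : Fin n → NF p (Vr q U)} :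
    π • cl (mod i n f) = cl (mod i n f) ↔ ∀ z, mult f (π • z) = mult f z := by
  rw [smul_cl]
  refine Iff.trans (cl_mod_iff (f := fun j => map (mv π) (f j)) (f' := f)) ?_
  constructor
  · intro h z
    rw [← h (π • z), mult_map]
  · intro h w
    have h1 := h (π⁻¹ • w)
    have h2 := mult_map π f (π⁻¹ • w)
    rw [smul_inv_smul] at h1 h2
    rw [h1, h2]

end

end NF

end Pool.Agent.Work.MP_c04246_lc
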