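import Mathlib
import Pool.Agent.Work.MP_c04246_lc.Y.PDefs

set_option autoImplicit false
set_option linter.unusedSectionVars false
set_option linter.unusedSimpArgs false
set_option linter.unusedVariables false
set_option linter.unusedDecidableInType false
set_option linter.unusedFintypeInType false

/- MODULE Subs (S-M). Subformulas, sizes, renaming, Same. Everything by structural induction on the
formula (or on Same); see GF.subs_self, GF.subs_trans, GF.card_subs in LCert.lean for the pattern.
For Same.subs in the cases big, mod: a subformula of f j is Same to a subformula of f' (s j).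
-/
namespace Pool.Agent.Work.MP_c04246_lc

open Finset

namespace NF

section

variable {p : ℕ} {V W : Type}

lemma subs_self (a : NF p V) : a ∈ subs a := by
  classical
  cases a <;> simp [subs]

lemma subs_trans {a b : NF p V} (h : b ∈ subs a) : subs b ⊆ subs a := by
  classical
  induction a with
  | var x => rw [subs, mem_singleton] at h; rw [h, subs]
  | cst c => rw [subs, mem_singleton] at h; rw [h, subs]
  | neg a ih =>
    rw [subs, mem_insert] at h
    rcases h with h | h
    · rw [h]
    · rw [subs]
      exact (ih h).trans (Finset.subset_insert _ _)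
  | big c k f ih =>
    rw [subs, mem_insert, mem_biUnion] at h
    rcases h with h | ⟨j, _, h⟩
    · rw [h]
    · rw [subs]
      exact ((ih j h).trans (Finset.subset_biUnion_of_mem (fun j => subs (f j))
        (mem_univ j))).trans (Finset.subset_insert _ _)
  | mod i k f ih =>
    rw [subs, mem_insert, mem_biUnion] at h
    rcases h with h | ⟨j, _, h⟩
    · rw [h]
    · rw [subs]
      exact ((ih j h).trans (Finset.subset_biUnion_of_mem (fun j => subs (f j))
        (mem_univ j))).trans (Finset.subset_insert _ _)

lemma subs_neg (a : NF p V) : a ∈ subs (neg a) := by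
  classical
  rw [subs]
  exact mem_insert_of_mem (subs_self a)

lemma subs_big (c : Bool) {n : ℕ} (f : Fin n → NF p V) (j : Fin n) : f j ∈ subs (big c n f) := by
  classical
  rw [subs]
  exact mem_insert_of_mem (mem_biUnion.2 ⟨j, mem_univ j, subs_self _⟩)

lemma subs_mod (i : ZMod p) {n : ℕ} (f : Fin n → NF p V) (j : Fin n) :
    f j ∈ subs (mod i n f) := by
  classical
  rw [subs]
  exact mem_insert_of_mem (mem_biUnion.2 ⟨j, mem_univ j, subs_self _⟩)

lemma card_subs_le (a : NF p V) : (subs a).card ≤ size a := by
  classical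
  induction a with
  | var x => rw [subs, size, card_singleton]
  | cst c => rw [subs, size, card_singleton]
  | neg a ih =>
    rw [subs, size]
    exact (card_insert_le _ _).trans (Nat.succ_le_succ ih)
  | big c k f ih =>
    rw [subs, size]
    exact (card_insert_le _ _).trans (Nat.succ_le_succ
      (card_biUnion_le.trans (Finset.sum_le_sum fun j _ => ih j)))
  | mod i k f ih =>
    rw [subs, size]
    exact (card_insert_le _ _).trans (Nat.succ_le_succ
      (card_biUnion_le.trans (Finset.sum_le_sum fun j _ => ih j)))

lemma one_le_size (a : NF p V) : 1 ≤ size a := by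
  cases a <;> simp [NF.size]

lemma size_map (s : V → W) (a : NF p V) : size (map s a) = size a := by
  induction a with
  | var x => rfl
  | cst c => rfl
  | neg a ih => simp only [NF.map, NF.size, ih]
  | big c k f ih => simp only [NF.map, NF.size, ih]
  | mod i k f ih => simp only [NF.map, NF.size, ih]

lemma Same.size {a b : NF p V} (h : Same a b) : NF.size a = NF.size b := by
  induction h with
  | var x => rfl
  | cst b => rfl
  | neg _ ih => simp only [NF.size, ih]
  | @big c k f f' σ _ ih =>
    simp only [NF.size]
    rw [Finset.sum_congr rfl fun j _ => ih j, Equiv.sum_comp σ fun j => NF.size (f' j)]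
  | @mod i k f f' σ _ ih =>
    simp only [NF.size]
    rw [Finset.sum_congr rfl fun j _ => ih j, Equiv.sum_comp σ fun j => NF.size (f' j)]

lemma subs_map (s : V → W) (a : NF p V) {b' : NF p W} (h : b' ∈ subs (map s a)) :
    ∃ b ∈ subs a, b' = map s b := by
  classical
  induction a with
  | var x =>
    rw [NF.map, NF.subs, mem_singleton] at h
    exact ⟨var x, subs_self _, h⟩
  | cst c =>
    rw [NF.map, NF.subs, mem_singleton] at h
    exact ⟨cst c, subs_self _, h⟩
  | neg a ih =>
    rw [NF.map, NF.subs, mem_insert] at h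
    rcases h with h | h
    · exact ⟨neg a, subs_self _, h⟩
    · obtain ⟨b, hb, e⟩ := ih h
      exact ⟨b, subs_trans (subs_neg a) hb, e⟩
  | big c k f ih =>
    rw [NF.map, NF.subs, mem_insert, mem_biUnion] at h
    rcases h with h | ⟨j, _, h⟩
    · exact ⟨big c k f, subs_self _, h⟩
    · obtain ⟨b, hb, e⟩ := ih j h
      exact ⟨b, subs_trans (subs_big c f j) hb, e⟩
  | mod i k f ih =>
    rw [NF.map, NF.subs, mem_insert, mem_biUnion] at h
    rcases h with h | ⟨j, _, h⟩
    · exact ⟨mod i k f, subs_self _, h⟩
    · obtain ⟨b, hb, e⟩ := ih j h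
      exact ⟨b, subs_trans (subs_mod i f j) hb, e⟩

lemma map_mem_subs (s : V → W) {a b : NF p V} (h : b ∈ subs a) :
    map s b ∈ subs (map s a) := by
  classical
  induction a with
  | var x => rw [NF.subs, mem_singleton] at h; rw [h]; exact subs_self _
  | cst c => rw [NF.subs, mem_singleton] at h; rw [h]; exact subs_self _
  | neg a ih =>
    rw [NF.subs, mem_insert] at h
    rcases h with h | h
    · rw [h]; exact subs_self _
    · exact subs_trans (subs_neg (NF.map s a)) (ih h)
  | big c k f ih =>
    rw [NF.subs, mem_insert, mem_biUnion] at h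
    rcases h with h | ⟨j, _, h⟩
    · rw [h]; exact subs_self _
    · exact subs_trans (subs_big c (fun j => NF.map s (f j)) j) (ih j h)
  | mod i k f ih =>
    rw [NF.subs, mem_insert, mem_biUnion] at h
    rcases h with h | ⟨j, _, h⟩
    · rw [h]; exact subs_self _
    · exact subs_trans (subs_mod i (fun j => NF.map s (f j)) j) (ih j h)

lemma Same.subs {a a' : NF p V} (h : Same a a') {b : NF p V} (hb : b ∈ NF.subs a) :
    ∃ b' ∈ NF.subs a', Same b b' := by
  classical
  induction h with
  | var x =>
    rw [NF.subs, mem_singleton] at hb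
    exact ⟨NF.var x, subs_self _, by rw [hb]; exact Same.refl _⟩
  | cst c =>
    rw [NF.subs, mem_singleton] at hb
    exact ⟨NF.cst c, subs_self _, by rw [hb]; exact Same.refl _⟩
  | @neg a a' h ih =>
    rw [NF.subs, mem_insert] at hb
    rcases hb with hb | hb
    · exact ⟨_, subs_self _, by rw [hb]; exact .neg h⟩
    · obtain ⟨b', h1, h2⟩ := ih hb
      exact ⟨b', subs_trans (subs_neg a') h1, h2⟩
  | @big c k f f' σ h ih =>
    rw [NF.subs, mem_insert, mem_biUnion] at hb
    rcases hb with hb | ⟨j, _, hb⟩
    · exact ⟨_, subs_self _, by rw [hb]; exact .big c σ h⟩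
    · obtain ⟨b', h1, h2⟩ := ih j hb
      exact ⟨b', subs_trans (subs_big c f' (σ j)) h1, h2⟩
  | @mod i k f f' σ h ih =>
    rw [NF.subs, mem_insert, mem_biUnion] at hb
    rcases hb with hb | ⟨j, _, hb⟩
    · exact ⟨_, subs_self _, by rw [hb]; exact .mod i σ h⟩
    · obtain ⟨b', h1, h2⟩ := ih j hb
      exact ⟨b', subs_trans (subs_mod i f' (σ j)) h1, h2⟩

end

section

variable {p q k : ℕ} {U : Type} [Fintype U] [DecidableEq U] {D0 : Finset U}

lemma Hs.sub {a b : NF p (Vr q U)} (h : Hs D0 k a) (hb : b ∈ subs a) : Hs D0 k b := by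
  exact fun c hc => h c (subs_trans hb hc)

lemma Hs.neg {a : NF p (Vr q U)} (h : Hs D0 k (neg a)) : Hs D0 k a := by
  exact Hs.sub h (subs_neg a)

lemma Hs.big {c : Bool} {n : ℕ} {f : Fin n → NF p (Vr q U)} (h : Hs D0 k (big c n f)) (j : Fin n) :
    Hs D0 k (f j) := by
  exact Hs.sub h (subs_big c f j)

lemma Hs.mod {i : ZMod p} {n : ℕ} {f : Fin n → NF p (Vr q U)} (h : Hs D0 k (mod i n f))
    (j : Fin n) : Hs D0 k (f j) := by
  exact Hs.sub h (subs_mod i f j)

lemma Hs.self {a : NF p (Vr q U)} (h : Hs D0 k a) : HSup D0 k (cl a) := by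
  exact h _ (subs_self a)

lemma Hs.same {a b : NF p (Vr q U)} (h : Hs D0 k a) (hab : Same a b) : Hs D0 k b := by
  intro c hc
  obtain ⟨c', h1, h2⟩ := Same.subs hab.symm hc
  rw [cl_eq.2 h2]
  exact h c' h1

end

end NF

end Pool.Agent.Work.MP_c04246_lc
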