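import Mathlib
import Pool.Agent.Work.MP_c04246_lc.Y.Mult
import Pool.Agent.Work.MP_c04246_lc.Y.Subs
import Pool.Agent.Work.MP_c04246_lc.Y.ExD

set_option autoImplicit false
set_option linter.unusedSectionVars false
set_option linter.unusedSimpArgs false
set_option linter.unusedVariables false
set_option linter.unusedDecidableInType false
set_option linter.unusedFintypeInType false

/- MODULE Vsame (M). The virtual value V and the virtual probability mu (PDefs) respect Same and the
permutations fixing cov rho0.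
* V_same: induction on Same a b (prove V rho0 k a = V rho0 k b as functions). Cases big, mod: the
  classes of the two formulas are equal (cl_eq, Same.big), so their ms agree; the classes of f j and
  f' (s j) agree, so their ms agree, V agree by induction; reindex the sum by s (Equiv.sum_comp).
* Hs.map: a subformula of map (mv pi) a is map (mv pi) b, b ∈ subs a (subs_map); its class is
  pi • cl b (smul_cl); HSup.smul.
* V_act: V (map (mv pi) a) (mw pi tau) = V a tau for all tau, by induction on a. var: mem_mw.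
  big, mod: by ms_smul and mw_red the worlds `red` correspond, by ms_smul the supports of the
  arguments correspond, Ex_mw with the induction hypothesis. (Unfold V with simp only [V, map].)
* mu_act: the same for mu (Ex_mw and V_act).
* asum_same, asum_act, resi_same: the same for the sums over the arguments.
-/
namespace Pool.Agent.Work.MP_c04246_lc

open Finset

namespace NF

variable {p q k : ℕ} {U : Type} [Fintype U] [DecidableEq U] {ρ0 τ τ' σ : Finset (Finset U)}
  {π : Equiv.Perm U}

private lemma ifV {a b : NF p (Vr q U)} (h : V ρ0 k a = V ρ0 k b) :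
    (fun σ => if V ρ0 k a σ = true then (1 : ℚ) else 0) =
      (fun σ => if V ρ0 k b σ = true then (1 : ℚ) else 0) := by
  rw [h]

theorem V_same {a b : NF p (Vr q U)} (h : Same a b) : V ρ0 k a = V ρ0 k b := by
  induction h with
  | var x => rfl
  | cst b => rfl
  | neg _ ih => funext τ; simp only [V, ih]
  | @big c n f f' s hs ih =>
    funext τ
    have h1 : cl (big c n f) = cl (big c n f') := cl_eq.2 (.big c s hs)
    have h2 : ∀ τ', ∑ j, Ex q (ms (cov ρ0) k (cl (f j)))
        (fun σ => if V ρ0 k (f j) σ = true then (1 : ℚ) else 0) τ' =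
        ∑ j, Ex q (ms (cov ρ0) k (cl (f' j)))
        (fun σ => if V ρ0 k (f' j) σ = true then (1 : ℚ) else 0) τ' := by
      intro τ'
      rw [← Equiv.sum_comp s (fun j => Ex q (ms (cov ρ0) k (cl (f' j)))
        (fun σ => if V ρ0 k (f' j) σ = true then (1 : ℚ) else 0) τ')]
      refine sum_congr rfl fun j _ => ?_
      rw [cl_eq.2 (hs j), ih j]
    simp only [V, h1, h2]
  | @mod i n f f' s hs ih =>
    funext τ
    have h1 : cl (mod i n f) = cl (mod i n f') := cl_eq.2 (.mod i s hs)
    have h2 : ∀ τ', ∑ j, Ex q (ms (cov ρ0) k (cl (f j)))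
        (fun σ => if V ρ0 k (f j) σ = true then (1 : ℚ) else 0) τ' =
        ∑ j, Ex q (ms (cov ρ0) k (cl (f' j)))
        (fun σ => if V ρ0 k (f' j) σ = true then (1 : ℚ) else 0) τ' := by
      intro τ'
      rw [← Equiv.sum_comp s (fun j => Ex q (ms (cov ρ0) k (cl (f' j)))
        (fun σ => if V ρ0 k (f' j) σ = true then (1 : ℚ) else 0) τ')]
      refine sum_congr rfl fun j _ => ?_
      rw [cl_eq.2 (hs j), ih j]
    simp only [V]
    rw [decide_eq_decide, h1, h2]

lemma mu_same {a b : NF p (Vr q U)} (h : Same a b) : mu ρ0 k a = mu ρ0 k b := by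
  funext τ
  unfold mu
  rw [cl_eq.2 h, V_same h]

lemma asum_same {a b : NF p (Vr q U)} (h : Same a b) : asum ρ0 k a = asum ρ0 k b := by
  cases h with
  | var x => rfl
  | cst b => rfl
  | neg _ => rfl
  | @big c n f f' s hs =>
    funext τ
    show ∑ j, mu ρ0 k (f j) τ = ∑ j, mu ρ0 k (f' j) τ
    rw [← Equiv.sum_comp s (fun j => mu ρ0 k (f' j) τ)]
    exact sum_congr rfl fun j _ => by rw [mu_same (hs j)]
  | @mod i n f f' s hs =>
    funext τ
    show ∑ j, mu ρ0 k (f j) τ = ∑ j, mu ρ0 k (f' j) τ
    rw [← Equiv.sum_comp s (fun j => mu ρ0 k (f' j) τ)]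
    exact sum_congr rfl fun j _ => by rw [mu_same (hs j)]

lemma resi_same {a b : NF p (Vr q U)} (h : Same a b) : resi a = resi b := by
  cases h <;> rfl

lemma Hs.map {D0 : Finset U} (hπ : Fx D0 π) {a : NF p (Vr q U)} (h : Hs D0 k a) :
    Hs D0 k (NF.map (mv π) a) := by
  intro b' hb'
  obtain ⟨b, hb, rfl⟩ := subs_map _ _ hb'
  rw [← smul_cl]
  exact HSup.smul hπ (h b hb)

private lemma arg_act (hπ : Fx (cov ρ0) π) (a b : NF p (Vr q U))
    (ih : ∀ τ, V ρ0 k (map (mv π) b) (mw π τ) = V ρ0 k b τ) (τ : Finset (Finset U)) :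
    Ex q (ms (cov ρ0) k (cl (map (mv π) b)))
      (fun σ => if V ρ0 k (map (mv π) b) σ = true then (1 : ℚ) else 0)
      (red ρ0 (ms (cov ρ0) k (cl (map (mv π) a))) (mw π τ)) =
    Ex q (ms (cov ρ0) k (cl b)) (fun σ => if V ρ0 k b σ = true then (1 : ℚ) else 0)
      (red ρ0 (ms (cov ρ0) k (cl a)) τ) := by
  rw [← smul_cl, ← smul_cl, ms_smul hπ, ms_smul hπ, ← mw_red hπ]
  apply Ex_mw
  intro σ
  rw [ih]

theorem V_act (hπ : Fx (cov ρ0) π) (a : NF p (Vr q U)) (τ : Finset (Finset U)) :
    V ρ0 k (map (mv π) a) (mw π τ) = V ρ0 k a τ := by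
  induction a generalizing τ with
  | var S =>
    show decide (S.1.map π.toEmbedding ∈ mw π τ) = decide (S.1 ∈ τ)
    rw [decide_eq_decide]
    exact mem_mw
  | cst b => rfl
  | neg a ih => simp only [NF.map, V, ih]
  | big c n f ih =>
    have h := fun j => arg_act (k := k) hπ (big c n f) (f j) (ih j) τ
    simp only [NF.map] at h
    simp only [NF.map, V, h]
  | mod i n f ih =>
    have h := fun j => arg_act (k := k) hπ (mod i n f) (f j) (ih j) τ
    simp only [NF.map] at h
    simp only [NF.map, V]
    rw [decide_eq_decide, sum_congr rfl fun j _ => h j]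

lemma mu_act (hπ : Fx (cov ρ0) π) (a : NF p (Vr q U)) (τ : Finset (Finset U)) :
    mu ρ0 k (map (mv π) a) (mw π τ) = mu ρ0 k a τ := by
  unfold mu
  rw [← smul_cl, ms_smul hπ]
  apply Ex_mw
  intro σ
  rw [V_act hπ]

lemma asum_act (hπ : Fx (cov ρ0) π) (a : NF p (Vr q U)) (τ : Finset (Finset U)) :
    asum ρ0 k (map (mv π) a) (mw π τ) = asum ρ0 k a τ := by
  cases a with
  | var S => rfl
  | cst b => rfl
  | neg a => rfl
  | big c n f => exact sum_congr rfl fun j _ => mu_act hπ (f j) τ
  | mod i n f => exact sum_congr rfl fun j _ => mu_act hπ (f j) τ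

lemma resi_act (a : NF p (Vr q U)) : resi (map (mv π) a) = resi a := by
  cases a <;> rfl

end NF

end Pool.Agent.Work.MP_c04246_lc
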