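import Mathlib
import Pool.Agent.Work.MP_c04246_lc.Y.Vsame

set_option autoImplicit false
set_option linter.unusedSectionVars false
set_option linter.unusedSimpArgs false
set_option linter.unusedVariables false
set_option linter.unusedDecidableInType false
set_option linter.unusedFintypeInType false

/- MODULE Vgood (M). The virtual value depends only on the parts meeting the least support.
Ctx: q ≥ 2, PP q rho0, q (2k+4) ≤ nun rho0; nun_add: nun rho0 + |cov rho0| = |U| (PP.card_cov).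
* Ctx.card: |cov rho0| + 2k < |U|. Ctx.spec: for Hs (cov rho0) k a: ms_spec.
* var_sub: let D = cov rho0 ∪ ms; D supports cl (var S) and |U \ D| ≥ nun rho0 - k > q. If S had a
  point u outside of D, choose w ∉ D, w ∉ S (|U \ D| > q = |S|); swap u w fixes D pointwise, so
  cl (var S) = swap • cl (var S) = cl (var (mv swap S)), S = mv swap S (cl_var_iff), but w ∈ mv swap S.
* red_eq: if B ⊆ cov tau, tau ⊆ tau', PP tau', then red rho0 B tau = red rho0 B tau': a part S ∈ tau'
  meeting B in u meets the part T ∈ tau containing u, so S = T.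
* V_good by induction: var: S ∈ tau' → S ∈ tau: take u ∈ S (|S| = q > 0), u ∈ cov rho0 ∪ ms ⊆ cov tau,
  so u ∈ T ∈ tau, T = S. neg: ms (cl (neg a)) = ms (cl a) (ms_congr, smul_neg_iff). big, mod: red_eq.
* V_red: Gd0 for red rho0 ms tau ⊆ tau; ms ⊆ cov (red ...).
-/
namespace Pool.Agent.Work.MP_c04246_lc

open Finset

namespace NF

variable {p q k : ℕ} {U : Type} [Fintype U] [DecidableEq U] {ρ0 τ τ' σ : Finset (Finset U)}
  {π : Equiv.Perm U}

lemma Ctx.card (C : Ctx q k ρ0) : (cov ρ0).card + 2 * k < Fintype.card U := by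
  have h1 := nun_add C.hρ
  have h2 := C.hρ.card_cov
  have h3 := C.hroom
  have h5 : 2 * (2 * k + 4) ≤ q * (2 * k + 4) := Nat.mul_le_mul_right _ C.hq
  omega

lemma Ctx.spec (C : Ctx q k ρ0) {a : NF p (Vr q U)} (h : Hs (cov ρ0) k a) :
    Sup (cov ρ0 ∪ ms (cov ρ0) k (cl a)) (cl a) ∧ (ms (cov ρ0) k (cl a)).card ≤ k :=
  ms_spec h.self C.card

lemma ms_neg (D0 : Finset U) (a : NF p (Vr q U)) : ms D0 k (cl (neg a)) = ms D0 k (cl a) :=
  ms_congr fun _ => smul_neg_iff

lemma var_sub (C : Ctx q k ρ0) {S : Vr q U} (h : Hs (cov ρ0) k (var S : NF p (Vr q U))) :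
    S.1 ⊆ cov ρ0 ∪ ms (cov ρ0) k (cl (var S : NF p (Vr q U))) := by
  obtain ⟨hs, hc⟩ := C.spec h
  intro u hu
  by_contra hud
  set D := cov ρ0 ∪ ms (cov ρ0) k (cl (var S : NF p (Vr q U))) with hD
  have hex : ∃ w, w ∉ D ∧ w ∉ S.1 := by
    by_contra hcon
    push Not at hcon
    have h1 : (univ : Finset U) ⊆ D ∪ S.1 := by
      intro w _
      by_cases h2 : w ∈ D
      · exact mem_union_left _ h2
      · exact mem_union_right _ (hcon w h2)
    have h3 := card_le_card h1
    rw [card_univ] at h3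
    have h4 := card_union_le D S.1
    have h5 := card_union_le (cov ρ0) (ms (cov ρ0) k (cl (var S : NF p (Vr q U))))
    rw [← hD] at h5
    have h6 := S.2
    have h7 := nun_add C.hρ
    have h8 := C.hρ.card_cov
    have h9 := C.hroom
    have h10 : 2 * (2 * k + 3) ≤ q * (2 * k + 3) := Nat.mul_le_mul_right _ C.hq
    have h11 : q * (2 * k + 4) = q * (2 * k + 3) + q := by ring
    omega
  obtain ⟨w, hwD, hwS⟩ := hex
  have hfx : Fx D (Equiv.swap u w) := by
    intro v hv
    refine Equiv.swap_apply_of_ne_of_ne ?_ ?_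
    · rintro rfl; exact hud hv
    · rintro rfl; exact hwD hv
  have h1 := hs _ hfx
  rw [smul_cl] at h1
  have h2 : mv (Equiv.swap u w) S = S := cl_var_iff.1 h1
  apply hwS
  rw [← h2]
  show w ∈ S.1.map _
  rw [mem_map]
  exact ⟨u, hu, Equiv.swap_apply_left u w⟩

lemma red_sub {B : Finset U} (hρ : ρ0 ⊆ τ) : red ρ0 B τ ⊆ τ :=
  union_subset hρ (filter_subset _ _)

lemma sub_red {B : Finset U} : ρ0 ⊆ red ρ0 B τ := subset_union_left

lemma cov_red {B : Finset U} (hB : B ⊆ cov τ) : B ⊆ cov (red ρ0 B τ) := by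
  intro u hu
  obtain ⟨T, hT, huT⟩ := mem_cov.1 (hB hu)
  exact mem_cov.2 ⟨T, mem_union_right _ (mem_filter.2 ⟨hT, u, hu, huT⟩), huT⟩

lemma red_eq {B : Finset U} (hτ' : PP q τ') (h : τ ⊆ τ') (hB : B ⊆ cov τ) :
    red ρ0 B τ = red ρ0 B τ' := by
  unfold red
  congr 1
  ext S
  rw [mem_filter, mem_filter]
  constructor
  · rintro ⟨hS, hu⟩
    exact ⟨h hS, hu⟩
  · rintro ⟨hS, u, hu, huS⟩
    refine ⟨?_, u, hu, huS⟩
    obtain ⟨T, hT, huT⟩ := mem_cov.1 (hB hu)
    have hST : S = T := by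
      by_contra hne
      exact disjoint_left.1 (hτ'.2 S hS T (h hT) hne) huS huT
    rw [hST]
    exact hT

theorem V_good (C : Ctx q k ρ0) {a : NF p (Vr q U)} (h : Hs (cov ρ0) k a) :
    Gd0 q ρ0 (ms (cov ρ0) k (cl a)) (V ρ0 k a) := by
  induction a with
  | var S =>
    intro τ τ' hτ' hρ hs hB
    have hiff : S.1 ∈ τ ↔ S.1 ∈ τ' := by
      constructor
      · exact fun hS => hs hS
      · intro hS
        have hne : S.1.Nonempty := by
          rw [← card_pos, S.2]
          have := C.hq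
          omega
        obtain ⟨u, hu⟩ := hne
        have hu' : u ∈ cov τ := by
          rcases mem_union.1 (var_sub C h hu) with h1 | h1
          · exact cov_mono hρ h1
          · exact hB h1
        obtain ⟨T, hT, huT⟩ := mem_cov.1 hu'
        have hST : S.1 = T := by
          by_contra hne
          exact disjoint_left.1 (hτ'.2 S.1 hS T (hs hT) hne) hu huT
        rw [hST]
        exact hT
    show decide (S.1 ∈ τ) = decide (S.1 ∈ τ')
    exact decide_eq_decide.2 hiff
  | cst b => intro τ τ' _ _ _ _; rfl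
  | neg a ih =>
    intro τ τ' hτ' hρ hs hB
    rw [ms_neg] at hB
    show (!(V ρ0 k a τ)) = !(V ρ0 k a τ')
    rw [ih h.neg τ τ' hτ' hρ hs hB]
  | big c n f ih =>
    intro τ τ' hτ' hρ hs hB
    simp only [V]
    rw [red_eq (ρ0 := ρ0) hτ' hs hB]
  | mod i n f ih =>
    intro τ τ' hτ' hρ hs hB
    simp only [V]
    rw [red_eq (ρ0 := ρ0) hτ' hs hB]

lemma V_red (C : Ctx q k ρ0) {a : NF p (Vr q U)} (h : Hs (cov ρ0) k a) (hτ : PP q τ)
    (hρ : ρ0 ⊆ τ) (hB : ms (cov ρ0) k (cl a) ⊆ cov τ) :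
    V ρ0 k a (red ρ0 (ms (cov ρ0) k (cl a)) τ) = V ρ0 k a τ :=
  V_good C h _ _ hτ sub_red (red_sub hρ) (cov_red hB)

end NF

end Pool.Agent.Work.MP_c04246_lc
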