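import Mathlib
import Pool.Agent.Work.MP_c04246_lc.Y.Vgood

set_option autoImplicit false
set_option linter.unusedSectionVars false
set_option linter.unusedSimpArgs false
set_option linter.unusedVariables false
set_option linter.unusedDecidableInType false
set_option linter.unusedFintypeInType false

/- MODULE Gate (M). The gates vgate rho0 k a over the variables meeting the least support of a
(PDefs: vl, vgate; LCert.lean: LC, Dcd, wa; LRestrict.lean: GG_of_transversal).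
* vars (vgate a) = {S | S meets ms (cl a)} (mem of vl = toList of a filter of univ; List.get surjective).
* eval_vgate: for rho0 ⊆ t: eval (wa t) (vgate a) = V a (red rho0 (ms a) t): the set
  rho0 ∪ image of the chosen variables = red: a part S ∈ t meeting ms, with S.card = q (PP t), is a
  variable of the list; wa t S = decide (S.1 ∈ t).
* vgate_LC: t ∈ LC: PP q t, rho0 ⊆ t (rho 0 = rho0), |t \ rho0| ≤ kappa 0, so nun t ≥ nun rho0 - q kappa 0
  ≥ q. If u ∈ ms were not covered by t, by exists_adm there is S with u ∈ S, |S| = q, disjoint from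
  cov t; S is a variable of vgate a but Dcd t S fails (S ∉ t as u ∉ cov t; no T ∈ t meets S):
  contradiction. So ms ⊆ cov t, eval = V a (red ..) = V a t (V_red).
* LC_vgate: t := red rho0 ms tau ⊆ tau: PP, contains rho0, at most |ms| ≤ k ≤ kappa 0 new parts (inject
  S to a point of S ∩ ms, disjointness), covers ms (cov_red), so every variable S meeting ms in u is
  decided (the part of t containing u is S or meets S); value V a (red rho0 ms (red ..)) = V a tau
  (V_red, V_good).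
* GG_vgate: GG_of_transversal (isL is trivial for gates) with W = ms.
* Gd_vgate: combination: for PP tau, rho0 ⊆ tau: Gd 0 q rho kappa (vgate a) e tau iff ms ⊆ cov tau and
  V a tau = e. (->) certificate t ⊆ tau, vgate_LC, V_good. (<-) LC_vgate. GC of a gate is (LC, LC).
-/
namespace Pool.Agent.Work.MP_c04246_lc

open Finset

namespace NF

variable {p q k : ℕ} {U : Type} [Fintype U] [DecidableEq U] {ρ0 τ t : Finset (Finset U)}
  {ρ : ℕ → Finset (Finset U)} {κ : ℕ → ℕ} {a : NF p (Vr q U)} {e : Bool}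

private lemma Gate_mem_vl {S : Vr q U} :
    S ∈ vl ρ0 k a ↔ ∃ u ∈ ms (cov ρ0) k (cl a), u ∈ S.1 := by
  unfold vl
  rw [mem_toList, mem_filter]
  exact ⟨fun h => h.2, fun h => ⟨mem_univ _, h⟩⟩

private lemma Gate_vars {S : Vr q U} :
    S ∈ GF.vars (vgate ρ0 k a) ↔ ∃ u ∈ ms (cov ρ0) k (cl a), u ∈ S.1 := by
  rw [← Gate_mem_vl]
  unfold vgate
  simp only [GF.vars, mem_biUnion, mem_univ, true_and, mem_singleton]
  constructor
  · rintro ⟨j, rfl⟩
    exact List.get_mem _ _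
  · intro h
    obtain ⟨j, hj⟩ := List.mem_iff_get.mp h
    exact ⟨j, hj.symm⟩

private lemma Gate_eval (ht : PP q t) :
    GF.eval (GF.wa t) (vgate ρ0 k a) = V ρ0 k a (red ρ0 (ms (cov ρ0) k (cl a)) t) := by
  unfold vgate
  simp only [GF.eval, GF.wa, decide_eq_true_eq]
  congr 1
  unfold red
  ext T
  simp only [mem_union, mem_image, mem_filter, mem_univ, true_and]
  constructor
  · rintro (h | ⟨j, hj, rfl⟩)
    · exact Or.inl h
    · exact Or.inr ⟨hj, Gate_mem_vl.mp (List.get_mem _ _)⟩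
  · rintro (h | ⟨hT, hm⟩)
    · exact Or.inl h
    · have hv : (⟨T, ht.1 T hT⟩ : Vr q U) ∈ vl ρ0 k a := Gate_mem_vl.mpr hm
      obtain ⟨j, hj⟩ := List.mem_iff_get.mp hv
      exact Or.inr ⟨j, by rw [hj]; exact hT, by rw [hj]⟩

private lemma Gate_card_meet {B : Finset U} (hτ : PP q τ) :
    (τ.filter fun S => ∃ u ∈ B, u ∈ S).card ≤ B.card := by
  classical
  rcases (τ.filter fun S => ∃ u ∈ B, u ∈ S).eq_empty_or_nonempty with h0 | ⟨S0, hS0⟩
  · rw [h0]; simp
  obtain ⟨u0, hu0, _⟩ := (mem_filter.mp hS0).2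
  refine card_le_card_of_injOn
    (fun S => if h : ∃ u ∈ B, u ∈ S then h.choose else u0) ?_ ?_
  · intro S hS
    have h := (mem_filter.mp hS).2
    simp only [dif_pos h]
    exact h.choose_spec.1
  · intro S hS T hT heq
    have hS' := (mem_filter.mp hS).2
    have hT' := (mem_filter.mp hT).2
    simp only [dif_pos hS', dif_pos hT'] at heq
    by_contra hne
    have hd := hτ.2 S (mem_filter.mp hS).1 T (mem_filter.mp hT).1 hne
    have h1 := hS'.choose_spec.2
    have h2 := hT'.choose_spec.2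
    rw [heq] at h1
    exact (disjoint_left.mp hd h1) h2

theorem vgate_LC (C : Ctx q k ρ0) (h0 : ρ 0 = ρ0) (hr : q * (κ 0 + 1) ≤ nun ρ0)
    (h : Hs (cov ρ0) k a) (ht : t ∈ GF.LC q ρ κ (vgate ρ0 k a) e) :
    PP q t ∧ ρ0 ⊆ t ∧ ms (cov ρ0) k (cl a) ⊆ cov t ∧ V ρ0 k a t = e := by
  obtain ⟨⟨hPP, hsub, hcard⟩, hdcd, hev⟩ := ht
  rw [h0] at hsub hcard
  have hq : 0 < q := lt_of_lt_of_le (by norm_num) C.hq
  have hms : ms (cov ρ0) k (cl a) ⊆ cov t := by
    intro u hu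
    by_contra hc
    have hn : q ≤ nun t := by
      have h1 := nun_add hPP
      have h2 := nun_add C.hρ
      have h3 : t.card ≤ ρ0.card + κ 0 := by
        have := card_sdiff_add_card_eq_card hsub
        omega
      have h4 : q * t.card ≤ q * (ρ0.card + κ 0) := Nat.mul_le_mul_left q h3
      rw [mul_add] at h4
      rw [mul_add, mul_one] at hr
      omega
    obtain ⟨S, hS⟩ := exists_adm hq hc hn
    rcases hdcd ⟨S, hS.2.1⟩ (Gate_vars.mpr ⟨u, hu, hS.1⟩) with h1 | ⟨T, hT, hne, hnd⟩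
    · exact hc (mem_cov.mpr ⟨S, h1, hS.1⟩)
    · apply hnd
      rw [disjoint_left]
      intro x hxT hxS
      exact (disjoint_left.mp hS.2.2 hxS) (mem_cov.mpr ⟨T, hT, hxT⟩)
  refine ⟨hPP, hsub, hms, ?_⟩
  rw [Gate_eval hPP, V_red C h hPP hsub hms] at hev
  exact hev

theorem LC_vgate (C : Ctx q k ρ0) (h0 : ρ 0 = ρ0) (hk : k ≤ κ 0) (h : Hs (cov ρ0) k a)
    (hτ : PP q τ) (hρ : ρ0 ⊆ τ) (hB : ms (cov ρ0) k (cl a) ⊆ cov τ) :
    ∃ t ∈ GF.LC q ρ κ (vgate ρ0 k a) (V ρ0 k a τ), t ⊆ τ := by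
  set B := ms (cov ρ0) k (cl a) with hBdef
  have hrs : red ρ0 B τ ⊆ τ := red_sub hρ
  have hrPP : PP q (red ρ0 B τ) := hτ.mono hrs
  have hrc : B ⊆ cov (red ρ0 B τ) := cov_red hB
  refine ⟨red ρ0 B τ, ⟨⟨hrPP, ?_, ?_⟩, ?_, ?_⟩, hrs⟩
  · rw [h0]; exact sub_red
  · rw [h0]
    have h1 : red ρ0 B τ \ ρ0 ⊆ τ.filter fun S => ∃ u ∈ B, u ∈ S := by
      intro S hS
      rw [mem_sdiff] at hS
      unfold red at hS
      rcases mem_union.mp hS.1 with h2 | h2
      · exact absurd h2 hS.2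
      · exact h2
    exact (card_le_card h1).trans ((Gate_card_meet hτ).trans ((C.spec h).2.trans hk))
  · intro S hS
    obtain ⟨u, hu, huS⟩ := Gate_vars.mp hS
    obtain ⟨T, hT, huT⟩ := mem_cov.mp (hrc hu)
    by_cases hTS : T = S.1
    · left; rw [← hTS]; exact hT
    · right
      exact ⟨T, hT, hTS, not_disjoint_iff.mpr ⟨u, huT, huS⟩⟩
  · rw [Gate_eval hrPP, V_red C h hrPP sub_red hrc, V_red C h hτ hρ hB]

theorem GG_vgate (C : Ctx q k ρ0) (hk : k ≤ κ 0) (h : Hs (cov ρ0) k a) :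
    GF.GG 0 q (fun _ => ρ0) κ (vgate ρ0 k a) := by
  refine GF.GG_of_transversal (show GF.isL 0 (vgate ρ0 k a) from trivial) C.hρ
    (ms (cov ρ0) k (cl a)) ((C.spec h).2.trans hk) ?_
  intro S hS
  exact Or.inr (Gate_vars.mp hS)

theorem Gd_vgate (C : Ctx q k ρ0) (h0 : ρ 0 = ρ0) (hk : k ≤ κ 0) (hr : q * (κ 0 + 1) ≤ nun ρ0)
    (h : Hs (cov ρ0) k a) (hτ : PP q τ) (hρ : ρ0 ⊆ τ) :
    GF.Gd 0 q ρ κ (vgate ρ0 k a) e τ ↔ ms (cov ρ0) k (cl a) ⊆ cov τ ∧ V ρ0 k a τ = e := by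
  constructor
  · rintro ⟨t, ht, hsub⟩
    have ht' : t ∈ GF.LC q ρ κ (vgate ρ0 k a) e := ht
    obtain ⟨h1, h2, h3, h4⟩ := vgate_LC C h0 hr h ht'
    refine ⟨h3.trans (cov_mono hsub), ?_⟩
    rw [← h4]
    exact (V_good C h t τ hτ h2 hsub h3).symm
  · rintro ⟨hB, rfl⟩
    obtain ⟨t, ht, hsub⟩ := LC_vgate C h0 hk h hτ hρ hB
    exact ⟨t, ht, hsub⟩

lemma GC_vgate : GF.GC 0 q ρ κ (vgate ρ0 k a) =
    (GF.LC q ρ κ (vgate ρ0 k a), GF.LC q ρ κ (vgate ρ0 k a)) := rfl

lemma tr_Hs (h : Hs (cov ρ0) k a) : tr ρ0 k a = vgate ρ0 k a := by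
  cases a <;> simp only [tr, if_pos h]

end NF

end Pool.Agent.Work.MP_c04246_lc
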