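import Mathlib
import Pool.Agent.Work.MP_c04246_lc.Y.Fold
import Pool.Agent.Work.MP_c04246_lc.Y.Gate
import Pool.Agent.Work.MP_c04246_lc.Y.Subs

set_option autoImplicit false
set_option linter.unusedSectionVars false
set_option linter.unusedSimpArgs false
set_option linter.unusedVariables false
set_option linter.unusedDecidableInType false
set_option linter.unusedFintypeInType false

/- MODULE Lev (M). Levels of the translation, and a closed finite set of gate formulas.
* lev: for a formula b all of whose MOD-subformulas have Hs: glv 0 none (tr a) ≤ dpt none b for all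
  a ∈ subs b. First show for every a with this property (induction on a; tr a = vgate has level 0 if
  Hs a; mod: always Hs): glv 0 none (tr a) ≤ dpt none a and for all c: glv 0 (some c) (tr a) ≤
  dpt (some (some c)) a, and also glv 0 none (tr a) ≤ dpt (some none) a. neg (not Hs): tr = neg (tr a);
  glv 0 r (neg x) = 0 or glv 0 none x. big c (not Hs): glv_fold with D = sup_j dpt (some (some c)) (f j)
  (List.mem_ofFn). Then dpt r a ≤ dpt none a ≤ dpt r a + 1 for all r (cases), and induction on b:
  a = b, or a ∈ subs of an argument b', dpt none b' ≤ dpt (..) b' + 1 ≤ dpt none b; for b = mod all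
  subformulas have Hs, level 0.
* exists_Gam: define by recursion a Finset G a of gate formulas:
  G (var S) = {tr (var S)}, G (cst b) = {tr (cst b)}, G (neg a) = insert (tr (neg a)) (G a),
  G (mod i n f) = insert (tr (mod i n f)) (biUnion of G (f j)),
  G (big c n f) = insert (tr (big c n f)) (image over i in range (n+1) of foldG c ((List.ofFn (tr . f)).drop i))
     ∪ biUnion of G (f j).
  Card (G a) ≤ 3 * size a: n + 2 ≤ 3 (n/… careful: the size of big c n f is 1 + sum size (f j) ≥ 1 + n;
  show by induction the stronger card (G a) + ... e.g. card (G a) ≤ 3 * size a - 1: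
  1 + (n + 1) + sum (3 size (f j) - 1) = n + 2 + 3 sum size - n = 2 + 3 sum size ≤ 3 (1 + sum) - 1. OK.)
  Gam := biUnion over a in pi (the lines) of G a. Closure: every x ∈ G a which is neg y or bin c y z
  has y (and z) in G a: x = tr (neg a) = neg (tr a) (not Hs), tr a ∈ G a; x = foldG c (drop i) =
  bin c (tr (f j)) (foldG c (drop (i+1))), tr (f j) ∈ G (f j) (tr a ∈ G a for all a);
  tr (big c n f) = foldG c (drop 0). tr a = vgate is a gate, no condition.
  tr a ∈ G b for a ∈ subs b. Members x with isL 0 x: var S from tr (var S) (not Hs); cst; gates are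
  vgates of Hs formulas; neg, bin: no variables. So (vars x).card ≤ 1, or x = vgate a with Hs a.
-/
namespace Pool.Agent.Work.MP_c04246_lc

open Finset

namespace NF

variable {p q k : ℕ} {U : Type} [Fintype U] [DecidableEq U] {ρ0 : Finset (Finset U)}

private lemma dpt_le' (r : Option (Option Bool)) {V : Type} (a : NF p V) :
    dpt none a ≤ dpt r a + 1 := by
  cases a with
  | var _ => simp [dpt]
  | cst _ => simp [dpt]
  | neg a =>
    simp only [dpt]
    split_ifs <;> simp_all; omega
  | big c n f =>
    simp only [dpt]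
    split_ifs <;> simp_all; omega
  | mod i n f => simp [dpt]

private lemma glv_tr_Hs {a : NF p (Vr q U)} (h : Hs (cov ρ0) k a) (r : Option Bool) :
    GF.glv 0 r (tr ρ0 k a) = 0 := by
  rw [tr_Hs h]
  rfl

private lemma lev_key (a : NF p (Vr q U)) : (∀ a' ∈ subs a, IsMod a' → Hs (cov ρ0) k a') →
    GF.glv 0 none (tr ρ0 k a) ≤ dpt none a ∧
    (∀ c, GF.glv 0 (some c) (tr ρ0 k a) ≤ dpt (some (some c)) a) ∧
    GF.glv 0 none (tr ρ0 k a) ≤ dpt (some none) a := by
  classical
  induction a with
  | var S =>
    intro _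
    by_cases h : Hs (cov ρ0) k (var S : NF p (Vr q U))
    · exact ⟨by rw [glv_tr_Hs h]; exact Nat.zero_le _,
        fun c => by rw [glv_tr_Hs h]; exact Nat.zero_le _,
        by rw [glv_tr_Hs h]; exact Nat.zero_le _⟩
    · simp only [tr, if_neg h]
      exact ⟨Nat.zero_le _, fun c => Nat.zero_le _, Nat.zero_le _⟩
  | cst b =>
    intro _
    by_cases h : Hs (cov ρ0) k (cst b : NF p (Vr q U))
    · exact ⟨by rw [glv_tr_Hs h]; exact Nat.zero_le _,
        fun c => by rw [glv_tr_Hs h]; exact Nat.zero_le _,
        by rw [glv_tr_Hs h]; exact Nat.zero_le _⟩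
    · simp only [tr, if_neg h]
      exact ⟨Nat.zero_le _, fun c => Nat.zero_le _, Nat.zero_le _⟩
  | neg a ih =>
    intro hm
    by_cases h : Hs (cov ρ0) k (neg a)
    · exact ⟨by rw [glv_tr_Hs h]; exact Nat.zero_le _,
        fun c => by rw [glv_tr_Hs h]; exact Nat.zero_le _,
        by rw [glv_tr_Hs h]; exact Nat.zero_le _⟩
    · obtain ⟨h1, h2, h3⟩ := ih fun a' ha' => hm a' (subs_trans (subs_neg a) ha')
      have hg : ∀ r, GF.glv 0 r (tr ρ0 k (neg a)) ≤ GF.glv 0 none (tr ρ0 k a) := by
        intro r
        simp only [tr, if_neg h, GF.glv]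
        split_ifs
        · exact Nat.zero_le _
        · exact le_rfl
      refine ⟨(hg none).trans (h3.trans ?_), fun c => (hg (some c)).trans (h3.trans ?_),
        (hg none).trans (h3.trans ?_)⟩
      · show dpt (some none) a ≤ _ + dpt (some none) a
        omega
      · show dpt (some none) a ≤ _ + dpt (some none) a
        omega
      · show dpt (some none) a ≤ _ + dpt (some none) a
        omega
  | big c n f ih =>
    intro hm
    by_cases h : Hs (cov ρ0) k (big c n f)
    · exact ⟨by rw [glv_tr_Hs h]; exact Nat.zero_le _,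
        fun c => by rw [glv_tr_Hs h]; exact Nat.zero_le _,
        by rw [glv_tr_Hs h]; exact Nat.zero_le _⟩
    · have htr : tr ρ0 k (big c n f) = foldG c (List.ofFn fun j => tr ρ0 k (f j)) := by
        simp only [tr, if_neg h]
      set D := Finset.univ.sup fun j => dpt (some (some c)) (f j) with hD
      have h1 : ∀ x ∈ List.ofFn fun j => tr ρ0 k (f j), GF.glv 0 (some c) x ≤ D := by
        intro x hx
        rw [List.mem_ofFn] at hx
        obtain ⟨j, rfl⟩ := hx
        have h2 := (ih j fun a' ha' => hm a' (subs_trans (subs_big c f j) ha')).2.1 c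
        exact h2.trans (Finset.le_sup (f := fun j => dpt (some (some c)) (f j)) (mem_univ j))
      obtain ⟨g1, g2, g3⟩ := glv_fold h1
      rw [htr]
      have e1 : dpt none (big c n f) = 1 + D := by simp [dpt, hD]
      have e2 : dpt (some none) (big c n f) = 1 + D := by simp [dpt, hD]
      have e3 : dpt (some (some c)) (big c n f) = D := by simp [dpt, hD]
      have e4 : dpt (some (some !c)) (big c n f) = 1 + D := by simp [dpt, hD]
      refine ⟨by omega, fun e => ?_, by omega⟩
      by_cases he : e = c
      · subst he; omega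
      · have he' : e = !c := by cases e <;> cases c <;> simp_all
        subst he'; omega
  | mod i n f ih =>
    intro hm
    have h : Hs (cov ρ0) k (mod i n f) := hm _ (subs_self _) trivial
    exact ⟨by rw [glv_tr_Hs h]; exact Nat.zero_le _,
      fun c => by rw [glv_tr_Hs h]; exact Nat.zero_le _,
      by rw [glv_tr_Hs h]; exact Nat.zero_le _⟩

theorem lev {b : NF p (Vr q U)} (hb : ∀ a ∈ subs b, IsMod a → Hs (cov ρ0) k a)
    {a : NF p (Vr q U)} (ha : a ∈ subs b) : GF.glv 0 none (tr ρ0 k a) ≤ depth b := by
  classical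
  show _ ≤ dpt none b
  induction b with
  | var S =>
    simp only [subs, mem_singleton] at ha
    subst ha
    exact (lev_key _ hb).1
  | cst c =>
    simp only [subs, mem_singleton] at ha
    subst ha
    exact (lev_key _ hb).1
  | neg b ih =>
    have hk := (lev_key _ hb).1
    simp only [subs, mem_insert] at ha
    rcases ha with rfl | ha
    · exact hk
    · refine (ih (fun x hx => hb x (subs_trans (subs_neg b) hx)) ha).trans ?_
      have h1 := dpt_le' (some none) b
      have h2 : dpt none (neg b) = 1 + dpt (some none) b := by simp [dpt]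
      omega
  | big c n f ih =>
    have hk := (lev_key _ hb).1
    simp only [subs, mem_insert, mem_biUnion, mem_univ, true_and] at ha
    rcases ha with rfl | ⟨j, ha⟩
    · exact hk
    · refine (ih j (fun x hx => hb x (subs_trans (subs_big c f j) hx)) ha).trans ?_
      have h1 := dpt_le' (some (some c)) (f j)
      have h2 : dpt none (big c n f) =
          1 + Finset.univ.sup fun j => dpt (some (some c)) (f j) := by simp [dpt]
      have h3 := Finset.le_sup (f := fun j => dpt (some (some c)) (f j)) (mem_univ j)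
      omega
  | mod i n f ih =>
    have h : Hs (cov ρ0) k (mod i n f) := hb _ (subs_self _) trivial
    rw [glv_tr_Hs (h.sub ha)]
    exact Nat.zero_le _

open Classical in
private noncomputable def Gf (ρ0 : Finset (Finset U)) (k : ℕ) :
    NF p (Vr q U) → Finset (GF (Vr q U))
  | var S => {tr ρ0 k (var S : NF p (Vr q U))}
  | cst b => {tr ρ0 k (cst b : NF p (Vr q U))}
  | neg a => insert (tr ρ0 k (neg a)) (Gf ρ0 k a)
  | big c n f => insert (tr ρ0 k (big c n f))
      (((range (n + 1)).image fun i => foldG c ((List.ofFn fun j => tr ρ0 k (f j)).drop i)) ∪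
        univ.biUnion fun j => Gf ρ0 k (f j))
  | mod i n f => insert (tr ρ0 k (mod i n f)) (univ.biUnion fun j => Gf ρ0 k (f j))

private lemma tr_mem_Gf (a : NF p (Vr q U)) : tr ρ0 k a ∈ Gf ρ0 k a := by
  classical
  cases a <;> simp [Gf]

private lemma Gf_card (a : NF p (Vr q U)) : (Gf ρ0 k a).card + 1 ≤ 3 * size a := by
  classical
  induction a with
  | var S => simp [Gf, size]
  | cst b => simp [Gf, size]
  | neg a ih =>
    simp only [Gf, size]
    have := card_insert_le (tr ρ0 k (neg a)) (Gf ρ0 k a)
    omega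
  | big c n f ih =>
    simp only [Gf, size]
    have h1 := card_insert_le (tr ρ0 k (big c n f))
      (((range (n + 1)).image fun i => foldG c ((List.ofFn fun j => tr ρ0 k (f j)).drop i)) ∪
        univ.biUnion fun j => Gf ρ0 k (f j))
    have h2 := card_union_le
      ((range (n + 1)).image fun i => foldG c ((List.ofFn fun j => tr ρ0 k (f j)).drop i))
        (univ.biUnion fun j => Gf ρ0 k (f j))
    have h3 : ((range (n + 1)).image
        fun i => foldG c ((List.ofFn fun j => tr ρ0 k (f j)).drop i)).card ≤ n + 1 :=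
      card_image_le.trans (by rw [card_range])
    have h4 : (univ.biUnion fun j => Gf ρ0 k (f j)).card ≤ ∑ j, (Gf ρ0 k (f j)).card :=
      card_biUnion_le
    have h5 : ∑ j : Fin n, ((Gf ρ0 k (f j)).card + 1) ≤ ∑ j : Fin n, 3 * size (f j) :=
      sum_le_sum fun j _ => ih j
    rw [sum_add_distrib, sum_const, card_univ, Fintype.card_fin, smul_eq_mul, mul_one,
      ← mul_sum] at h5
    omega
  | mod i n f ih =>
    simp only [Gf, size]
    have h1 := card_insert_le (tr ρ0 k (mod i n f)) (univ.biUnion fun j => Gf ρ0 k (f j))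
    have h4 : (univ.biUnion fun j => Gf ρ0 k (f j)).card ≤ ∑ j, (Gf ρ0 k (f j)).card :=
      card_biUnion_le
    have h5 : ∑ j : Fin n, (Gf ρ0 k (f j)).card ≤ ∑ j : Fin n, 3 * size (f j) :=
      sum_le_sum fun j _ => (Nat.le_succ _).trans (ih j)
    rw [← mul_sum] at h5
    omega

private lemma Gf_subs {a b : NF p (Vr q U)} (h : a ∈ subs b) : tr ρ0 k a ∈ Gf ρ0 k b := by
  classical
  induction b with
  | var S => simp only [subs, mem_singleton] at h; subst h; exact tr_mem_Gf _
  | cst c => simp only [subs, mem_singleton] at h; subst h; exact tr_mem_Gf _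
  | neg b ih =>
    simp only [subs, mem_insert] at h
    rcases h with rfl | h
    · exact tr_mem_Gf _
    · simp only [Gf, mem_insert]; exact Or.inr (ih h)
  | big c n f ih =>
    simp only [subs, mem_insert, mem_biUnion, mem_univ, true_and] at h
    rcases h with rfl | ⟨j, h⟩
    · exact tr_mem_Gf _
    · simp only [Gf, mem_insert, mem_union, mem_biUnion, mem_univ, true_and]
      exact Or.inr (Or.inr ⟨j, ih j h⟩)
  | mod i n f ih =>
    simp only [subs, mem_insert, mem_biUnion, mem_univ, true_and] at h
    rcases h with rfl | ⟨j, h⟩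
    · exact tr_mem_Gf _
    · simp only [Gf, mem_insert, mem_biUnion, mem_univ, true_and]
      exact Or.inr ⟨j, ih j h⟩

/-- the immediate arguments of a gate formula belong to the set -/
private def Cl1 (Γ : Finset (GF (Vr q U))) (x : GF (Vr q U)) : Prop :=
  (∀ y, x = GF.neg y → y ∈ Γ) ∧ (∀ c y z, x = GF.bin c y z → y ∈ Γ ∧ z ∈ Γ)

private lemma Cl1.mono {Γ Γ' : Finset (GF (Vr q U))} (h : Γ ⊆ Γ') {x : GF (Vr q U)}
    (hx : Cl1 Γ x) : Cl1 Γ' x :=
  ⟨fun y hy => h (hx.1 y hy), fun c y z hy => ⟨h (hx.2 c y z hy).1, h (hx.2 c y z hy).2⟩⟩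

private lemma Cl1_vgate (Γ : Finset (GF (Vr q U))) (a : NF p (Vr q U)) :
    Cl1 Γ (vgate ρ0 k a) :=
  ⟨fun y hy => (by unfold vgate at hy; cases hy), fun c y z hy => (by unfold vgate at hy; cases hy)⟩

private lemma Cl1_fold (Γ : Finset (GF (Vr q U))) (c : Bool) {n : ℕ}
    (g : Fin n → GF (Vr q U)) (hg : ∀ j, g j ∈ Γ)
    (hΓ : ∀ i ∈ range (n + 1), foldG c ((List.ofFn g).drop i) ∈ Γ) {i : ℕ} (hi : i < n + 1) :
    Cl1 Γ (foldG c ((List.ofFn g).drop i)) := by
  rcases Nat.lt_or_ge i n with hin | hin
  · have hlen : i < (List.ofFn g).length := by simpa using hin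
    have hdrop : (List.ofFn g).drop i = g ⟨i, hin⟩ :: (List.ofFn g).drop (i + 1) := by
      rw [List.drop_eq_getElem_cons hlen]
      congr 1
      simp
    rw [hdrop]
    have e : foldG c (g ⟨i, hin⟩ :: (List.ofFn g).drop (i + 1)) =
        GF.bin c (g ⟨i, hin⟩) (foldG c ((List.ofFn g).drop (i + 1))) := rfl
    rw [e]
    refine ⟨fun y hy => (by cases hy), fun c' y z hy => ?_⟩
    injection hy with h1 h2 h3
    subst h2 h3
    exact ⟨hg _, hΓ _ (mem_range.mpr (by omega))⟩
  · have hdrop : (List.ofFn g).drop i = [] := by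
      apply List.drop_eq_nil_of_le
      simpa using hin
    rw [hdrop]
    have e : foldG c ([] : List (GF (Vr q U))) = GF.cst (!c) := rfl
    rw [e]
    exact ⟨fun y hy => (by cases hy), fun c' y z hy => (by cases hy)⟩

private lemma Gf_closed (b : NF p (Vr q U)) : ∀ x ∈ Gf ρ0 k b, Cl1 (Gf ρ0 k b) x := by
  classical
  induction b with
  | var S =>
    intro x hx
    simp only [Gf, mem_singleton] at hx
    subst hx
    by_cases h : Hs (cov ρ0) k (var S : NF p (Vr q U))
    · rw [tr_Hs h]; exact Cl1_vgate _ _
    · simp only [tr, if_neg h]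
      exact ⟨fun y hy => (by cases hy), fun c y z hy => (by cases hy)⟩
  | cst c =>
    intro x hx
    simp only [Gf, mem_singleton] at hx
    subst hx
    by_cases h : Hs (cov ρ0) k (cst c : NF p (Vr q U))
    · rw [tr_Hs h]; exact Cl1_vgate _ _
    · simp only [tr, if_neg h]
      exact ⟨fun y hy => (by cases hy), fun c y z hy => (by cases hy)⟩
  | neg b ih =>
    intro x hx
    have hsub : Gf ρ0 k b ⊆ Gf ρ0 k (neg b) := by
      intro y hy; simp only [Gf, mem_insert]; exact Or.inr hy
    have hx' := hx
    simp only [Gf, mem_insert] at hx'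
    rcases hx' with rfl | hx'
    · by_cases h : Hs (cov ρ0) k (neg b)
      · rw [tr_Hs h]; exact Cl1_vgate _ _
      · have e : tr ρ0 k (neg b) = GF.neg (tr ρ0 k b) := by simp only [tr, if_neg h]
        rw [e]
        refine ⟨fun y hy => ?_, fun c y z hy => (by cases hy)⟩
        injection hy with h1
        subst h1
        exact hsub (tr_mem_Gf b)
    · exact (ih x hx').mono hsub
  | big c n f ih =>
    intro x hx
    have hsub : ∀ j, Gf ρ0 k (f j) ⊆ Gf ρ0 k (big c n f) := by
      intro j y hy
      simp only [Gf, mem_insert, mem_union, mem_biUnion, mem_univ, true_and]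
      exact Or.inr (Or.inr ⟨j, hy⟩)
    have hfold : ∀ i ∈ range (n + 1),
        foldG c ((List.ofFn fun j => tr ρ0 k (f j)).drop i) ∈ Gf ρ0 k (big c n f) := by
      intro i hi
      simp only [Gf, mem_insert, mem_union, mem_image]
      exact Or.inr (Or.inl ⟨i, hi, rfl⟩)
    have hfc : ∀ i, i < n + 1 →
        Cl1 (Gf ρ0 k (big c n f)) (foldG c ((List.ofFn fun j => tr ρ0 k (f j)).drop i)) :=
      fun i hi => Cl1_fold _ c (fun j => tr ρ0 k (f j)) (fun j => hsub j (tr_mem_Gf _)) hfold hi
    have hx' := hx
    simp only [Gf, mem_insert, mem_union, mem_image, mem_biUnion, mem_univ, true_and] at hx'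
    rcases hx' with rfl | ⟨i, hi, rfl⟩ | ⟨j, hx'⟩
    · by_cases h : Hs (cov ρ0) k (big c n f)
      · rw [tr_Hs h]; exact Cl1_vgate _ _
      · have e : tr ρ0 k (big c n f) = foldG c ((List.ofFn fun j => tr ρ0 k (f j)).drop 0) := by
          simp only [tr, if_neg h, List.drop_zero]
        rw [e]
        exact hfc 0 (by omega)
    · exact hfc i (mem_range.mp hi)
    · exact (ih j x hx').mono (hsub j)
  | mod i n f ih =>
    intro x hx
    have hsub : ∀ j, Gf ρ0 k (f j) ⊆ Gf ρ0 k (mod i n f) := by
      intro j y hy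
      simp only [Gf, mem_insert, mem_biUnion, mem_univ, true_and]
      exact Or.inr ⟨j, hy⟩
    have hx' := hx
    simp only [Gf, mem_insert, mem_biUnion, mem_univ, true_and] at hx'
    rcases hx' with rfl | ⟨j, hx'⟩
    · by_cases h : Hs (cov ρ0) k (mod i n f)
      · rw [tr_Hs h]; exact Cl1_vgate _ _
      · simp only [tr, if_neg h]
        exact ⟨fun y hy => (by cases hy), fun c y z hy => (by cases hy)⟩
    · exact (ih j x hx').mono (hsub j)

private def Lc (ρ0 : Finset (Finset U)) (k : ℕ) (p : ℕ) (x : GF (Vr q U)) : Prop :=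
  GF.isL 0 x → (GF.vars x).card ≤ 1 ∨ ∃ a : NF p (Vr q U), Hs (cov ρ0) k a ∧ x = vgate ρ0 k a

private lemma Lc_fold (c : Bool) (l : List (GF (Vr q U))) : Lc ρ0 k p (foldG c l) := by
  intro hl
  cases l with
  | nil => left; simp [foldG, GF.vars]
  | cons a l =>
    left
    have e : foldG c (a :: l) = GF.bin c a (foldG c l) := rfl
    rw [e] at hl ⊢
    have : (GF.vars (GF.bin c a (foldG c l))).card ≤ 0 := hl
    omega

private lemma Lc_tr (a : NF p (Vr q U)) : Lc ρ0 k p (tr ρ0 k a) := by
  classical
  by_cases h : Hs (cov ρ0) k a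
  · intro _
    exact Or.inr ⟨a, h, tr_Hs h⟩
  · cases a with
    | var S => simp only [tr, if_neg h]; intro _; left; simp [GF.vars]
    | cst b => simp only [tr, if_neg h]; intro _; left; simp [GF.vars]
    | neg a =>
      simp only [tr, if_neg h]
      intro hl
      left
      have : (GF.vars (GF.neg (tr ρ0 k a))).card ≤ 0 := hl
      omega
    | big c n f => simp only [tr, if_neg h]; exact Lc_fold _ _
    | mod i n f => simp only [tr, if_neg h]; intro _; left; simp [GF.vars]

private lemma Gf_Lc (b : NF p (Vr q U)) : ∀ x ∈ Gf ρ0 k b, Lc ρ0 k p x := by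
  classical
  induction b with
  | var S => intro x hx; simp only [Gf, mem_singleton] at hx; subst hx; exact Lc_tr _
  | cst c => intro x hx; simp only [Gf, mem_singleton] at hx; subst hx; exact Lc_tr _
  | neg b ih =>
    intro x hx
    simp only [Gf, mem_insert] at hx
    rcases hx with rfl | hx
    · exact Lc_tr _
    · exact ih x hx
  | big c n f ih =>
    intro x hx
    simp only [Gf, mem_insert, mem_union, mem_image, mem_biUnion, mem_univ, true_and] at hx
    rcases hx with rfl | ⟨i, hi, rfl⟩ | ⟨j, hx⟩
    · exact Lc_tr _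
    · exact Lc_fold _ _
    · exact ih j x hx
  | mod i n f ih =>
    intro x hx
    simp only [Gf, mem_insert, mem_biUnion, mem_univ, true_and] at hx
    rcases hx with rfl | ⟨j, hx⟩
    · exact Lc_tr _
    · exact ih j x hx

theorem exists_Gam (pi : List (NF p (Vr q U))) :
    ∃ Γ : Finset (GF (Vr q U)), GF.GClosed Γ ∧
      (∀ b ∈ pi, ∀ a ∈ subs b, tr ρ0 k a ∈ Γ) ∧ Γ.card ≤ 3 * (pi.map size).sum ∧
      (∀ x ∈ Γ, GF.isL 0 x → (GF.vars x).card ≤ 1 ∨
        ∃ a : NF p (Vr q U), Hs (cov ρ0) k a ∧ x = vgate ρ0 k a) := by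
  classical
  induction pi with
  | nil =>
    refine ⟨∅, ⟨fun a ha => absurd ha (notMem_empty _), fun c a b ha => absurd ha (notMem_empty _)⟩,
      fun b hb => absurd hb (by simp), by simp, fun x hx => absurd hx (notMem_empty _)⟩
  | cons b l ih =>
    obtain ⟨Γ, h1, h2, h3, h4⟩ := ih
    refine ⟨Gf ρ0 k b ∪ Γ, ⟨?_, ?_⟩, ?_, ?_, ?_⟩
    · intro a ha
      rcases mem_union.mp ha with ha | ha
      · exact mem_union_left _ ((Gf_closed b _ ha).1 a rfl)
      · exact mem_union_right _ (h1.1 a ha)
    · intro c a a' ha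
      rcases mem_union.mp ha with ha | ha
      · have := (Gf_closed b _ ha).2 c a a' rfl
        exact ⟨mem_union_left _ this.1, mem_union_left _ this.2⟩
      · have := h1.2 c a a' ha
        exact ⟨mem_union_right _ this.1, mem_union_right _ this.2⟩
    · intro b' hb' a ha
      rcases List.mem_cons.mp hb' with rfl | hb'
      · exact mem_union_left _ (Gf_subs ha)
      · exact mem_union_right _ (h2 b' hb' a ha)
    · have h5 := card_union_le (Gf ρ0 k b) Γ
      have h6 := Gf_card (ρ0 := ρ0) (k := k) b
      rw [List.map_cons, List.sum_cons, mul_add]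
      omega
    · intro x hx
      rcases mem_union.mp hx with hx | hx
      · exact Gf_Lc b x hx
      · exact h4 x hx

end NF

end Pool.Agent.Work.MP_c04246_lc
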