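import Mathlib
import Pool.Agent.Work.MP_c04246_lc.Y.Lev

set_option autoImplicit false
set_option linter.unusedSectionVars false
set_option linter.unusedSimpArgs false
set_option linter.unusedVariables false
set_option linter.unusedDecidableInType false
set_option linter.unusedFintypeInType false

/- MODULE Run (S-M). The context in which all formulas of a proof are decided by few queries, and the
extension of worlds.
* exists_ext: as GF.run_all in LFinal.lean (copy its proof), keeping the bound for nun: decide all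
  formulas of the finite set F ⊆ Gam0 (the translations), at most kappa D queries each, each query
  takes q points (Dec.run gives nun tau ≤ nun tau' + q * h).
* Gd0_of_Gd: monotone: Gd a e tau → Gd a e tau' for tau ⊆ tau' (certificates).
-/
namespace Pool.Agent.Work.MP_c04246_lc

open Finset

namespace NF

variable {p q k D : ℕ} {U : Type} [Fintype U] [DecidableEq U] {ρ0 τ τ' : Finset (Finset U)}
  {ρ : ℕ → Finset (Finset U)} {κ : ℕ → ℕ} {Γ0 : Finset (NF p (Vr q U))}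

/-- the final context -/
structure GCtx (q k D : ℕ) (ρ0 : Finset (Finset U)) (ρ : ℕ → Finset (Finset U)) (κ : ℕ → ℕ)
    (Γ0 : Finset (NF p (Vr q U))) : Prop where
  ctx : Ctx q k ρ0
  h0 : ρ 0 = ρ0
  hPP : PP q (ρ D)
  hmono : ∀ j ≤ D, ρ j ⊆ ρ D
  hκm : Monotone κ
  hk : k ≤ κ 0
  hr : q * (κ 0 + 1) ≤ nun ρ0
  hsub : ∀ a ∈ Γ0, subs a ⊆ Γ0
  hmod : ∀ a ∈ Γ0, IsMod a → Hs (cov ρ0) k a
  hlev : ∀ a ∈ Γ0, GF.glv 0 none (tr ρ0 k a) ≤ D
  hGG : ∀ a ∈ Γ0, GF.GG 0 q ρ κ (tr ρ0 k a)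

lemma GCtx.base (G : GCtx q k D ρ0 ρ κ Γ0) : ρ0 ⊆ ρ D := by
  have := G.hmono 0 (Nat.zero_le _)
  rwa [G.h0] at this

lemma Gd_mono {m : ℕ} {a : GF (Vr q U)} {e : Bool} (h : GF.Gd m q ρ κ a e τ) (hs : τ ⊆ τ') :
    GF.Gd m q ρ κ a e τ' := by
  obtain ⟨t, ht, htτ⟩ := h
  exact ⟨t, ht, htτ.trans hs⟩

private lemma exists_ext_aux (G : GCtx q k D ρ0 ρ κ Γ0) (F : Finset (NF p (Vr q U))) :
    F ⊆ Γ0 → ∀ τ, PP q τ → ρ D ⊆ τ → q * (F.card * κ D) ≤ nun τ →
    ∃ τ', τ ⊆ τ' ∧ PP q τ' ∧ nun τ ≤ nun τ' + q * (F.card * κ D) ∧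
      ∀ a ∈ F, ∃ e, GF.Gd 0 q ρ κ (tr ρ0 k a) e τ' := by
  classical
  have hq : 0 < q := by have := G.ctx.hq; omega
  induction F using Finset.induction_on with
  | empty =>
    intro _ τ hτ _ _
    exact ⟨τ, Subset.rfl, hτ, by simp, fun a ha => absurd ha (notMem_empty a)⟩
  | insert a F ha ih =>
    intro hF τ hτ hρ hn
    rw [card_insert_of_notMem ha] at hn ⊢
    have hsplit : q * ((F.card + 1) * κ D) = q * (F.card * κ D) + q * κ D := by ring
    rw [hsplit] at hn ⊢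
    have haΓ := hF (mem_insert_self _ _)
    have h1 := G.hlev a haΓ
    have h2 := G.hGG a haΓ
    have h3 := (Dec.mono_ctx GF.GS_up h2 τ ((G.hmono _ h1).trans hρ) hτ).mono_h _ (G.hκm h1)
    obtain ⟨τ1, hs1, hPP1, hL1, hn1⟩ := h3.run hq hτ (by omega)
    obtain ⟨τ2, hs2, hPP2, hn2, hall⟩ := ih (fun x hx => hF (mem_insert_of_mem hx)) τ1 hPP1
      (hρ.trans hs1) (by omega)
    refine ⟨τ2, hs1.trans hs2, hPP2, by omega, fun x hx => ?_⟩
    rcases mem_insert.mp hx with rfl | hx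
    · exact GF.GS_up τ1 τ2 hL1 hs2
    · exact hall x hx

/-- all formulas of `F` can be decided in an extension -/
theorem exists_ext (G : GCtx q k D ρ0 ρ κ Γ0) (F : Finset (NF p (Vr q U))) (hF : F ⊆ Γ0)
    (hτ : PP q τ) (hρ : ρ D ⊆ τ) (hn : q * (F.card * κ D) ≤ nun τ) :
    ∃ τ', τ ⊆ τ' ∧ PP q τ' ∧ nun τ ≤ nun τ' + q * (F.card * κ D) ∧
      ∀ a ∈ F, ∃ e, GF.Gd 0 q ρ κ (tr ρ0 k a) e τ' :=
  exists_ext_aux G F hF τ hτ hρ hn

end NF

end Pool.Agent.Work.MP_c04246_lc
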