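import Mathlib
import Pool.Agent.Work.MP_c04246_lc.Y.ExA

set_option autoImplicit false
set_option linter.unusedSectionVars false
set_option linter.unusedSimpArgs false
set_option linter.unusedVariables false
set_option linter.unusedDecidableInType false
set_option linter.unusedFintypeInType false

/- MODULE ExB (M). Harmonicity of the virtual expectation.
* Harm_Ex: if F is good (Gd0: F tau depends only on the parts meeting B once B is covered), then
  G = Ex q B F satisfies G tau = avg q tau u G for all u ∉ cov tau as soon as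
  nun tau ≥ q * (B.card + 1). Induction on the number j of points of B \ cov tau, claim P(j): for all
  tau with PP q tau, rho0 ⊆ tau, (B \ cov tau).card ≤ j, q * (j + 1) ≤ nun tau and all u ∉ cov tau.
  j = 0: B ⊆ cov tau; Ex_cov for tau and for insert S tau (S ∈ adm); F tau = F (insert S tau) by Gd0;
  avg_const (q ≤ nun tau).
  j + 1: choose b ∈ B \ cov tau. If b = u: Ex_step. If b ≠ u: by Ex_step
  G tau = avg over T ∋ b of G (insert T tau). For T with u ∈ T leave it; for T with u ∉ T apply P(j)
  to insert T tau (B \ cov gets smaller by b, nun decreases by q). Likewise for the right-hand side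
  avg over S ∋ u of G (insert S tau): for S with b ∈ S leave it, for b ∉ S use Ex_step at
  insert S tau with b. The parts T ∋ b with u ∈ T are the parts S ∋ u with b ∈ S; the remaining
  double sums are over the ordered pairs (S, T), u ∈ S, b ∈ T, S, T, cov tau pairwise disjoint of
  size q (membership in adm of insert), with the same constant
  (choose (N-1) (q-1))^-1 * (choose (N-q-1) (q-1))^-1 and insert S (insert T tau) = insert T (insert
  S tau): sum_comm' / sum_sigma'.
* Ex_harm: if G is harmonic in all worlds tau with R ≤ nun tau, then Ex q B G tau = G tau whenever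
  R + q * B.card ≤ nun tau: induction on (B \ cov tau).card: 0 by Ex_cov; else Ex_step at
  b ∈ B \ cov tau, the induction hypothesis for insert S tau, and harmonicity.
* harm_add, harm_sum, harm_const: linearity of avg.
-/
namespace Pool.Agent.Work.MP_c04246_lc

open Finset

namespace NF

section

variable {q R : ℕ} {U : Type} [Fintype U] [DecidableEq U] {B : Finset U}
  {ρ0 τ : Finset (Finset U)} {u : U}

private lemma sub_card_lt {b : U} (hb : b ∈ B) (hb' : b ∉ cov τ) {S : Finset U}
    (hS : b ∈ S) : (B \ cov (insert S τ)).card < (B \ cov τ).card := by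
  apply card_lt_card
  rw [cov_insert]
  refine ⟨?_, ?_⟩
  · intro v hv
    rw [mem_sdiff, mem_union, not_or] at hv
    exact mem_sdiff.mpr ⟨hv.1, hv.2.2⟩
  · intro h
    have := h (mem_sdiff.mpr ⟨hb, hb'⟩)
    rw [mem_sdiff, mem_union, not_or] at this
    exact this.2.1 hS

private lemma swap_sum {b : U} (G : Finset (Finset U) → ℚ) (hbu : b ≠ u)
    (c : ℚ) :
    ∑ T ∈ (adm q τ b).filter (fun T => u ∉ T), c * ∑ S ∈ adm q (insert T τ) u,
        G (insert S (insert T τ)) =
      ∑ S ∈ (adm q τ u).filter (fun S => b ∉ S), c * ∑ T ∈ adm q (insert S τ) b,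
        G (insert T (insert S τ)) := by
  rw [← mul_sum, ← mul_sum]
  congr 1
  have h := sum_comm' (s := (adm q τ b).filter (fun T => u ∉ T))
    (t := fun T => adm q (insert T τ) u) (t' := (adm q τ u).filter (fun S => b ∉ S))
    (s' := fun S => adm q (insert S τ) b) (f := fun T S => G (insert S (insert T τ))) ?_
  · rw [h]
    apply sum_congr rfl
    intro S _
    apply sum_congr rfl
    intro T _
    rw [insert_comm]
  · intro T S
    simp only [mem_filter, mem_adm, Adm, cov_insert, disjoint_union_right]
    constructor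
    · rintro ⟨⟨⟨h1, h2, h3⟩, h4⟩, h5, h6, h7, h8⟩
      exact ⟨⟨h1, h2, h7.symm, h3⟩, ⟨h5, h6, h8⟩, fun h => disjoint_left.mp h7 h h1⟩
    · rintro ⟨⟨h1, h2, h7, h3⟩, ⟨h5, h6, h8⟩, h9⟩
      exact ⟨⟨⟨h1, h2, h3⟩, fun h => disjoint_left.mp h7 h h5⟩, h5, h6, h7.symm, h8⟩

private lemma harm_aux (hq : 0 < q) {F : Finset (Finset U) → ℚ} (hF : Gd0 q ρ0 B F) (j : ℕ) :
    ∀ τ : Finset (Finset U), PP q τ → ρ0 ⊆ τ → (B \ cov τ).card ≤ j → q * (j + 1) ≤ nun τ →
      ∀ u, u ∉ cov τ → Ex q B F τ = avg q τ u (Ex q B F) := by
  induction j with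
  | zero =>
    intro τ hτ hρ hB hn u hu
    have hB' : B ⊆ cov τ := by
      rw [← sdiff_eq_empty_iff_subset, ← card_eq_zero]
      omega
    rw [Ex_cov hτ hB']
    symm
    refine avg_const hq hu (by omega) _ _ ?_
    intro S hS
    have hPP : PP q (insert S τ) := (mem_adm.mp hS).PP hτ
    rw [Ex_cov hPP (hB'.trans (cov_mono (subset_insert _ _)))]
    exact (hF τ (insert S τ) hPP hρ (subset_insert _ _) hB').symm
  | succ j ih =>
    intro τ hτ hρ hB hn u hu
    have hn2 : q * (j + 1) + q ≤ nun τ := by
      rw [Nat.mul_succ] at hn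
      exact hn
    by_cases hB' : B ⊆ cov τ
    · refine ih τ hτ hρ ?_ (by omega) u hu
      rw [sdiff_eq_empty_iff_subset.mpr hB', card_empty]
      omega
    · obtain ⟨b, hb, hb'⟩ := not_subset.mp hB'
      by_cases hbu : b = u
      · subst hbu
        exact Ex_step hq hτ hb hb' F
      · rw [Ex_step hq hτ hb hb' F]
        unfold avg
        congr 1
        rw [← sum_filter_add_sum_filter_not (adm q τ b) (fun T => u ∈ T),
          ← sum_filter_add_sum_filter_not (adm q τ u) (fun S => b ∈ S)]
        congr 1
        · apply sum_congr _ fun _ _ => rfl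
          ext T
          simp only [mem_filter, mem_adm, Adm]
          tauto
        · set c : ℚ := (((nun τ - q - 1).choose (q - 1) : ℕ) : ℚ)⁻¹ with hc
          have e1 : ∑ T ∈ (adm q τ b).filter (fun T => ¬ u ∈ T), Ex q B F (insert T τ) =
              ∑ T ∈ (adm q τ b).filter (fun T => u ∉ T), c * ∑ S ∈ adm q (insert T τ) u,
                Ex q B F (insert S (insert T τ)) := by
            apply sum_congr rfl
            intro T hT
            rw [mem_filter, mem_adm] at hT
            have hPP : PP q (insert T τ) := hT.1.PP hτ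
            have hnn := nun_insert hτ hT.1
            have hlt := sub_card_lt hb hb' hT.1.1
            have := ih (insert T τ) hPP (hρ.trans (subset_insert _ _)) (by omega) (by omega) u
              (by
                rw [cov_insert, mem_union, not_or]
                exact ⟨hT.2, hu⟩)
            rw [this]
            unfold avg
            rw [hc]
            congr 4
            omega
          have e2 : ∑ S ∈ (adm q τ u).filter (fun S => ¬ b ∈ S), Ex q B F (insert S τ) =
              ∑ S ∈ (adm q τ u).filter (fun S => b ∉ S), c * ∑ T ∈ adm q (insert S τ) b,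
                Ex q B F (insert T (insert S τ)) := by
            apply sum_congr rfl
            intro S hS
            rw [mem_filter, mem_adm] at hS
            have hPP : PP q (insert S τ) := hS.1.PP hτ
            have hnn := nun_insert hτ hS.1
            have := Ex_step hq hPP hb (by
                rw [cov_insert, mem_union, not_or]
                exact ⟨hS.2, hb'⟩) F
            rw [this]
            unfold avg
            rw [hc]
            congr 4
            omega
          rw [e1, e2]
          exact swap_sum _ hbu c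

theorem Harm_Ex (hq : 0 < q) {F : Finset (Finset U) → ℚ} (hF : Gd0 q ρ0 B F) :
    Harm q (q * (B.card + 1)) ρ0 (Ex q B F) := by
  intro τ hτ hρ hn u hu
  exact harm_aux hq hF B.card τ hτ hρ (card_le_card sdiff_subset) hn u hu

lemma Harm.mono {R' : ℕ} (hR : R ≤ R') {G : Finset (Finset U) → ℚ} (h : Harm q R ρ0 G) :
    Harm q R' ρ0 G := fun τ hτ hρ hn u hu => h τ hτ hρ (hR.trans hn) u hu

lemma Harm.const (hq : 0 < q) (c : ℚ) : Harm q q ρ0 (fun _ : Finset (Finset U) => c) := by
  intro τ hτ hρ hn u hu
  exact (avg_const hq hu hn _ c fun _ _ => rfl).symm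

lemma Harm.sum {ι : Type} (s : Finset ι) {G : ι → Finset (Finset U) → ℚ}
    (h : ∀ i ∈ s, Harm q R ρ0 (G i)) : Harm q R ρ0 (fun σ => ∑ i ∈ s, G i σ) := by
  intro τ hτ hρ hn u hu
  have h1 : ∑ i ∈ s, G i τ = ∑ i ∈ s, avg q τ u (G i) :=
    sum_congr rfl fun i hi => h i hi τ hτ hρ hn u hu
  show ∑ i ∈ s, G i τ = _
  rw [h1]
  unfold avg
  rw [← mul_sum, sum_comm]

theorem Ex_harm (hq : 0 < q) {G : Finset (Finset U) → ℚ} (hG : Harm q R ρ0 G) (hτ : PP q τ)
    (hρ : ρ0 ⊆ τ) (hn : R + q * B.card ≤ nun τ) : Ex q B G τ = G τ := by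
  have key : ∀ (j : ℕ) (τ : Finset (Finset U)), PP q τ → ρ0 ⊆ τ → (B \ cov τ).card ≤ j →
      R + q * j ≤ nun τ → Ex q B G τ = G τ := by
    intro j
    induction j with
    | zero =>
      intro τ hτ hρ hB hn
      refine Ex_cov hτ ?_ G
      rw [← sdiff_eq_empty_iff_subset, ← card_eq_zero]
      omega
    | succ j ih =>
      intro τ hτ hρ hB hn
      by_cases hB' : B ⊆ cov τ
      · exact Ex_cov hτ hB' G
      · obtain ⟨b, hb, hb'⟩ := not_subset.mp hB'
        rw [Nat.mul_succ] at hn
        rw [Ex_step hq hτ hb hb' G, hG τ hτ hρ (by omega) b hb']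
        refine avg_congr fun S hS => ?_
        have hS' := mem_adm.mp hS
        have hnn := nun_insert hτ hS'
        have hlt := sub_card_lt hb hb' hS'.1
        exact ih (insert S τ) (hS'.PP hτ) (hρ.trans (subset_insert _ _)) (by omega) (by omega)
  exact key B.card τ hτ hρ (card_le_card sdiff_subset) hn

end

end NF

end Pool.Agent.Work.MP_c04246_lc
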