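import Mathlib
import Pool.Agent.Work.MP_c04246_lc.Y.ExB

set_option autoImplicit false
set_option linter.unusedSectionVars false
set_option linter.unusedSimpArgs false
set_option linter.unusedVariables false
set_option linter.unusedDecidableInType false
set_option linter.unusedFintypeInType false

/- MODULE ExC (S). Positivity. All weights on Mn q B tau are positive (wt_pos with Mn_card) and their
sum is 1 if q * (B.card + 1) ≤ nun tau: apply Ex_harm to the constant function 1 (Harm.const, with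
rho0 = ∅ and R = q). Then for 0 ≤ F ≤ 1 everything is sum_nonneg, sum_le_sum,
sum_eq_zero_iff_of_nonneg; for Ex_one_iff apply Ex_zero_iff to 1 - F.
-/
namespace Pool.Agent.Work.MP_c04246_lc

open Finset

namespace NF

section

variable {q : ℕ} {U : Type} [Fintype U] [DecidableEq U] {B : Finset U} {τ : Finset (Finset U)}

lemma Ex_const (hq : 0 < q) (hτ : PP q τ) (hn : q * (B.card + 1) ≤ nun τ) (c : ℚ) :
    Ex q B (fun _ => c) τ = c := by
  refine Ex_harm (ρ0 := ∅) hq (Harm.const hq c) hτ (empty_subset _) ?_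
  rw [Nat.mul_succ] at hn
  omega

lemma Ex_nonneg {F : Finset (Finset U) → ℚ} (h : ∀ σ, 0 ≤ F σ) : 0 ≤ Ex q B F τ := by
  unfold Ex
  exact sum_nonneg fun σ _ => mul_nonneg (wt_nonneg _ _ _) (h σ)

lemma Ex_le_one (hq : 0 < q) (hτ : PP q τ) (hn : q * (B.card + 1) ≤ nun τ)
    {F : Finset (Finset U) → ℚ} (h : ∀ σ, F σ ≤ 1) : Ex q B F τ ≤ 1 := by
  rw [← Ex_const (B := B) hq hτ hn 1]
  unfold Ex
  exact sum_le_sum fun σ _ => mul_le_mul_of_nonneg_left (h σ) (wt_nonneg _ _ _)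

lemma Ex_zero_iff (hq : 0 < q) (hτ : PP q τ) {F : Finset (Finset U) → ℚ} (h : ∀ σ, 0 ≤ F σ) :
    Ex q B F τ = 0 ↔ ∀ σ ∈ Mn q B τ, F σ = 0 := by
  unfold Ex
  rw [sum_eq_zero_iff_of_nonneg fun σ _ => mul_nonneg (wt_nonneg _ _ _) (h σ)]
  refine forall₂_congr fun σ hσ => ?_
  have h1 : 0 < wt q (nun τ) (σ.card - τ.card) := wt_pos hq (Mn_card hτ hσ).2.2.2.2.2
  rw [mul_eq_zero]
  exact ⟨fun h => h.resolve_left h1.ne', fun h => Or.inr h⟩

lemma Ex_one_iff (hq : 0 < q) (hτ : PP q τ) (hn : q * (B.card + 1) ≤ nun τ)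
    {F : Finset (Finset U) → ℚ} (h : ∀ σ, F σ ≤ 1) :
    Ex q B F τ = 1 ↔ ∀ σ ∈ Mn q B τ, F σ = 1 := by
  have h1 := Ex_zero_iff (B := B) (F := fun σ => 1 - F σ) hq hτ fun σ => sub_nonneg.mpr (h σ)
  have h2 : Ex q B (fun σ => 1 - F σ) τ + Ex q B F τ = 1 := by
    rw [← Ex_add]
    have : (fun σ => (1 - F σ) + F σ) = fun _ => (1 : ℚ) := by
      funext σ
      ring
    rw [this]
    exact Ex_const hq hτ hn 1
  have h3 : Ex q B F τ = 1 ↔ Ex q B (fun σ => 1 - F σ) τ = 0 := by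
    constructor
    · intro h
      linarith
    · intro h
      linarith
  rw [h3, h1]
  refine forall₂_congr fun σ hσ => ?_
  constructor
  · intro h
    linarith
  · intro h
    linarith

end

end NF

end Pool.Agent.Work.MP_c04246_lc
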