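import Mathlib
import Pool.Agent.Work.MP_c04246_lc.Y.Vgood
import Pool.Agent.Work.MP_c04246_lc.Y.ExC

set_option autoImplicit false
set_option linter.unusedSectionVars false
set_option linter.unusedSimpArgs false
set_option linter.unusedVariables false
set_option linter.unusedDecidableInType false
set_option linter.unusedFintypeInType false

/- MODULE MuH (M). The virtual probability mu a tau = Ex q (ms a) (indicator of V a) tau.
* mu_nonneg: Ex_nonneg. mu_le_one, mu_zero_iff, mu_one_iff: ExC with |ms| ≤ k (Ctx.spec),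
  q (k+1) ≤ nun tau.
* mu_cov: Ex_cov. mu_harm: Harm_Ex (V_good gives Gd0 of the indicator) and Harm.mono.
* sum_inv: let f be given with mult f invariant under the permutations fixing cov tau. Claim:
  sum_j mu (f j) tau = sum_j mu (f j) tau' for tau ⊆ tau', q k ≤ nun tau'. Induction on
  (tau' \ tau).card: if tau ≠ tau' take S ∈ tau' \ tau, u ∈ S; u ∉ cov tau, S ∈ adm q tau u,
  insert S tau ⊆ tau', nun tau ≥ nun tau' + q ≥ q (k+1). By harmonicity of each mu (f j) at tau and u,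
  sum_j mu (f j) tau = avg over T ∈ adm of G (insert T tau), G := sum_j mu (f j) (Harm.sum). For each
  T ∈ adm q tau u: G (insert T tau) = G (insert S tau): exists_perm_adm gives pi fixing cov tau with
  mw pi (insert S tau) = insert T tau; sum_j mu (f j) (insert T tau) = sum over classes z of
  mult f z * muC z (insert T tau) (sum_mult with h z := the value on a representative; mu respects
  Same, so use Quotient.lift or Quotient.out), reindex z ↦ pi • z using mult f (pi • z) = mult f z and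
  mu_act. It may be easier to do: the functions j ↦ cl (f j) and j ↦ cl (map (mv pi) (f j)) have the
  same multiplicities (mult_map and the invariance), so by cl_big_iff Same (big true n f)
  (big true n (fun j => map (mv pi) (f j))), and asum_same, asum_act: asum of big is sum_j mu. Then
  avg_const gives sum_j mu (f j) tau = G (insert S tau), and induction for insert S tau ⊆ tau'
  (the invariance under permutations fixing the larger set cov (insert S tau) is weaker).
* V_big, V_mod: unfold V; the arguments of the sums are mu (f j) (red ...) by definition; sum_inv from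
  red rho0 ms tau to tau: a permutation fixing cov (red ..) ⊇ cov rho0 ∪ ms fixes the class
  (Ctx.spec), so mult f is invariant (smul_big_iff, smul_mod_iff).
* V_neg, V_cst by definition.
-/
namespace Pool.Agent.Work.MP_c04246_lc

open Finset

namespace NF

variable {p q k : ℕ} {U : Type} [Fintype U] [DecidableEq U] {ρ0 τ τ' σ : Finset (Finset U)}
  {π : Equiv.Perm U}

lemma mu_nonneg (a : NF p (Vr q U)) : 0 ≤ mu ρ0 k a τ := by
  unfold mu
  exact Ex_nonneg fun σ => by split_ifs <;> norm_num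

private lemma room (C : Ctx q k ρ0) {a : NF p (Vr q U)} (h : Hs (cov ρ0) k a)
    (hn : q * (k + 1) ≤ nun τ) : q * ((ms (cov ρ0) k (cl a)).card + 1) ≤ nun τ :=
  le_trans (Nat.mul_le_mul_left _ (Nat.add_le_add_right (C.spec h).2 1)) hn

private lemma hq0 (C : Ctx q k ρ0) : 0 < q := by
  have := C.hq
  omega

lemma mu_le_one (C : Ctx q k ρ0) {a : NF p (Vr q U)} (h : Hs (cov ρ0) k a) (hτ : PP q τ)
    (hn : q * (k + 1) ≤ nun τ) : mu ρ0 k a τ ≤ 1 := by
  unfold mu
  exact Ex_le_one (hq0 C) hτ (room C h hn) fun σ => by split_ifs <;> norm_num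

lemma mu_zero_iff (C : Ctx q k ρ0) {a : NF p (Vr q U)} (hτ : PP q τ) :
    mu ρ0 k a τ = 0 ↔ ∀ σ ∈ Mn q (ms (cov ρ0) k (cl a)) τ, V ρ0 k a σ = false := by
  unfold mu
  rw [Ex_zero_iff (hq0 C) hτ fun σ => by split_ifs <;> norm_num]
  refine forall_congr' fun σ => forall_congr' fun _ => ?_
  cases V ρ0 k a σ <;> simp

lemma mu_one_iff (C : Ctx q k ρ0) {a : NF p (Vr q U)} (h : Hs (cov ρ0) k a) (hτ : PP q τ)
    (hn : q * (k + 1) ≤ nun τ) :
    mu ρ0 k a τ = 1 ↔ ∀ σ ∈ Mn q (ms (cov ρ0) k (cl a)) τ, V ρ0 k a σ = true := by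
  unfold mu
  rw [Ex_one_iff (hq0 C) hτ (room C h hn) fun σ => by split_ifs <;> norm_num]
  refine forall_congr' fun σ => forall_congr' fun _ => ?_
  cases V ρ0 k a σ <;> simp

lemma mu_cov {a : NF p (Vr q U)} (hτ : PP q τ) (hB : ms (cov ρ0) k (cl a) ⊆ cov τ) :
    mu ρ0 k a τ = if V ρ0 k a τ = true then 1 else 0 :=
  Ex_cov hτ hB _

lemma mu_harm (C : Ctx q k ρ0) {a : NF p (Vr q U)} (h : Hs (cov ρ0) k a) :
    Harm q (q * (k + 1)) ρ0 (mu ρ0 k a) := by
  have h1 : Gd0 q ρ0 (ms (cov ρ0) k (cl a))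
      (fun σ => if V ρ0 k a σ = true then (1 : ℚ) else 0) := by
    intro τ τ' h1 h2 h3 h4
    show (if V ρ0 k a τ = true then (1 : ℚ) else 0) = if V ρ0 k a τ' = true then (1 : ℚ) else 0
    rw [V_good C h τ τ' h1 h2 h3 h4]
  exact Harm.mono (Nat.mul_le_mul_left _ (Nat.add_le_add_right (C.spec h).2 1))
    (Harm_Ex (hq0 C) h1)

private lemma nun_anti {σ τ : Finset (Finset U)} (h : σ ⊆ τ) : nun τ ≤ nun σ := by
  unfold nun
  exact card_le_card (sdiff_subset_sdiff Subset.rfl (cov_mono h))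

theorem sum_inv (C : Ctx q k ρ0) {n : ℕ} {f : Fin n → NF p (Vr q U)}
    (hf : ∀ j, Hs (cov ρ0) k (f j)) (hτ' : PP q τ') (hρ : ρ0 ⊆ τ) (h : τ ⊆ τ')
    (hn : q * k ≤ nun τ')
    (hinv : ∀ π : Equiv.Perm U, Fx (cov τ) π → ∀ z, mult f (π • z) = mult f z) :
    ∑ j, mu ρ0 k (f j) τ = ∑ j, mu ρ0 k (f j) τ' := by
  obtain ⟨m, hm⟩ : ∃ m, (τ' \ τ).card = m := ⟨_, rfl⟩
  induction m generalizing τ with
  | zero =>
    have h1 : τ' ⊆ τ := sdiff_eq_empty_iff_subset.1 (card_eq_zero.1 hm)
    rw [h.antisymm h1]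
  | succ m ih =>
    obtain ⟨S, hS⟩ : (τ' \ τ).Nonempty := card_pos.1 (by omega)
    obtain ⟨hS', hSτ⟩ := mem_sdiff.1 hS
    have hSq : S.card = q := hτ'.1 S hS'
    obtain ⟨u, hu⟩ : S.Nonempty := card_pos.1 (by rw [hSq]; exact hq0 C)
    have hdis : ∀ T ∈ τ, Disjoint S T := fun T hT =>
      hτ'.2 S hS' T (h hT) fun e => hSτ (e ▸ hT)
    have huc : u ∉ cov τ := by
      intro hc
      obtain ⟨T, hT, huT⟩ := mem_cov.1 hc
      exact disjoint_left.1 (hdis T hT) hu huT
    have hadm : S ∈ adm q τ u := mem_adm.2 ⟨hu, hSq, disjoint_cov_iff.2 hdis⟩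
    have hτ : PP q τ := hτ'.mono h
    have hins : insert S τ ⊆ τ' := insert_subset hS' h
    have hnun := nun_ins hτ hadm
    have hn1 := nun_anti hins
    have hn2 : q * (k + 1) ≤ nun τ := by
      rw [mul_add, mul_one]
      omega
    have hharm : Harm q (q * (k + 1)) ρ0 (fun σ => ∑ j, mu ρ0 k (f j) σ) :=
      Harm.sum univ fun j _ => mu_harm C (hf j)
    have hstep := hharm τ hτ hρ hn2 u huc
    have hall : ∀ T ∈ adm q τ u, (fun σ => ∑ j, mu ρ0 k (f j) σ) (insert T τ) =
        ∑ j, mu ρ0 k (f j) (insert S τ) := by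
      intro T hT
      obtain ⟨π, hπ, hmw⟩ := exists_perm_adm hadm hT hτ
      have hcl : cl (big true n f) = cl (big true n fun j => map (mv π) (f j)) := by
        rw [cl_big_iff]
        intro z
        have h1 := mult_map π f (π⁻¹ • z)
        rw [smul_inv_smul] at h1
        rw [h1]
        exact (hinv π⁻¹ hπ.inv z).symm
      have h2 := asum_same (ρ0 := ρ0) (k := k) (cl_eq.1 hcl)
      have h3 := asum_act (k := k) (hπ.mono (cov_mono hρ)) (big true n f) (insert S τ)
      rw [hmw] at h3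
      have h4 := congrFun h2 (insert T τ)
      exact h4.trans h3
    have hq' : q ≤ nun τ := by
      rw [mul_add, mul_one] at hn2
      omega
    have h5 := avg_const (hq0 C) huc hq' (fun σ => ∑ j, mu ρ0 k (f j) σ) _ hall
    have h6 : ∑ j, mu ρ0 k (f j) τ = ∑ j, mu ρ0 k (f j) (insert S τ) := hstep.trans h5
    rw [h6]
    refine ih (hρ.trans (subset_insert _ _)) hins ?_ ?_
    · intro π hπ
      exact hinv π (hπ.mono (cov_mono (subset_insert _ _)))
    · have h7 : τ' \ insert S τ = (τ' \ τ).erase S := by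
        ext T
        simp only [mem_sdiff, mem_insert, mem_erase, not_or]
        tauto
      rw [h7, card_erase_of_mem hS, hm]
      rfl

/-- invariance of the multiplicities, from a covered least support -/
lemma inv_of_big (C : Ctx q k ρ0) {n : ℕ} {c : Bool} {f : Fin n → NF p (Vr q U)}
    (h : Hs (cov ρ0) k (big c n f)) (hρ : ρ0 ⊆ τ)
    (hB : ms (cov ρ0) k (cl (big c n f)) ⊆ cov τ) (hπ : Fx (cov τ) π) (z : Cl p (Vr q U)) :
    mult f (π • z) = mult f z :=
  smul_big_iff.1 ((C.spec h).1 π (hπ.mono (union_subset (cov_mono hρ) hB))) z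

lemma inv_of_mod (C : Ctx q k ρ0) {n : ℕ} {i : ZMod p} {f : Fin n → NF p (Vr q U)}
    (h : Hs (cov ρ0) k (mod i n f)) (hρ : ρ0 ⊆ τ)
    (hB : ms (cov ρ0) k (cl (mod i n f)) ⊆ cov τ) (hπ : Fx (cov τ) π) (z : Cl p (Vr q U)) :
    mult f (π • z) = mult f z :=
  smul_mod_iff.1 ((C.spec h).1 π (hπ.mono (union_subset (cov_mono hρ) hB))) z

open Classical in
theorem V_big (C : Ctx q k ρ0) {n : ℕ} {c : Bool} {f : Fin n → NF p (Vr q U)}
    (h : Hs (cov ρ0) k (big c n f)) (hτ : PP q τ) (hρ : ρ0 ⊆ τ)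
    (hB : ms (cov ρ0) k (cl (big c n f)) ⊆ cov τ) (hn : q * k ≤ nun τ) :
    V ρ0 k (big c n f) τ = if c then decide (∑ j, mu ρ0 k (f j) τ ≠ 0)
      else decide (∑ j, mu ρ0 k (f j) τ = n) := by
  have key : (∑ j, Ex q (ms (cov ρ0) k (cl (f j)))
      (fun σ => if V ρ0 k (f j) σ = true then (1 : ℚ) else 0)
      (red ρ0 (ms (cov ρ0) k (cl (big c n f))) τ)) = ∑ j, mu ρ0 k (f j) τ :=
    sum_inv C (fun j => h.big j) hτ sub_red (red_sub hρ) hn
      fun π hπ z => inv_of_big C h sub_red (cov_red hB) hπ z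
  simp only [V]
  rw [key]

open Classical in
theorem V_mod (C : Ctx q k ρ0) {n : ℕ} {i : ZMod p} {f : Fin n → NF p (Vr q U)}
    (h : Hs (cov ρ0) k (mod i n f)) (hτ : PP q τ) (hρ : ρ0 ⊆ τ)
    (hB : ms (cov ρ0) k (cl (mod i n f)) ⊆ cov τ) (hn : q * k ≤ nun τ) :
    V ρ0 k (mod i n f) τ = decide (Rm p (∑ j, mu ρ0 k (f j) τ) i) := by
  have key : (∑ j, Ex q (ms (cov ρ0) k (cl (f j)))
      (fun σ => if V ρ0 k (f j) σ = true then (1 : ℚ) else 0)
      (red ρ0 (ms (cov ρ0) k (cl (mod i n f))) τ)) = ∑ j, mu ρ0 k (f j) τ :=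
    sum_inv C (fun j => h.mod j) hτ sub_red (red_sub hρ) hn
      fun π hπ z => inv_of_mod C h sub_red (cov_red hB) hπ z
  simp only [V]
  rw [key]

end NF

end Pool.Agent.Work.MP_c04246_lc
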