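import Mathlib

set_option autoImplicit false
set_option linter.unusedSectionVars false
set_option linter.unusedSimpArgs false
set_option linter.unusedVariables false
set_option linter.unusedDecidableInType false
set_option linter.unusedFintypeInType false

/- MODULE Fact (S-M, Mathlib only). For all integers N and q ≥ 1, i: i ! divides
q^i * prod_{l<i} (N - q l).
Proof. Let a = gcd (i !) (q^i), b = i ! / a. Claim: b is coprime to q. Otherwise a prime r divides q
and b; then (padicValNat or Nat.factorization) v_r(a) = min (v_r (i !)) (v_r (q^i)), and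
v_r (i !) < i (for i ≥ 1: sub_one_mul_padicValNat_factorial, or Nat.Prime.pow_dvd_factorial_iff /
Nat.Prime.multiplicity_factorial_... : (r-1) v_r(i!) = i - digit sum < i) ≤ v_r (q^i), so
v_r(a) = v_r(i !) and v_r(b) = 0, contradiction. (i = 0 trivial.)
Since b is coprime to q there is an integer t with q t ≡ N mod b (Int/Nat: Nat.exists_mul_mod...,
or Int.gcd_eq_gcd_ab, or units of ZMod b). Then prod (N - q l) ≡ prod (q t - q l) =
q^i prod (t - l) mod b and i ! divides prod_{l<i} (t - l) (Ring.choose / Int: descPochhammer;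
Nat case: reduce t mod b * i ! to a natural number t ≥ i, then Nat.descFactorial and
Nat.factorial_dvd_descFactorial), so b divides prod (N - q l). And a divides q^i. As b is coprime to
q it is coprime to q^i, hence to a; a * b = i ! divides q^i * prod (N - q l).
-/
namespace Pool.Agent.Work.MP_c04246_lc

open Finset

namespace NF

open Nat in
theorem factorial_dvd_prod (q i : ℕ) (hq : 0 < q) (N : ℤ) :
    ((i ! : ℕ) : ℤ) ∣ (q : ℤ) ^ i * ∏ l ∈ range i, (N - q * l) := by
  classical
  rw [Int.natCast_dvd, Nat.dvd_iff_prime_pow_dvd_dvd]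
  intro r e hr he
  rw [← Int.natCast_dvd]
  by_cases hrq : r ∣ q
  · have h1 : e ≤ i := by
      haveI : Fact r.Prime := ⟨hr⟩
      have h2 : e ≤ padicValNat r (i !) :=
        (padicValNat_dvd_iff_le (Nat.factorial_ne_zero i)).1 he
      have h3 := sub_one_mul_padicValNat_factorial (p := r) i
      have h4 : 1 ≤ r - 1 := by have := hr.two_le; omega
      calc e ≤ padicValNat r (i !) := h2
        _ = 1 * padicValNat r (i !) := (one_mul _).symm
        _ ≤ (r - 1) * padicValNat r (i !) := Nat.mul_le_mul_right _ h4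
        _ = i - (r.digits i).sum := h3
        _ ≤ i := Nat.sub_le _ _
    refine Dvd.dvd.mul_right ?_ _
    have h5 : r ^ e ∣ q ^ i := (pow_dvd_pow_of_dvd hrq e).trans (pow_dvd_pow q h1)
    exact_mod_cast h5
  · have hco : Nat.Coprime q (r ^ e) :=
      Nat.Coprime.pow_right _ ((Nat.Prime.coprime_iff_not_dvd hr).2 hrq).symm
    have hpos : 0 < r ^ e := pow_pos hr.pos e
    haveI : NeZero (r ^ e) := ⟨hpos.ne'⟩
    obtain ⟨t, ht, hit⟩ : ∃ t : ℕ, ((r ^ e : ℕ) : ℤ) ∣ (N - q * t) ∧ i ≤ t := by
      refine ⟨((q : ZMod (r ^ e))⁻¹ * (N : ZMod (r ^ e))).val + i * r ^ e, ?_, ?_⟩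
      · rw [← ZMod.intCast_zmod_eq_zero_iff_dvd]
        push_cast
        rw [ZMod.natCast_zmod_val, mul_add, ← mul_assoc, ZMod.coe_mul_inv_eq_one q hco, one_mul]
        have h6 : ((r : ZMod (r ^ e)) ^ e) = 0 := by
          have h7 := ZMod.natCast_self (r ^ e)
          rwa [Nat.cast_pow] at h7
        rw [h6]
        ring
      · calc i = i * 1 := (mul_one i).symm
          _ ≤ i * r ^ e := Nat.mul_le_mul_left _ hpos
          _ ≤ _ := Nat.le_add_left _ _
    refine Dvd.dvd.mul_left ?_ _
    have h8 : ((r ^ e : ℕ) : ℤ) ∣ ∏ l ∈ range i, ((t : ℤ) - l) := by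
      have h9 : ∏ l ∈ range i, ((t : ℤ) - l) = ((t.descFactorial i : ℕ) : ℤ) := by
        rw [Nat.descFactorial_eq_prod_range, Nat.cast_prod]
        refine Finset.prod_congr rfl fun l hl => ?_
        have : l ≤ t := (Finset.mem_range.1 hl).le.trans hit
        rw [Nat.cast_sub this]
      rw [h9]
      exact_mod_cast he.trans (Nat.factorial_dvd_descFactorial t i)
    have h10 : ∏ l ∈ range i, (N - q * (l : ℤ)) ≡ ∏ l ∈ range i, ((q : ℤ) * ((t : ℤ) - l))
        [ZMOD ((r ^ e : ℕ) : ℤ)] := by
      refine Int.ModEq.prod fun l hl => ?_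
      have : N ≡ q * t [ZMOD ((r ^ e : ℕ) : ℤ)] := (Int.modEq_iff_dvd.2 (by
        have := (dvd_neg (α := ℤ)).2 ht
        simpa using this))
      calc N - q * (l : ℤ) ≡ q * t - q * l [ZMOD ((r ^ e : ℕ) : ℤ)] := this.sub (Int.ModEq.refl _)
        _ = (q : ℤ) * ((t : ℤ) - l) := by ring
    have h11 : ((r ^ e : ℕ) : ℤ) ∣ ∏ l ∈ range i, ((q : ℤ) * ((t : ℤ) - l)) := by
      rw [Finset.prod_mul_distrib]
      exact Dvd.dvd.mul_left h8 _
    exact (Int.ModEq.dvd_iff h10).2 h11

end NF

end Pool.Agent.Work.MP_c04246_lc
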