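import Mathlib
import Pool.Agent.Work.MP_c04246_lc.Y.PDefs
import Pool.Agent.Work.MP_c04246_lc.Y.Fact

set_option autoImplicit false
set_option linter.unusedSectionVars false
set_option linter.unusedSimpArgs false
set_option linter.unusedVariables false
set_option linter.unusedDecidableInType false
set_option linter.unusedFintypeInType false

/- MODULE RmA (S-M). Residues of rational numbers (PDefs: Rm p x c: x has a denominator v coprime to p
and c is the residue of x mod p).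
* Rm.unique: x = u/v = u'/v' gives u v' = u' v in the integers (v, v' ≠ 0 unless p = 1: note that
  v = 0 coprime to p only if p = 1, then ZMod 1 is trivial), so c v v' = c' v' v in ZMod p and
  v, v' are units (ZMod.unitOfCoprime).
* Rm.int, Rm.add, Rm.sum (induction), Rm.natMul: direct.
* Rm.pmul: if x has some residue then p * x has residue 0.
* Rm.div: if Rm p x 0 and p ≥ 1 then x / p has some residue: u ≡ 0 mod p, u = p u', x / p * v = u'.
* Rm.exists: x * v = u with v coprime to p: c := u * v^-1.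
* Rm_prod: x = prod_{l<i} (N - q l)/(q (l+1)) = prod (N - q l) / (q^i i !); by factorial_dvd_prod
  x * q^(2 i) is an integer; q^(2 i) is coprime to p.
-/
namespace Pool.Agent.Work.MP_c04246_lc

open Finset

namespace NF

section

variable {p : ℕ} {x y : ℚ} {c d : ZMod p}

lemma Rm.unique (h : Rm p x c) (h' : Rm p x d) : c = d := by
  obtain ⟨u, v, hv, hx, hc⟩ := h
  obtain ⟨u', v', hv', hx', hd⟩ := h'
  have h1 : (u : ℚ) * v' = u' * v := by rw [← hx, ← hx']; ring
  have h2 : u * (v' : ℤ) = u' * (v : ℤ) := by exact_mod_cast h1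
  have h3 : (u : ZMod p) * (v' : ZMod p) = (u' : ZMod p) * (v : ZMod p) := by
    exact_mod_cast congrArg (Int.cast : ℤ → ZMod p) h2
  rw [hc, hd] at h3
  have hu : IsUnit ((v : ZMod p) * (v' : ZMod p)) :=
    ((ZMod.isUnit_iff_coprime v p).2 hv).mul ((ZMod.isUnit_iff_coprime v' p).2 hv')
  apply hu.mul_right_cancel
  linear_combination h3

lemma Rm.int (m : ℤ) : Rm p (m : ℚ) (m : ZMod p) :=
  ⟨m, 1, Nat.coprime_one_left p, by simp, by simp⟩

lemma Rm.nat (m : ℕ) : Rm p (m : ℚ) (m : ZMod p) :=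
  ⟨m, 1, Nat.coprime_one_left p, by simp, by simp⟩

lemma Rm.add (h : Rm p x c) (h' : Rm p y d) : Rm p (x + y) (c + d) := by
  obtain ⟨u, v, hv, hx, hc⟩ := h
  obtain ⟨u', v', hv', hx', hd⟩ := h'
  refine ⟨u * v' + u' * v, v * v', Nat.Coprime.mul_left hv hv', ?_, ?_⟩
  · push_cast
    rw [← hx, ← hx']; ring
  · push_cast
    rw [hc, hd]; ring

lemma Rm.neg (h : Rm p x c) : Rm p (-x) (-c) := by
  obtain ⟨u, v, hv, hx, hc⟩ := h
  refine ⟨-u, v, hv, ?_, ?_⟩
  · push_cast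
    rw [← hx]; ring
  · push_cast
    rw [hc]; ring

lemma Rm.mul (h : Rm p x c) (h' : Rm p y d) : Rm p (x * y) (c * d) := by
  obtain ⟨u, v, hv, hx, hc⟩ := h
  obtain ⟨u', v', hv', hx', hd⟩ := h'
  refine ⟨u * u', v * v', Nat.Coprime.mul_left hv hv', ?_, ?_⟩
  · push_cast
    rw [← hx, ← hx']; ring
  · push_cast
    rw [hc, hd]; ring

lemma Rm.sum {ι : Type} (s : Finset ι) {x : ι → ℚ} {c : ι → ZMod p}
    (h : ∀ i ∈ s, Rm p (x i) (c i)) : Rm p (∑ i ∈ s, x i) (∑ i ∈ s, c i) := by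
  classical
  induction s using Finset.induction_on with
  | empty => simpa using (Rm.int (p := p) 0)
  | insert a s ha ih =>
    rw [Finset.sum_insert ha, Finset.sum_insert ha]
    exact (h a (Finset.mem_insert_self a s)).add
      (ih fun i hi => h i (Finset.mem_insert_of_mem hi))

lemma Rm.pmul (h : Rm p x c) : Rm p (p * x) 0 := by
  obtain ⟨u, v, hv, hx, hc⟩ := h
  refine ⟨p * u, v, hv, ?_, ?_⟩
  · push_cast
    rw [← hx]; ring
  · push_cast
    simp

lemma Rm.exists_of {u : ℤ} {v : ℕ} (hv : v.Coprime p) (h : x * v = u) : ∃ c : ZMod p, Rm p x c := by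
  obtain ⟨w, hw⟩ := (ZMod.isUnit_iff_coprime v p).2 hv
  refine ⟨(u : ZMod p) * ((w⁻¹ : (ZMod p)ˣ) : ZMod p), u, v, hv, h, ?_⟩
  rw [← hw, mul_assoc, Units.inv_mul, mul_one]

lemma Rm.div (hp : 0 < p) (h : Rm p x 0) : ∃ c : ZMod p, Rm p (x / p) c := by
  obtain ⟨u, v, hv, hx, hc⟩ := h
  rw [zero_mul, ZMod.intCast_zmod_eq_zero_iff_dvd] at hc
  obtain ⟨t, ht⟩ := hc
  refine Rm.exists_of (u := t) hv ?_
  have hp' : (p : ℚ) ≠ 0 := by positivity
  rw [div_mul_eq_mul_div, hx, ht]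
  push_cast
  rw [mul_div_cancel_left₀ _ hp']

theorem Rm_prod {q : ℕ} (hq : 0 < q) (hpq : p.Coprime q) (N i : ℕ) :
    ∃ c : ZMod p, Rm p (∏ l ∈ range i, ((N : ℚ) - q * l) / (q * (l + 1))) c := by
  obtain ⟨t, ht⟩ := factorial_dvd_prod q i hq (N : ℤ)
  refine Rm.exists_of (u := t) (v := q ^ (2 * i)) (Nat.Coprime.pow_left _ hpq.symm) ?_
  have hq' : (q : ℚ) ≠ 0 := by positivity
  have hf : ((Nat.factorial i : ℕ) : ℚ) ≠ 0 := by
    exact_mod_cast Nat.factorial_ne_zero i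
  have h1 : ∏ l ∈ range i, ((q : ℚ) * (l + 1)) = (q : ℚ) ^ i * (Nat.factorial i : ℕ) := by
    rw [Finset.prod_mul_distrib, Finset.prod_const, Finset.card_range,
      ← Finset.prod_range_add_one_eq_factorial]
    push_cast
    rfl
  have h2 : (q : ℚ) ^ i * ∏ l ∈ range i, ((N : ℚ) - q * l) = (Nat.factorial i : ℕ) * (t : ℚ) := by
    have := congrArg (Int.cast : ℤ → ℚ) ht
    push_cast at this
    exact this
  rw [Finset.prod_div_distrib, h1]
  push_cast
  rw [div_mul_eq_mul_div, div_eq_iff (mul_ne_zero (pow_ne_zero _ hq') hf)]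
  calc (∏ l ∈ range i, ((N : ℚ) - q * l)) * (q : ℚ) ^ (2 * i)
      = ((q : ℚ) ^ i * ∏ l ∈ range i, ((N : ℚ) - q * l)) * (q : ℚ) ^ i := by ring
    _ = ((Nat.factorial i : ℕ) * (t : ℚ)) * (q : ℚ) ^ i := by rw [h2]
    _ = (t : ℚ) * ((q : ℚ) ^ i * (Nat.factorial i : ℕ)) := by ring

end

end NF

end Pool.Agent.Work.MP_c04246_lc
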