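import Mathlib
import Pool.Agent.Work.MP_c04246_lc.Y.Mult
import Pool.Agent.Work.MP_c04246_lc.Y.Supp
import Pool.Agent.Work.MP_c04246_lc.Y.RmA

set_option autoImplicit false
set_option linter.unusedSectionVars false
set_option linter.unusedSimpArgs false
set_option linter.unusedVariables false
set_option linter.unusedDecidableInType false
set_option linter.unusedFintypeInType false

/- MODULE OrbSum (S-M). Let f : Fin n → formulas have multiplicities invariant under the permutations
fixing D, G, H : classes → ℚ such that for every argument class z the sums of G and of H over the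
orbit of z have a common residue mod p. Then the sums of G and of H over the arguments have a common
residue. Proof: by sum_mult both are sums over Z = image of cl ∘ f of mult f z * G z. Z is stable
under the permutations fixing D (mult_pos_iff). Split Z into orbits: sum_fiberwise over the image of
Z under z ↦ orb D z (a Finset of Finsets); the fibre over O = orb D z0 is O itself (orb_eq, mem_orb,
self_mem_orb), mult f is constant on it; so the sum is sum over O of mult * sum_{x in O} G x. Use
Rm.sum, Rm.mul, Rm.nat with the same residues for G and H.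
-/
namespace Pool.Agent.Work.MP_c04246_lc

open Finset

namespace NF

variable {p q n : ℕ} {U : Type} [Fintype U] [DecidableEq U]

theorem orb_sum {D : Finset U} {f : Fin n → NF p (Vr q U)}
    (hinv : ∀ π : Equiv.Perm U, Fx D π → ∀ z, mult f (π • z) = mult f z)
    (G H : Cl p (Vr q U) → ℚ)
    (h : ∀ j, ∃ c : ZMod p, Rm p (∑ x ∈ orb D (cl (f j)), G x) c ∧
      Rm p (∑ x ∈ orb D (cl (f j)), H x) c) :
    ∃ c : ZMod p, Rm p (∑ j, G (cl (f j))) c ∧ Rm p (∑ j, H (cl (f j))) c := by
  classical
  set Z : Finset (Cl p (Vr q U)) := univ.image (fun j => cl (f j)) with hZ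
  have hmem : ∀ z, z ∈ Z ↔ 0 < mult f z := by
    intro z
    rw [mult_pos_iff, hZ, mem_image]
    simp
  have hfib : ∀ z0 ∈ Z, Z.filter (fun z => orb D z = orb D z0) = orb D z0 := by
    intro z0 hz0
    ext z
    rw [mem_filter]
    constructor
    · rintro ⟨_, hz⟩
      rw [← hz]
      exact self_mem_orb z
    · intro hz
      obtain ⟨π, hπ, rfl⟩ := mem_orb.1 hz
      refine ⟨?_, orb_eq hz⟩
      rw [hmem, hinv π hπ]
      exact (hmem z0).1 hz0
  have hinner : ∀ (K : Cl p (Vr q U) → ℚ), ∀ z0 ∈ Z,
      ∑ z ∈ Z.filter (fun z => orb D z = orb D z0), (mult f z : ℚ) * K z =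
        (mult f z0 : ℚ) * ∑ z ∈ orb D z0, K z := by
    intro K z0 hz0
    rw [hfib z0 hz0, mul_sum]
    refine sum_congr rfl fun z hz => ?_
    obtain ⟨π, hπ, rfl⟩ := mem_orb.1 hz
    rw [hinv π hπ]
  have hsplit : ∀ (K : Cl p (Vr q U) → ℚ), ∑ j, K (cl (f j)) =
      ∑ O ∈ Z.image (orb D), ∑ z ∈ Z.filter (fun z => orb D z = O), (mult f z : ℚ) * K z := by
    intro K
    rw [sum_mult f K]
    exact (sum_fiberwise_of_maps_to (fun z hz => mem_image_of_mem _ hz) _).symm
  have key : ∀ O ∈ Z.image (orb D), ∃ c : ZMod p,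
      Rm p (∑ z ∈ Z.filter (fun z => orb D z = O), (mult f z : ℚ) * G z) c ∧
      Rm p (∑ z ∈ Z.filter (fun z => orb D z = O), (mult f z : ℚ) * H z) c := by
    intro O hO
    obtain ⟨z0, hz0, rfl⟩ := mem_image.1 hO
    obtain ⟨j, _, hj⟩ := mem_image.1 hz0
    obtain ⟨c, hG, hH⟩ := h j
    rw [hj] at hG hH
    refine ⟨(mult f z0 : ZMod p) * c, ?_, ?_⟩
    · rw [hinner G z0 hz0]
      exact (Rm.nat (mult f z0)).mul hG
    · rw [hinner H z0 hz0]
      exact (Rm.nat (mult f z0)).mul hH
  choose! c hc using key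
  refine ⟨∑ O ∈ Z.image (orb D), c O, ?_, ?_⟩
  · rw [hsplit G]
    exact Rm.sum _ fun O hO => (hc O hO).1
  · rw [hsplit H]
    exact Rm.sum _ fun O hO => (hc O hO).2

end NF

end Pool.Agent.Work.MP_c04246_lc
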