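import Mathlib
import Pool.Agent.Work.MP_c04246_lc.Y.ExA

set_option autoImplicit false
set_option linter.unusedSectionVars false
set_option linter.unusedSimpArgs false
set_option linter.unusedVariables false
set_option linter.unusedDecidableInType false
set_option linter.unusedFintypeInType false

/- MODULE Xi (M). The total weight of the extensions with i new parts:
  X_i := sum over the worlds sigma ⊇ tau with tau.card + i parts of wt q (nun tau) i
       = prod_{l<i} (nun tau - q l) / (q (l+1)),   if q i ≤ nun tau.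
Proof by induction on i. Let M_i be the set of these worlds, N = nun tau, m_i its cardinality; the
claim is m_i * wt q N i = prod_{l<i} (N - q l)/(q (l+1)).
Double counting of the pairs (sigma, S), sigma ∈ M_{i+1}, S ∈ sigma \ tau: there are (i+1) m_{i+1}
of them; (sigma, S) ↦ (sigma.erase S, S) is a bijection onto the pairs (sigma', S) with
sigma' ∈ M_i and S of size q disjoint from cov sigma'; there are m_i * choose (N - q i) q of them
(nun sigma' = N - q i by nun_add). So (i+1) m_{i+1} = m_i * choose (N - q i) q.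
And choose (M) q * q = M * choose (M-1) (q-1) (Nat.succ_mul_choose_eq / Nat.add_one_mul_choose_eq) for
M = N - q i ≥ q ≥ 1, so m_{i+1} * wt (i+1) = m_i * choose M q / ((i+1) choose (M-1) (q-1)) * wt i
= m_i wt i * M / (q (i+1)). (wt (i+1) = wt i * (choose (N - q i - 1) (q-1))^-1, prod_range_succ.)
The double counting is a Finset.card_bij / card_sigma argument, or sum_comm'.
-/
namespace Pool.Agent.Work.MP_c04246_lc

open Finset

namespace NF

section

variable {q : ℕ} {U : Type} [Fintype U] [DecidableEq U] {τ : Finset (Finset U)}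

open Classical in
/-- the extensions of the world with `i` new parts -/
noncomputable def Exti (q : ℕ) (τ : Finset (Finset U)) (i : ℕ) : Finset (Finset (Finset U)) :=
  univ.filter fun σ => PP q σ ∧ τ ⊆ σ ∧ σ.card = τ.card + i

private lemma mem_Exti {i : ℕ} {σ : Finset (Finset U)} :
    σ ∈ Exti q τ i ↔ PP q σ ∧ τ ⊆ σ ∧ σ.card = τ.card + i := by
  simp [Exti]

private lemma dc (hq : 0 < q) (hτ : PP q τ) (i : ℕ) :
    (i + 1) * (Exti q τ (i + 1)).card = (Exti q τ i).card * (nun τ - q * i).choose q := by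
  classical
  have h1 : ((Exti q τ (i + 1)).sigma fun σ => σ \ τ).card =
      (i + 1) * (Exti q τ (i + 1)).card := by
    rw [card_sigma]
    have : ∀ σ ∈ Exti q τ (i + 1), (σ \ τ).card = i + 1 := by
      intro σ hσ
      obtain ⟨_, h2, h3⟩ := mem_Exti.1 hσ
      have := card_sdiff_add_card_eq_card h2
      omega
    rw [sum_congr rfl this, sum_const, smul_eq_mul, mul_comm]
  have h2 : ((Exti q τ i).sigma fun σ => powersetCard q (univ \ cov σ)).card =
      (Exti q τ i).card * (nun τ - q * i).choose q := by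
    rw [card_sigma]
    have : ∀ σ ∈ Exti q τ i, (powersetCard q (univ \ cov σ)).card =
        (nun τ - q * i).choose q := by
      intro σ hσ
      obtain ⟨h1, h2, h3⟩ := mem_Exti.1 hσ
      rw [card_powersetCard]
      have h4 := nun_add h1
      have h5 := nun_add hτ
      have h6 : (univ \ cov σ).card = nun σ := rfl
      rw [h6]
      congr 1
      rw [h3, mul_add] at h4
      omega
    rw [sum_congr rfl this, sum_const, smul_eq_mul]
  have hnot : ∀ (σ : Finset (Finset U)) (S : Finset U), S ∈ powersetCard q (univ \ cov σ) →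
      S ∉ σ := by
    intro σ S hS hS'
    rw [mem_powersetCard] at hS
    have hne : S.Nonempty := card_pos.1 (by omega)
    obtain ⟨u, hu⟩ := hne
    exact (mem_sdiff.1 (hS.1 hu)).2 (mem_cov.2 ⟨S, hS', hu⟩)
  rw [← h1, ← h2]
  refine card_bij' (fun x _ => ⟨x.1.erase x.2, x.2⟩) (fun x _ => ⟨insert x.2 x.1, x.2⟩)
    ?_ ?_ ?_ ?_
  · rintro ⟨σ, S⟩ hx
    rw [mem_sigma] at hx
    obtain ⟨hx1, hx2⟩ := hx
    obtain ⟨a, b, c⟩ := mem_Exti.1 hx1
    rw [mem_sdiff] at hx2
    rw [mem_sigma]
    refine ⟨mem_Exti.2 ⟨a.mono (erase_subset _ _), ?_, ?_⟩, ?_⟩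
    · intro T hT
      exact mem_erase.2 ⟨fun e => hx2.2 (e ▸ hT), b hT⟩
    · show (σ.erase S).card = _
      rw [card_erase_of_mem hx2.1, c]; rfl
    · show S ∈ powersetCard q (univ \ cov (σ.erase S))
      rw [mem_powersetCard]
      refine ⟨fun u hu => mem_sdiff.2 ⟨mem_univ _, fun hu' => ?_⟩, a.1 S hx2.1⟩
      obtain ⟨T, hT, huT⟩ := mem_cov.1 hu'
      rw [mem_erase] at hT
      exact (disjoint_left.1 (a.2 S hx2.1 T hT.2 (Ne.symm hT.1)) hu) huT
  · rintro ⟨σ, S⟩ hx
    rw [mem_sigma] at hx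
    obtain ⟨hx1, hx2⟩ := hx
    obtain ⟨a, b, c⟩ := mem_Exti.1 hx1
    have hS := hnot σ S hx2
    rw [mem_powersetCard] at hx2
    rw [mem_sigma]
    refine ⟨mem_Exti.2 ⟨?_, ?_, ?_⟩, ?_⟩
    · refine a.insert hx2.2 ?_
      rw [disjoint_left]
      intro u hu hu'
      exact (mem_sdiff.1 (hx2.1 hu)).2 hu'
    · exact b.trans (subset_insert _ _)
    · show (insert S σ).card = _
      rw [card_insert_of_notMem hS, c]; rfl
    · show S ∈ insert S σ \ τ
      exact mem_sdiff.2 ⟨mem_insert_self _ _, fun h => hS (b h)⟩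
  · rintro ⟨σ, S⟩ hx
    rw [mem_sigma] at hx
    obtain ⟨hx1, hx2⟩ := hx
    rw [mem_sdiff] at hx2
    show (⟨insert S (σ.erase S), S⟩ : Σ _ : Finset (Finset U), Finset U) = ⟨σ, S⟩
    rw [insert_erase hx2.1]
  · rintro ⟨σ, S⟩ hx
    rw [mem_sigma] at hx
    obtain ⟨hx1, hx2⟩ := hx
    have hS := hnot σ S hx2
    show (⟨(insert S σ).erase S, S⟩ : Σ _ : Finset (Finset U), Finset U) = ⟨σ, S⟩
    rw [erase_insert hS]

private lemma xi_alg {x y z c w m j Q : ℚ} (hj : j ≠ 0) (hQ : Q ≠ 0) (hc : c ≠ 0)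
    (h1 : m * c = z * Q) (h2 : j * x = y * z) : x * (w * c⁻¹) = y * w * (m / (Q * j)) := by
  have e1 : x = y * z / j := by rw [← h2]; field_simp
  have e2 : z = m * c / Q := by rw [h1]; field_simp
  rw [e1, e2]
  field_simp

theorem card_Exti (hq : 0 < q) (hτ : PP q τ) (i : ℕ) (hi : q * i ≤ nun τ) :
    ((Exti q τ i).card : ℚ) * wt q (nun τ) i =
      ∏ l ∈ range i, (((nun τ : ℕ) : ℚ) - q * l) / (q * (l + 1)) := by
  induction i with
  | zero =>
    have h1 : Exti q τ 0 = {τ} := by
      ext σ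
      rw [mem_Exti, mem_singleton]
      constructor
      · rintro ⟨_, h2, h3⟩
        exact (eq_of_subset_of_card_le h2 (by omega)).symm
      · rintro rfl
        exact ⟨hτ, Subset.refl _, rfl⟩
    rw [h1, wt, range_zero, prod_empty, prod_empty, card_singleton]
    norm_num
  | succ i ih =>
    have hi' : q * i + q ≤ nun τ := by rw [← mul_add_one]; exact hi
    have ih' := ih (by omega)
    rw [prod_range_succ, ← ih']
    have hd := dc hq hτ i
    have hw : wt q (nun τ) (i + 1) = wt q (nun τ) i *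
        (((nun τ - q * i - 1).choose (q - 1) : ℕ) : ℚ)⁻¹ := by
      unfold wt
      rw [prod_range_succ]
    rw [hw]
    obtain ⟨M, hM⟩ : ∃ M, nun τ = q * i + (M + 1) := ⟨nun τ - q * i - 1, by omega⟩
    obtain ⟨r, hr⟩ : ∃ r, q = r + 1 := ⟨q - 1, by omega⟩
    have hMr : nun τ - q * i = M + 1 := by omega
    have hM1 : nun τ - q * i - 1 = M := by omega
    have hq1 : q - 1 = r := by omega
    rw [hM1, hq1]
    rw [hMr] at hd
    have hch : (M + 1) * M.choose r = (M + 1).choose q * q := by
      rw [hr]; exact Nat.add_one_mul_choose_eq M r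
    have hpos : 0 < M.choose r := Nat.choose_pos (by omega)
    have hc : ((M.choose r : ℕ) : ℚ) ≠ 0 := by exact_mod_cast hpos.ne'
    have hqQ : (q : ℚ) ≠ 0 := by exact_mod_cast hq.ne'
    have hiQ : ((i : ℚ) + 1) ≠ 0 := by positivity
    have hN : ((nun τ : ℕ) : ℚ) - q * i = M + 1 := by
      rw [hM]; push_cast; ring
    rw [hN]
    have hdQ : ((i : ℚ) + 1) * ((Exti q τ (i + 1)).card : ℚ) =
        ((Exti q τ i).card : ℚ) * (((M + 1).choose q : ℕ) : ℚ) := by exact_mod_cast hd
    have hchQ : ((M : ℚ) + 1) * ((M.choose r : ℕ) : ℚ) = (((M + 1).choose q : ℕ) : ℚ) * q := by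
      exact_mod_cast hch
    clear hd hch ih ih' hw hN
    revert hdQ hchQ hc hqQ hiQ
    generalize ((Exti q τ (i + 1)).card : ℚ) = x
    generalize ((Exti q τ i).card : ℚ) = y
    generalize (((M + 1).choose q : ℕ) : ℚ) = z
    generalize ((M.choose r : ℕ) : ℚ) = c
    generalize wt q (nun τ) i = w
    generalize ((M : ℚ) + 1) = m
    generalize ((i : ℚ) + 1) = j
    generalize (q : ℚ) = Q
    intro hc hqQ hiQ hdQ hchQ
    exact xi_alg hiQ hqQ hc hchQ hdQ

end

end NF

end Pool.Agent.Work.MP_c04246_lc
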