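import Mathlib
import Pool.Agent.Work.MP_c04246_lc.Y.ExD
import Pool.Agent.Work.MP_c04246_lc.Y.Xi
import Pool.Agent.Work.MP_c04246_lc.Y.RmA

set_option autoImplicit false
set_option linter.unusedSectionVars false
set_option linter.unusedSimpArgs false
set_option linter.unusedVariables false
set_option linter.unusedDecidableInType false
set_option linter.unusedFintypeInType false

/- MODULE Orbit (M-L). Integrality of the sum of the virtual expectations over an orbit.
Setting: a world tau (PP), the orbit O = orb (cov tau) z of z ∈ X under the permutations fixing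
cov tau; for x ∈ O a support B x with at most k points and a function F x of worlds, both
equivariant, and F x sigma has a residue mod p for all sigma ∈ Mn q (B x) tau. q k ≤ nun tau.
Claim: sum_{x in O} Ex q (B x) (F x) tau has a residue mod p.
Proof. The sum is sum_{x in O} sum_{sigma in Mn q (B x) tau} wt (|sigma| - |tau|) * F x sigma. All
these sigma lie in the sets Exti q tau i, i = |sigma| - |tau| ≤ k (Mn_card). Exchange the sums: it is
sum_{i in range (k+1)} sum_{sigma in Exti q tau i} wt q (nun tau) i * a sigma,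
a sigma := sum_{x in O with sigma in Mn q (B x) tau} F x sigma.
For pi fixing cov tau: a (mw pi sigma) = a sigma (reindex x ↦ pi • x: O is stable, Mn_mw with
mw pi tau = tau (mw_fix), and F (pi • x) (mw pi sigma) = F x sigma). By exists_perm_world all members
of Exti q tau i are equivalent, so a is constant, = a_i, on Exti q tau i, and the total is
sum_i a_i * (card (Exti q tau i) * wt q (nun tau) i) (if Exti q tau i is empty take a_i = 0, the term
is 0). a_i has a residue (Rm.sum; each F x sigma has one), card * wt has one by card_Exti and Rm_prod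
(q i ≤ q k ≤ nun tau), so the total has one: Rm.mul, Rm.sum.
-/
namespace Pool.Agent.Work.MP_c04246_lc

open Finset

namespace NF

section

variable {p q k : ℕ} {U X : Type} [Fintype U] [DecidableEq U] [MulAction (Equiv.Perm U) X]
  {τ : Finset (Finset U)}

private lemma Rm_ex_sum {p : ℕ} {ι : Type} (s : Finset ι) {x : ι → ℚ}
    (h : ∀ i ∈ s, ∃ c : ZMod p, Rm p (x i) c) : ∃ c : ZMod p, Rm p (∑ i ∈ s, x i) c := by
  choose! c hc using h
  exact ⟨_, Rm.sum s hc⟩

private lemma mem_Exti {q : ℕ} {U : Type} [Fintype U] [DecidableEq U] {τ : Finset (Finset U)}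
    {i : ℕ} {σ : Finset (Finset U)} :
    σ ∈ Exti q τ i ↔ PP q σ ∧ τ ⊆ σ ∧ σ.card = τ.card + i := by
  simp [Exti]

theorem orbit_int (hq : 0 < q) (hpq : p.Coprime q) (hτ : PP q τ) (hk : q * k ≤ nun τ) (z : X)
    (B : X → Finset U) (F : X → Finset (Finset U) → ℚ)
    (hB : ∀ x ∈ orb (cov τ) z, (B x).card ≤ k)
    (hBπ : ∀ x ∈ orb (cov τ) z, ∀ π : Equiv.Perm U, Fx (cov τ) π →
      B (π • x) = (B x).map π.toEmbedding)
    (hFπ : ∀ x ∈ orb (cov τ) z, ∀ π : Equiv.Perm U, Fx (cov τ) π → ∀ σ,
      F (π • x) (mw π σ) = F x σ)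
    (hF : ∀ x ∈ orb (cov τ) z, ∀ σ ∈ Mn q (B x) τ, ∃ c : ZMod p, Rm p (F x σ) c) :
    ∃ c : ZMod p, Rm p (∑ x ∈ orb (cov τ) z, Ex q (B x) (F x) τ) c := by
  classical
  have stab : ∀ π : Equiv.Perm U, Fx (cov τ) π → ∀ x ∈ orb (cov τ) z, π • x ∈ orb (cov τ) z := by
    intro π hπ x hx
    rw [mem_orb] at hx ⊢
    obtain ⟨s, hs, rfl⟩ := hx
    exact ⟨π * s, hπ.mul hs, mul_smul _ _ _⟩
  let g : X → Finset (Finset U) → ℚ := fun x σ => if σ ∈ Mn q (B x) τ then F x σ else 0
  let a : Finset (Finset U) → ℚ := fun σ => ∑ x ∈ orb (cov τ) z, g x σ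
  have ha : ∀ π : Equiv.Perm U, Fx (cov τ) π → ∀ σ, a (mw π σ) = a σ := by
    intro π hπ σ
    show ∑ x ∈ orb (cov τ) z, g x (mw π σ) = ∑ x ∈ orb (cov τ) z, g x σ
    symm
    refine Finset.sum_nbij' (fun x => π • x) (fun x => π⁻¹ • x) ?_ ?_ ?_ ?_ ?_
    · intro x hx
      exact stab π hπ x hx
    · intro x hx
      exact stab π⁻¹ hπ.inv x hx
    · intro x hx
      exact inv_smul_smul π x
    · intro x hx
      exact smul_inv_smul π x
    · intro x hx
      show g x σ = g (π • x) (mw π σ)
      have h1 : mw π σ ∈ Mn q (B (π • x)) τ ↔ σ ∈ Mn q (B x) τ := by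
        rw [hBπ x hx π hπ]
        have := Mn_mw (q := q) (B := B x) (π := π) (σ := σ) (τ := τ)
        rwa [mw_fix hπ] at this
      simp only [g, h1, hFπ x hx π hπ σ]
  have htot : ∑ x ∈ orb (cov τ) z, Ex q (B x) (F x) τ =
      ∑ i ∈ range (k + 1), ∑ σ ∈ Exti q τ i, wt q (nun τ) i * a σ := by
    have h1 : ∀ x ∈ orb (cov τ) z, Ex q (B x) (F x) τ =
        ∑ i ∈ range (k + 1), ∑ σ ∈ Exti q τ i, wt q (nun τ) i * g x σ := by
      intro x hx
      have hmaps : ∀ σ ∈ Mn q (B x) τ, σ.card - τ.card ∈ range (k + 1) := by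
        intro σ hσ
        obtain ⟨h1, h2, h3, h4, h5, h6⟩ := Mn_card hτ hσ
        have := hB x hx
        rw [mem_range]
        omega
      unfold Ex
      rw [← Finset.sum_fiberwise_of_maps_to hmaps]
      apply sum_congr rfl
      intro i hi
      have hfil : (Mn q (B x) τ).filter (fun σ => σ.card - τ.card = i) =
          (Exti q τ i).filter (fun σ => σ ∈ Mn q (B x) τ) := by
        ext σ
        simp only [mem_filter, mem_Exti]
        constructor
        · rintro ⟨h, rfl⟩
          obtain ⟨h1, h2, h3, h4, h5, h6⟩ := Mn_card hτ h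
          have := card_le_card h2
          exact ⟨⟨h1, h2, by omega⟩, h⟩
        · rintro ⟨⟨h1, h2, h3⟩, h⟩
          exact ⟨h, by omega⟩
      calc ∑ σ ∈ (Mn q (B x) τ).filter (fun σ => σ.card - τ.card = i),
            wt q (nun τ) (σ.card - τ.card) * F x σ
          = ∑ σ ∈ (Mn q (B x) τ).filter (fun σ => σ.card - τ.card = i),
            wt q (nun τ) i * F x σ :=
            sum_congr rfl fun σ hσ => by rw [(mem_filter.mp hσ).2]
        _ = ∑ σ ∈ (Exti q τ i).filter (fun σ => σ ∈ Mn q (B x) τ),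
            wt q (nun τ) i * F x σ := by rw [hfil]
        _ = ∑ σ ∈ Exti q τ i, wt q (nun τ) i * g x σ := by
            rw [sum_filter]
            apply sum_congr rfl
            intro σ hσ
            by_cases h : σ ∈ Mn q (B x) τ <;> simp [g, h]
    rw [sum_congr rfl h1, sum_comm]
    apply sum_congr rfl
    intro i hi
    rw [sum_comm]
    apply sum_congr rfl
    intro σ hσ
    rw [← mul_sum]
  rw [htot]
  refine Rm_ex_sum _ fun i hi => ?_
  have hik : i ≤ k := Nat.lt_succ_iff.mp (mem_range.mp hi)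
  rcases (Exti q τ i).eq_empty_or_nonempty with he | ⟨σ0, hσ0⟩
  · rw [he, sum_empty]
    exact ⟨_, by simpa using Rm.nat (p := p) 0⟩
  · have hconst : ∀ σ ∈ Exti q τ i, a σ = a σ0 := by
      intro σ hσ
      have h0 := mem_Exti.mp hσ0
      have h1 := mem_Exti.mp hσ
      obtain ⟨π, hπ, hπσ⟩ := exists_perm_world h0.1 h1.1 h0.2.1 h1.2.1
        (by rw [h0.2.2, h1.2.2])
      rw [← hπσ, ha π hπ]
    have hsum : ∑ σ ∈ Exti q τ i, wt q (nun τ) i * a σ =
        (((Exti q τ i).card : ℚ) * wt q (nun τ) i) * a σ0 := by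
      rw [sum_congr rfl fun σ hσ => by rw [hconst σ hσ], sum_const, nsmul_eq_mul, mul_assoc]
    rw [hsum, card_Exti hq hτ i ((Nat.mul_le_mul_left q hik).trans hk)]
    obtain ⟨c1, hc1⟩ := Rm_prod (p := p) hq hpq (nun τ) i
    have h2 : ∃ c : ZMod p, Rm p (a σ0) c := by
      refine Rm_ex_sum _ fun x hx => ?_
      show ∃ c : ZMod p, Rm p (g x σ0) c
      by_cases h : σ0 ∈ Mn q (B x) τ
      · simp only [g, h, if_true]
        exact hF x hx σ0 h
      · simp only [g, h, if_false]
        exact ⟨_, by simpa using Rm.nat (p := p) 0⟩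
    obtain ⟨c2, hc2⟩ := h2
    exact ⟨c1 * c2, hc1.mul hc2⟩

end

end NF

end Pool.Agent.Work.MP_c04246_lc
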