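import Mathlib
import Pool.Agent.Work.MP_c04246_lc.Y.MuH
import Pool.Agent.Work.MP_c04246_lc.Y.Orbit
import Pool.Agent.Work.MP_c04246_lc.Y.OrbSum

set_option autoImplicit false
set_option linter.unusedSectionVars false
set_option linter.unusedSimpArgs false
set_option linter.unusedVariables false
set_option linter.unusedDecidableInType false
set_option linter.unusedFintypeInType false

/- MODULE MuI (M). Integrality of the orbit sums.
muC, asumC, resiC: values on classes (Quotient.lift with mu_same, asum_same, resi_same).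
* orb_muC: apply orbit_int to X = Cl, z = cl a, B x = ms (cov rho0) k x, F x sigma = 1 if the virtual
  value VC x sigma is true, else 0 (VC = lift of V). Members of the orbit are pi • cl a =
  cl (map (mv pi) a) with Hs (Hs.map; Fx (cov rho0) pi since cov rho0 ⊆ cov tau), so |ms| ≤ k
  (Ctx.spec); equivariance: ms_smul, V_act; F is 0 or 1, so Rm.nat. Here Ex q (B x) (F x) tau = muC x tau.
* sum_int (for the sum rule): let c_j = mod (i j) (m j) (g j) be formulas whose conjunction D has Hs,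
  ms D ⊆ cov tau, V D tau = true, q (2k+2) ≤ nun tau. Claim: Rm p (sum_j asum (c_j) tau) (sum_j i j).
  By V_big: sum_j mu (c_j) tau = n with all mu ≤ 1 (mu_le_one), so mu (c_j) tau = 1, so V (c_j) sigma =
  true for all sigma ∈ Mn q (ms c_j) tau (mu_one_iff); by V_mod at sigma (PP, rho0 ⊆ sigma, ms covered,
  nun sigma ≥ nun tau - q k ≥ q k by Mn_card): Rm p (asum c_j sigma) (i j). Put for a class x
  h x sigma := (asumC x sigma - ((resiC x).val : ℚ)) / p (p ≠ 0: p coprime to q ≥ 2; NeZero p,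
  ZMod.natCast_zmod_val). So h (cl c_j) sigma has a residue (Rm.add, Rm.neg, Rm.nat, Rm.div).
  The same holds for every x in the orbit of cl c_j: x = pi • cl c_j = cl (map (mv pi) c_j), and
  sigma ∈ Mn q (ms x) tau is mw pi of a member of Mn q (ms c_j) tau (Mn_mw, ms_smul, mw_fix),
  asumC x (mw pi sigma) = asumC (cl c_j) sigma (asum_act), same residue (resi_act).
  By orbit_int the sum over the orbit of Ex q (ms x) (h x) tau has a residue; by orb_sum (G = H;
  multiplicities of D invariant by inv_of_big) the sum over j of Ex q (ms c_j) (h (cl c_j)) tau has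
  one, call the sum E. Now asum c_j is harmonic (mu_harm, Harm.sum; threshold q (k+1)), so by Ex_harm
  (q (k+1) + q |ms c_j| ≤ nun tau) asum c_j tau = Ex q (ms c_j) (asum c_j) tau =
  Ex (ms c_j) (fun sigma => val (i j) + p * h (cl c_j) sigma) tau = val (i j) + p * Ex (h ..) tau
  (Ex_add, Ex_const, Ex_mul). Sum over j: sum_j asum = sum_j val (i j) + p E: residue sum_j i j
  (Rm.nat, Rm.pmul, Rm.add; natCast_zmod_val).
-/
namespace Pool.Agent.Work.MP_c04246_lc

open Finset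

namespace NF

variable {p q k : ℕ} {U : Type} [Fintype U] [DecidableEq U] {ρ0 τ τ' σ : Finset (Finset U)}
  {π : Equiv.Perm U}

/-- virtual probability of a class -/
noncomputable def muC (ρ0 : Finset (Finset U)) (k : ℕ) (x : Cl p (Vr q U))
    (τ : Finset (Finset U)) : ℚ :=
  Quotient.lift (fun a => mu ρ0 k a τ) (fun _ _ h => congrFun (mu_same h) τ) x

@[simp] lemma muC_cl (a : NF p (Vr q U)) (τ : Finset (Finset U)) :
    muC ρ0 k (cl a) τ = mu ρ0 k a τ := rfl

lemma muC_smul (hπ : Fx (cov ρ0) π) (x : Cl p (Vr q U)) (τ : Finset (Finset U)) :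
    muC ρ0 k (π • x) (mw π τ) = muC ρ0 k x τ := by
  obtain ⟨a, rfl⟩ := Quotient.exists_rep x
  exact mu_act hπ a τ

private lemma cov_le {ρ τ : Finset (Finset U)} (h : ρ ⊆ τ) : cov ρ ⊆ cov τ :=
  fun _ hu => by
    obtain ⟨S, hS, huS⟩ := mem_cov.mp hu
    exact mem_cov.mpr ⟨S, h hS, huS⟩

private noncomputable def VC (ρ0 : Finset (Finset U)) (k : ℕ) (x : Cl p (Vr q U))
    (τ : Finset (Finset U)) : ℚ :=
  Quotient.lift (fun a => if V ρ0 k a τ = true then (1 : ℚ) else 0)
    (fun _ _ h => by simp only [V_same h]) x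

private noncomputable def asumC (ρ0 : Finset (Finset U)) (k : ℕ) (x : Cl p (Vr q U))
    (τ : Finset (Finset U)) : ℚ :=
  Quotient.lift (fun a => asum ρ0 k a τ) (fun _ _ h => congrFun (asum_same h) τ) x

private noncomputable def resiC (x : Cl p (Vr q U)) : ZMod p :=
  Quotient.lift (fun a => resi a) (fun _ _ h => resi_same h) x

private lemma VC_smul (hπ : Fx (cov ρ0) π) (x : Cl p (Vr q U)) (τ : Finset (Finset U)) :
    VC ρ0 k (π • x) (mw π τ) = VC ρ0 k x τ := by
  obtain ⟨a, rfl⟩ := Quotient.exists_rep x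
  show (if V ρ0 k (map (mv π) a) (mw π τ) = true then (1 : ℚ) else 0) =
    if V ρ0 k a τ = true then (1 : ℚ) else 0
  rw [V_act hπ a τ]

private lemma asumC_smul (hπ : Fx (cov ρ0) π) (x : Cl p (Vr q U)) (τ : Finset (Finset U)) :
    asumC ρ0 k (π • x) (mw π τ) = asumC ρ0 k x τ := by
  obtain ⟨a, rfl⟩ := Quotient.exists_rep x
  exact asum_act hπ a τ

private lemma resiC_smul (x : Cl p (Vr q U)) : resiC (π • x) = resiC x := by
  obtain ⟨a, rfl⟩ := Quotient.exists_rep x
  exact resi_act a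

private lemma orb_ms (C : Ctx q k ρ0) {a : NF p (Vr q U)} (h : Hs (cov ρ0) k a) (hρ : ρ0 ⊆ τ)
    {x : Cl p (Vr q U)} (hx : x ∈ orb (cov τ) (cl a)) : (ms (cov ρ0) k x).card ≤ k := by
  obtain ⟨π, hπ, rfl⟩ := mem_orb.mp hx
  rw [ms_smul (hπ.mono (cov_le hρ)), card_map]
  exact (C.spec h).2

theorem orb_muC (C : Ctx q k ρ0) (hpq : p.Coprime q) {a : NF p (Vr q U)} (h : Hs (cov ρ0) k a)
    (hτ : PP q τ) (hρ : ρ0 ⊆ τ) (hn : q * k ≤ nun τ) :
    ∃ c : ZMod p, Rm p (∑ x ∈ orb (cov τ) (cl a), muC ρ0 k x τ) c := by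
  have hc := cov_le hρ
  have key := orbit_int (p := p) (k := k) (by have := C.hq; omega) hpq hτ hn (cl a)
    (fun x => ms (cov ρ0) k x) (VC ρ0 k) (fun x hx => orb_ms C h hρ hx)
    (fun x _ π hπ => ms_smul (hπ.mono hc) x)
    (fun x _ π hπ σ => VC_smul (hπ.mono hc) x σ)
    (fun x _ σ _ => by
      obtain ⟨b, rfl⟩ := Quotient.exists_rep x
      show ∃ c : ZMod p, Rm p (if V ρ0 k b σ = true then (1 : ℚ) else 0) c
      split_ifs
      · exact ⟨_, by simpa using Rm.nat (p := p) 1⟩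
      · exact ⟨_, by simpa using Rm.nat (p := p) 0⟩)
  have he : ∀ x : Cl p (Vr q U), Ex q (ms (cov ρ0) k x) (VC ρ0 k x) τ = muC ρ0 k x τ := by
    intro x
    obtain ⟨b, rfl⟩ := Quotient.exists_rep x
    rfl
  simpa only [he] using key

theorem sum_int (C : Ctx q k ρ0) (hpq : p.Coprime q) {n : ℕ} {i : Fin n → ZMod p} {m : Fin n → ℕ}
    {g : (j : Fin n) → Fin (m j) → NF p (Vr q U)}
    (h : Hs (cov ρ0) k (big false n fun j => mod (i j) (m j) (g j))) (hτ : PP q τ) (hρ : ρ0 ⊆ τ)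
    (hB : ms (cov ρ0) k (cl (big false n fun j => mod (i j) (m j) (g j))) ⊆ cov τ)
    (hn : q * (2 * k + 2) ≤ nun τ)
    (hV : V ρ0 k (big false n fun j => mod (i j) (m j) (g j)) τ = true) :
    Rm p (∑ j, ∑ l, mu ρ0 k (g j l) τ) (∑ j, i j) := by
  have hc := cov_le hρ
  have hq2 := C.hq
  have hq : 0 < q := by omega
  have hp : 0 < p := by
    rcases Nat.eq_zero_or_pos p with h0 | h0
    · rw [h0, Nat.coprime_zero_left] at hpq
      omega
    · exact h0
  have : NeZero p := ⟨hp.ne'⟩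
  have hpQ : (p : ℚ) ≠ 0 := by exact_mod_cast hp.ne'
  have e1 : q * (2 * k + 2) = q * (k + 1) + q * k + q := by ring
  have e2 : q * (k + 1) = q * k + q := by ring
  have hHj : ∀ j, Hs (cov ρ0) k (mod (i j) (m j) (g j)) := fun j => h.big j
  -- all virtual probabilities are one
  have hVb := V_big C h hτ hρ hB (by omega)
  rw [hV] at hVb
  have hsum : ∑ j, mu ρ0 k (mod (i j) (m j) (g j)) τ = n := by
    simpa using hVb.symm
  have hone : ∀ j, mu ρ0 k (mod (i j) (m j) (g j)) τ = 1 := by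
    have hz : ∑ j, (1 - mu ρ0 k (mod (i j) (m j) (g j)) τ) = 0 := by
      rw [sum_sub_distrib, hsum]
      simp
    have hz' := (sum_eq_zero_iff_of_nonneg (fun j _ =>
      sub_nonneg.mpr (mu_le_one C (hHj j) hτ (by omega)))).mp hz
    intro j
    have := hz' j (mem_univ j)
    linarith
  have hR : ∀ j, ∀ σ ∈ Mn q (ms (cov ρ0) k (cl (mod (i j) (m j) (g j)))) τ,
      Rm p (asum ρ0 k (mod (i j) (m j) (g j)) σ) (i j) := by
    intro j σ hσ
    have hVσ := (mu_one_iff C (hHj j) hτ (by omega)).mp (hone j) σ hσ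
    obtain ⟨s1, s2, s3, s4, s5, s6⟩ := Mn_card hτ hσ
    have hk := (C.spec (hHj j)).2
    have hqk : q * (ms (cov ρ0) k (cl (mod (i j) (m j) (g j)))).card ≤ q * k :=
      Nat.mul_le_mul_left q hk
    have := V_mod C (hHj j) s1 (hρ.trans s2) s3 (by omega)
    rw [hVσ] at this
    show Rm p (∑ l, mu ρ0 k (g j l) σ) (i j)
    simpa using this.symm
  -- the function h
  let hh : Cl p (Vr q U) → Finset (Finset U) → ℚ :=
    fun x σ => (asumC ρ0 k x σ - ((resiC x).val : ℚ)) / p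
  have hhR : ∀ j, ∀ x ∈ orb (cov τ) (cl (mod (i j) (m j) (g j))),
      ∀ σ ∈ Mn q (ms (cov ρ0) k x) τ, ∃ c : ZMod p, Rm p (hh x σ) c := by
    intro j x hx σ hσ
    obtain ⟨π, hπ, rfl⟩ := mem_orb.mp hx
    have hσe : σ = mw π (mw π⁻¹ σ) := by rw [← mw_mul, mul_inv_cancel, mw_one]
    rw [hσe] at hσ ⊢
    rw [ms_smul (hπ.mono hc)] at hσ
    have hσ' : mw π⁻¹ σ ∈ Mn q (ms (cov ρ0) k (cl (mod (i j) (m j) (g j)))) τ := by
      have hmn := Mn_mw (q := q) (B := ms (cov ρ0) k (cl (mod (i j) (m j) (g j)))) (π := π)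
        (σ := mw π⁻¹ σ) (τ := τ)
      rw [mw_fix hπ] at hmn
      exact hmn.mp hσ
    have h1 : hh (π • cl (mod (i j) (m j) (g j))) (mw π (mw π⁻¹ σ)) =
        (asum ρ0 k (mod (i j) (m j) (g j)) (mw π⁻¹ σ) - ((i j).val : ℚ)) / p := by
      show (asumC ρ0 k (π • cl (mod (i j) (m j) (g j))) (mw π (mw π⁻¹ σ)) -
        ((resiC (π • cl (mod (i j) (m j) (g j)))).val : ℚ)) / p = _
      rw [asumC_smul (hπ.mono hc), resiC_smul]
      rfl
    rw [h1]
    refine Rm.div hp ?_
    have h2 := (hR j _ hσ').add (Rm.nat (p := p) (i j).val).neg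
    rw [ZMod.natCast_zmod_val, add_neg_cancel, ← sub_eq_add_neg] at h2
    exact h2
  let G : Cl p (Vr q U) → ℚ := fun x => Ex q (ms (cov ρ0) k x) (hh x) τ
  have hG : ∀ j, ∃ c : ZMod p, Rm p (∑ x ∈ orb (cov τ) (cl (mod (i j) (m j) (g j))), G x) c := by
    intro j
    exact orbit_int (p := p) (k := k) hq hpq hτ (by omega) (cl (mod (i j) (m j) (g j)))
      (fun x => ms (cov ρ0) k x) hh (fun x hx => orb_ms C (hHj j) hρ hx)
      (fun x _ π hπ => ms_smul (hπ.mono hc) x)
      (fun x _ π hπ σ => by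
        show (asumC ρ0 k (π • x) (mw π σ) - ((resiC (π • x)).val : ℚ)) / p = _
        rw [asumC_smul (hπ.mono hc), resiC_smul])
      (hhR j)
  obtain ⟨cE, hE, _⟩ := orb_sum (D := cov τ) (f := fun j => mod (i j) (m j) (g j))
    (fun π hπ z => inv_of_big C h hρ hB hπ z) G G
    (fun j => by obtain ⟨c, hc⟩ := hG j; exact ⟨c, hc, hc⟩)
  have hterm : ∀ j, ∑ l, mu ρ0 k (g j l) τ =
      ((i j).val : ℚ) + p * G (cl (mod (i j) (m j) (g j))) := by
    intro j
    have hk := (C.spec (hHj j)).2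
    have hqk : q * (ms (cov ρ0) k (cl (mod (i j) (m j) (g j)))).card ≤ q * k :=
      Nat.mul_le_mul_left q hk
    have e3 : q * ((ms (cov ρ0) k (cl (mod (i j) (m j) (g j)))).card + 1) =
      q * (ms (cov ρ0) k (cl (mod (i j) (m j) (g j)))).card + q := by ring
    have hH : Harm q (q * (k + 1)) ρ0 (fun σ => ∑ l, mu ρ0 k (g j l) σ) :=
      Harm.sum univ fun l _ => mu_harm C ((hHj j).mod l)
    have h1 := Ex_harm (B := ms (cov ρ0) k (cl (mod (i j) (m j) (g j)))) hq hH hτ hρ (by omega)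
    have h2 : (fun σ => ∑ l, mu ρ0 k (g j l) σ) =
        fun σ => (fun _ => ((i j).val : ℚ)) σ +
          (fun σ => (p : ℚ) * hh (cl (mod (i j) (m j) (g j))) σ) σ := by
      funext σ
      show asum ρ0 k (mod (i j) (m j) (g j)) σ = ((i j).val : ℚ) +
        p * ((asum ρ0 k (mod (i j) (m j) (g j)) σ - ((i j).val : ℚ)) / p)
      field_simp
      ring
    rw [← h1]
    rw [h2, Ex_add, Ex_const hq hτ (by omega), Ex_mul]
  rw [sum_congr rfl fun j _ => hterm j, sum_add_distrib, ← mul_sum]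
  have h3 : Rm p (∑ j, ((i j).val : ℚ)) (∑ j, i j) := by
    refine Rm.sum univ fun j _ => ?_
    have := Rm.nat (p := p) (i j).val
    rwa [ZMod.natCast_zmod_val] at this
  have h4 := h3.add hE.pmul
  rwa [add_zero] at h4

end NF

end Pool.Agent.Work.MP_c04246_lc
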