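import Mathlib
import Pool.Agent.Work.MP_c04246_lc.Y.MuI

set_option autoImplicit false
set_option linter.unusedSectionVars false
set_option linter.unusedSimpArgs false
set_option linter.unusedVariables false
set_option linter.unusedDecidableInType false
set_option linter.unusedFintypeInType false

/- MODULE Choice (M). A truth assignment on classes with the right residues on all orbits.
For a finite set O of classes (an orbit) define T O ⊆ O: if muC x tau = 0 for all x in O, T O = ∅; if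
= 1 for all x in O, T O = O; otherwise, if O has an argument class, T O is a subset of O with
0 < |T O| < |O| and Rm p (sum_{x in O} muC x tau) |T O|, if there is one (choose, dite; else ∅).
vC x := decide (x ∈ T (orb (cov tau) x)).
For a with Hs: O := orb (cov tau) (cl a). muC is constant on O: for x = pi • cl a, muC (pi • cl a) tau =
muC (pi • cl a) (mw pi tau) = muC (cl a) tau (muC_smul, mw_fix; Fx (cov rho0) pi as cov rho0 ⊆ cov tau);
0 ≤ mu ≤ 1. orb (cov tau) x = O for x ∈ O (orb_eq), so vC x = decide (x ∈ T O) for x ∈ O.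
mu = 0: T O = ∅, both sums are 0. mu = 1: T O = O, both sums are |O|. (O is nonempty.)
Otherwise 0 < mu < 1, so ms (cl a) is not contained in cov tau (mu_cov), and card_orb (D = cov tau,
D0 = cov rho0), nun tau + |cov tau| = |U|, |ms| ≤ k and p + k ≤ nun tau give p < |O|. By orb_muC there
is a residue c; there is t with 1 ≤ t ≤ p and (t : ZMod p) = c (t = c.val or p); take a subset of O
with t elements (exists_subset_card_eq); Rm.nat. The sum of the indicators over O is |T O|.
-/
namespace Pool.Agent.Work.MP_c04246_lc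

open Finset

namespace NF

variable {p q k : ℕ} {U : Type} [Fintype U] [DecidableEq U] {ρ0 τ τ' σ : Finset (Finset U)}
  {π : Equiv.Perm U}

/-- a truth assignment on classes which is adapted to the world `τ` -/
def GoodV (ρ0 : Finset (Finset U)) (k : ℕ) (τ : Finset (Finset U)) (vC : Cl p (Vr q U) → Bool) :
    Prop :=
  ∀ a : NF p (Vr q U), Hs (cov ρ0) k a →
    (mu ρ0 k a τ = 0 → vC (cl a) = false) ∧ (mu ρ0 k a τ = 1 → vC (cl a) = true) ∧
    (mu ρ0 k a τ ≠ 0 → ∃ x ∈ orb (cov τ) (cl a), vC x = true) ∧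
    (mu ρ0 k a τ ≠ 1 → ∃ x ∈ orb (cov τ) (cl a), vC x = false) ∧
    ∃ c : ZMod p, Rm p (∑ x ∈ orb (cov τ) (cl a), muC ρ0 k x τ) c ∧
      Rm p (∑ x ∈ orb (cov τ) (cl a), (if vC x = true then (1 : ℚ) else 0)) c

open Classical in
private noncomputable def ChoiceT (ρ0 : Finset (Finset U)) (k : ℕ) (τ : Finset (Finset U))
    (O : Finset (Cl p (Vr q U))) : Finset (Cl p (Vr q U)) :=
  if ∀ x ∈ O, muC ρ0 k x τ = 0 then ∅
  else if ∀ x ∈ O, muC ρ0 k x τ = 1 then O
  else if h : ∃ T : Finset (Cl p (Vr q U)), T ⊆ O ∧ 0 < T.card ∧ T.card < O.card ∧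
      ∃ c : ZMod p, Rm p (∑ x ∈ O, muC ρ0 k x τ) c ∧ Rm p (T.card : ℚ) c then h.choose
  else ∅

theorem exists_vC (C : Ctx q k ρ0) (hpq : p.Coprime q) (hp : 0 < p) (hτ : PP q τ) (hρ : ρ0 ⊆ τ)
    (hn : q * (k + 1) ≤ nun τ) (hn' : p + k ≤ nun τ) :
    ∃ vC : Cl p (Vr q U) → Bool, GoodV ρ0 k τ vC := by
  classical
  have : NeZero p := ⟨hp.ne'⟩
  have hcov : cov ρ0 ⊆ cov τ := by
    intro u hu
    rw [mem_cov] at hu ⊢
    obtain ⟨S, hS, hu⟩ := hu
    exact ⟨S, hρ hS, hu⟩
  refine ⟨fun x => decide (x ∈ ChoiceT ρ0 k τ (orb (cov τ) x)), ?_⟩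
  intro a ha
  set O := orb (cov τ) (cl a) with hO
  have hself : cl a ∈ O := self_mem_orb (cl a)
  have horb : ∀ x ∈ O, orb (cov τ) x = O := fun x hx => orb_eq hx
  have hconst : ∀ x ∈ O, muC ρ0 k x τ = mu ρ0 k a τ := by
    intro x hx
    rw [hO, mem_orb] at hx
    obtain ⟨π, hπ, rfl⟩ := hx
    have h1 := muC_smul (p := p) (q := q) (k := k) (hπ.mono hcov) (cl a) τ
    rw [mw_fix hπ] at h1
    rw [h1, muC_cl]
  have hv : ∀ x ∈ O, (decide (x ∈ ChoiceT ρ0 k τ (orb (cov τ) x)) = true ↔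
      x ∈ ChoiceT ρ0 k τ O) := by
    intro x hx
    rw [horb x hx, decide_eq_true_eq]
  have hv' : ∀ x ∈ O, (decide (x ∈ ChoiceT ρ0 k τ (orb (cov τ) x)) = false ↔
      x ∉ ChoiceT ρ0 k τ O) := by
    intro x hx
    rw [horb x hx, decide_eq_false_iff_not]
  by_cases h0 : mu ρ0 k a τ = 0
  · have hT : ChoiceT ρ0 k τ O = ∅ := by
      unfold ChoiceT
      rw [if_pos]
      intro x hx
      rw [hconst x hx, h0]
    have hf : ∀ x ∈ O, decide (x ∈ ChoiceT ρ0 k τ (orb (cov τ) x)) = false := by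
      intro x hx
      rw [hv' x hx, hT]
      exact Finset.notMem_empty x
    refine ⟨fun _ => hf _ hself, fun h => absurd (h0.symm.trans h) (by norm_num),
      fun h => absurd h0 h, fun _ => ⟨cl a, hself, hf _ hself⟩, 0, ?_, ?_⟩
    · rw [sum_congr rfl hconst, h0, sum_const_zero]
      simpa using Rm.nat (p := p) 0
    · rw [sum_congr rfl (g := fun _ => (0 : ℚ)) (by
        intro x hx
        have h9 := hf x hx
        show (if decide (x ∈ ChoiceT ρ0 k τ (orb (cov τ) x)) = true then (1 : ℚ) else 0) = 0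
        rw [h9]
        simp), sum_const_zero]
      simpa using Rm.nat (p := p) 0
  by_cases h1 : mu ρ0 k a τ = 1
  · have hT : ChoiceT ρ0 k τ O = O := by
      unfold ChoiceT
      rw [if_neg, if_pos]
      · intro x hx
        rw [hconst x hx, h1]
      · intro h
        exact h0 (by rw [← hconst _ hself]; exact h _ hself)
    have hf : ∀ x ∈ O, decide (x ∈ ChoiceT ρ0 k τ (orb (cov τ) x)) = true := by
      intro x hx
      rw [hv x hx, hT]
      exact hx
    refine ⟨fun h => absurd h h0, fun _ => hf _ hself,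
      fun _ => ⟨cl a, hself, hf _ hself⟩, fun h => absurd h1 h, (O.card : ZMod p), ?_, ?_⟩
    · rw [sum_congr rfl hconst, h1, sum_const, nsmul_eq_mul, mul_one]
      exact Rm.nat _
    · rw [sum_congr rfl (g := fun _ => (1 : ℚ)) (by
        intro x hx
        have h9 := hf x hx
        show (if decide (x ∈ ChoiceT ρ0 k τ (orb (cov τ) x)) = true then (1 : ℚ) else 0) = 1
        rw [h9]
        simp), sum_const, nsmul_eq_mul, mul_one]
      exact Rm.nat _
  have hms : ¬ ms (cov ρ0) k (cl a) ⊆ cov τ := by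
    intro h
    have h2 := mu_cov (k := k) hτ h
    by_cases h3 : V ρ0 k a τ = true
    · rw [if_pos h3] at h2; exact h1 h2
    · rw [if_neg h3] at h2; exact h0 h2
  have hcard := card_orb (k := k) hcov hms
  have hk := (Ctx.spec C ha).2
  have hnun : nun τ + (cov τ).card = Fintype.card U := by
    unfold nun
    rw [← card_univ, card_sdiff_of_subset (subset_univ _)]
    exact Nat.sub_add_cancel (card_le_card (subset_univ _))
  have hlt : p < O.card := by rw [hO]; omega
  have hqk : q * k ≤ nun τ := le_trans (Nat.mul_le_mul_left q (Nat.le_succ k)) hn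
  obtain ⟨c, hc⟩ := orb_muC C hpq ha hτ hρ hqk
  obtain ⟨t, ht0, htp, htc⟩ : ∃ t : ℕ, 0 < t ∧ t ≤ p ∧ (t : ZMod p) = c := by
    by_cases hz : c.val = 0
    · refine ⟨p, hp, le_rfl, ?_⟩
      rw [ZMod.natCast_self, ← ZMod.natCast_zmod_val c, hz, Nat.cast_zero]
    · exact ⟨c.val, Nat.pos_of_ne_zero hz, (ZMod.val_lt c).le, ZMod.natCast_zmod_val c⟩
  obtain ⟨T0, hT0, hT0c⟩ := Finset.exists_subset_card_eq (htp.trans hlt.le)
  have hex : ∃ T : Finset (Cl p (Vr q U)), T ⊆ O ∧ 0 < T.card ∧ T.card < O.card ∧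
      ∃ c : ZMod p, Rm p (∑ x ∈ O, muC ρ0 k x τ) c ∧ Rm p (T.card : ℚ) c :=
    ⟨T0, hT0, by omega, by omega, c, hc, by rw [hT0c, ← htc]; exact Rm.nat t⟩
  have hT : ChoiceT ρ0 k τ O = hex.choose := by
    unfold ChoiceT
    rw [if_neg, if_neg, dif_pos hex]
    · intro h
      exact h1 (by rw [← hconst _ hself]; exact h _ hself)
    · intro h
      exact h0 (by rw [← hconst _ hself]; exact h _ hself)
  obtain ⟨hs1, hs2, hs3, c', hs4, hs5⟩ := hex.choose_spec
  rw [← hT] at hs1 hs2 hs3 hs5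
  refine ⟨fun h => absurd h h0, fun h => absurd h h1, fun _ => ?_, fun _ => ?_, c', hs4, ?_⟩
  · obtain ⟨x, hx⟩ := Finset.card_pos.mp hs2
    exact ⟨x, hs1 hx, (hv x (hs1 hx)).mpr hx⟩
  · obtain ⟨x, hx, hx'⟩ := Finset.exists_mem_notMem_of_card_lt_card hs3
    exact ⟨x, hx, (hv' x hx).mpr hx'⟩
  · have h5 : (∑ x ∈ O, (if decide (x ∈ ChoiceT ρ0 k τ (orb (cov τ) x)) = true then (1 : ℚ)
        else 0)) = ((ChoiceT ρ0 k τ O).card : ℚ) := by
      rw [← Finset.sum_filter, Finset.sum_const, nsmul_eq_mul, mul_one]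
      congr 2
      ext x
      rw [Finset.mem_filter]
      constructor
      · rintro ⟨hx, h⟩
        exact (hv x hx).mp h
      · intro h
        exact ⟨hs1 h, (hv x (hs1 h)).mpr h⟩
    rw [h5]
    exact hs5

end NF

end Pool.Agent.Work.MP_c04246_lc
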