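import Mathlib
import Pool.Agent.Work.MP_c04246_lc.Y.Choice

set_option autoImplicit false
set_option linter.unusedSectionVars false
set_option linter.unusedSimpArgs false
set_option linter.unusedVariables false
set_option linter.unusedDecidableInType false
set_option linter.unusedFintypeInType false

namespace Pool.Agent.Work.MP_c04246_lc

open Finset

namespace NF

variable {p q k : ℕ} {U : Type} [Fintype U] [DecidableEq U] {ρ0 τ τ' σ : Finset (Finset U)}
  {π : Equiv.Perm U}

lemma vC_eq {vC : Cl p (Vr q U) → Bool} (hG : GoodV ρ0 k τ vC) (hτ : PP q τ) {a : NF p (Vr q U)}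
    (h : Hs (cov ρ0) k a) (hB : ms (cov ρ0) k (cl a) ⊆ cov τ) : vC (cl a) = V ρ0 k a τ := by
  have h1 := mu_cov (k := k) hτ hB
  obtain ⟨h0, h2, _⟩ := hG a h
  cases hV : V ρ0 k a τ with
  | true => exact h2 (by rw [h1, hV]; simp)
  | false => exact h0 (by rw [h1, hV]; simp)

theorem resp_S (C : Ctx q k ρ0) (hτ : PP q τ) (hρ : ρ0 ⊆ τ) (hn : q * (k + 1) ≤ nun τ)
    {vC : Cl p (Vr q U) → Bool} (hG : GoodV ρ0 k τ vC) {v : NF p (Vr q U) → Bool}
    (hv : ∀ a, Hs (cov ρ0) k a → v a = vC (cl a)) {c : NF p (Vr q U)} (h : Hs (cov ρ0) k c)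
    (hB : ms (cov ρ0) k (cl c) ⊆ cov τ) : Resp v c := by
  classical
  have hn' : q * k ≤ nun τ := le_trans (Nat.mul_le_mul_left _ (Nat.le_succ k)) hn
  have hvc : v c = V ρ0 k c τ := (hv c h).trans (vC_eq hG hτ h hB)
  have horb : ∀ {n : ℕ} (f : Fin n → NF p (Vr q U)),
      (∀ π : Equiv.Perm U, Fx (cov τ) π → ∀ z, mult f (π • z) = mult f z) →
      ∀ j, ∀ x ∈ orb (cov τ) (cl (f j)), ∃ j', cl (f j') = x := by
    intro n f hinv j x hx
    obtain ⟨π, hπ, rfl⟩ := mem_orb.mp hx
    have h1 : 0 < mult f (π • cl (f j)) := by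
      rw [hinv π hπ]
      exact mult_pos_iff.mpr ⟨j, rfl⟩
    exact mult_pos_iff.mp h1
  cases c with
  | var S => trivial
  | cst b =>
    show v (cst b) = b
    rw [hvc]; rfl
  | neg a =>
    show v (neg a) = !(v a)
    have hBa : ms (cov ρ0) k (cl a) ⊆ cov τ := by rw [← ms_neg]; exact hB
    rw [hvc, hv a h.neg, vC_eq hG hτ h.neg hBa]
    rfl
  | big b n f =>
    show v (big b n f) = if b then decide (∃ j, v (f j) = true) else decide (∀ j, v (f j) = true)
    rw [hvc, V_big C h hτ hρ hB hn']
    have horb' := horb f fun π hπ z => inv_of_big C h hρ hB hπ z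
    cases b with
    | true =>
      simp only [if_true]
      rw [decide_eq_decide]
      constructor
      · intro hs
        obtain ⟨j, hj⟩ : ∃ j, mu ρ0 k (f j) τ ≠ 0 := by
          by_contra hcon
          push Not at hcon
          exact hs (sum_eq_zero fun j _ => hcon j)
        obtain ⟨x, hx, hvx⟩ := (hG (f j) (h.big j)).2.2.1 hj
        obtain ⟨j', hj'⟩ := horb' j x hx
        exact ⟨j', by rw [hv _ (h.big j'), hj']; exact hvx⟩
      · rintro ⟨j, hj⟩ hs
        have h0 := (sum_eq_zero_iff_of_nonneg (fun j _ => mu_nonneg (f j))).mp hs j (mem_univ j)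
        rw [hv _ (h.big j), (hG (f j) (h.big j)).1 h0] at hj
        exact Bool.noConfusion hj
    | false =>
      simp only [Bool.false_eq_true, if_false]
      rw [decide_eq_decide]
      have hle : ∀ j, mu ρ0 k (f j) τ ≤ 1 := fun j => mu_le_one C (h.big j) hτ hn
      constructor
      · intro hs j
        have h1 : ∑ j, (1 - mu ρ0 k (f j) τ) = 0 := by
          rw [sum_sub_distrib, hs]; simp
        have h2 := (sum_eq_zero_iff_of_nonneg (fun j _ => sub_nonneg.mpr (hle j))).mp h1 j
          (mem_univ j)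
        rw [hv _ (h.big j)]
        exact (hG (f j) (h.big j)).2.1 (by linarith)
      · intro hall
        have h1 : ∀ j, mu ρ0 k (f j) τ = 1 := by
          intro j
          by_contra hne
          obtain ⟨x, hx, hvx⟩ := (hG (f j) (h.big j)).2.2.2.1 hne
          obtain ⟨j', hj'⟩ := horb' j x hx
          have := hall j'
          rw [hv _ (h.big j'), hj', hvx] at this
          exact Bool.noConfusion this
        simp [h1]
  | mod i n f =>
    show v (mod i n f) = decide ((∑ j, if v (f j) = true then (1 : ZMod p) else 0) = i)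
    rw [hvc, V_mod C h hτ hρ hB hn', decide_eq_decide]
    obtain ⟨c, hc1, hc2⟩ := orb_sum (fun π hπ z => inv_of_mod C h hρ hB hπ z)
      (fun x => muC ρ0 k x τ) (fun x => if vC x = true then (1 : ℚ) else 0)
      (fun j => (hG (f j) (h.mod j)).2.2.2.2)
    simp only [muC_cl] at hc1
    have hN : (∑ j, (if vC (cl (f j)) = true then (1 : ℚ) else 0)) =
        (((univ.filter fun j => vC (cl (f j)) = true).card : ℕ) : ℚ) := by
      rw [sum_boole]
    rw [hN] at hc2
    have hcN := hc2.unique (Rm.nat _)
    have hsum : (∑ j, if v (f j) = true then (1 : ZMod p) else 0) =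
        (((univ.filter fun j => vC (cl (f j)) = true).card : ℕ) : ZMod p) := by
      rw [← sum_boole]
      refine sum_congr rfl fun j _ => ?_
      rw [hv _ (h.mod j)]
    rw [hsum, ← hcN]
    constructor
    · intro hi
      exact hc1.unique hi
    · intro hi
      rw [← hi]; exact hc1

end NF

end Pool.Agent.Work.MP_c04246_lc
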