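import Mathlib
import Pool.Agent.Work.MP_c04246_lc.Y.RespS

set_option autoImplicit false
set_option linter.unusedSectionVars false
set_option linter.unusedSimpArgs false
set_option linter.unusedVariables false
set_option linter.unusedDecidableInType false
set_option linter.unusedFintypeInType false

namespace Pool.Agent.Work.MP_c04246_lc

open Finset

namespace NF

variable {p q k : ℕ} {U : Type} [Fintype U] [DecidableEq U] {ρ0 τ τ' σ : Finset (Finset U)}
  {π : Equiv.Perm U}

lemma mult_join {n : ℕ} (m : Fin n → ℕ) (g : (j : Fin n) → Fin (m j) → NF p (Vr q U))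
    (z : Cl p (Vr q U)) : mult (join m g) z = ∑ j, mult (g j) z := by
  classical
  have e : ∀ {k : ℕ} (f : Fin k → NF p (Vr q U)), mult f z = ∑ x, if cl (f x) = z then 1 else 0 := by
    intro k f
    unfold mult
    rw [card_filter]
  rw [e]
  simp only [e]
  have h1 : (∑ x : Fin (∑ j, m j), if cl (join m g x) = z then 1 else 0) =
      ∑ y : (Σ j : Fin n, Fin (m j)), if cl (g y.1 y.2) = z then 1 else 0 :=
    Equiv.sum_comp finSigmaFinEquiv.symm fun y : (Σ j : Fin n, Fin (m j)) =>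
      if cl (g y.1 y.2) = z then 1 else 0
  rw [h1, Fintype.sum_sigma]

private lemma SumS_same_mod {i i' : ZMod p} {k k' : ℕ} {f : Fin k → NF p (Vr q U)}
    {f' : Fin k' → NF p (Vr q U)} (h : Same (mod i k f) (mod i' k' f')) (z : Cl p (Vr q U)) :
    mult f z = mult f' z := by
  cases h with
  | mod _ σ hσ => exact cl_mod_iff.mp (cl_eq.mpr (Same.mod i σ hσ)) z

lemma join_inv {n : ℕ} {i : Fin n → ZMod p} {m : Fin n → ℕ}
    {g : (j : Fin n) → Fin (m j) → NF p (Vr q U)}
    (h : ∀ z, mult (fun j => mod (i j) (m j) (g j)) (π • z) =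
      mult (fun j => mod (i j) (m j) (g j)) z) (z : Cl p (Vr q U)) :
    mult (join m g) (π • z) = mult (join m g) z := by
  have h1 : π • cl (big true n fun j => mod (i j) (m j) (g j)) =
      cl (big true n fun j => mod (i j) (m j) (g j)) := smul_big_iff.mpr h
  rw [smul_cl] at h1
  have h2 := cl_eq.mp h1
  simp only [map] at h2
  cases h2 with
  | big _ σ hσ =>
    rw [mult_join, mult_join, ← Equiv.sum_comp σ]
    refine sum_congr rfl fun j _ => ?_
    rw [← SumS_same_mod (hσ j) (π • z)]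
    exact mult_map π (g j) z

lemma Hs_join (C : Ctx q k ρ0) {n : ℕ} {i : Fin n → ZMod p} {m : Fin n → ℕ}
    {g : (j : Fin n) → Fin (m j) → NF p (Vr q U)}
    (h : Hs (cov ρ0) k (big false n fun j => mod (i j) (m j) (g j))) :
    Hs (cov ρ0) k (mod (∑ j, i j) (∑ j, m j) (join m g)) ∧
      ms (cov ρ0) k (cl (mod (∑ j, i j) (∑ j, m j) (join m g))) ⊆
        ms (cov ρ0) k (cl (big false n fun j => mod (i j) (m j) (g j))) := by
  classical
  obtain ⟨hS, hc⟩ := C.spec h
  have hM : Sup (cov ρ0 ∪ ms (cov ρ0) k (cl (big false n fun j => mod (i j) (m j) (g j))))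
      (cl (mod (∑ j, i j) (∑ j, m j) (join m g))) := by
    intro π hπ
    rw [smul_mod_iff]
    exact join_inv (smul_big_iff.mp (hS π hπ))
  constructor
  · intro b hb
    simp only [subs, mem_insert, mem_biUnion, mem_univ, true_and] at hb
    rcases hb with rfl | ⟨x, hx⟩
    · exact ⟨_, hc, hM⟩
    · refine h b (subs_trans (subs_big false _ (finSigmaFinEquiv.symm x).1)
        (subs_trans (subs_mod _ _ (finSigmaFinEquiv.symm x).2) hx))
  · intro u hu
    unfold ms at hu
    rw [mem_filter] at hu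
    exact hu.2.2 _ hc hM

theorem sum_S (C : Ctx q k ρ0) (hpq : p.Coprime q) (hτ : PP q τ) (hρ : ρ0 ⊆ τ)
    (hn : q * (2 * k + 2) ≤ nun τ)
    {vC : Cl p (Vr q U) → Bool} (hG : GoodV ρ0 k τ vC) {v : NF p (Vr q U) → Bool}
    (hv : ∀ a, Hs (cov ρ0) k a → v a = vC (cl a)) {D : NF p (Vr q U)} (h : Hs (cov ρ0) k D)
    (hB : ms (cov ρ0) k (cl D) ⊆ cov τ) : SumRule v D := by
  classical
  rintro n i m g rfl hvD
  have hn' : q * k ≤ nun τ := le_trans (Nat.mul_le_mul_left _ (by omega)) hn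
  rw [hv _ h, vC_eq hG hτ h hB] at hvD
  have hint := sum_int C hpq h hτ hρ hB hn hvD
  obtain ⟨hM, hmsM⟩ := Hs_join C h
  rw [hv _ hM, vC_eq hG hτ hM (hmsM.trans hB), V_mod C hM hτ hρ (hmsM.trans hB) hn',
    decide_eq_true_eq]
  have h1 : (∑ x : Fin (∑ j, m j), mu ρ0 k (join m g x) τ) =
      ∑ y : (Σ j : Fin n, Fin (m j)), mu ρ0 k (g y.1 y.2) τ :=
    Equiv.sum_comp finSigmaFinEquiv.symm fun y : (Σ j : Fin n, Fin (m j)) => mu ρ0 k (g y.1 y.2) τ
  rw [h1, Fintype.sum_sigma]
  exact hint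

end NF

end Pool.Agent.Work.MP_c04246_lc
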