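import Mathlib
import Pool.Agent.Work.MP_c04246_lc.Y.Run
import Pool.Agent.Work.MP_c04246_lc.Y.SumS

set_option autoImplicit false
set_option linter.unusedSectionVars false
set_option linter.unusedSimpArgs false
set_option linter.unusedVariables false
set_option linter.unusedDecidableInType false
set_option linter.unusedFintypeInType false

/- MODULE ValA (M). The truth assignment vv on formulas given by a world tau (with enough room) and a
good assignment vC on classes, and its agreement with the certificates.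
Write GD a := (GC 0 q rho kappa (tr a)).2, G1 a := (..).1. Room: q (kappa D) + ... ≤ nun tau.
vv a := vC (cl a) if Hs a; otherwise true iff no t ∈ G1 a false is compatible with tau.
For a ∈ Gam0:
* (vv_true) t ∈ GD a true, t ⊆ tau → vv a = true. Hs: tr a = vgate a (tr_Hs), t ∈ LC true (GC_vgate),
  vgate_LC: ms ⊆ cov t, V a t = true; so ms ⊆ cov tau, V a tau = true (V_good), vC_eq. Not Hs: GD_GC:
  every t' ∈ G1 a false has ¬ PP (t ∪ t'), so ¬ PP (t' ∪ tau).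
* (vv_false) t ∈ GD a false, t ⊆ tau → vv a = false. Hs: as before. Not Hs: by exists_ext extend tau to
  tau' deciding a, value e; GD_Gd: e = false; its certificate t' ∈ G1 a false, t' ⊆ tau' is compatible
  with tau.
* (vv_dec) Gd 0 .. (tr a) e tau → vv a = e: the certificate in G1 a e contains a member of GD a e
  (GC_to_GD); the two facts above.
* (vv_false') if all t ∈ GD a true are incompatible with tau (¬ PP (t ∪ tau)) then vv a = false.
  Not Hs: extend tau to tau' deciding a, value e; if e = true, the certificate contains some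
  t ∈ GD a true (GC_to_GD), t ⊆ tau', compatible with tau: contradiction; so e = false and the
  certificate t' ∈ G1 a false is compatible with tau. Hs: mu a tau = 0: otherwise (mu_zero_iff) there is
  sigma ∈ Mn q (ms a) tau with V a sigma = true; by LC_vgate (sigma covers ms, contains rho0) there is
  t ∈ LC true = GD a true, t ⊆ sigma, so t ∪ tau ⊆ sigma is PP: contradiction. Then GoodV gives
  vC (cl a) = false.
* (vv_true') if all t ∈ GD a false are incompatible with tau then vv a = true. Not Hs: a t' ∈ G1 a false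
  compatible with tau would contain a member of GD a false (GC_to_GD) compatible with tau. Hs:
  mu a tau = 1 by mu_one_iff: for sigma ∈ Mn, V a sigma = false gives t ∈ LC false in sigma as above.
-/
namespace Pool.Agent.Work.MP_c04246_lc

open Finset

namespace NF

variable {p q k D : ℕ} {U : Type} [Fintype U] [DecidableEq U] {ρ0 τ t : Finset (Finset U)}
  {ρ : ℕ → Finset (Finset U)} {κ : ℕ → ℕ} {Γ0 : Finset (NF p (Vr q U))}

open Classical in
/-- the truth assignment on formulas -/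
noncomputable def vv (k : ℕ) (ρ0 : Finset (Finset U)) (ρ : ℕ → Finset (Finset U)) (κ : ℕ → ℕ)
    (τ : Finset (Finset U)) (vC : Cl p (Vr q U) → Bool) (a : NF p (Vr q U)) : Bool :=
  if Hs (cov ρ0) k a then vC (cl a) else
    decide (∀ t ∈ (GF.GC 0 q ρ κ (tr ρ0 k a)).1 false, ¬ PP q (t ∪ τ))

lemma vv_Hs {vC : Cl p (Vr q U) → Bool} {a : NF p (Vr q U)} (h : Hs (cov ρ0) k a) :
    vv k ρ0 ρ κ τ vC a = vC (cl a) := by
  unfold vv; rw [if_pos h]

/-- the assumptions on the world -/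
structure WCtx (p q k D : ℕ) (ρ : ℕ → Finset (Finset U)) (κ : ℕ → ℕ) (τ : Finset (Finset U)) :
    Prop where
  hτ : PP q τ
  hρ : ρ D ⊆ τ
  hn1 : q * κ D ≤ nun τ
  hn2 : q * (2 * k + 2) ≤ nun τ
  hn3 : p + k ≤ nun τ

private lemma valA_union {t t' τ' : Finset (Finset U)} (h : t ⊆ τ') (h' : t' ⊆ τ') :
    t ∪ t' ⊆ τ' := union_subset h h'

private lemma valA_cov {t τ' : Finset (Finset U)} (h : t ⊆ τ') : cov t ⊆ cov τ' := by
  intro x hx
  obtain ⟨S, hS, hxS⟩ := mem_cov.mp hx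
  exact mem_cov.mpr ⟨S, h hS, hxS⟩

private lemma valA_base (G : GCtx q k D ρ0 ρ κ Γ0) (W : WCtx p q k D ρ κ τ) : ρ0 ⊆ τ :=
  G.base.trans W.hρ

private lemma valA_Hs (G : GCtx q k D ρ0 ρ κ Γ0) (W : WCtx p q k D ρ κ τ)
    {vC : Cl p (Vr q U) → Bool}
    (hG : GoodV ρ0 k τ vC) {a : NF p (Vr q U)} {e : Bool} (h : Hs (cov ρ0) k a)
    (ht : t ∈ (GF.GC 0 q ρ κ (tr ρ0 k a)).2 e) (hs : t ⊆ τ) : vv k ρ0 ρ κ τ vC a = e := by
  rw [vv_Hs h]
  rw [tr_Hs h, GC_vgate] at ht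
  obtain ⟨h1, h2, h3, h4⟩ := vgate_LC G.ctx G.h0 G.hr h ht
  have hB : ms (cov ρ0) k (cl a) ⊆ cov τ := h3.trans (valA_cov hs)
  rw [vC_eq hG W.hτ h hB, ← V_good G.ctx h t τ W.hτ h2 hs h3, h4]

private lemma valA_ext (G : GCtx q k D ρ0 ρ κ Γ0) (W : WCtx p q k D ρ κ τ)
    {a : NF p (Vr q U)} (ha : a ∈ Γ0) :
    ∃ τ', τ ⊆ τ' ∧ PP q τ' ∧ ∃ e, GF.Gd 0 q ρ κ (tr ρ0 k a) e τ' := by
  obtain ⟨τ', h1, h2, _, h4⟩ := exists_ext G {a} (singleton_subset_iff.mpr ha) W.hτ W.hρ (by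
    rw [card_singleton, one_mul]; exact W.hn1)
  exact ⟨τ', h1, h2, h4 a (mem_singleton_self a)⟩

theorem vv_true (G : GCtx q k D ρ0 ρ κ Γ0) (W : WCtx p q k D ρ κ τ) {vC : Cl p (Vr q U) → Bool}
    (hG : GoodV ρ0 k τ vC) {a : NF p (Vr q U)} (ha : a ∈ Γ0)
    (ht : t ∈ (GF.GC 0 q ρ κ (tr ρ0 k a)).2 true) (hs : t ⊆ τ) : vv k ρ0 ρ κ τ vC a = true := by
  classical
  by_cases h : Hs (cov ρ0) k a
  · exact valA_Hs G W hG h ht hs
  · unfold vv
    rw [if_neg h, decide_eq_true_iff]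
    intro t' ht' hPP
    exact GD_GC ht ht' (hPP.mono (union_subset (hs.trans subset_union_right) subset_union_left))

theorem vv_false (G : GCtx q k D ρ0 ρ κ Γ0) (W : WCtx p q k D ρ κ τ) {vC : Cl p (Vr q U) → Bool}
    (hG : GoodV ρ0 k τ vC) {a : NF p (Vr q U)} (ha : a ∈ Γ0)
    (ht : t ∈ (GF.GC 0 q ρ κ (tr ρ0 k a)).2 false) (hs : t ⊆ τ) : vv k ρ0 ρ κ τ vC a = false := by
  classical
  by_cases h : Hs (cov ρ0) k a
  · exact valA_Hs G W hG h ht hs
  · unfold vv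
    rw [if_neg h, decide_eq_false_iff_not]
    intro hall
    obtain ⟨τ', h1, h2, e, he⟩ := valA_ext G W ha
    have he' : e = false := GD_Gd h2 ht (hs.trans h1) he
    subst he'
    obtain ⟨t', ht', hts⟩ := he
    exact hall t' ht' (h2.mono (union_subset hts h1))

theorem vv_dec (G : GCtx q k D ρ0 ρ κ Γ0) (W : WCtx p q k D ρ κ τ) {vC : Cl p (Vr q U) → Bool}
    (hG : GoodV ρ0 k τ vC) {a : NF p (Vr q U)} (ha : a ∈ Γ0) {e : Bool}
    (h : GF.Gd 0 q ρ κ (tr ρ0 k a) e τ) : vv k ρ0 ρ κ τ vC a = e := by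
  obtain ⟨t0, ht0, hs0⟩ := h
  obtain ⟨t1, ht1, hs1⟩ := GF.GC_to_GD _ _ _ ht0
  cases e with
  | true => exact vv_true G W hG ha ht1 (hs1.trans hs0)
  | false => exact vv_false G W hG ha ht1 (hs1.trans hs0)

private lemma valA_mn {B : Finset U} {σ : Finset (Finset U)} (h : σ ∈ Mn q B τ) :
    PP q σ ∧ τ ⊆ σ ∧ B ⊆ cov σ := by
  classical
  unfold Mn at h
  rw [mem_filter] at h
  exact ⟨h.2.1, h.2.2.1, h.2.2.2.1⟩

private lemma valA_val (G : GCtx q k D ρ0 ρ κ Γ0) (W : WCtx p q k D ρ κ τ)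
    {a : NF p (Vr q U)} (h : Hs (cov ρ0) k a) {e : Bool}
    (h' : ∀ t ∈ (GF.GC 0 q ρ κ (tr ρ0 k a)).2 e, ¬ PP q (t ∪ τ)) :
    ∀ σ ∈ Mn q (ms (cov ρ0) k (cl a)) τ, V ρ0 k a σ = !e := by
  intro σ hσ
  obtain ⟨h1, h2, h3⟩ := valA_mn hσ
  by_contra hne
  have hV : V ρ0 k a σ = e := by
    cases e <;> simp_all
  obtain ⟨t, ht, hts⟩ := LC_vgate (q := q) (ρ := ρ) (κ := κ) G.ctx G.h0 G.hk h h1
    ((valA_base G W).trans h2) h3
  rw [hV] at ht
  refine h' t ?_ (h1.mono (union_subset hts h2))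
  rw [tr_Hs h, GC_vgate]
  exact ht

theorem vv_false' (G : GCtx q k D ρ0 ρ κ Γ0) (W : WCtx p q k D ρ κ τ)
    {vC : Cl p (Vr q U) → Bool} (hG : GoodV ρ0 k τ vC) {a : NF p (Vr q U)} (ha : a ∈ Γ0)
    (h : ∀ t ∈ (GF.GC 0 q ρ κ (tr ρ0 k a)).2 true, ¬ PP q (t ∪ τ)) :
    vv k ρ0 ρ κ τ vC a = false := by
  classical
  by_cases hH : Hs (cov ρ0) k a
  · rw [vv_Hs hH]
    refine (hG a hH).1 ?_
    rw [mu_zero_iff G.ctx W.hτ]
    exact valA_val G W hH h
  · unfold vv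
    rw [if_neg hH, decide_eq_false_iff_not]
    intro hall
    obtain ⟨τ', h1, h2, e, he⟩ := valA_ext G W ha
    obtain ⟨t0, ht0, hs0⟩ := he
    cases e with
    | true =>
      obtain ⟨t1, ht1, hs1⟩ := GF.GC_to_GD _ _ _ ht0
      exact h t1 ht1 (h2.mono (union_subset (hs1.trans hs0) h1))
    | false => exact hall t0 ht0 (h2.mono (union_subset hs0 h1))

theorem vv_true' (G : GCtx q k D ρ0 ρ κ Γ0) (W : WCtx p q k D ρ κ τ) {vC : Cl p (Vr q U) → Bool}
    (hG : GoodV ρ0 k τ vC) {a : NF p (Vr q U)} (ha : a ∈ Γ0)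
    (h : ∀ t ∈ (GF.GC 0 q ρ κ (tr ρ0 k a)).2 false, ¬ PP q (t ∪ τ)) :
    vv k ρ0 ρ κ τ vC a = true := by
  classical
  by_cases hH : Hs (cov ρ0) k a
  · rw [vv_Hs hH]
    refine (hG a hH).2.1 ?_
    have hn : q * (k + 1) ≤ nun τ :=
      le_trans (Nat.mul_le_mul_left _ (by omega)) W.hn2
    rw [mu_one_iff G.ctx hH W.hτ hn]
    exact valA_val G W hH h
  · unfold vv
    rw [if_neg hH, decide_eq_true_iff]
    intro t' ht' hPP
    obtain ⟨t1, ht1, hs1⟩ := GF.GC_to_GD _ _ _ ht'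
    exact h t1 ht1 (hPP.mono (union_subset_union hs1 Subset.rfl))

end NF

end Pool.Agent.Work.MP_c04246_lc
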