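import Mathlib
import Pool.Agent.Work.MP_c04246_lc.Y.ValA

set_option autoImplicit false
set_option linter.unusedSectionVars false
set_option linter.unusedSimpArgs false
set_option linter.unusedVariables false
set_option linter.unusedDecidableInType false
set_option linter.unusedFintypeInType false

/- MODULE ValB (M). Truth tables, and one inference step.
gn c := {c} together with a if c = neg a: the formulas which have to be decided for c.
* resp_vv: if all members of gn c are decided at tau (Gd 0 .. (tr b) e tau), c ∈ Gam0, then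
  Resp (vv ..) c. If Hs c: tr c = vgate c is decided, so ms ⊆ cov tau (Gd_vgate); resp_S with vv_Hs.
  If not Hs: var trivial; cst b: tr = GF.cst b, Gd_cst, vv_dec; neg a: tr (neg a) = neg (tr a) (not Hs),
  Gd_neg0, vv_dec for neg a and a (a ∈ Gam0 by hsub) and uniqueness (GF.Gd_unique); mod: impossible
  (hmod). big c n f: tr = foldG c (List.ofFn (tr . f)), decided with value e, vv = e (vv_dec).
  If e = c: fold_true: some j and t ∈ (GC (tr (f j))).2 c, t ⊆ tau: vv (f j) = c (vv_true or vv_false);
  if e = !c: fold_false: for all j, all t ∈ (..).2 c are incompatible: vv (f j) = !c (vv_false' for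
  c = true, vv_true' for c = false). Compare with the truth table for c = true, false.
* step: Let Tr a := for all tau, PP tau, rho D ⊆ tau: ¬ Gd 0 .. (tr a) false tau. If the inference of a
  from P with C is local (|P|, |C| ≤ L), all in Gam0, E c → Hs c for c ∈ C, and Tr b for b ∈ P, then
  Tr a. Copy GF.sound_step2 in TCore.lean: let tau with a false at tau; certificate t ⊆ tau,
  tau0 = t ∪ rho D (nun tau0 ≥ nun (rho D) - q kappa D since |t \ rho (level)| ≤ kappa D:
  GF.mem_Sm_of_GC, hmono, hκm, hlev); decide F = (C.biUnion gn) ∪ P ∪ {a}, |F| ≤ 3 L + 1, in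
  tau' ⊇ tau0 (exists_ext); WCtx at tau' (room); exists_vC; v := vv. Resp for c ∈ C by resp_vv; SumRule
  for c ∈ C with E c: Hs c, ms ⊆ cov tau' (Gd_vgate, tr_Hs), sum_S. v b = true for b ∈ P: b is decided
  at tau', not false by Tr b, vv_dec. So v a = true, but a is false at tau' (Gd_mono), vv_dec: false.
-/
namespace Pool.Agent.Work.MP_c04246_lc

open Finset

namespace NF

variable {p q k D : ℕ} {U : Type} [Fintype U] [DecidableEq U] {ρ0 τ t : Finset (Finset U)}
  {ρ : ℕ → Finset (Finset U)} {κ : ℕ → ℕ} {Γ0 : Finset (NF p (Vr q U))}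

open Classical in
/-- the formulas which have to be decided for the truth table of `c` -/
noncomputable def gn (c : NF p (Vr q U)) : Finset (NF p (Vr q U)) :=
  match c with
  | neg a => {neg a, a}
  | c => {c}

private lemma self_mem_gn (c : NF p (Vr q U)) : c ∈ gn c := by
  classical
  cases c <;> simp [gn]

private lemma gn_subs (c : NF p (Vr q U)) : gn c ⊆ subs c := by
  classical
  intro b hb
  cases c with
  | neg a =>
    simp only [gn, mem_insert, mem_singleton] at hb
    rcases hb with rfl | rfl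
    · exact subs_self _
    · exact subs_neg _
  | var x => simp only [gn, mem_singleton] at hb; rw [hb]; exact subs_self _
  | cst x => simp only [gn, mem_singleton] at hb; rw [hb]; exact subs_self _
  | big c n f => simp only [gn, mem_singleton] at hb; rw [hb]; exact subs_self _
  | mod i n f => simp only [gn, mem_singleton] at hb; rw [hb]; exact subs_self _

private lemma card_gn (c : NF p (Vr q U)) : (gn c).card ≤ 2 := by
  classical
  cases c with
  | neg a => simp only [gn]; exact card_le_two
  | var x => simp [gn]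
  | cst x => simp [gn]
  | big c n f => simp [gn]
  | mod i n f => simp [gn]

private lemma valB_base (G : GCtx q k D ρ0 ρ κ Γ0) (W : WCtx p q k D ρ κ τ) : ρ0 ⊆ τ :=
  G.base.trans W.hρ

private lemma valB_ms (G : GCtx q k D ρ0 ρ κ Γ0) (W : WCtx p q k D ρ κ τ) {c : NF p (Vr q U)}
    (h : Hs (cov ρ0) k c) {e : Bool} (he : GF.Gd 0 q ρ κ (tr ρ0 k c) e τ) :
    ms (cov ρ0) k (cl c) ⊆ cov τ := by
  rw [tr_Hs h] at he
  exact ((Gd_vgate G.ctx G.h0 G.hk G.hr h W.hτ (valB_base G W)).mp he).1

theorem resp_vv (G : GCtx q k D ρ0 ρ κ Γ0) (W : WCtx p q k D ρ κ τ) {vC : Cl p (Vr q U) → Bool}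
    (hG : GoodV ρ0 k τ vC) {c : NF p (Vr q U)} (hc : c ∈ Γ0)
    (hd : ∀ b ∈ gn c, ∃ e, GF.Gd 0 q ρ κ (tr ρ0 k b) e τ) : Resp (vv k ρ0 ρ κ τ vC) c := by
  classical
  by_cases h : Hs (cov ρ0) k c
  · obtain ⟨e, he⟩ := hd c (self_mem_gn c)
    refine resp_S G.ctx W.hτ (valB_base G W) ?_ hG (fun a ha => vv_Hs ha) h (valB_ms G W h he)
    exact le_trans (Nat.mul_le_mul_left _ (by omega)) W.hn2
  · obtain ⟨e, he⟩ := hd c (self_mem_gn c)
    cases c with
    | var x => trivial
    | cst b =>
      show vv k ρ0 ρ κ τ vC (cst b) = b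
      rw [vv_dec G W hG hc he]
      simp only [tr, if_neg h] at he
      exact Gd_cst he
    | neg a =>
      show vv k ρ0 ρ κ τ vC (neg a) = !vv k ρ0 ρ κ τ vC a
      have ha : a ∈ Γ0 := G.hsub _ hc (subs_neg a)
      rw [vv_dec G W hG hc he]
      simp only [tr, if_neg h] at he
      rw [Gd_neg0] at he
      rw [vv_dec G W hG ha he, Bool.not_not]
    | mod i n f => exact absurd (G.hmod _ hc trivial) h
    | big c n f =>
      have hf : ∀ j, f j ∈ Γ0 := fun j => G.hsub _ hc (subs_big c f j)
      show vv k ρ0 ρ κ τ vC (big c n f) =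
        if c then decide (∃ j, vv k ρ0 ρ κ τ vC (f j) = true)
          else decide (∀ j, vv k ρ0 ρ κ τ vC (f j) = true)
      rw [vv_dec G W hG hc he]
      simp only [tr, if_neg h] at he
      cases c with
      | true =>
        cases e with
        | true =>
          obtain ⟨a, ha, t, ht, hs⟩ := fold_true he
          rw [List.mem_ofFn] at ha
          obtain ⟨j, rfl⟩ := ha
          have hv := vv_true G W hG (hf j) ht hs
          rw [if_pos rfl, eq_comm, decide_eq_true_iff]
          exact ⟨j, hv⟩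
        | false =>
          rw [if_pos rfl, eq_comm, decide_eq_false_iff_not]
          rintro ⟨j, hj⟩
          have hv := vv_false' G W hG (hf j) (fun t ht =>
            fold_false (c := true) he (List.mem_ofFn.mpr ⟨j, rfl⟩) ht)
          rw [hv] at hj
          exact Bool.noConfusion hj
      | false =>
        cases e with
        | false =>
          obtain ⟨a, ha, t, ht, hs⟩ := fold_true he
          rw [List.mem_ofFn] at ha
          obtain ⟨j, rfl⟩ := ha
          have hv := vv_false G W hG (hf j) ht hs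
          rw [if_neg (by simp), eq_comm, decide_eq_false_iff_not]
          intro hall
          rw [hall j] at hv
          exact Bool.noConfusion hv
        | true =>
          rw [if_neg (by simp), eq_comm, decide_eq_true_iff]
          intro j
          exact vv_true' G W hG (hf j) (fun t ht =>
            fold_false (c := false) he (List.mem_ofFn.mpr ⟨j, rfl⟩) ht)

/-- the formula is never false beyond the last context -/
def TrN (q k D : ℕ) (ρ0 : Finset (Finset U)) (ρ : ℕ → Finset (Finset U)) (κ : ℕ → ℕ)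
    (a : NF p (Vr q U)) : Prop :=
  ∀ τ, PP q τ → ρ D ⊆ τ → ¬ GF.Gd 0 q ρ κ (tr ρ0 k a) false τ

theorem step (G : GCtx q k D ρ0 ρ κ Γ0) (hpq : p.Coprime q) (hp : 0 < p) {L : ℕ}
    (hroom : q * κ D + q * ((3 * L + 1) * κ D) + q * κ D + q * (2 * k + 2) + (p + k) ≤ nun (ρ D))
    {E : NF p (Vr q U) → Prop} {P : Finset (NF p (Vr q U))} {a : NF p (Vr q U)}
    (hinf : LocInf L E P a) (ha : a ∈ Γ0) (hP : ∀ b ∈ P, b ∈ Γ0)
    (hE : ∀ c ∈ Γ0, E c → Hs (cov ρ0) k c) (hTr : ∀ b ∈ P, TrN q k D ρ0 ρ κ b) :
    TrN q k D ρ0 ρ κ a := by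
  classical
  obtain ⟨hPc, C, hC, hCs, himp⟩ := hinf
  intro τ hτ hρτ hfalse
  obtain ⟨t, ht, htτ⟩ := hfalse
  have htS := GF.mem_Sm_of_GC _ _ _ ht
  have hlva : GF.glv 0 none (tr ρ0 k a) ≤ D := G.hlev a ha
  set τ0 := t ∪ ρ D with hτ0
  have hτ0τ : τ0 ⊆ τ := union_subset htτ hρτ
  have hτ0PP : PP q τ0 := hτ.mono hτ0τ
  have hn0 : nun (ρ D) ≤ nun τ0 + q * κ D := by
    have h1 := nun_add hτ0PP
    have h2 := nun_add G.hPP
    have h3 : τ0.card ≤ (ρ D).card + κ D := by
      have h4 : τ0 ⊆ ρ D ∪ (t \ ρ D) := by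
        intro x hx
        rcases mem_union.mp hx with h | h
        · by_cases hxd : x ∈ ρ D
          · exact mem_union_left _ hxd
          · exact mem_union_right _ (mem_sdiff.mpr ⟨h, hxd⟩)
        · exact mem_union_left _ h
      have h5 : (t \ ρ D).card ≤ κ D :=
        (card_le_card (sdiff_subset_sdiff Subset.rfl (G.hmono _ hlva))).trans
          (htS.2.2.trans (G.hκm hlva))
      exact (card_le_card h4).trans ((card_union_le _ _).trans (by omega))
    have h6 : q * τ0.card ≤ q * (ρ D).card + q * κ D := by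
      rw [← mul_add]; exact Nat.mul_le_mul_left _ h3
    omega
  have hCΓ : ∀ c ∈ C, c ∈ Γ0 := by
    intro c hc
    rcases hCs c hc with h | ⟨b, hb, h⟩
    · exact G.hsub a ha h
    · exact G.hsub b (hP b hb) h
  set F := (C.biUnion gn ∪ P) ∪ {a} with hF
  have hFΓ : F ⊆ Γ0 := by
    intro x hx
    rcases mem_union.mp hx with hx | hx
    · rcases mem_union.mp hx with hx | hx
      · obtain ⟨c, hc, hxc⟩ := mem_biUnion.mp hx
        exact G.hsub c (hCΓ c hc) (gn_subs c hxc)
      · exact hP x hx
    · rw [mem_singleton] at hx; rw [hx]; exact ha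
  have hFc : F.card ≤ 3 * L + 1 := by
    have h1 : (C.biUnion gn).card ≤ C.card * 2 :=
      card_biUnion_le_card_mul _ _ _ fun c _ => card_gn c
    have h2 := card_union_le (C.biUnion gn ∪ P) {a}
    have h3 := card_union_le (C.biUnion gn) P
    rw [card_singleton] at h2
    rw [← hF] at h2
    omega
  have hFκ : q * (F.card * κ D) ≤ q * ((3 * L + 1) * κ D) :=
    Nat.mul_le_mul_left _ (Nat.mul_le_mul_right _ hFc)
  obtain ⟨τ', hs, hPP', hn', hall⟩ := exists_ext G F hFΓ hτ0PP subset_union_right (by omega)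
  have hρτ' : ρ D ⊆ τ' := subset_union_right.trans hs
  have W : WCtx p q k D ρ κ τ' := ⟨hPP', hρτ', by omega, by omega, by omega⟩
  have hb' : ρ0 ⊆ τ' := valB_base G W
  have hk1 : q * (k + 1) ≤ nun τ' := le_trans (Nat.mul_le_mul_left _ (by omega)) W.hn2
  obtain ⟨vC, hG⟩ := exists_vC (p := p) G.ctx hpq hp hPP' hb' hk1 W.hn3
  have h1 : vv k ρ0 ρ κ τ' vC a = true := by
    apply himp
    · intro c hc
      have hdc : ∀ b ∈ gn c, ∃ e, GF.Gd 0 q ρ κ (tr ρ0 k b) e τ' := fun b hb =>
        hall b (mem_union_left _ (mem_union_left _ (mem_biUnion.mpr ⟨c, hc, hb⟩)))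
      refine ⟨resp_vv G W hG (hCΓ c hc) hdc, fun hEc => ?_⟩
      have hH := hE c (hCΓ c hc) hEc
      obtain ⟨e, he⟩ := hdc c (self_mem_gn c)
      exact sum_S G.ctx hpq hPP' hb' W.hn2 hG (fun a ha => vv_Hs ha) hH (valB_ms G W hH he)
    · intro b hb
      obtain ⟨e, he⟩ := hall b (mem_union_left _ (mem_union_right _ hb))
      cases e with
      | true => exact vv_dec G W hG (hP b hb) he
      | false => exact absurd he (hTr b hb τ' hPP' hρτ')
  have h2 : vv k ρ0 ρ κ τ' vC a = false :=
    vv_dec G W hG ha ⟨t, ht, subset_union_left.trans hs⟩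
  rw [h1] at h2
  exact Bool.noConfusion h2

end NF

end Pool.Agent.Work.MP_c04246_lc
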