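import Mathlib
import Pool.Agent.Work.MP_c04246_lc.Y.ValB

/- MODULE CountF (M). The tautology countNF is never true in a world with enough room.
Let T = countNF p q n ∈ Gam0 and suppose Gd 0 .. (tr T) true tau, PP tau, rho D ⊆ tau, enough room.
Notation Val a e tau := Gd 0 q rho kappa (tr a) e tau. General facts, for a ∈ Gam0 etc.:
* (big_true) Val (big c n f) c tau, room → ∃ tau1 ⊇ tau, PP, nun tau ≤ nun tau1 + q (kappa D), ∃ j,
  Val (f j) c tau1. Not Hs: fold_true gives j and t ∈ (GC (tr (f j))).2 c, t ⊆ tau; exists_ext decides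
  f j in tau1 with value e, GD_Gd: e = c. Hs: Gd_vgate: ms ⊆ cov tau, V (big c n f) tau = c; V_big:
  c = true: some mu (f j) tau ≠ 0 (else the sum is 0), mu_zero_iff: sigma ∈ Mn q (ms (f j)) tau with
  V (f j) sigma = true; Gd_vgate for f j at sigma (|sigma| ≤ |tau| + k, k ≤ kappa 0 ≤ kappa D: Mn_card).
  c = false: sum ≠ n, so some mu (f j) ≠ 1 and mu_one_iff: sigma with V (f j) sigma = false.
* (big_false) Val (big c n f) (!c) tau, tau ⊆ tau1 PP → ¬ Val (f j) c tau1. Not Hs: Val (f j) c tau1: the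
  certificate contains t ∈ (..).2 c (GC_to_GD), t ⊆ tau1, compatible with tau: contradicts fold_false.
  Hs: ms (big) ⊆ cov tau, V (big) tau = !c, and Hs (f j): Val (f j) c tau1 means ms (f j) ⊆ cov tau1,
  V (f j) tau1 = c (Gd_vgate). Room needed: q (k+1) ≤ nun tau1. V (big) tau1 = !c (V_good); V_big at tau1:
  c = true: all mu (f j) tau1 = 0, but mu (f j) tau1 = 1 by mu_cov; c = false: all mu = 1 but it is 0.
* (neg_true) Val (neg a) true tau → Val a false tau: Hs: Gd_vgate, ms_neg, V (neg a) = !V a. Not Hs: Gd_neg0.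
* (var_true) S ∈ tau, rho0 ⊆ tau PP → Val (var S) true tau; (var_false) if some T ∈ tau, T ≠ S meets S
  then Val (var S) false tau. Hs: Gd_vgate: V (var S) = decide (S ∈ tau); ms ⊆ cov tau is needed: the
  least support of cl (var S) is contained in S (Sup (cov rho0 ∪ S): a permutation fixing S fixes the
  class; ms_sub or definition of ms needs |S| = q ≤ k: assume q ≤ k, then ms ⊆ S directly); for
  var_true S ⊆ cov tau. For var_false S need not be covered: then first extend. So state var_false as: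
  if S ∉ tau and S ⊆ cov tau then Val (var S) false tau. Not Hs: tr = GF.var S: LC-certificate
  {S} ∪ rho0 resp. for S ∉ tau, S ⊆ cov tau, tau PP: the certificate {T} ∪ rho0 with T ∈ tau meeting S
  (|.. \ rho0| ≤ 1 ≤ kappa 0).
Conclusion: by big_true (T is a big true) there are tau1 and an argument of T true at tau1:
(a) neg (bigL true (vars S ∋ u)): neg_true: bigL true (..) is false at tau1. Extend tau1 to tau2 with a
part S ∋ u (exists_adm if u is not covered); S is in the list, Val (var S) true tau2, contradiction to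
big_false.
(b) bigL false [var S, var S'], S ≠ S', intersecting, true at tau1: not both are in tau1 (PP), say S ∉ tau1
(the other case is the same). Extend tau1 to tau2 with S ∉ tau2 and S ⊆ cov tau2: first, if no point
of S is covered, take u ∈ S and a part T ∋ u disjoint from cov tau1 with T ≠ S (ext_avoid in LFinal.lean,
room ≥ q + 1); then cover the remaining points of S one by one (exists_adm; Dec.cover / at most q
steps); S is never added since a point of S is already covered by T ≠ S. var_false at tau2 contradicts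
big_false.
-/

set_option autoImplicit false
set_option linter.unusedSectionVars false
set_option linter.unusedSimpArgs false
set_option linter.unusedVariables false
set_option linter.unusedDecidableInType false
set_option linter.unusedFintypeInType false

namespace Pool.Agent.Work.MP_c04246_lc

open Finset

namespace NF

variable {p q k D n : ℕ} {ρ0 τ : Finset (Finset (Fin n))}
  {ρ : ℕ → Finset (Finset (Fin n))} {κ : ℕ → ℕ} {Γ0 : Finset (NF p (Vr q (Fin n)))}

private lemma kap (G : GCtx q k D ρ0 ρ κ Γ0) : k ≤ κ D := G.hk.trans (G.hκm (Nat.zero_le _))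

private lemma big_true (G : GCtx q k D ρ0 ρ κ Γ0) {c : Bool} {N : ℕ}
    {f : Fin N → NF p (Vr q (Fin n))} (ha : big c N f ∈ Γ0) (hτ : PP q τ) (hρ : ρ D ⊆ τ)
    (hn : q * κ D + q * (k + 1) ≤ nun τ)
    (h : GF.Gd 0 q ρ κ (tr ρ0 k (big c N f)) c τ) :
    ∃ τ', τ ⊆ τ' ∧ PP q τ' ∧ nun τ ≤ nun τ' + q * κ D ∧
      ∃ j, GF.Gd 0 q ρ κ (tr ρ0 k (f j)) c τ' := by
  classical
  have hρ0 : ρ0 ⊆ τ := G.base.trans hρ
  by_cases hH : Hs (cov ρ0) k (big c N f)
  · rw [tr_Hs hH, Gd_vgate G.ctx G.h0 G.hk G.hr hH hτ hρ0] at h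
    obtain ⟨hms, hV⟩ := h
    have hn1 : q * (k + 1) ≤ nun τ := by omega
    have hn2 : q * k ≤ nun τ := le_trans (Nat.mul_le_mul_left _ (Nat.le_succ k)) hn1
    have key : ∃ j, ∃ σ ∈ Mn q (ms (cov ρ0) k (cl (f j))) τ, V ρ0 k (f j) σ = c := by
      rw [V_big G.ctx hH hτ hρ0 hms hn2] at hV
      cases c with
      | true =>
        simp only [if_true, decide_eq_true_eq] at hV
        obtain ⟨j, -, hj⟩ := exists_ne_zero_of_sum_ne_zero hV
        refine ⟨j, ?_⟩
        rw [Ne, mu_zero_iff G.ctx hτ] at hj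
        push Not at hj
        obtain ⟨σ, hσ, h1⟩ := hj
        exact ⟨σ, hσ, by simpa using h1⟩
      | false =>
        simp only [Bool.false_eq_true, if_false, decide_eq_false_iff_not] at hV
        by_contra hcon
        apply hV
        have : ∀ j, mu ρ0 k (f j) τ = 1 := by
          intro j
          rw [mu_one_iff G.ctx (hH.big j) hτ hn1]
          intro σ hσ
          by_contra h1
          exact hcon ⟨j, σ, hσ, by simpa using h1⟩
        simp [this]
    obtain ⟨j, σ, hσ, hVσ⟩ := key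
    obtain ⟨h1, h2, h3, -, h5, -⟩ := Mn_card hτ hσ
    refine ⟨σ, h2, h1, ?_, j, ?_⟩
    · have := (G.ctx.spec (hH.big j)).2
      have h6 : q * (ms (cov ρ0) k (cl (f j))).card ≤ q * κ D :=
        Nat.mul_le_mul_left _ (this.trans (kap G))
      omega
    · rw [tr_Hs (hH.big j), Gd_vgate G.ctx G.h0 G.hk G.hr (hH.big j) h1 (hρ0.trans h2)]
      exact ⟨h3, hVσ⟩
  · have htr : tr ρ0 k (big c N f) = foldG c (List.ofFn fun j => tr ρ0 k (f j)) := by
      simp only [tr, if_neg hH]
    rw [htr] at h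
    obtain ⟨x, hx, t, ht, hts⟩ := fold_true h
    rw [List.mem_ofFn] at hx
    obtain ⟨j, rfl⟩ := hx
    have hfj : f j ∈ Γ0 := G.hsub _ ha (subs_big c f j)
    obtain ⟨τ', hs, hPP, hnn, hall⟩ := exists_ext G {f j} (by simpa using hfj) hτ hρ
      (by rw [card_singleton, one_mul]; omega)
    rw [card_singleton, one_mul] at hnn
    obtain ⟨e, he⟩ := hall (f j) (mem_singleton_self _)
    have := GD_Gd hPP ht (hts.trans hs) he
    subst this
    exact ⟨τ', hs, hPP, hnn, j, he⟩

private lemma big_false (G : GCtx q k D ρ0 ρ κ Γ0) {c : Bool} {N : ℕ}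
    {f : Fin N → NF p (Vr q (Fin n))} (hτ : PP q τ) (hρ : ρ D ⊆ τ)
    (h : GF.Gd 0 q ρ κ (tr ρ0 k (big c N f)) (!c) τ) {τ' : Finset (Finset (Fin n))}
    (hs : τ ⊆ τ') (hPP : PP q τ') (hn : q * (k + 1) ≤ nun τ') (j : Fin N) :
    ¬ GF.Gd 0 q ρ κ (tr ρ0 k (f j)) c τ' := by
  classical
  intro hj
  have hρ0 : ρ0 ⊆ τ := G.base.trans hρ
  by_cases hH : Hs (cov ρ0) k (big c N f)
  · rw [tr_Hs hH, Gd_vgate G.ctx G.h0 G.hk G.hr hH hτ hρ0] at h
    rw [tr_Hs (hH.big j), Gd_vgate G.ctx G.h0 G.hk G.hr (hH.big j) hPP (hρ0.trans hs)] at hj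
    obtain ⟨hms, hV⟩ := h
    obtain ⟨hmj, hVj⟩ := hj
    have h1 := V_good G.ctx hH τ τ' hPP hρ0 hs hms
    rw [h1, V_big G.ctx hH hPP (hρ0.trans hs) (hms.trans (cov_mono hs))
      (le_trans (Nat.mul_le_mul_left _ (Nat.le_succ k)) hn)] at hV
    have hmu := mu_cov (k := k) (ρ0 := ρ0) (a := f j) hPP hmj
    cases c with
    | true =>
      simp only [if_true, Bool.not_true, decide_eq_false_iff_not, not_not] at hV
      rw [sum_eq_zero_iff_of_nonneg (fun i _ => mu_nonneg (f i))] at hV
      have := hV j (mem_univ _)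
      rw [hmu, hVj] at this
      simp at this
    | false =>
      simp only [Bool.false_eq_true, if_false, Bool.not_false, decide_eq_true_eq] at hV
      have h2 : ∑ i, mu ρ0 k (f i) τ' < ∑ _i : Fin N, (1 : ℚ) := by
        apply sum_lt_sum (fun i _ => mu_le_one G.ctx (hH.big i) hPP hn)
        refine ⟨j, mem_univ _, ?_⟩
        rw [hmu, hVj]; simp
      rw [hV] at h2
      simp at h2
  · have htr : tr ρ0 k (big c N f) = foldG c (List.ofFn fun j => tr ρ0 k (f j)) := by
      simp only [tr, if_neg hH]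
    rw [htr] at h
    obtain ⟨t, ht, hts⟩ := hj
    obtain ⟨t1, ht1, hts1⟩ := GF.GC_to_GD _ _ _ ht
    refine fold_false h (a := tr ρ0 k (f j)) ?_ ht1 (hPP.mono (union_subset (hts1.trans hts) hs))
    rw [List.mem_ofFn]
    exact ⟨j, rfl⟩

private lemma neg_true (G : GCtx q k D ρ0 ρ κ Γ0) {a : NF p (Vr q (Fin n))}
    (hτ : PP q τ) (hρ : ρ D ⊆ τ) (h : GF.Gd 0 q ρ κ (tr ρ0 k (neg a)) true τ) :
    GF.Gd 0 q ρ κ (tr ρ0 k a) false τ := by
  classical
  have hρ0 : ρ0 ⊆ τ := G.base.trans hρ
  by_cases hH : Hs (cov ρ0) k (neg a)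
  · rw [tr_Hs hH, Gd_vgate G.ctx G.h0 G.hk G.hr hH hτ hρ0] at h
    rw [tr_Hs hH.neg, Gd_vgate G.ctx G.h0 G.hk G.hr hH.neg hτ hρ0]
    obtain ⟨hms, hV⟩ := h
    rw [ms_neg] at hms
    refine ⟨hms, ?_⟩
    simpa [V] using hV
  · have htr : tr ρ0 k (neg a) = GF.neg (tr ρ0 k a) := by
      simp only [tr, if_neg hH]
    rw [htr, Gd_neg0] at h
    simpa using h

private lemma ms_var (hqk : q ≤ k) (S : Vr q (Fin n)) :
    ms (cov ρ0) k (cl (var S : NF p (Vr q (Fin n)))) ⊆ S.1 := by
  classical
  intro u hu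
  unfold ms at hu
  rw [mem_filter] at hu
  refine hu.2.2 S.1 (S.2.le.trans hqk) ?_
  intro π hπ
  rw [smul_cl]
  have : mv π S = S := by
    apply Subtype.ext
    show S.1.map _ = S.1
    have h1 : ∀ x ∈ S.1, π x = x := fun x hx => hπ x (mem_union_right _ hx)
    apply eq_of_subset_of_card_le
    · intro x hx
      rw [mem_map] at hx
      obtain ⟨y, hy, rfl⟩ := hx
      rw [Equiv.coe_toEmbedding, h1 y hy]
      exact hy
    · rw [card_map]
  simp only [map, this]

private lemma var_dec (G : GCtx q k D ρ0 ρ κ Γ0) (hqk : q ≤ k) {S : Vr q (Fin n)}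
    (hτ : PP q τ) (hρ : ρ D ⊆ τ) (hS : S.1 ⊆ cov τ) :
    GF.Gd 0 q ρ κ (tr ρ0 k (var S : NF p (Vr q (Fin n)))) (decide (S.1 ∈ τ)) τ := by
  classical
  have hρ0 : ρ0 ⊆ τ := G.base.trans hρ
  have hq := G.ctx.hq
  by_cases hH : Hs (cov ρ0) k (var S : NF p (Vr q (Fin n)))
  · rw [tr_Hs hH, Gd_vgate G.ctx G.h0 G.hk G.hr hH hτ hρ0]
    refine ⟨(ms_var hqk S).trans hS, ?_⟩
    simp only [V]
  · have htr : tr ρ0 k (var S : NF p (Vr q (Fin n))) = GF.var S := by
      simp only [tr, if_neg hH]
    rw [htr]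
    obtain ⟨u, hu⟩ : S.1.Nonempty := by rw [← card_pos, S.2]; omega
    obtain ⟨T, hT, huT⟩ := mem_cov.mp (hS hu)
    have hsub : ({T} ∪ ρ0 : Finset (Finset (Fin n))) ⊆ τ :=
      union_subset (by simpa using hT) hρ0
    have hk0 : 1 ≤ κ 0 := by have := G.hk; omega
    have hiff : S.1 ∈ ({T} ∪ ρ0 : Finset (Finset (Fin n))) ↔ S.1 ∈ τ := by
      constructor
      · exact fun h => hsub h
      · intro h
        by_cases hTS : T = S.1
        · simp [hTS]
        · exfalso
          have := hτ.2 T hT S.1 h hTS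
          exact (disjoint_left.mp this) huT hu
    refine ⟨{T} ∪ ρ0, ⟨⟨hτ.mono hsub, ?_, ?_⟩, ?_, ?_⟩, hsub⟩
    · rw [G.h0]; exact subset_union_right
    · rw [G.h0]
      have : ({T} ∪ ρ0) \ ρ0 ⊆ ({T} : Finset (Finset (Fin n))) := by
        intro x hx
        rw [mem_sdiff, mem_union] at hx
        rcases hx.1 with h | h
        · exact h
        · exact absurd h hx.2
      exact (card_le_card this).trans (by rw [card_singleton]; exact hk0)
    · intro S' hS'
      have hSS : S' = S := by simpa [GF.vars] using hS'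
      subst hSS
      by_cases hTS : T = S'.1
      · left; rw [← hTS]; simp
      · right
        refine ⟨T, by simp, hTS, ?_⟩
        rw [not_disjoint_iff]
        exact ⟨u, huT, hu⟩
    · simp only [GF.eval, GF.wa]
      rw [decide_eq_decide]
      exact hiff

private lemma mem_get {c : Bool} {l : List (NF p (Vr q (Fin n)))} {a : NF p (Vr q (Fin n))}
    (h : a ∈ l) : ∃ j : Fin l.length, l.get j = a := List.mem_iff_get.mp h

theorem count_false (G : GCtx q k D ρ0 ρ κ Γ0) (hqk : q ≤ k) (hT : countNF p q n ∈ Γ0)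
    (hτ : PP q τ) (hρ : ρ D ⊆ τ)
    (hn : q * (2 * κ D) + q * (q + 3) + q * (2 * k + 2) + (p + k) ≤ nun τ) :
    ¬ GF.Gd 0 q ρ κ (tr ρ0 k (countNF p q n)) true τ := by
  classical
  intro h
  have hq := G.ctx.hq
  have e1 : q * (2 * κ D) = q * κ D + q * κ D := by ring
  have e2 : q * (q + 3) = q * q + q + q + q := by ring
  have e3 : q * (2 * k + 2) = q * (k + 1) + q * (k + 1) := by ring
  unfold countNF bigL at h hT
  obtain ⟨τ1, hs1, hPP1, hn1, j, hj⟩ := big_true G hT hτ hρ (by omega) h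
  have hρ1 : ρ D ⊆ τ1 := hρ.trans hs1
  have hmem := List.get_mem _ j
  rw [List.mem_append] at hmem
  rcases hmem with hm | hm
  · rw [List.mem_map] at hm
    obtain ⟨u, -, hu⟩ := hm
    rw [← hu] at hj
    have hj2 := neg_true G hPP1 hρ1 hj
    obtain ⟨S, hS, huS, hPP⟩ := GF.ext_one (by omega) hPP1 (by omega) u
    have hn2 : nun τ1 ≤ nun ({S} ∪ τ1) + q := by
      by_cases hSτ : S ∈ τ1
      · have : ({S} : Finset (Finset (Fin n))) ∪ τ1 = τ1 := by
          rw [union_eq_right]; simpa using hSτ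
        rw [this]; omega
      · have h1 := nun_add hPP1
        have h2 := nun_add hPP
        have h3 : ({S} ∪ τ1).card = τ1.card + 1 := by
          rw [← insert_eq, card_insert_of_notMem hSτ]
        rw [h3, Nat.mul_succ] at h2
        omega
    have hmS : (var ⟨S, hS⟩ : NF p (Vr q (Fin n))) ∈
        ((Finset.univ : Finset {S : Finset (Fin n) // S.card = q}).filter
        fun S => u ∈ S.1).toList.map var := by
      rw [List.mem_map]
      refine ⟨⟨S, hS⟩, ?_, rfl⟩
      rw [mem_toList, mem_filter]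
      exact ⟨mem_univ _, huS⟩
    obtain ⟨i, hi⟩ := List.mem_iff_get.mp hmS
    refine big_false G (c := true) hPP1 hρ1 hj2 (τ' := {S} ∪ τ1) subset_union_right hPP
      (by omega) i ?_
    rw [hi]
    have hd := var_dec (p := p) G hqk (S := ⟨S, hS⟩) hPP (hρ1.trans subset_union_right) (by
      intro x hx
      exact mem_cov.mpr ⟨S, by simp, hx⟩)
    have : decide (S ∈ ({S} ∪ τ1 : Finset (Finset (Fin n)))) = true := by simp
    rw [this] at hd
    exact hd
  · rw [List.mem_map] at hm
    obtain ⟨x, hx, hxe⟩ := hm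
    rw [mem_toList, mem_filter] at hx
    obtain ⟨-, hne, hnd⟩ := hx
    rw [← hxe] at hj
    -- one of the two is not in the world
    have key : ∀ S : Vr q (Fin n), (S = x.1 ∨ S = x.2) → S.1 ∉ τ1 → False := by
      intro S hSx hSτ
      obtain ⟨T, hTq, hTS, hTd, hPPT⟩ := GF.ext_avoid hq hPP1 (by omega) S.2 hSτ
      have hn2 : nun τ1 ≤ nun ({T} ∪ τ1) + q := by
        by_cases hTτ : T ∈ τ1
        · have : ({T} : Finset (Finset (Fin n))) ∪ τ1 = τ1 := by
            rw [union_eq_right]; simpa using hTτ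
          rw [this]; omega
        · have h1 := nun_add hPP1
          have h2 := nun_add hPPT
          have h3 : ({T} ∪ τ1).card = τ1.card + 1 := by
            rw [← insert_eq, card_insert_of_notMem hTτ]
          rw [h3, Nat.mul_succ] at h2
          omega
      obtain ⟨τ2, hs2, hPP2, hc2, hn3⟩ := (Dec.cover S.1 _ hPPT).run (by omega) hPPT
        (by rw [S.2]; omega)
      rw [S.2] at hn3
      have hSn : S.1 ∉ τ2 := by
        intro hS2
        exact hTd (hPP2.2 T (hs2 (by simp)) S.1 hS2 hTS)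
      have hs12 : τ1 ⊆ τ2 := subset_union_right.trans hs2
      have hmS : (var S : NF p (Vr q (Fin n))) ∈
          ([var x.1, var x.2] : List (NF p (Vr q (Fin n)))) := by
        rcases hSx with rfl | rfl
        · simp
        · simp
      obtain ⟨i, hi⟩ := List.mem_iff_get.mp hmS
      refine big_false G (c := false) hPP1 hρ1 hj (τ' := τ2) hs12 hPP2 (by omega) i ?_
      rw [hi]
      have hd := var_dec (p := p) G hqk (S := S) hPP2 (hρ1.trans hs12) hc2
      have : decide (S.1 ∈ τ2) = false := by simpa using hSn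
      rw [this] at hd
      exact hd
    by_cases h1 : x.1.1 ∈ τ1
    · by_cases h2 : x.2.1 ∈ τ1
      · exact hnd (hPP1.2 _ h1 _ h2 (fun h0 => hne (Subtype.ext h0)))
      · exact key x.2 (Or.inr rfl) h2
    · exact key x.1 (Or.inl rfl) h1

end NF

end Pool.Agent.Work.MP_c04246_lc
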