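import Mathlib
import Pool.Agent.Work.MP_c04246_lc.Y.CountF

set_option autoImplicit false
set_option linter.unusedSectionVars false
set_option linter.unusedSimpArgs false
set_option linter.unusedVariables false
set_option linter.unusedDecidableInType false
set_option linter.unusedFintypeInType false

/- MODULE CoreN (M). The lower bound argument for proofs in which all MOD-subformulas (and all the
formulas with the property E) have hereditarily small supports. Copy GF.lcore2 in TCore.lean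
(LMain.lean: GF.lcore) with these changes: the base world rho0 is given; Gam from exists_Gam;
hGL: for x ∈ Gam with isL 0 x: GG 0 q (fun _ => rho0) kappa x: if x = vgate a: GG_vgate; if
(vars x).card ≤ 1: GF.GG_of_transversal with W = ∅ or W = {u}, u ∈ S for the only variable S
(q ≥ 2 > 0; kappa 0 ≥ 1). GF.exists_gcontexts with a0 = 2 w: Gam.card ≤ 3 * sum < 3 * 2^w < 2^(2w+1)
(w ≥ 1). Gam0 := pi.toFinset.biUnion subs; GCtx: hlev by lev (all MOD-subformulas of b have Hs,
depth b ≤ D), hGG from exists_gcontexts. Then TrN for all lines by strong induction (step with L = w),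
T = countNF is a line: exists_ext decides {T} in an extension of rho D, value false contradicts TrN, value
true contradicts count_false. Room: all from hroom, nun (rho D) = N D.
-/
namespace Pool.Agent.Work.MP_c04246_lc

open Finset

namespace NF

variable {p q k n : ℕ}

theorem coreN (hq2 : 2 ≤ q) (hpq : p.Coprime q) (hp : 0 < p) {w D n' t E' s : ℕ} {κ N : ℕ → ℕ}
    (hPF : ParamFacts q w D n' t E' s κ N) (hw : 1 ≤ w) (hD : 1 ≤ D) (hk : k ≤ κ 0) (hqk : q ≤ k)
    {ρ0 : Finset (Finset (Fin n))} (hρ0 : PP q ρ0) (hρn : nun ρ0 = n')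
    (hroom0 : q * (2 * k + 4) + q * (κ 0 + 1) ≤ n')
    (hroom : q * κ D + q * ((3 * w + 3) * κ D) + q * κ D + q * (q + 3) + q * (2 * k + 2) + (p + k) ≤
      N D)
    {pi : List (NF p (Vr q (Fin n)))} {E : NF p (Vr q (Fin n)) → Prop} (hpi : IsProof w E pi)
    (hT : countNF p q n ∈ pi) (hd : ∀ b ∈ pi, depth b ≤ D)
    (hsize : (pi.map size).sum < 2 ^ w)
    (hmod : ∀ b ∈ pi, ∀ a ∈ subs b, IsMod a → Hs (cov ρ0) k a)
    (hE : ∀ b ∈ pi, ∀ a ∈ subs b, E a → Hs (cov ρ0) k a) : False := by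
  classical
  have hq0 : 0 < q := by omega
  have hC : Ctx q k ρ0 := ⟨hq2, hρ0, by omega⟩
  obtain ⟨Γ, hclosed, hΓmem, hΓcard, hΓL⟩ := exists_Gam (ρ0 := ρ0) (k := k) pi
  have hΓlt : Γ.card < 2 ^ (2 * w + 1) := by
    have h1 : 3 * (pi.map size).sum < 4 * 2 ^ w := by omega
    have h2 : 4 * 2 ^ w ≤ 2 ^ (2 * w + 1) := by
      calc 4 * 2 ^ w = 2 ^ (w + 2) := by rw [pow_add]; ring
        _ ≤ 2 ^ (2 * w + 1) := Nat.pow_le_pow_right (by norm_num) (by omega)
    omega
  have hGL : ∀ x ∈ Γ, GF.isL 0 x → GF.GG 0 q (fun _ => ρ0) κ x := by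
    intro x hx hl
    rcases hΓL x hx hl with h | ⟨a, ha, rfl⟩
    · have h1κ : 1 ≤ κ 0 := hPF.hκ1 0
      obtain ⟨W, hW, hWS⟩ : ∃ W : Finset (Fin n), W.card ≤ 1 ∧
          ∀ S ∈ GF.vars x, ∃ u ∈ W, u ∈ S.1 := by
        rcases Finset.eq_empty_or_nonempty (GF.vars x) with h0 | ⟨S, hS⟩
        · exact ⟨∅, by simp, by rw [h0]; simp⟩
        · obtain ⟨u, hu⟩ : S.1.Nonempty := by rw [← card_pos, S.2]; exact hq0
          refine ⟨{u}, by simp, ?_⟩
          intro T hT
          have : T = S := Finset.card_le_one.mp h T hT S hS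
          exact ⟨u, by simp, by rw [this]; exact hu⟩
      exact GF.GG_of_transversal hl hρ0 W (hW.trans h1κ) fun S hS => Or.inr (hWS S hS)
    · exact GG_vgate hC hk ha
  obtain ⟨ρ, hρ00, hρPP, hρm, hρN, hρG⟩ := GF.exists_gcontexts hq0 hclosed (a0 := 2 * w) (d := D)
    hΓlt hPF.hκ1 hPF.hκa hPF.hκm
    hρ0 (hρn.trans hPF.hN0.symm) hGL hPF.hN
    (fun i hi => hPF.h16 i hi) (fun i hi => hPF.hroom i hi) hPF.hN1 D le_rfl
  have hND : nun (ρ D) = N D := hρN D le_rfl
  set Γ0 : Finset (NF p (Vr q (Fin n))) := pi.toFinset.biUnion subs with hΓ0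
  have hmem : ∀ a, a ∈ Γ0 ↔ ∃ b ∈ pi, a ∈ subs b := by
    intro a; rw [hΓ0, mem_biUnion]; simp only [List.mem_toFinset]
  have hlev : ∀ a ∈ Γ0, GF.glv 0 none (tr ρ0 k a) ≤ D := by
    intro a ha
    obtain ⟨b, hb, hab⟩ := (hmem a).mp ha
    exact (lev (hmod b hb) hab).trans (hd b hb)
  have G : GCtx q k D ρ0 ρ κ Γ0 := by
    refine ⟨hC, hρ00, hρPP D le_rfl, fun j hj => hρm j D hj le_rfl, hPF.hκm, hk, by omega, ?_, ?_,
      hlev, ?_⟩
    · intro a ha x hx
      obtain ⟨b, hb, hab⟩ := (hmem a).mp ha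
      exact (hmem x).mpr ⟨b, hb, subs_trans hab hx⟩
    · intro a ha hm
      obtain ⟨b, hb, hab⟩ := (hmem a).mp ha
      exact hmod b hb a hab hm
    · intro a ha
      obtain ⟨b, hb, hab⟩ := (hmem a).mp ha
      exact hρG _ (hΓmem b hb a hab) (hlev a ha)
  have hline : ∀ b ∈ pi, b ∈ Γ0 := fun b hb => (hmem b).mpr ⟨b, hb, subs_self b⟩
  have hEE : ∀ c ∈ Γ0, E c → Hs (cov ρ0) k c := by
    intro c hc hEc
    obtain ⟨b, hb, hcb⟩ := (hmem c).mp hc
    exact hE b hb c hcb hEc
  have hroom' : q * κ D + q * ((3 * w + 1) * κ D) + q * κ D + q * (2 * k + 2) + (p + k) ≤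
      nun (ρ D) := by
    rw [hND]
    have h1 : q * ((3 * w + 1) * κ D) ≤ q * ((3 * w + 3) * κ D) :=
      Nat.mul_le_mul_left _ (Nat.mul_le_mul_right _ (by omega))
    omega
  have hTr : ∀ i : ℕ, ∀ (hi : i < pi.length), TrN q k D ρ0 ρ κ (pi.get ⟨i, hi⟩) := by
    intro i
    induction i using Nat.strong_induction_on with
    | _ i ih =>
      intro hi
      obtain ⟨P, hPj, hinf⟩ := hpi ⟨i, hi⟩
      refine step G hpq hp (L := w) hroom' hinf (hline _ (List.get_mem _ _)) ?_ hEE ?_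
      · intro b hb
        obtain ⟨j, _, rfl⟩ := hPj b hb
        exact hline _ (List.get_mem _ _)
      · intro b hb
        obtain ⟨j, hj, rfl⟩ := hPj b hb
        exact ih j.1 hj j.2
  have hTc : TrN q k D ρ0 ρ κ (countNF p q n) := by
    obtain ⟨i, hi⟩ := List.get_of_mem hT
    rw [← hi]
    exact hTr i.1 i.2
  have hroom3 : q * (({countNF p q n} : Finset (NF p (Vr q (Fin n)))).card * κ D) ≤
      nun (ρ D) := by
    rw [card_singleton, one_mul]
    omega
  obtain ⟨τ', hs, hPP', hn', hall⟩ := exists_ext G {countNF p q n}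
    (singleton_subset_iff.mpr (hline _ hT)) (hρPP D le_rfl) Subset.rfl hroom3
  obtain ⟨e, he⟩ := hall _ (mem_singleton_self _)
  cases e with
  | false => exact hTc τ' hPP' hs he
  | true =>
    refine count_false G hqk (hline _ hT) hPP' hs ?_ he
    rw [card_singleton, one_mul, hND] at hn'
    have h1 : q * ((3 * w + 3) * κ D) = q * ((3 * w + 1) * κ D) + q * (2 * κ D) := by ring
    have h2 : q * (2 * κ D) = q * κ D + q * κ D := by ring
    omega

end NF

end Pool.Agent.Work.MP_c04246_lc
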