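import Mathlib
import Pool.Agent.Work.MP_c04246_lc.Y.PDefs

set_option autoImplicit false
set_option linter.unusedSectionVars false
set_option linter.unusedSimpArgs false
set_option linter.unusedVariables false
set_option linter.unusedDecidableInType false
set_option linter.unusedFintypeInType false

/- MODULE Cyc (S-M, Mathlib only). Three-cycles cyc a b c = swap a b * swap b c : a → b → c → a, in a
subgroup H.
* cyc_apply: values. cyc_conj: s * cyc a b c * s^-1 = cyc (s a) (s b) (s c) (Equiv.swap_apply_apply /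
  Equiv.mul_swap_eq_swap_mul). cyc_rot: cyc a b c = cyc b c a for distinct points (ext + cases, or
  decide-like case analysis), cyc_inv: (cyc a b c)^-1 = cyc c b a (mul_inv_rev, swap_inv, swap_comm).
* T1: a, b, c, d distinct, cyc a b c, cyc a b d ∈ H → cyc a b d * cyc a b c * (cyc a b d)^-1 =
  cyc b d c ∈ H and (cyc a b d)^-1 * cyc a b c * cyc a b d = cyc d a c ∈ H.
* T2: a, b, c, d, e distinct, cyc a b c, cyc a d e ∈ H → conjugate the first by the second:
  cyc d b c ∈ H.
* Rel H a b := a = b ∨ ∃ c ≠ a, b with cyc a b c ∈ H. Rel.cyc: if a, b, c are distinct, Rel H a b (via x),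
  Rel H b c (via y), then cyc a b c ∈ H: x = c or y = a: done (cyc_rot). x = y: cyc b x a (rotation of
  cyc a b x) and cyc b x c (= (cyc c x b)^-1..: cyc b c x ∈ H, inverse cyc x c b = cyc b x c) are in H,
  T1 gives cyc b a c up to rotation/inverse, so cyc a b c ∈ H. x ≠ y (both outside of a, b, c): five
  distinct points; conjugate cyc b x a by cyc b c y: cyc c x a ∈ H; with cyc b x a both contain x, a:
  T1 for cyc x a c, cyc x a b gives cyc a b c up to rotation/inverse.
  Rel.trans follows (a third point is c: Rel H a c via b, cyc a c b = (cyc b c a)^-1). Rel.symm: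
  cyc b a c = (cyc c a b)^-1 = (cyc a b c)^-1... (rotation). Rel.smul: conjugation by h ∈ H.
-/
namespace Pool.Agent.Work.MP_c04246_lc

open Finset

namespace NF

section

variable {U : Type} [DecidableEq U]

/-- the three-cycle a → b → c → a -/
def cyc (a b c : U) : Equiv.Perm U := Equiv.swap a b * Equiv.swap b c

lemma cyc_conj (σ : Equiv.Perm U) (a b c : U) : σ * cyc a b c * σ⁻¹ = cyc (σ a) (σ b) (σ c) := by
  rw [cyc, cyc, Equiv.swap_apply_apply, Equiv.swap_apply_apply]
  group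

lemma cyc_apply {a b c : U} (hab : a ≠ b) (hbc : b ≠ c) (hac : a ≠ c) :
    cyc a b c a = b ∧ cyc a b c b = c ∧ cyc a b c c = a ∧
      ∀ u, u ≠ a → u ≠ b → u ≠ c → cyc a b c u = u := by
  refine ⟨?_, ?_, ?_, fun u h1 h2 h3 => ?_⟩
  · rw [cyc, Equiv.Perm.mul_apply, Equiv.swap_apply_of_ne_of_ne hab hac, Equiv.swap_apply_left]
  · rw [cyc, Equiv.Perm.mul_apply, Equiv.swap_apply_left, Equiv.swap_apply_of_ne_of_ne hac.symm hbc.symm]
  · rw [cyc, Equiv.Perm.mul_apply, Equiv.swap_apply_right, Equiv.swap_apply_right]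
  · rw [cyc, Equiv.Perm.mul_apply, Equiv.swap_apply_of_ne_of_ne h2 h3,
      Equiv.swap_apply_of_ne_of_ne h1 h2]

lemma swap_mul_swap (a b d e : U) :
    Equiv.swap a b * Equiv.swap d e = cyc a b d * cyc b d e := by
  rw [cyc, cyc, mul_assoc, ← mul_assoc (Equiv.swap b d) (Equiv.swap b d), Equiv.swap_mul_self,
    one_mul]

private lemma cyc_rot {a b c : U} (hab : a ≠ b) (hac : a ≠ c) : cyc a b c = cyc b c a := by
  rw [cyc, cyc, Equiv.mul_swap_eq_swap_mul (Equiv.swap b c) c a, Equiv.swap_apply_right,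
    Equiv.swap_apply_of_ne_of_ne hab hac, Equiv.swap_comm b a]

private lemma cyc_inv (a b c : U) : (cyc a b c)⁻¹ = cyc c b a := by
  rw [cyc, cyc, mul_inv_rev, Equiv.swap_inv, Equiv.swap_inv, Equiv.swap_comm b c,
    Equiv.swap_comm a b]

/-- two points are related if they lie in a three-cycle of `H` -/
def Rel (H : Subgroup (Equiv.Perm U)) (a b : U) : Prop :=
  a = b ∨ ∃ c, c ≠ a ∧ c ≠ b ∧ cyc a b c ∈ H

variable {H : Subgroup (Equiv.Perm U)} {a b c : U}

lemma Rel.refl : Rel H a a := Or.inl rfl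

lemma Rel.symm (h : Rel H a b) : Rel H b a := by
  by_cases hab : a = b
  · exact Or.inl hab.symm
  rcases h with h | ⟨c, hca, hcb, h⟩
  · exact Or.inl h.symm
  · refine Or.inr ⟨c, hcb, hca, ?_⟩
    rw [← cyc_rot hcb hca, ← cyc_inv a b c]
    exact H.inv_mem h

theorem Rel.cyc (h : Rel H a b) (h' : Rel H b c) (hab : a ≠ b) (hbc : b ≠ c) (hac : a ≠ c) :
    NF.cyc a b c ∈ H := by
  rcases h with h | ⟨x, hxa, hxb, h⟩
  · exact absurd h hab
  rcases h' with h' | ⟨y, hyb, hyc, h'⟩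
  · exact absurd h' hbc
  by_cases hxc : x = c
  · rw [← hxc]
    exact h
  by_cases hya : y = a
  · rw [cyc_rot hab hac, ← hya]
    exact h'
  by_cases hxy : x = y
  · subst hxy
    have h1 : (NF.cyc a b x)⁻¹ * NF.cyc b c x * (NF.cyc a b x) ∈ H :=
      H.mul_mem (H.mul_mem (H.inv_mem h) h') h
    have h2 := cyc_conj (NF.cyc a b x)⁻¹ b c x
    rw [inv_inv] at h2
    obtain ⟨e1, e2, e3, e4⟩ := cyc_apply hab (fun e => hxb e.symm) (fun e => hxa e.symm)
    have f1 : (NF.cyc a b x)⁻¹ b = a := by rw [Equiv.Perm.inv_eq_iff_eq, e1]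
    have f2 : (NF.cyc a b x)⁻¹ x = b := by rw [Equiv.Perm.inv_eq_iff_eq, e2]
    have f3 : (NF.cyc a b x)⁻¹ c = c := by
      rw [Equiv.Perm.inv_eq_iff_eq, e4 c hac.symm hbc.symm (fun e => hxc e.symm)]
    rw [h2, f1, f2, f3] at h1
    have h3 := H.inv_mem h1
    rw [cyc_inv, ← cyc_rot hab hac] at h3
    exact h3
  · have h1 : NF.cyc b c y * NF.cyc a b x * (NF.cyc b c y)⁻¹ ∈ H :=
      H.mul_mem (H.mul_mem h' h) (H.inv_mem h')
    obtain ⟨e1, e2, e3, e4⟩ := cyc_apply hbc (fun e => hyc e.symm) (fun e => hyb e.symm)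
    rw [cyc_conj, e1, e4 a hab hac (fun e => hya e.symm), e4 x hxb hxc hxy] at h1
    have h2 : NF.cyc a b x * NF.cyc a c x * (NF.cyc a b x)⁻¹ ∈ H :=
      H.mul_mem (H.mul_mem h h1) (H.inv_mem h)
    obtain ⟨g1, g2, g3, g4⟩ := cyc_apply hab (fun e => hxb e.symm) (fun e => hxa e.symm)
    rw [cyc_conj, g1, g3, g4 c hac.symm hbc.symm (fun e => hxc e.symm), ← cyc_rot hab hac] at h2
    exact h2

lemma Rel.trans (h : Rel H a b) (h' : Rel H b c) : Rel H a c := by
  by_cases hab : a = b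
  · rw [hab]
    exact h'
  by_cases hbc : b = c
  · rw [← hbc]
    exact h
  by_cases hac : a = c
  · exact Or.inl hac
  have h1 := H.inv_mem (Rel.cyc h h' hab hbc hac)
  rw [cyc_rot hab hac, cyc_inv] at h1
  exact Or.inr ⟨b, fun e => hab e.symm, hbc, h1⟩

lemma Rel.smul (h : Rel H a b) {σ : Equiv.Perm U} (hσ : σ ∈ H) : Rel H (σ a) (σ b) := by
  rcases h with h | ⟨c, hca, hcb, h⟩
  · exact Or.inl (congrArg σ h)
  · refine Or.inr ⟨σ c, fun e => hca (σ.injective e), fun e => hcb (σ.injective e), ?_⟩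
    rw [← cyc_conj]
    exact H.mul_mem (H.mul_mem hσ h) (H.inv_mem hσ)

end

end NF

end Pool.Agent.Work.MP_c04246_lc
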