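import Mathlib
import Pool.Agent.Work.MP_c04246_lc.Y.Cyc
import Pool.Agent.Work.MP_c04246_lc.Y.Mult
import Pool.Agent.Work.MP_c04246_lc.Y.Subs
import Pool.Agent.Work.MP_c04246_lc.Y.Supp

set_option autoImplicit false
set_option linter.unusedSectionVars false
set_option linter.unusedSimpArgs false
set_option linter.unusedVariables false
set_option linter.unusedDecidableInType false
set_option linter.unusedFintypeInType false

/- MODULE AltSym (M). From three-cycles to supports, by induction on formulas.
(1) Claim: for b ∈ subs a and x, y ∈ C \ B b: swap x y • cl b = cl b. Induction on b.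
 var S: let O = C \ B b, |O| ≥ K + q + 5. If u ∈ O ∩ S, choose w ∈ O \ S (|O| > q = |S|) and z ∈ O,
 z ≠ u, w; cyc u w z fixes cl (var S), so S (smul_cl, cl_var_iff), and maps u to w: w ∈ S,
 contradiction. So S ∩ O = ∅ and swap x y fixes S (mv).
 cst trivial; neg: smul_neg_iff (both directions: cyc fixes cl (neg a) iff it fixes cl a; here the set
 for neg a is B (neg a), which is not B a! So first note: the property of three-cycles for
 B (neg a) holds for cl a as well by smul_neg_iff. To make the induction work, prove the claim in the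
 form: for every formula b and every set B' ⊆ C, |B'| ≤ K, whose three-cycles (on C \ B') fix cl b,
 and such that every b' ∈ subs b has some such set: all swaps of C \ B' fix cl b.)
 big, mod: let f be the arguments. Show mult f (swap x y • z) = mult f z for all z (smul_big_iff,
 smul_mod_iff). First if mult f z > 0: z = cl (f j); let B'' be a set for f j; choose distinct
 d, e ∈ C \ (B' ∪ B'' ∪ {x, y}) (|C| - 2 K - 2 ≥ 2). By induction swap d e • z = z. And
 swap x y * swap d e = cyc x y d * cyc y d e (swap_mul_swap) fixes the class of the formula, so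
 mult f ((swap x y * swap d e) • z) = mult f z. If mult f z = 0: if mult f (swap x y • z) > 0 apply
 the previous case to swap x y • z (swap x y is an involution): contradiction. (If x = y trivial.)
(2) A permutation fixing (univ \ C) ∪ B b pointwise moves only points of C \ B b and is a product of
 swaps of such points (as in Supp: Sup.inter; induction on the support, or Equiv.Perm.ofSubtype and
 Equiv.Perm.swap_induction_on).
-/
namespace Pool.Agent.Work.MP_c04246_lc

open Finset

namespace NF

section

variable {p q : ℕ} {U : Type} [Fintype U] [DecidableEq U]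

/-- `B` is a set outside of which the three-cycles in `C` fix the class of `b` -/
def CycSup (C : Finset U) (K : ℕ) (b : NF p (Vr q U)) (B : Finset U) : Prop :=
  B ⊆ C ∧ B.card ≤ K ∧ ∀ x ∈ C \ B, ∀ y ∈ C \ B, ∀ z ∈ C \ B, x ≠ y → y ≠ z → x ≠ z →
    cyc x y z • cl b = cl b

private lemma AltSym_swaps {X : Type} [MulAction (Equiv.Perm U) X] {M : Finset U} {z : X}
    (h : ∀ x ∈ M, ∀ y ∈ M, Equiv.swap x y • z = z) :
    ∀ (m : ℕ) (π : Equiv.Perm U), π.support.card ≤ m → (∀ u, u ∉ M → π u = u) → π • z = z := by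
  intro m
  induction m with
  | zero =>
    intro π hπ _
    have : π = 1 := by
      rw [← Equiv.Perm.support_eq_empty_iff]
      exact card_eq_zero.mp (Nat.le_zero.mp hπ)
    rw [this, one_smul]
  | succ m ih =>
    intro π hπ hM
    by_cases h1 : π = 1
    · rw [h1, one_smul]
    · obtain ⟨u, hu⟩ : ∃ u, π u ≠ u := by
        by_contra hcon
        push Not at hcon
        exact h1 (Equiv.ext hcon)
      have huM : u ∈ M := by
        by_contra hc
        exact hu (hM u hc)
      have hπuM : π u ∈ M := by
        by_contra hc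
        exact hu (π.injective (hM _ hc))
      have hlt := Equiv.Perm.card_support_swap_mul hu
      have h2 := ih (Equiv.swap u (π u) * π) (by omega) (by
        intro v hv
        rw [Equiv.Perm.mul_apply, hM v hv]
        apply Equiv.swap_apply_of_ne_of_ne
        · rintro rfl; exact hv huM
        · rintro rfl; exact hv hπuM)
      rw [mul_smul] at h2
      have h3 : Equiv.swap u (π u) • (Equiv.swap u (π u) • (π • z)) = Equiv.swap u (π u) • z := by
        rw [h2]
      rw [← mul_smul, Equiv.swap_mul_self, one_smul, h u huM _ hπuM] at h3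
      exact h3

private lemma AltSym_mult {C : Finset U} {K k : ℕ} (hC : 2 * K + q + 5 ≤ C.card)
    {f : Fin k → NF p (Vr q U)} {g : NF p (Vr q U)} {B : Finset U}
    (hg : ∀ π : Equiv.Perm U, π • cl g = cl g ↔ ∀ z, mult f (π • z) = mult f z)
    (hB : CycSup C K g B) (hf : ∀ j, ∃ B, CycSup C K (f j) B ∧
      ∀ x ∈ C \ B, ∀ y ∈ C \ B, Equiv.swap x y • cl (f j) = cl (f j))
    {x y : U} (hx : x ∈ C \ B) (hy : y ∈ C \ B) : Equiv.swap x y • cl g = cl g := by
  by_cases hxy : x = y
  · subst hxy
    rw [Equiv.swap_self]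
    show (1 : Equiv.Perm U) • cl g = cl g
    rw [one_smul]
  have key : ∀ z, 0 < mult f z → mult f (Equiv.swap x y • z) = mult f z := by
    intro z hz
    obtain ⟨j, rfl⟩ := mult_pos_iff.mp hz
    obtain ⟨B2, hB2, hsw⟩ := hf j
    have hcard : 2 ≤ (C \ (B ∪ B2 ∪ {x, y})).card := by
      have h1 := le_card_sdiff (B ∪ B2 ∪ {x, y}) C
      have h2 : (B ∪ B2 ∪ {x, y}).card ≤ B.card + B2.card + 2 :=
        (card_union_le _ _).trans (Nat.add_le_add (card_union_le _ _) card_le_two)
      have h3 := hB.2.1
      have h4 := hB2.2.1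
      omega
    obtain ⟨d, hd, e, he, hde⟩ := one_lt_card.mp hcard
    simp only [mem_sdiff, mem_union, mem_insert, mem_singleton, not_or] at hd he
    obtain ⟨hdC, ⟨hdB, hdB2⟩, hdx, hdy⟩ := hd
    obtain ⟨heC, ⟨heB, heB2⟩, hex, hey⟩ := he
    have h1 : Equiv.swap d e • cl (f j) = cl (f j) :=
      hsw d (mem_sdiff.mpr ⟨hdC, hdB2⟩) e (mem_sdiff.mpr ⟨heC, heB2⟩)
    have h2 : (Equiv.swap x y * Equiv.swap d e) • cl g = cl g := by
      rw [swap_mul_swap, mul_smul,
        hB.2.2 y hy d (mem_sdiff.mpr ⟨hdC, hdB⟩) e (mem_sdiff.mpr ⟨heC, heB⟩)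
          (Ne.symm hdy) hde (Ne.symm hey),
        hB.2.2 x hx y hy d (mem_sdiff.mpr ⟨hdC, hdB⟩) hxy (Ne.symm hdy) (Ne.symm hdx)]
    have h3 := (hg _).mp h2 (cl (f j))
    rw [mul_smul, h1] at h3
    exact h3
  rw [hg]
  intro z
  by_cases hz : 0 < mult f z
  · exact key z hz
  · by_cases hz' : 0 < mult f (Equiv.swap x y • z)
    · have h1 := key _ hz'
      rw [← mul_smul, Equiv.swap_mul_self, one_smul] at h1
      exact h1.symm
    · omega

private lemma AltSym_main {C : Finset U} {K : ℕ} (hC : 2 * K + q + 5 ≤ C.card)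
    (a : NF p (Vr q U)) : (∀ b ∈ subs a, ∃ B, CycSup C K b B) → ∀ B, CycSup C K a B →
      ∀ x ∈ C \ B, ∀ y ∈ C \ B, Equiv.swap x y • cl a = cl a := by
  induction a with
  | var S =>
    intro _ B hB x hx y hy
    have hO : ∀ u ∈ C \ B, u ∉ S.1 := by
      intro u hu huS
      have hcard : C.card ≤ (C \ B).card + K := by
        have h1 := le_card_sdiff B C
        have h2 := hB.2.1
        omega
      obtain ⟨w, hw, hwS⟩ : ∃ w ∈ C \ B, w ∉ S.1 := by
        by_contra hcon
        push Not at hcon
        have h1 : (C \ B).card ≤ S.1.card := card_le_card hcon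
        rw [S.2] at h1
        omega
      obtain ⟨z, hz, hzu⟩ : ∃ z ∈ C \ B, z ∉ ({u, w} : Finset U) := by
        by_contra hcon
        push Not at hcon
        have h1 : (C \ B).card ≤ ({u, w} : Finset U).card := card_le_card hcon
        have h2 : ({u, w} : Finset U).card ≤ 2 := card_le_two
        omega
      simp only [mem_insert, mem_singleton, not_or] at hzu
      have huw : u ≠ w := by rintro rfl; exact hwS huS
      have h1 := hB.2.2 u hu w hw z hz huw (Ne.symm hzu.2) (Ne.symm hzu.1)
      rw [smul_cl] at h1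
      have h2 : mv (cyc u w z) S = S := cl_var_iff.mp h1
      have h3 : S.1.map (cyc u w z).toEmbedding = S.1 := congrArg Subtype.val h2
      apply hwS
      rw [← h3, mem_map]
      exact ⟨u, huS, (cyc_apply huw (Ne.symm hzu.2) (Ne.symm hzu.1)).1⟩
    rw [smul_cl]
    show cl (var (mv (Equiv.swap x y) S)) = cl (var S)
    rw [cl_var_iff]
    apply Subtype.ext
    show S.1.map (Equiv.swap x y).toEmbedding = S.1
    have hfix : ∀ u ∈ S.1, Equiv.swap x y u = u := by
      intro u hu
      apply Equiv.swap_apply_of_ne_of_ne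
      · rintro rfl; exact hO _ hx hu
      · rintro rfl; exact hO _ hy hu
    ext u
    rw [mem_map]
    constructor
    · rintro ⟨v, hv, rfl⟩
      show Equiv.swap x y v ∈ S.1
      rw [hfix v hv]
      exact hv
    · intro hu
      exact ⟨u, hu, hfix u hu⟩
  | cst b =>
    intro _ B _ x _ y _
    rw [smul_cl]
    rfl
  | neg a ih =>
    intro h B hB x hx y hy
    rw [smul_neg_iff]
    have hsub : subs a ⊆ subs (neg a) := subs_trans (subs_neg a)
    exact ih (fun b hb => h b (hsub hb)) B
      ⟨hB.1, hB.2.1, fun x hx y hy z hz h1 h2 h3 =>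
        smul_neg_iff.mp (hB.2.2 x hx y hy z hz h1 h2 h3)⟩ x hx y hy
  | big c k f ih =>
    intro h B hB x hx y hy
    refine AltSym_mult hC (f := f) (fun π => smul_big_iff) hB (fun j => ?_) hx hy
    obtain ⟨B2, hB2⟩ := h (f j) (subs_big c f j)
    exact ⟨B2, hB2, ih j (fun b hb => h b (subs_trans (subs_big c f j) hb)) B2 hB2⟩
  | mod i k f ih =>
    intro h B hB x hx y hy
    refine AltSym_mult hC (f := f) (fun π => smul_mod_iff) hB (fun j => ?_) hx hy
    obtain ⟨B2, hB2⟩ := h (f j) (subs_mod i f j)
    exact ⟨B2, hB2, ih j (fun b hb => h b (subs_trans (subs_mod i f j) hb)) B2 hB2⟩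

theorem alt_sym {C : Finset U} {K : ℕ} (hC : 2 * K + q + 5 ≤ C.card) {a : NF p (Vr q U)}
    (h : ∀ b ∈ subs a, ∃ B, CycSup C K b B) {B : Finset U} (hB : CycSup C K a B) :
    Sup ((univ \ C) ∪ B) (cl a) := by
  intro π hπ
  refine AltSym_swaps (M := C \ B) (AltSym_main hC a h B hB) _ π le_rfl ?_
  intro u hu
  apply hπ
  rw [mem_union, mem_sdiff]
  by_cases huC : u ∈ C
  · right
    by_contra huB
    exact hu (mem_sdiff.mpr ⟨huC, huB⟩)
  · exact Or.inl ⟨mem_univ _, huC⟩

end

end NF

end Pool.Agent.Work.MP_c04246_lc
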