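import Mathlib
import Pool.Agent.Work.MP_c04246_lc.Y.Cyc

set_option autoImplicit false
set_option linter.unusedSectionVars false
set_option linter.unusedSimpArgs false
set_option linter.unusedVariables false
set_option linter.unusedDecidableInType false
set_option linter.unusedFintypeInType false

/- MODULE Boch (M, Mathlib and Cyc only). Bochert's argument. H a subgroup of the permutations of U such
that any set F of more than 2^L permutations moving only points of P contains pi ≠ sigma with
pi^-1 sigma ∈ H; |P| ≥ 2 L + 3. Then H contains a three-cycle cyc a b c with a, b, c ∈ P.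
Proof. Call D ⊆ P a base if every h ∈ H which moves only points of P and fixes all points of D is 1.
P is a base; let D be a base of least cardinality.
(1) 2 |D| > |P|: otherwise |P \ D| ≥ L + 2 (2 |P \ D| ≥ |P| ≥ 2 L + 3). The permutations moving only
points of P \ D: there are |P \ D| ! ≥ (L+2) ! ≥ 2^(L+1) > 2^L of them (e.g. the image of
Equiv.Perm {x // x ∈ P \ D} under Equiv.Perm.ofSubtype / subtypeCongr, injective;
Fintype.card_perm; Nat.factorial lower bound by induction: 2^m ≤ (m+1) !). So there are pi ≠ sigma
among them with pi^-1 sigma ∈ H, ≠ 1, fixing D, moving only points of P: contradiction to D being a base.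
(2) P \ D has fewer points than D, so it is not a base: there is h ∈ H, h ≠ 1, moving only points of D.
Let h x ≠ x, x ∈ D. D \ {x} is not a base: there is h' ∈ H, h' ≠ 1, moving only points of P, fixing
D \ {x}; h' x ≠ x as D is a base. So x is the only point moved by both h and h'.
(3) g = h h' h^-1 h'^-1 ∈ H is cyc x (h x) (h' x): x → h x → h' x → x and all other points are fixed
(h x ∉ supp h', h' x ∉ supp h, h^-1 x, h'^-1 x likewise; check the cases u ∈ supp h, u ∈ supp h', neither).
The points x, h x, h' x are distinct and in P.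
-/
namespace Pool.Agent.Work.MP_c04246_lc

open Finset

namespace NF

section

variable {U : Type} [Fintype U] [DecidableEq U]

private lemma two_pow_lt_fact (m : ℕ) : 2 ^ m ≤ (m + 1).factorial := by
  induction m with
  | zero => simp
  | succ m ih =>
    rw [Nat.factorial_succ, pow_succ]
    nlinarith [Nat.factorial_pos (m + 1)]

/-- permutations moving only points of `Q` -/
private def bochMv (Q : Finset U) : Finset (Equiv.Perm U) := univ.filter fun π => ∀ u, u ∉ Q → π u = u

private lemma card_bochMv (Q : Finset U) : Q.card.factorial ≤ (bochMv Q).card := by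
  classical
  have h1 : (univ : Finset (Equiv.Perm {x // x ∈ Q})).card = Q.card.factorial := by
    rw [card_univ, Fintype.card_perm, Fintype.card_coe]
  rw [← h1]
  refine card_le_card_of_injOn (fun π => Equiv.Perm.ofSubtype π) ?_ ?_
  · intro π _
    rw [mem_coe, bochMv, mem_filter]
    exact ⟨mem_univ _, fun u hu => Equiv.Perm.ofSubtype_apply_of_not_mem π hu⟩
  · intro π _ σ _ h
    exact Equiv.Perm.ofSubtype_injective h

/-- a base -/
private def IsB (H : Subgroup (Equiv.Perm U)) (P D : Finset U) : Prop :=
  D ⊆ P ∧ ∀ h ∈ H, (∀ u, u ∉ P → h u = u) → (∀ u ∈ D, h u = u) → h = 1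

/-- the commutator of two permutations with exactly one common moved point -/
private lemma comm_cyc (h g : Equiv.Perm U) (x : U) (hx : h x ≠ x) (gx : g x ≠ x)
    (hu : ∀ u, u ≠ x → h u = u ∨ g u = u) :
    h * g * h⁻¹ * g⁻¹ = cyc x (h x) (g x) ∧ x ≠ h x ∧ h x ≠ g x ∧ x ≠ g x := by
  -- g fixes h x, h fixes g x
  have e1 : g (h x) = h x := by
    rcases hu (h x) hx with e | e
    · exact absurd (h.injective e) hx
    · exact e
  have e2 : h (g x) = g x := by
    rcases hu (g x) gx with e | e
    · exact e
    · exact absurd (g.injective e) gx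
  have hne : h x ≠ g x := fun e => by
    rw [← e] at e2
    exact hx (h.injective e2)
  refine ⟨?_, hx.symm, hne, gx.symm⟩
  obtain ⟨c1, c2, c3, c4⟩ := cyc_apply hx.symm hne gx.symm
  -- it is enough to check `h * g = cyc * g * h`
  have key : h * g = cyc x (h x) (g x) * (g * h) := by
    ext u
    rw [Equiv.Perm.mul_apply, Equiv.Perm.mul_apply, Equiv.Perm.mul_apply]
    by_cases hux : u = x
    · subst hux
      rw [e1, e2, c2]
    · rcases hu u hux with e | e
      · rw [e]
        -- h fixes u
        by_cases hgu : g u = u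
        · rw [hgu, e]
          have n1 : u ≠ h x := fun k => by
            rw [k] at e
            exact hx (h.injective e)
          have n2 : u ≠ g x := fun k => by
            rw [k] at hgu
            exact gx (g.injective hgu)
          rw [c4 u hux n1 n2]
        · -- g moves u, u ≠ x
          by_cases hgx : g u = x
          · rw [hgx, c1]
          · have n1 : g u ≠ h x := fun k => by
              have : u = h x := g.injective (k.trans e1.symm)
              rw [this] at e
              exact hx (h.injective e)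
            have n2 : g u ≠ g x := fun k => hux (g.injective k)
            rw [c4 (g u) hgx n1 n2]
            rcases hu (g u) hgx with e' | e'
            · exact e'
            · exact absurd (g.injective e') hgu
      · rw [e]
        by_cases hhu : h u = u
        · rw [hhu, e]
          have n1 : u ≠ h x := fun k => by
            rw [k] at hhu
            exact hx (h.injective hhu)
          have n2 : u ≠ g x := fun k => by
            rw [k] at e
            exact gx (g.injective e)
          rw [c4 u hux n1 n2]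
        · by_cases hhx : h u = x
          · rw [hhx, c3]
          · have ng : g (h u) = h u := by
              rcases hu (h u) hhx with e' | e'
              · exact absurd (h.injective e') hhu
              · exact e'
            have n1 : h u ≠ h x := fun k => hux (h.injective k)
            have n2 : h u ≠ g x := fun k => by
              have : u = g x := h.injective (k.trans e2.symm)
              rw [this] at e
              exact gx (g.injective e)
            rw [ng, c4 (h u) hhx n1 n2]
  rw [key]
  group

theorem exists_cyc (H : Subgroup (Equiv.Perm U)) (P : Finset U) (L : ℕ)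
    (hH : ∀ F : Finset (Equiv.Perm U), (∀ π ∈ F, ∀ u, u ∉ P → π u = u) → 2 ^ L < F.card →
      ∃ π ∈ F, ∃ σ ∈ F, π ≠ σ ∧ π⁻¹ * σ ∈ H)
    (hP : 2 * L + 3 ≤ P.card) :
    ∃ a ∈ P, ∃ b ∈ P, ∃ c ∈ P, a ≠ b ∧ b ≠ c ∧ a ≠ c ∧ cyc a b c ∈ H := by
  classical
  have hPB : IsB H P P := ⟨Subset.rfl, fun h hh h1 h2 => by
    ext u
    by_cases hu : u ∈ P
    · exact h2 u hu
    · exact h1 u hu⟩
  obtain ⟨D, hD, hmin⟩ := exists_min_image ((P.powerset).filter fun D => IsB H P D) card
    ⟨P, by rw [mem_filter, mem_powerset]; exact ⟨Subset.rfl, hPB⟩⟩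
  rw [mem_filter, mem_powerset] at hD
  obtain ⟨hDP, hDB⟩ := hD
  have hmin' : ∀ D' ⊆ P, D'.card < D.card → ¬ IsB H P D' := fun D' h1 h2 h3 => by
    have := hmin D' (by rw [mem_filter, mem_powerset]; exact ⟨h1, h3⟩)
    omega
  have hcard : (P \ D).card = P.card - D.card := card_sdiff_of_subset hDP
  have hDle := card_le_card hDP
  -- (1)
  have h1 : P.card < 2 * D.card := by
    by_contra hc
    push Not at hc
    have hL : L + 2 ≤ (P \ D).card := by omega
    have hF : 2 ^ L < (bochMv (P \ D)).card := by
      refine lt_of_lt_of_le ?_ (card_bochMv _)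
      calc 2 ^ L < 2 ^ (L + 1) := Nat.pow_lt_pow_right (by norm_num) (Nat.lt_succ_self _)
        _ ≤ (L + 1 + 1).factorial := two_pow_lt_fact _
        _ ≤ _ := Nat.factorial_le hL
    obtain ⟨π, hπ, σ, hσ, hne, hin⟩ := hH (bochMv (P \ D)) (fun π hπ u hu => by
      rw [bochMv, mem_filter] at hπ
      exact hπ.2 u (fun h => hu (mem_sdiff.1 h).1)) hF
    rw [bochMv, mem_filter] at hπ hσ
    have hfix : ∀ u, u ∉ P \ D → (π⁻¹ * σ) u = u := fun u hu => by
      rw [Equiv.Perm.mul_apply, hσ.2 u hu, Equiv.Perm.inv_eq_iff_eq, hπ.2 u hu]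
    have := hDB.2 _ hin (fun u hu => hfix u (fun h => hu (mem_sdiff.1 h).1))
      (fun u hu => hfix u (fun h => (mem_sdiff.1 h).2 hu))
    exact hne (inv_mul_eq_one.1 this)
  -- (2)
  have h2 : ¬ IsB H P (P \ D) := hmin' _ sdiff_subset (by omega)
  obtain ⟨h, hhH, hhP, hhD, hh1⟩ : ∃ h ∈ H, (∀ u, u ∉ P → h u = u) ∧ (∀ u ∈ P \ D, h u = u) ∧
      h ≠ 1 := by
    by_contra hc
    push Not at hc
    exact h2 ⟨sdiff_subset, fun h k1 k2 k3 => hc h k1 k2 k3⟩
  obtain ⟨x, hx⟩ : ∃ x, h x ≠ x := by
    by_contra hc
    push Not at hc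
    exact hh1 (Equiv.ext hc)
  have hxP : x ∈ P := by
    by_contra hc
    exact hx (hhP x hc)
  have hxD : x ∈ D := by
    by_contra hc
    exact hx (hhD x (mem_sdiff.2 ⟨hxP, hc⟩))
  have h3 : ¬ IsB H P (D.erase x) := hmin' _ ((erase_subset _ _).trans hDP) (by
    rw [card_erase_of_mem hxD]
    have := card_pos.2 ⟨x, hxD⟩
    omega)
  obtain ⟨g, hgH, hgP, hgD, hg1⟩ : ∃ h ∈ H, (∀ u, u ∉ P → h u = u) ∧ (∀ u ∈ D.erase x, h u = u) ∧
      h ≠ 1 := by
    by_contra hc
    push Not at hc
    exact h3 ⟨(erase_subset _ _).trans hDP, fun h k1 k2 k3 => hc h k1 k2 k3⟩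
  have hgx : g x ≠ x := fun e => by
    refine hg1 (hDB.2 g hgH hgP fun u hu => ?_)
    by_cases hux : u = x
    · rw [hux, e]
    · exact hgD u (mem_erase.2 ⟨hux, hu⟩)
  have hu : ∀ u, u ≠ x → h u = u ∨ g u = u := fun u hux => by
    by_cases hP' : u ∈ P
    · by_cases hD' : u ∈ D
      · exact Or.inr (hgD u (mem_erase.2 ⟨hux, hD'⟩))
      · exact Or.inl (hhD u (mem_sdiff.2 ⟨hP', hD'⟩))
    · exact Or.inl (hhP u hP')
  obtain ⟨c1, c2, c3, c4⟩ := comm_cyc h g x hx hgx hu
  refine ⟨x, hxP, h x, ?_, g x, ?_, c2, c3, c4, ?_⟩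
  · by_contra hc
    exact hx (h.injective (hhP _ hc))
  · by_contra hc
    exact hgx (g.injective (hgP _ hc))
  · rw [← c1]
    exact H.mul_mem (H.mul_mem (H.mul_mem hhH hgH) (H.inv_mem hhH)) (H.inv_mem hgH)

end

end NF

end Pool.Agent.Work.MP_c04246_lc
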