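import Mathlib
import Pool.Agent.Work.MP_c04246_lc.Y.Boch

set_option autoImplicit false
set_option linter.unusedSectionVars false
set_option linter.unusedSimpArgs false
set_option linter.unusedVariables false
set_option linter.unusedDecidableInType false
set_option linter.unusedFintypeInType false

/- MODULE Index (M-L, Cyc and Boch only). Large subgroups contain all three-cycles of almost all points.
Let H satisfy the pigeonhole property for permutations moving only points of C (more than 2^L of them
contain pi ≠ sigma with pi^-1 sigma ∈ H). Then there is B ⊆ C, |B| ≤ 4 L + 2, with cyc x y z ∈ H for all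
distinct x, y, z ∈ C \ B.
Proof. Rel H is an equivalence relation (Cyc). Let R ⊆ C be a maximal set of pairwise unrelated points
(every point of C is related to a point of R). |R| ≤ 2 L + 2: otherwise exists_cyc for P = R (the
pigeonhole property for permutations moving only points of R ⊆ C is weaker) gives a related pair in R.
Let m be maximal such that there is an injective e : Fin m × Bool → U with values in C \ R and
¬ Rel H (e (i, false)) (e (i, true)) for all i (m ≤ |U|; or do an induction removing pairs).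
Claim m ≤ L. For I ⊆ Fin m let t_I be the involution exchanging e (i, false) and e (i, true) for i ∈ I and
fixing all other points (Function.Involutive.toPerm of
u ↦ if h : ∃ i ∈ I, ∃ b, e (i, b) = u then e (i, !b) else u; or a product of disjoint swaps). The 2^m
permutations t_I are distinct and move only points of C. If m > L there are I ≠ J with
s = t_I^-1 t_J ∈ H. For i ∈ I Δ J: s (e (i, false)) = e (i, true), and s fixes all points outside of the
range of e, in particular R. Let r ∈ R be related to e (i, false). By Rel.smul Rel H (s r)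
(s (e (i, false))), i.e. Rel H r (e (i, true)), so e (i, false), e (i, true) are related: contradiction.
By maximality of m any two points of Z := (C \ R) \ range e are related (else add the pair). B := C \ Z has
at most |R| + 2 m ≤ 4 L + 2 points. For distinct x, y, z ∈ C \ B = Z: Rel.cyc.
-/
namespace Pool.Agent.Work.MP_c04246_lc

open Finset

namespace NF

section

variable {U : Type} [Fintype U] [DecidableEq U]

private lemma exists_inv (A : Finset U) (f : U → U) (hinj : ∀ a ∈ A, ∀ b ∈ A, f a = f b → a = b)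
    (hd : ∀ a ∈ A, f a ∉ A) : ∃ τ : U → U, (∀ u, τ (τ u) = u) ∧ (∀ a ∈ A, τ a = f a) ∧
      ∀ u, u ∉ A → (∀ a ∈ A, f a ≠ u) → τ u = u := by
  classical
  have hex : ∀ u, ∃ w, (u ∈ A → w = f u) ∧ (u ∉ A → (∃ a ∈ A, f a = u) → w ∈ A ∧ f w = u) ∧
      (u ∉ A → (∀ a ∈ A, f a ≠ u) → w = u) := by
    intro u
    by_cases hu : u ∈ A
    · exact ⟨f u, fun _ => rfl, fun h => absurd hu h, fun h => absurd hu h⟩
    · by_cases h : ∃ a ∈ A, f a = u
      · obtain ⟨a, ha, e⟩ := h
        exact ⟨a, fun h => absurd h hu, fun _ _ => ⟨ha, e⟩, fun _ h => absurd e (h a ha)⟩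
      · exact ⟨u, fun h => absurd h hu, fun _ h' => absurd h' h, fun _ _ => rfl⟩
  choose τ h1 h2 h3 using hex
  refine ⟨τ, fun u => ?_, h1, h3⟩
  by_cases hu : u ∈ A
  · have e1 := h1 u hu
    have e2 := h2 (f u) (hd u hu) ⟨u, hu, rfl⟩
    rw [e1]
    exact hinj _ e2.1 _ hu e2.2
  · by_cases h : ∃ a ∈ A, f a = u
    · have e1 := h2 u hu h
      rw [h1 _ e1.1]
      exact e1.2
    · have h' : ∀ a ∈ A, f a ≠ u := fun a ha e => h ⟨a, ha, e⟩
      rw [h3 u hu h', h3 u hu h']

theorem exists_large (H : Subgroup (Equiv.Perm U)) (C : Finset U) (L : ℕ)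
    (hH : ∀ F : Finset (Equiv.Perm U), (∀ π ∈ F, ∀ u, u ∉ C → π u = u) → 2 ^ L < F.card →
      ∃ π ∈ F, ∃ σ ∈ F, π ≠ σ ∧ π⁻¹ * σ ∈ H) :
    ∃ B ⊆ C, B.card ≤ 4 * L + 2 ∧ ∀ x ∈ C \ B, ∀ y ∈ C \ B, ∀ z ∈ C \ B, x ≠ y → y ≠ z → x ≠ z →
      cyc x y z ∈ H := by
  classical
  -- the set of representatives
  obtain ⟨R, hR, hRmax⟩ := exists_max_image (C.powerset.filter fun R =>
    ∀ a ∈ R, ∀ b ∈ R, a ≠ b → ¬ Rel H a b) card ⟨∅, by
      rw [mem_filter]
      exact ⟨empty_mem_powerset _, fun a ha => absurd ha (notMem_empty _)⟩⟩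
  rw [mem_filter, mem_powerset] at hR
  obtain ⟨hRC, hRu⟩ := hR
  have hRrel : ∀ c ∈ C, ∃ r ∈ R, Rel H r c := by
    intro c hc
    by_contra hcon
    push Not at hcon
    have hcR : c ∉ R := fun h => hcon c h Rel.refl
    have h1 := hRmax (insert c R) (by
      rw [mem_filter, mem_powerset]
      refine ⟨insert_subset hc hRC, fun a ha b hb hab => ?_⟩
      rw [mem_insert] at ha hb
      rcases ha with rfl | ha
      · rcases hb with rfl | hb
        · exact absurd rfl hab
        · exact fun h => hcon b hb h.symm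
      · rcases hb with rfl | hb
        · exact hcon a ha
        · exact hRu a ha b hb hab)
    rw [card_insert_of_notMem hcR] at h1
    omega
  have hRcard : R.card ≤ 2 * L + 2 := by
    by_contra hc
    push Not at hc
    obtain ⟨a, ha, b, hb, c, hc', hab, hbc, hac, h⟩ := exists_cyc H R L (fun F h1 h2 =>
      hH F (fun π hπ u hu => h1 π hπ u (fun k => hu (hRC k))) h2) (by omega)
    exact hRu a ha b hb hab (Or.inr ⟨c, hac.symm, hbc.symm, h⟩)
  -- the matching
  obtain ⟨A, hA, hAmax⟩ := exists_max_image ((C \ R).powerset.filter fun A =>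
    ∃ f : U → U, (∀ a ∈ A, ∀ b ∈ A, f a = f b → a = b) ∧ (∀ a ∈ A, f a ∈ C \ R ∧ f a ∉ A) ∧
      ∀ a ∈ A, ¬ Rel H a (f a)) card ⟨∅, by
      rw [mem_filter]
      exact ⟨empty_mem_powerset _, id, fun a ha => absurd ha (notMem_empty _),
        fun a ha => absurd ha (notMem_empty _), fun a ha => absurd ha (notMem_empty _)⟩⟩
  rw [mem_filter, mem_powerset] at hA
  obtain ⟨hAC, f, hinj, hfd, hfr⟩ := hA
  obtain ⟨τ, hτ1, hτ2, hτ3⟩ := exists_inv A f hinj (fun a ha => (hfd a ha).2)
  -- the involutions
  let t0 : Finset U → U → U := fun I u => if u ∈ I ∨ τ u ∈ I then τ u else u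
  have ht0 : ∀ I, Function.Involutive (t0 I) := by
    intro I u
    by_cases h : u ∈ I ∨ τ u ∈ I
    · have h' : τ u ∈ I ∨ τ (τ u) ∈ I := by
        rw [hτ1]
        exact h.symm
      change t0 I (if u ∈ I ∨ τ u ∈ I then τ u else u) = u
      rw [if_pos h]
      change (if τ u ∈ I ∨ τ (τ u) ∈ I then τ (τ u) else τ u) = u
      rw [if_pos h', hτ1]
    · change t0 I (if u ∈ I ∨ τ u ∈ I then τ u else u) = u
      rw [if_neg h]
      change (if u ∈ I ∨ τ u ∈ I then τ u else u) = u
      rw [if_neg h]
  let t : Finset U → Equiv.Perm U := fun I => (ht0 I).toPerm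
  have htap : ∀ I u, t I u = if u ∈ I ∨ τ u ∈ I then τ u else u := fun I u => rfl
  have htin : ∀ I ⊆ A, ∀ a ∈ A, a ∈ I → t I a = f a := fun I hI a ha h => by
    rw [htap, if_pos (Or.inl h), hτ2 a ha]
  have htout : ∀ I ⊆ A, ∀ a ∈ A, a ∉ I → t I a = a := fun I hI a ha h => by
    rw [htap, if_neg]
    rintro (k | k)
    · exact h k
    · rw [hτ2 a ha] at k
      exact (hfd a ha).2 (hI k)
  have htf : ∀ I ⊆ A, ∀ a ∈ A, a ∉ I → t I (f a) = f a := fun I hI a ha h => by
    rw [htap, if_neg]
    rintro (k | k)
    · exact (hfd a ha).2 (hI k)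
    · rw [← hτ2 a ha, hτ1] at k
      exact h k
  have htfix : ∀ I ⊆ A, ∀ u, u ∉ A → (∀ a ∈ A, f a ≠ u) → t I u = u := fun I hI u hu h => by
    have h1 := hτ3 u hu h
    rw [htap, h1, ite_self]
  have htinj : ∀ I ∈ A.powerset, ∀ J ∈ A.powerset, t I = t J → I = J := by
    intro I hI J hJ h
    rw [mem_powerset] at hI hJ
    ext a
    constructor
    · intro ha
      by_contra hc
      have h1 := htin I hI a (hI ha) ha
      rw [h, htout J hJ a (hI ha) hc] at h1
      exact (hfd a (hI ha)).2 (h1 ▸ hI ha)
    · intro ha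
      by_contra hc
      have h1 := htin J hJ a (hJ ha) ha
      rw [← h, htout I hI a (hJ ha) hc] at h1
      exact (hfd a (hJ ha)).2 (h1 ▸ hJ ha)
  have hAcard : A.card ≤ L := by
    by_contra hc
    push Not at hc
    have hF : 2 ^ L < (A.powerset.image t).card := by
      rw [card_image_of_injOn (fun I hI J hJ h => htinj I hI J hJ h), card_powerset]
      exact Nat.pow_lt_pow_right (by norm_num) hc
    obtain ⟨π, hπ, σ, hσ, hne, hin⟩ := hH (A.powerset.image t) (fun π hπ u hu => by
      obtain ⟨I, hI, rfl⟩ := mem_image.1 hπ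
      rw [mem_powerset] at hI
      refine htfix I hI u (fun k => hu (mem_sdiff.1 (hAC k)).1) fun a ha k => ?_
      rw [← k] at hu
      exact hu (mem_sdiff.1 (hfd a ha).1).1) hF
    obtain ⟨I, hI, rfl⟩ := mem_image.1 hπ
    obtain ⟨J, hJ, rfl⟩ := mem_image.1 hσ
    rw [mem_powerset] at hI hJ
    have hIJ : I ≠ J := fun e => hne (by rw [e])
    have hsR : ∀ r ∈ R, ((t I)⁻¹ * t J) r = r := fun r hr => by
      have hrA : r ∉ A := fun k => (mem_sdiff.1 (hAC k)).2 hr
      have hrf : ∀ a ∈ A, f a ≠ r := fun a ha k => (mem_sdiff.1 (hfd a ha).1).2 (k ▸ hr)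
      rw [Equiv.Perm.mul_apply, htfix J hJ r hrA hrf, Equiv.Perm.inv_eq_iff_eq,
        htfix I hI r hrA hrf]
    obtain ⟨i, hiA, hi⟩ : ∃ i ∈ A, ((t I)⁻¹ * t J) i = f i := by
      by_contra hcon
      push Not at hcon
      refine hIJ (Finset.ext fun a => ⟨fun ha => ?_, fun ha => ?_⟩)
      · by_contra hc'
        refine hcon a (hI ha) ?_
        rw [Equiv.Perm.mul_apply, htout J hJ a (hI ha) hc', Equiv.Perm.inv_eq_iff_eq]
        have h1 := htin I hI a (hI ha) ha
        have h2 := ht0 I a
        change t I (t I a) = a at h2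
        rw [h1] at h2
        exact h2.symm
      · by_contra hc'
        refine hcon a (hJ ha) ?_
        rw [Equiv.Perm.mul_apply, htin J hJ a (hJ ha) ha, Equiv.Perm.inv_eq_iff_eq,
          htf I hI a (hJ ha) hc']
    obtain ⟨r, hr, hri⟩ := hRrel i (mem_sdiff.1 (hAC hiA)).1
    have h1 := hri.smul hin
    rw [hsR r hr, hi] at h1
    exact hfr i hiA (hri.symm.trans h1)
  refine ⟨R ∪ (A ∪ A.image f), ?_, ?_, ?_⟩
  · refine union_subset hRC (union_subset (hAC.trans sdiff_subset) fun u hu => ?_)
    obtain ⟨a, ha, rfl⟩ := mem_image.1 hu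
    exact (mem_sdiff.1 (hfd a ha).1).1
  · have h1 := card_union_le R (A ∪ A.image f)
    have h2 := card_union_le A (A.image f)
    have h3 : (A.image f).card ≤ A.card := card_image_le
    omega
  · have hrel : ∀ x ∈ C \ (R ∪ (A ∪ A.image f)), ∀ y ∈ C \ (R ∪ (A ∪ A.image f)), x ≠ y →
        Rel H x y := by
      intro x hx y hy hxy
      rw [mem_sdiff, mem_union, mem_union, mem_image] at hx hy
      push Not at hx hy
      obtain ⟨hxC, hxR, hxA, hxf⟩ := hx
      obtain ⟨hyC, hyR, hyA, hyf⟩ := hy
      by_contra hcon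
      have h1 := hAmax (insert x A) (by
        rw [mem_filter, mem_powerset]
        refine ⟨insert_subset (mem_sdiff.2 ⟨hxC, hxR⟩) hAC, Function.update f x y, ?_, ?_, ?_⟩
        · intro a ha b hb h
          by_cases hax : a = x
          · by_cases hbx : b = x
            · rw [hax, hbx]
            · rw [hax, Function.update_self, Function.update_of_ne hbx] at h
              exact absurd h.symm (hyf b ((mem_insert.1 hb).resolve_left hbx))
          · by_cases hbx : b = x
            · rw [hbx, Function.update_self, Function.update_of_ne hax] at h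
              exact absurd h (hyf a ((mem_insert.1 ha).resolve_left hax))
            · rw [Function.update_of_ne hax, Function.update_of_ne hbx] at h
              exact hinj a ((mem_insert.1 ha).resolve_left hax) b
                ((mem_insert.1 hb).resolve_left hbx) h
        · intro a ha
          by_cases hax : a = x
          · rw [hax, Function.update_self]
            exact ⟨mem_sdiff.2 ⟨hyC, hyR⟩, fun k => (mem_insert.1 k).elim (fun e => hxy e.symm) hyA⟩
          · rw [Function.update_of_ne hax]
            have ha' := (mem_insert.1 ha).resolve_left hax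
            exact ⟨(hfd a ha').1, fun k => (mem_insert.1 k).elim (hxf a ha') (hfd a ha').2⟩
        · intro a ha
          by_cases hax : a = x
          · rw [hax, Function.update_self]
            exact hcon
          · rw [Function.update_of_ne hax]
            exact hfr a ((mem_insert.1 ha).resolve_left hax))
      rw [card_insert_of_notMem hxA] at h1
      omega
    intro x hx y hy z hz hxy hyz hxz
    exact Rel.cyc (hrel x hx y hy hxy) (hrel y hy z hz hyz) hxy hyz hxz

end

end NF

end Pool.Agent.Work.MP_c04246_lc
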