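import Mathlib
import Pool.Agent.Work.MP_c04246_lc.Y.Index
import Pool.Agent.Work.MP_c04246_lc.Y.AltSym

set_option autoImplicit false
set_option linter.unusedSectionVars false
set_option linter.unusedSimpArgs false
set_option linter.unusedVariables false
set_option linter.unusedDecidableInType false
set_option linter.unusedFintypeInType false

/- MODULE Few (M). Few images give small supports for all subformulas.
Let FewImages C N a, size a ≤ s, N * s ≤ 2^L, b ∈ subs a. H := MulAction.stabilizer of cl b.
Pigeonhole: let F be a set of more than 2^L permutations moving only points of C. For pi ∈ F choose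
r ∈ R with Same (map (mv pi) a) r (so size r = size a ≤ s: Same.size, size_map) and b' ∈ subs r with
Same (map (mv pi) b) b' (map_mem_subs, Same.subs). This maps F into
(R.filter (size ≤ s)).biUnion subs (or pairs), a set with at most N * s ≤ 2^L elements
(card_subs_le, card_biUnion_le_card_mul). So there are pi ≠ sigma in F with the same b'
(exists_ne_map_eq_of_card_lt_of_maps_to), hence pi • cl b = cl b' = sigma • cl b, and
pi^-1 sigma ∈ H. exists_large gives B. (few_cyc)
few_Sup: by alt_sym with K = 4 L + 2 applied to b (its subformulas are subformulas of a).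
few_Hs: if (univ \ C) ∪ B ⊆ D0 ∪ B', B' small, Sup.mono.
-/
namespace Pool.Agent.Work.MP_c04246_lc

open Finset

namespace NF

section

variable {p q n : ℕ}

theorem few_cyc {C : Finset (Fin n)} {N s L : ℕ} (hN : N * s ≤ 2 ^ L)
    {a : NF p (Vr q (Fin n))} (hs : size a ≤ s) (hF : FewImages C N a)
    {b : NF p (Vr q (Fin n))} (hb : b ∈ subs a) : ∃ B, CycSup C (4 * L + 2) b B := by
  classical
  obtain ⟨R, hR, hF⟩ := hF
  obtain ⟨B, hBC, hBc, hB⟩ := exists_large
    (MulAction.stabilizer (Equiv.Perm (Fin n)) (cl b)) C L (by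
      intro F hFC hFc
      set T : Finset (NF p (Vr q (Fin n))) := (R.filter fun r => size r ≤ s).biUnion subs with hT
      have hTc : T.card ≤ 2 ^ L := by
        refine le_trans ?_ hN
        refine (card_biUnion_le_card_mul _ _ s ?_).trans
          (Nat.mul_le_mul_right _ ((card_filter_le _ _).trans hR))
        intro r hr
        exact (card_subs_le r).trans (mem_filter.mp hr).2
      have key : ∀ π : Equiv.Perm (Fin n), ∃ b', π ∈ F → b' ∈ T ∧ π • cl b = cl b' := by
        intro π
        by_cases hπ : π ∈ F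
        · obtain ⟨r, hr, hs1⟩ := hF π (hFC π hπ)
          obtain ⟨b', hb', hs2⟩ := Same.subs hs1 (map_mem_subs (mv π) hb)
          refine ⟨b', fun _ => ⟨?_, ?_⟩⟩
          · rw [hT, mem_biUnion]
            refine ⟨r, mem_filter.mpr ⟨hr, ?_⟩, hb'⟩
            rw [← Same.size hs1, size_map]
            exact hs
          · rw [smul_cl]
            exact cl_eq.mpr hs2
        · exact ⟨b, fun h => absurd h hπ⟩
      choose g hg using key
      obtain ⟨π, hπ, σ, hσ, hne, heq⟩ := exists_ne_map_eq_of_card_lt_of_maps_to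
        (lt_of_le_of_lt hTc hFc) (fun π hπ => (hg π hπ).1)
      refine ⟨π, hπ, σ, hσ, hne, ?_⟩
      rw [MulAction.mem_stabilizer_iff, mul_smul, (hg σ hσ).2, ← heq, ← (hg π hπ).2,
        inv_smul_smul])
  exact ⟨B, hBC, hBc, fun x hx y hy z hz h1 h2 h3 =>
    MulAction.mem_stabilizer_iff.mp (hB x hx y hy z hz h1 h2 h3)⟩

theorem few_Sup {C : Finset (Fin n)} {N s L : ℕ} (hN : N * s ≤ 2 ^ L)
    (hC : 2 * (4 * L + 2) + q + 5 ≤ C.card)
    {a : NF p (Vr q (Fin n))} (hs : size a ≤ s) (hF : FewImages C N a)
    {b : NF p (Vr q (Fin n))} (hb : b ∈ subs a) :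
    ∃ B ⊆ C, B.card ≤ 4 * L + 2 ∧ Sup ((univ \ C) ∪ B) (cl b) := by
  obtain ⟨B, hB⟩ := few_cyc hN hs hF hb
  exact ⟨B, hB.1, hB.2.1, alt_sym hC
    (fun b' hb' => few_cyc hN hs hF (subs_trans hb hb')) hB⟩

end

end NF

end Pool.Agent.Work.MP_c04246_lc
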