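import Mathlib
import Pool.Agent.Work.MP_c04246_lc.Y.PDefs

set_option autoImplicit false
set_option linter.unusedSectionVars false
set_option linter.unusedSimpArgs false
set_option linter.unusedVariables false
set_option linter.unusedDecidableInType false
set_option linter.unusedFintypeInType false

/- MODULE SparseC (S-M). A random subset A of C with n' points meets all of fewer than 2^h given small
sets in fewer than h points. If 2 * (K * n') ≤ |C|. Counting proof as in exists_sparse_set
(LRestrict.lean); or deduce it from exists_sparse_set with q = 1 and the type {x // x ∈ C}: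
V i = the family of singletons of the points of B i (transported to the subtype), PP 1 P and
P ⊆ V i, |P| = h, cov P ⊆ A iff h points of B i in A. Take the image of A in U.
-/
namespace Pool.Agent.Work.MP_c04246_lc

open Finset

namespace NF

section

variable {U : Type} [DecidableEq U] {ι : Type}

private lemma sup_le (C P : Finset U) (hPC : P ⊆ C) (k : ℕ) :
    ((powersetCard k C).filter fun A => P ⊆ A).card ≤ (C.card - P.card).choose (k - P.card) := by
  have h1 : (powersetCard (k - P.card) (C \ P)).card = (C.card - P.card).choose (k - P.card) := by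
    rw [card_powersetCard, card_sdiff_of_subset hPC]
  rw [← h1]
  refine card_le_card_of_injOn (fun A => A \ P) ?_ ?_
  · intro A hA
    rw [mem_coe, mem_filter, mem_powersetCard] at hA
    obtain ⟨⟨hA0, hA1⟩, hA2⟩ := hA
    rw [mem_coe, mem_powersetCard]
    exact ⟨sdiff_subset_sdiff hA0 Subset.rfl, by rw [card_sdiff_of_subset hA2, hA1]⟩
  · intro A hA A' hA' h
    rw [mem_coe, mem_filter] at hA hA'
    simp only at h
    rw [← sdiff_union_of_subset hA.2, ← sdiff_union_of_subset hA'.2, h]

theorem exists_sparseC (C : Finset U) (I : Finset ι) (B : ι → Finset U) {K n' h : ℕ}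
    (hB : ∀ i ∈ I, B i ⊆ C ∧ (B i).card ≤ K) (hn' : n' ≤ C.card) (h2 : 2 * (K * n') ≤ C.card)
    (hI : I.card < 2 ^ h) (hpos : 0 < C.card) :
    ∃ A ⊆ C, A.card = n' ∧ ∀ i ∈ I, (B i ∩ A).card < h := by
  classical
  set n := C.card with hn
  by_contra hcon
  push Not at hcon
  have hsub : powersetCard n' C ⊆ I.biUnion fun i =>
      (powersetCard h (B i)).biUnion fun P =>
        (powersetCard n' C).filter fun A => P ⊆ A := by
    intro A hA
    obtain ⟨hA1, hA2⟩ := mem_powersetCard.mp hA
    obtain ⟨i, hi, hc⟩ := hcon A hA1 hA2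
    obtain ⟨P, hP, hPc⟩ := exists_subset_card_eq hc
    refine mem_biUnion.mpr ⟨i, hi, mem_biUnion.mpr ⟨P, ?_, ?_⟩⟩
    · rw [mem_powersetCard]
      exact ⟨hP.trans inter_subset_left, hPc⟩
    · rw [mem_filter]
      exact ⟨hA, hP.trans inter_subset_right⟩
  have hchoose : 0 < n.choose n' := Nat.choose_pos hn'
  have hone : ∀ i ∈ I, ∀ P ∈ powersetCard h (B i),
      ((powersetCard n' C).filter fun A => P ⊆ A).card * n ^ h ≤ n.choose n' * n' ^ h := by
    intro i hi P hP
    rw [mem_powersetCard] at hP
    by_cases hqh : h ≤ n'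
    · refine le_trans (Nat.mul_le_mul_right _ (sup_le C P (hP.1.trans (hB i hi).1) n')) ?_
      rw [hP.2, ← hn]
      exact choose_ratio hn' _ hqh
    · have : ((powersetCard n' C).filter fun A => P ⊆ A) = ∅ := by
        rw [filter_eq_empty_iff]
        intro A hA hPA
        have h1 := card_le_card hPA
        rw [(mem_powersetCard.mp hA).2, hP.2] at h1
        exact hqh h1
      rw [this]
      simp
  have htot : n.choose n' * n ^ h ≤ I.card * (K ^ h * (n.choose n' * n' ^ h)) := by
    have h3 : (powersetCard n' C).card = n.choose n' := by rw [card_powersetCard]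
    calc n.choose n' * n ^ h
        = (powersetCard n' C).card * n ^ h := by rw [h3]
      _ ≤ (∑ i ∈ I, ∑ P ∈ powersetCard h (B i),
            ((powersetCard n' C).filter fun A => P ⊆ A).card) * n ^ h := by
          refine Nat.mul_le_mul_right _ ((card_le_card hsub).trans (card_biUnion_le.trans ?_))
          exact sum_le_sum fun i _ => card_biUnion_le
      _ = ∑ i ∈ I, ∑ P ∈ powersetCard h (B i),
            ((powersetCard n' C).filter fun A => P ⊆ A).card * n ^ h := by
          rw [sum_mul]
          exact sum_congr rfl fun i _ => by rw [sum_mul]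
      _ ≤ ∑ i ∈ I, ∑ P ∈ powersetCard h (B i), (n.choose n' * n' ^ h) :=
          sum_le_sum fun i hi => sum_le_sum fun P hP => hone i hi P hP
      _ ≤ ∑ i ∈ I, K ^ h * (n.choose n' * n' ^ h) := by
          refine sum_le_sum fun i hi => ?_
          rw [sum_const, smul_eq_mul]
          refine Nat.mul_le_mul_right _ ?_
          rw [card_powersetCard]
          exact (Nat.choose_le_pow _ _).trans (Nat.pow_le_pow_left (hB i hi).2 _)
      _ = I.card * (K ^ h * (n.choose n' * n' ^ h)) := by rw [sum_const, smul_eq_mul]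
  have h4 : 2 ^ h * (K ^ h * n' ^ h) ≤ n ^ h := by
    rw [← mul_pow, ← mul_pow]
    exact Nat.pow_le_pow_left h2 h
  have h5 : (n.choose n' * n ^ h) * 2 ^ h ≤ I.card * (n.choose n' * n ^ h) := by
    calc (n.choose n' * n ^ h) * 2 ^ h
        ≤ (I.card * (K ^ h * (n.choose n' * n' ^ h))) * 2 ^ h := Nat.mul_le_mul_right _ htot
      _ = I.card * (n.choose n' * (2 ^ h * (K ^ h * n' ^ h))) := by ring
      _ ≤ I.card * (n.choose n' * n ^ h) := Nat.mul_le_mul_left _ (Nat.mul_le_mul_left _ h4)
  have h6 : 0 < n.choose n' * n ^ h := Nat.mul_pos hchoose (Nat.pow_pos hpos)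
  have h7 : I.card * (n.choose n' * n ^ h) < 2 ^ h * (n.choose n' * n ^ h) :=
    Nat.mul_lt_mul_of_pos_right hI h6
  have h8 : (n.choose n' * n ^ h) * 2 ^ h = 2 ^ h * (n.choose n' * n ^ h) := by ring
  omega

end

end NF

end Pool.Agent.Work.MP_c04246_lc
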