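import Mathlib
import Pool.Agent.Work.MP_c04246_lc.Y.Few
import Pool.Agent.Work.MP_c04246_lc.Y.SparseC
import Pool.Agent.Work.MP_c04246_lc.Y.CoreN

set_option autoImplicit false
set_option linter.unusedSectionVars false
set_option linter.unusedSimpArgs false
set_option linter.unusedVariables false
set_option linter.unusedDecidableInType false
set_option linter.unusedFintypeInType false

/- MODULE Mid (M). From few images to the core theorem. Let s = 2^w (total size < 2^w), N * 2^w ≤ 2^L,
K = 4 L + 2, 2 K + q + 5 ≤ |C|, n' + q r = n, 2 (K n') ≤ |C|, n' ≤ |C|.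
Gam0 = pi.toFinset.biUnion subs has fewer than 2^w elements (GF.card_biUnion_list in LMain.lean with
card_subs_le). Let I be the set of all b ∈ Gam0 such that there are c ∈ Gam0 with FewImages C N c and
b ∈ subs c; size c ≤ total size (c is a subformula of a line: size of a subformula ≤ size: by
induction; or card... prove size_subs: c ∈ subs b → size c ≤ size b), so few_Sup gives B b. By
exists_sparseC with h = w: A ⊆ C, |A| = n', |B b ∩ A| < w for b ∈ I. exists_part (Worlds.lean) gives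
rho0 with PP q rho0 and cov rho0 = univ \ A (|univ \ A| = n - n' = q r). nun rho0 = n'. For b ∈ I:
(univ \ C) ∪ B b ⊆ cov rho0 ∪ (B b ∩ A), so HSup (cov rho0) (w + q) (cl b) (Sup.mono), hence
Hs (cov rho0) (w + q) c for all c ∈ Gam0 with FewImages C N c (subs c ⊆ Gam0), in particular for the
MOD-subformulas. Apply coreN with k = w + q, E = FewImages C N.
-/
namespace Pool.Agent.Work.MP_c04246_lc

open Finset

namespace NF

variable {p q n : ℕ}

lemma size_subs {V : Type} {a b : NF p V} (h : b ∈ subs a) : size b ≤ size a := by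
  classical
  induction a with
  | var x => simp only [subs, mem_singleton] at h; subst h; exact le_rfl
  | cst x => simp only [subs, mem_singleton] at h; subst h; exact le_rfl
  | neg a ih =>
    simp only [subs, mem_insert] at h
    rcases h with rfl | h
    · exact le_rfl
    · have := ih h; simp only [size]; omega
  | big c n f ih =>
    simp only [subs, mem_insert, mem_biUnion, mem_univ, true_and] at h
    rcases h with rfl | ⟨j, h⟩
    · exact le_rfl
    · have h1 := ih j h
      have h2 : size (f j) ≤ ∑ j, size (f j) :=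
        single_le_sum (f := fun j => size (f j)) (fun _ _ => Nat.zero_le _) (mem_univ j)
      simp only [size]; omega
  | mod i n f ih =>
    simp only [subs, mem_insert, mem_biUnion, mem_univ, true_and] at h
    rcases h with rfl | ⟨j, h⟩
    · exact le_rfl
    · have h1 := ih j h
      have h2 : size (f j) ≤ ∑ j, size (f j) :=
        single_le_sum (f := fun j => size (f j)) (fun _ _ => Nat.zero_le _) (mem_univ j)
      simp only [size]; omega

theorem mid (hq2 : 2 ≤ q) (hpq : p.Coprime q) (hp : 0 < p) {w D n' t E' s L N' r : ℕ}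
    {κ N : ℕ → ℕ} (hPF : ParamFacts q w D n' t E' s κ N) (hw : 1 ≤ w) (hD : 1 ≤ D)
    (hκ0 : w + q ≤ κ 0) (hmod : n = n' + q * r)
    {C : Finset (Fin n)} (hN : N' * 2 ^ w ≤ 2 ^ L)
    (hC1 : 2 * (4 * L + 2) + q + 5 ≤ C.card) (hC2 : 2 * ((4 * L + 2) * n') ≤ C.card)
    (hroom0 : q * (2 * (w + q) + 4) + q * (κ 0 + 1) ≤ n')
    (hroom : q * κ D + q * ((3 * w + 3) * κ D) + q * κ D + q * (q + 3) +
      q * (2 * (w + q) + 2) + (p + (w + q)) ≤ N D)
    {pi : List (NF p (Vr q (Fin n)))} (hpi : IsProof w (FewImages C N') pi)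
    (hT : countNF p q n ∈ pi) (hd : ∀ b ∈ pi, depth b ≤ D)
    (hsize : (pi.map size).sum < 2 ^ w)
    (hmo : ∀ b ∈ pi, ∀ a ∈ subs b, IsMod a → FewImages C N' a) : False := by
  classical
  have hq0 : 0 < q := by omega
  set Γ0 : Finset (NF p (Vr q (Fin n))) := pi.toFinset.biUnion subs with hΓ0
  have hΓ0card : Γ0.card < 2 ^ w :=
    (GF.card_biUnion_list subs size card_subs_le pi).trans_lt hsize
  have hmem0 : ∀ a, a ∈ Γ0 ↔ ∃ b ∈ pi, a ∈ subs b := by
    intro a; rw [hΓ0, mem_biUnion]; simp only [List.mem_toFinset]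
  have hsz : ∀ c ∈ Γ0, size c ≤ 2 ^ w := by
    intro c hc
    obtain ⟨b, hb, hcb⟩ := (hmem0 c).mp hc
    have h1 := size_subs hcb
    have h2 : size b ≤ (pi.map size).sum :=
      List.single_le_sum (fun _ _ => Nat.zero_le _) _ (List.mem_map.mpr ⟨b, hb, rfl⟩)
    omega
  set P : NF p (Vr q (Fin n)) → Prop := fun b => ∃ c ∈ Γ0, FewImages C N' c ∧ b ∈ subs c with hP
  have hex : ∀ b, P b → ∃ B ⊆ C, B.card ≤ 4 * L + 2 ∧ Sup ((univ \ C) ∪ B) (cl b) := by
    rintro b ⟨c, hc, hF, hbc⟩
    exact few_Sup hN hC1 (hsz c hc) hF hbc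
  choose! B hB1 hB2 hB3 using hex
  obtain ⟨A, hAC, hAc, hA⟩ := exists_sparseC C (Γ0.filter P) B (K := 4 * L + 2) (n' := n') (h := w)
    (fun b hb => ⟨hB1 b (mem_filter.mp hb).2, hB2 b (mem_filter.mp hb).2⟩)
    (by
      have h1 : n' ≤ (4 * L + 2) * n' := Nat.le_mul_of_pos_left _ (by omega)
      omega) hC2 ((card_filter_le _ _).trans_lt hΓ0card) (by omega)
  obtain ⟨ρ0, hρ0PP, hρ0cov⟩ := exists_part hq0 r (univ \ A) (by
    rw [card_sdiff_of_subset (subset_univ A), card_univ, Fintype.card_fin, hAc, hmod]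
    omega)
  have hρ0N : nun ρ0 = n' := by
    unfold nun
    rw [hρ0cov, Finset.sdiff_sdiff_eq_self (subset_univ A), hAc]
  have hHs : ∀ c ∈ Γ0, FewImages C N' c → Hs (cov ρ0) (w + q) c := by
    intro c hc hF b hb
    have hPb : P b := ⟨c, hc, hF, hb⟩
    have hbΓ : b ∈ Γ0 := by
      obtain ⟨a, ha, hca⟩ := (hmem0 c).mp hc
      exact (hmem0 b).mpr ⟨a, ha, subs_trans hca hb⟩
    have h1 := hA b (mem_filter.mpr ⟨hbΓ, hPb⟩)
    refine ⟨B b ∩ A, by omega, fun π hπ => hB3 b hPb π fun u hu => hπ u ?_⟩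
    rw [hρ0cov, mem_union, mem_inter, mem_sdiff]
    by_cases huA : u ∈ A
    · right
      refine ⟨?_, huA⟩
      rcases mem_union.mp hu with h | h
      · exact absurd (hAC huA) (mem_sdiff.mp h).2
      · exact h
    · exact Or.inl ⟨mem_univ _, huA⟩
  refine coreN hq2 hpq hp hPF hw hD (k := w + q) hκ0 (by omega) hρ0PP hρ0N hroom0 hroom hpi hT hd
    hsize ?_ ?_
  · intro b hb a ha hm
    exact hHs a ((hmem0 a).mpr ⟨b, hb, ha⟩) (hmo b hb a ha hm)
  · intro b hb a ha hF
    exact hHs a ((hmem0 a).mpr ⟨b, hb, ha⟩) hF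

end NF

end Pool.Agent.Work.MP_c04246_lc
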