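import Mathlib
import Pool.Agent.Work.MP_c04246_lc.Y.PDefs

set_option autoImplicit false
set_option linter.unusedSectionVars false
set_option linter.unusedSimpArgs false
set_option linter.unusedVariables false
set_option linter.unusedDecidableInType false
set_option linter.unusedFintypeInType false

/- MODULE TautN (S-M). countNF p q n is a tautology if q does not divide n, has depth ≤ 3 and polynomial
size.
* taut: if v makes it false then (eval of bigL true: no member is true; List.get) for every u some
  S ∋ u has v S = true, and v S = v T = true, S ≠ T implies Disjoint S T. So the S with v S = true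
  partition Fin n into sets of size q: n = q * number (card_biUnion; see LCount.lean for the gate
  version of this statement: taut_countTaut or similar; copy).
* depth: bigL true (..): 1 + sup; neg: 1 + ..; bigL true of variables: 1; bigL false [var, var] : 1.
* size: 1 + sum_u (2 + #{S ∋ u}) + 3 * #pairs ≤ 1 + n (2 + n^q) + 3 n^(2q) ≤ 8 n^(2q) for n ≥ 1
  (#{S} = choose n q ≤ n^q; note 2 n + n^(q+1) ≤ 3 n^(2q) for n ≥ 1, q ≥ 1). Also 2 ≤ size if n ≥ 1.
-/
namespace Pool.Agent.Work.MP_c04246_lc

open Finset

namespace NF

variable {p q n : ℕ}

private lemma TautN_eval_big_true (v : {S : Finset (Fin n) // S.card = q} → Bool)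
    (l : List (NF p {S : Finset (Fin n) // S.card = q})) :
    eval v (bigL true l) = true ↔ ∃ a ∈ l, eval v a = true := by
  unfold bigL
  simp only [eval, if_true, decide_eq_true_eq]
  constructor
  · rintro ⟨j, hj⟩
    exact ⟨l.get j, List.get_mem l j, hj⟩
  · rintro ⟨a, ha, h⟩
    obtain ⟨j, rfl⟩ := List.get_of_mem ha
    exact ⟨j, h⟩

private lemma TautN_eval_big_false (v : {S : Finset (Fin n) // S.card = q} → Bool)
    (l : List (NF p {S : Finset (Fin n) // S.card = q})) :
    eval v (bigL false l) = true ↔ ∀ a ∈ l, eval v a = true := by
  unfold bigL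
  simp only [eval, Bool.false_eq_true, if_false, decide_eq_true_eq]
  constructor
  · intro h a ha
    obtain ⟨j, rfl⟩ := List.get_of_mem ha
    exact h j
  · intro h j
    exact h _ (List.get_mem l j)

private lemma TautN_size_bigL (c : Bool) (l : List (NF p {S : Finset (Fin n) // S.card = q})) :
    size (bigL c l) = (l.map size).sum + 1 := by
  unfold bigL
  simp only [size]
  congr 1
  rw [← List.sum_ofFn]
  congr 1
  apply List.ext_get
  · simp
  · intro i h1 h2
    simp

private lemma TautN_dpt_bigL (r : Option (Option Bool)) (c : Bool)
    (l : List (NF p {S : Finset (Fin n) // S.card = q})) (m : ℕ)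
    (h : ∀ a ∈ l, dpt (some (some c)) a ≤ m) : dpt r (bigL c l) ≤ 1 + m := by
  unfold bigL
  simp only [dpt]
  apply Nat.add_le_add
  · split_ifs <;> omega
  · apply Finset.sup_le
    intro j _
    exact h _ (List.get_mem l j)

theorem taut_countNF (hq : ¬ q ∣ n) (v : {S : Finset (Fin n) // S.card = q} → Bool) :
    eval v (countNF p q n) = true := by
  classical
  by_contra hcon
  unfold countNF at hcon
  rw [TautN_eval_big_true] at hcon
  push Not at hcon
  have h1 : ∀ u : Fin n, ∃ S : {S : Finset (Fin n) // S.card = q}, u ∈ S.1 ∧ v S = true := by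
    intro u
    have h4 := hcon _ (List.mem_append_left _ (List.mem_map.mpr ⟨u, by simp, rfl⟩))
    simp only [eval, Bool.not_eq_true, Bool.not_eq_false'] at h4
    rw [TautN_eval_big_true] at h4
    obtain ⟨a, ha, hva⟩ := h4
    rw [List.mem_map] at ha
    obtain ⟨S, hS, rfl⟩ := ha
    rw [mem_toList, mem_filter] at hS
    exact ⟨S, hS.2, hva⟩
  have h5 : ∀ S T : {S : Finset (Fin n) // S.card = q}, v S = true → v T = true → S ≠ T →
      Disjoint S.1 T.1 := by
    intro S T hS hT hne
    by_contra hd
    have h6 := hcon _ (List.mem_append_right _ (List.mem_map.mpr ⟨(S, T), by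
      rw [mem_toList, mem_filter]; exact ⟨mem_univ _, hne, hd⟩, rfl⟩))
    apply h6
    rw [TautN_eval_big_false]
    intro a ha
    simp only [List.mem_cons, List.not_mem_nil, or_false] at ha
    rcases ha with rfl | rfl
    · exact hS
    · exact hT
  apply hq
  have h7 : (univ : Finset (Fin n)) =
      (univ.filter fun S : {S : Finset (Fin n) // S.card = q} => v S = true).biUnion
        (fun S => S.1) := by
    ext u
    simp only [mem_univ, mem_biUnion, mem_filter, true_and, true_iff]
    obtain ⟨S, hS, hv⟩ := h1 u
    exact ⟨S, hv, hS⟩
  have h8 := congrArg Finset.card h7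
  rw [card_univ, Fintype.card_fin, card_biUnion (by
    intro S hS T hT hne
    exact h5 S T (mem_filter.mp hS).2 (mem_filter.mp hT).2 hne),
    sum_congr rfl (fun S _ => S.2), sum_const, smul_eq_mul] at h8
  exact ⟨_, by rw [h8, mul_comm]⟩

theorem depth_countNF : depth (countNF p q n) ≤ 3 := by
  classical
  unfold depth countNF
  refine TautN_dpt_bigL none true _ 2 ?_
  intro a ha
  rw [List.mem_append] at ha
  rcases ha with ha | ha
  · rw [List.mem_map] at ha
    obtain ⟨u, _, rfl⟩ := ha
    have h1 := TautN_dpt_bigL (p := p) (q := q) (n := n) (some none) true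
      (((Finset.univ : Finset {S : Finset (Fin n) // S.card = q}).filter
        fun S => u ∈ S.1).toList.map var) 0 (by
          intro a ha
          rw [List.mem_map] at ha
          obtain ⟨S, _, rfl⟩ := ha
          simp [dpt])
    simp only [dpt]
    simp
    omega
  · rw [List.mem_map] at ha
    obtain ⟨x, _, rfl⟩ := ha
    have h1 := TautN_dpt_bigL (p := p) (q := q) (n := n) (some (some true)) false
      [var x.1, var x.2] 0 (by
          intro a ha
          simp only [List.mem_cons, List.not_mem_nil, or_false] at ha
          rcases ha with rfl | rfl <;> simp [dpt])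
    omega

private lemma TautN_card_var : Fintype.card {S : Finset (Fin n) // S.card = q} ≤ n ^ q := by
  rw [Fintype.card_finset_len, Fintype.card_fin]
  exact Nat.choose_le_pow n q

theorem size_countNF (hq : 2 ≤ q) (hn : 1 ≤ n) : size (countNF p q n) ≤ 8 * n ^ (2 * q) := by
  classical
  unfold countNF
  rw [TautN_size_bigL, List.map_append, List.sum_append, List.map_map, List.map_map]
  have h1 : (((Finset.univ : Finset (Fin n)).toList.map (size ∘ fun u =>
      neg (bigL true (((Finset.univ : Finset {S : Finset (Fin n) // S.card = q}).filter
        fun S => u ∈ S.1).toList.map (var (p := p)))))).sum) ≤ n * (2 + n ^ q) := by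
    calc _ ≤ ((Finset.univ : Finset (Fin n)).toList.map (size ∘ fun u =>
      neg (bigL true (((Finset.univ : Finset {S : Finset (Fin n) // S.card = q}).filter
        fun S => u ∈ S.1).toList.map (var (p := p)))))).length • (2 + n ^ q) := by
          apply List.sum_le_card_nsmul
          intro x hx
          rw [List.mem_map] at hx
          obtain ⟨u, _, rfl⟩ := hx
          simp only [Function.comp, size]
          rw [TautN_size_bigL, List.map_map]
          have h2 : (((Finset.univ : Finset {S : Finset (Fin n) // S.card = q}).filter
            fun S => u ∈ S.1).toList.map (size ∘ (var (p := p)))).sum ≤ n ^ q := by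
            have h3 : (size ∘ (var (p := p)) : {S : Finset (Fin n) // S.card = q} → ℕ) =
              fun _ => 1 := by funext x; simp [size]
            rw [h3, List.map_const', List.sum_replicate, Finset.length_toList, smul_eq_mul,
              mul_one]
            exact (Finset.card_filter_le _ _).trans (by
              rw [Finset.card_univ]; exact TautN_card_var)
          omega
      _ = n * (2 + n ^ q) := by
          rw [List.length_map, Finset.length_toList, Finset.card_univ, Fintype.card_fin,
            smul_eq_mul]
  have h2 : ((((Finset.univ : Finset ({S : Finset (Fin n) // S.card = q} ×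
        {S : Finset (Fin n) // S.card = q})).filter
        fun x => x.1 ≠ x.2 ∧ ¬ Disjoint x.1.1 x.2.1).toList.map
      (size ∘ fun x => bigL false [var (p := p) x.1, var x.2])).sum) ≤ 3 * n ^ (2 * q) := by
    have h3 : (size ∘ fun x : {S : Finset (Fin n) // S.card = q} ×
        {S : Finset (Fin n) // S.card = q} => bigL false [var (p := p) x.1, var x.2]) =
        fun _ => 3 := by
      funext x
      simp only [Function.comp, TautN_size_bigL]
      simp [size]
    rw [h3, List.map_const', List.sum_replicate, Finset.length_toList, smul_eq_mul, mul_comm]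
    apply Nat.mul_le_mul_left
    refine (Finset.card_filter_le _ _).trans ?_
    rw [Finset.card_univ, Fintype.card_prod]
    calc _ ≤ n ^ q * n ^ q := Nat.mul_le_mul TautN_card_var TautN_card_var
      _ = n ^ (2 * q) := by rw [← pow_add]; congr 1; omega
  have h4 : 1 ≤ n ^ (2 * q) := Nat.one_le_pow _ _ hn
  have h5 : n ≤ n ^ (2 * q) := by
    calc n = n ^ 1 := (pow_one n).symm
      _ ≤ n ^ (2 * q) := Nat.pow_le_pow_right hn (by omega)
  have h6 : n * n ^ q ≤ n ^ (2 * q) := by
    rw [← pow_succ']
    exact Nat.pow_le_pow_right hn (by omega)
  have h7 : n * (2 + n ^ q) = 2 * n + n * n ^ q := by ring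
  rw [h7] at h1
  refine (Nat.add_le_add_right (Nat.add_le_add h1 h2) 1).trans ?_
  omega

theorem two_le_size_countNF (hn : 1 ≤ n) : 2 ≤ size (countNF p q n) := by
  classical
  unfold countNF
  rw [TautN_size_bigL, List.map_append, List.sum_append, List.map_map]
  have h1 : 1 ≤ (((Finset.univ : Finset (Fin n)).toList.map (size ∘ fun u =>
      neg (bigL true (((Finset.univ : Finset {S : Finset (Fin n) // S.card = q}).filter
        fun S => u ∈ S.1).toList.map (var (p := p)))))).sum) := by
    have h2 : (size ∘ fun u : Fin n =>
      neg (bigL true (((Finset.univ : Finset {S : Finset (Fin n) // S.card = q}).filter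
        fun S => u ∈ S.1).toList.map (var (p := p))))) ⟨0, hn⟩ ∈
      ((Finset.univ : Finset (Fin n)).toList.map (size ∘ fun u =>
      neg (bigL true (((Finset.univ : Finset {S : Finset (Fin n) // S.card = q}).filter
        fun S => u ∈ S.1).toList.map (var (p := p)))))) := List.mem_map.mpr ⟨_, by simp, rfl⟩
    refine le_trans ?_ (List.single_le_sum (fun _ _ => Nat.zero_le _) _ h2)
    simp only [Function.comp, size]
    omega
  omega

end NF

end Pool.Agent.Work.MP_c04246_lc
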