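import Mathlib
import Pool.Agent.Work.MP_c04246_lc.Y.Mid
import Pool.Agent.Work.MP_c04246_lc.Y.TautN

set_option autoImplicit false
set_option linter.unusedSectionVars false
set_option linter.unusedSimpArgs false
set_option linter.unusedVariables false
set_option linter.unusedDecidableInType false
set_option linter.unusedFintypeInType false

namespace Pool.Agent.Work.MP_c04246_lc

open Finset

namespace NF

theorem main_bound (p q : ℕ) (hp : 0 < p) (hq : 2 ≤ q) (hpq : p.Coprime q) (d : ℕ) :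
    ∃ a n0 : ℕ, ∀ n : ℕ, ¬ q ∣ n → ∀ C : Finset (Fin n), n0 ≤ C.card →
      ∀ w : ℕ, w ^ a ≤ C.card → ∀ pi : List (NF p (Vr q (Fin n))),
        IsProof w (FewImages C (2 ^ (C.card / w ^ a))) pi → countNF p q n ∈ pi →
        (∀ b ∈ pi, depth b ≤ d) →
        (∀ b ∈ pi, ∀ A ∈ subs b, IsMod A → FewImages C (2 ^ (C.card / w ^ a)) A) →
        2 ^ w ≤ (pi.map size).sum := by
  obtain ⟨a1, n1, hn1, hpar⟩ := exists_params q hq d (2 * q + p + 10) (d + 3) (by omega) (by omega)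
  obtain ⟨n2, hn2⟩ : ∃ n2, n2 = n1 + (2 * q + 3) * (2 * q + 3) + 2 * q + 10 := ⟨_, rfl⟩
  obtain ⟨c, hc⟩ : ∃ c, c = 2 * q * (n2 + 2) := ⟨_, rfl⟩
  refine ⟨a1 + 2 + 2 + 64 * c, 0, ?_⟩
  intro n hqn C _ w hw pi hpi hT hd hmo
  have hn1' : 1 ≤ n := by
    rcases Nat.eq_zero_or_pos n with h | h
    · subst h; exact absurd (dvd_zero q) hqn
    · exact h
  have hsz : size (countNF p q n) ≤ (pi.map size).sum :=
    List.single_le_sum (fun _ _ => Nat.zero_le _) _ (List.mem_map.mpr ⟨_, hT, rfl⟩)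
  have h2 := two_le_size_countNF (p := p) (q := q) hn1'
  rcases Nat.lt_or_ge w 2 with hw2 | hw2
  · have : 2 ^ w ≤ 2 := by
      calc 2 ^ w ≤ 2 ^ 1 := Nat.pow_le_pow_right (by norm_num) (by omega)
        _ = 2 := by norm_num
    omega
  by_contra hlt
  push Not at hlt
  have hw1 : 1 ≤ w := by omega
  obtain ⟨X, hX⟩ : ∃ X, X = w ^ (a1 + 2) := ⟨_, rfl⟩
  have hX1 : 1 ≤ X := by rw [hX]; exact Nat.one_le_pow _ _ hw1
  have hXw : w * w ≤ X := by
    rw [hX, pow_add]
    calc w * w = 1 * w ^ 2 := by ring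
      _ ≤ w ^ a1 * w ^ 2 := Nat.mul_le_mul_right _ (Nat.one_le_pow _ _ hw1)
  have hXa : w ^ a1 ≤ X := by rw [hX]; exact Nat.pow_le_pow_right hw1 (by omega)
  obtain ⟨M, hM⟩ : ∃ M, M = c * X := ⟨_, rfl⟩
  have hpow : 64 * w * M ≤ w ^ (a1 + 2 + 2 + 64 * c) := by
    have e1 : w ^ (a1 + 2 + 2 + 64 * c) = X * w * w ^ (1 + 64 * c) := by
      rw [hX]; ring
    have e2 : 64 * c ≤ w ^ (1 + 64 * c) := by
      calc 64 * c ≤ 2 ^ (1 + 64 * c) := by
            have := Nat.lt_two_pow_self (n := 1 + 64 * c)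
            omega
        _ ≤ w ^ (1 + 64 * c) := Nat.pow_le_pow_left hw2 _
    rw [e1]
    calc 64 * w * M = X * w * (64 * c) := by rw [hM]; ring
      _ ≤ X * w * w ^ (1 + 64 * c) := Nat.mul_le_mul_left _ e2
  obtain ⟨W, hW⟩ : ∃ W, W = w ^ (a1 + 2 + 2 + 64 * c) := ⟨_, rfl⟩
  rw [← hW] at hpow hw hpi hmo
  obtain ⟨Q, hQ⟩ : ∃ Q, Q = C.card / W := ⟨_, rfl⟩
  rw [← hQ] at hpi hmo
  have hQW : Q * W ≤ C.card := by rw [hQ]; exact Nat.div_mul_le_self _ _
  have hQM : Q * (64 * w * M) ≤ C.card := (Nat.mul_le_mul_left _ hpow).trans hQW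
  have hMC : 64 * w * M ≤ C.card := hpow.trans hw
  obtain ⟨n', hn'⟩ : ∃ n', n' = q * (n2 + X) + n % q := ⟨_, rfl⟩
  have hmod : n % q < q := Nat.mod_lt _ (by omega)
  have hn'M : n' ≤ M := by
    have e1 : q * (n2 + X) + q ≤ q * (n2 + 2) * X := by
      calc q * (n2 + X) + q = q * n2 * 1 + q * X + q * 1 := by ring
        _ ≤ q * n2 * X + q * X + q * X := by gcongr
        _ = q * (n2 + 2) * X := by ring
    have e2 : q * (n2 + 2) * X ≤ M := by
      rw [hM, hc]
      exact Nat.mul_le_mul_right _ (by nlinarith)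
    omega
  have hn'1 : q * n2 + q * X ≤ n' := by
    rw [hn', mul_add]; exact Nat.le_add_right _ _
  have hqn2 : n2 ≤ q * n2 := Nat.le_mul_of_pos_left _ (by omega)
  have hqX : X ≤ q * X := Nat.le_mul_of_pos_left _ (by omega)
  have hn'5 : q + 10 + 1 ≤ n' := by nlinarith
  have hCn : C.card ≤ n := by
    have := card_le_univ C
    rwa [Fintype.card_fin] at this
  -- the bound for the supports
  have hK : 2 * ((4 * (Q + w) + 2) * n') ≤ C.card := by
    have e1 : 2 * ((4 * (Q + w) + 2) * n') ≤ 2 * ((4 * Q + 5 * w) * M) :=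
      Nat.mul_le_mul_left _ (Nat.mul_le_mul (by omega) hn'M)
    have e2 : 2 * (Q * M) ≤ w * (Q * M) := Nat.mul_le_mul_right _ hw2
    have e3 : Q * (64 * w * M) = 64 * (w * (Q * M)) := by ring
    have e4 : 64 * w * M = 64 * (w * M) := by ring
    have e5 : 2 * ((4 * Q + 5 * w) * M) = 8 * (Q * M) + 10 * (w * M) := by ring
    rw [e3] at hQM
    rw [e4] at hMC
    rw [e5] at e1
    generalize w * (Q * M) = y1 at *
    generalize Q * M = y2 at *
    generalize w * M = y3 at *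
    omega
  have hK1 : 2 * (4 * (Q + w) + 2) + q + 5 ≤ C.card := by
    refine le_trans ?_ hK
    obtain ⟨y, hy⟩ : ∃ y, n' = y + 1 := ⟨n' - 1, by omega⟩
    rw [hy]
    have e1 : 2 * ((4 * (Q + w) + 2) * (y + 1)) =
      2 * (4 * (Q + w) + 2) + (8 * (Q + w) * y + 4 * y) := by ring
    rw [e1]
    have : q + 5 ≤ 4 * y := by omega
    have := Nat.zero_le (8 * (Q + w) * y)
    omega
  have hn'C : n' ≤ C.card := by
    refine le_trans ?_ hK
    calc n' = 1 * n' := (one_mul _).symm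
      _ ≤ (4 * (Q + w) + 2) * n' := Nat.mul_le_mul_right _ (by omega)
      _ ≤ _ := Nat.le_mul_of_pos_left _ (by norm_num)
  obtain ⟨r, hr⟩ : ∃ r, n = n' + q * r := by
    refine ⟨n / q - (n2 + X), ?_⟩
    have e1 := Nat.div_add_mod n q
    have e2 : n2 + X ≤ n / q := by
      rw [Nat.le_div_iff_mul_le (by omega)]
      have : q * (n2 + X) ≤ n := by omega
      rwa [mul_comm] at this
    have e3 : q * (n / q - (n2 + X)) + q * (n2 + X) = q * (n / q) := by
      rw [← mul_add, Nat.sub_add_cancel e2]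
    omega
  have hwa1 : w ^ a1 ≤ n' := by
    have : X ≤ n' := by omega
    exact hXa.trans this
  obtain ⟨N, hPF⟩ := hpar n' (by omega) w hw1 hwa1
  refine mid hq hpq hp hPF hw1 (by omega) ?_ hr (L := Q + w) (N' := 2 ^ Q) (C := C)
    (by rw [pow_add]) hK1 hK ?_ ?_ hpi hT (fun b hb => (hd b hb).trans (by omega)) hlt hmo
  · show w + q ≤ (2 * q + 1) * w ^ (0 + 1)
    have : q * 1 ≤ q * w := Nat.mul_le_mul_left _ hw1
    have e1 : (2 * q + 1) * w ^ (0 + 1) = w + q * w + q * w := by ring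
    omega
  · show q * (2 * (w + q) + 4) + q * ((2 * q + 1) * w ^ (0 + 1) + 1) ≤ n'
    refine le_trans ?_ hn'1
    rw [← mul_add, ← mul_add]
    refine Nat.mul_le_mul_left _ ?_
    have e1 : (2 * q + 3) * w ≤ w * w + (2 * q + 3) * (2 * q + 3) := by
      rcases Nat.le_total (2 * q + 3) w with h | h
      · exact (Nat.mul_le_mul_right _ h).trans (Nat.le_add_right _ _)
      · exact (Nat.mul_le_mul_left _ h).trans (Nat.le_add_left _ _)
    have e2 : 2 * (w + q) + 4 + ((2 * q + 1) * w ^ (0 + 1) + 1) = (2 * q + 3) * w + 2 * q + 5 := by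
      ring
    rw [e2, hn2]
    omega
  · rw [hPF.hNd]
    refine le_trans ?_ (Nat.le_add_right _ _)
    show q * ((2 * q + 1) * w ^ (d + 1 + 1)) + q * ((3 * w + 3) * ((2 * q + 1) * w ^ (d + 1 + 1))) +
      q * ((2 * q + 1) * w ^ (d + 1 + 1)) + q * (q + 3) + q * (2 * (w + q) + 2) + (p + (w + q)) ≤ _
    set E := (2 * q + p + 10) * w ^ (d + 3) with hE
    obtain ⟨k1, hk1⟩ : ∃ k1, k1 = (2 * q + 1) * w ^ (d + 1 + 1) := ⟨_, rfl⟩
    rw [← hk1]
    have hwk : w * k1 ≤ E := by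
      calc w * k1 = (2 * q + 1) * w ^ (d + 3) := by rw [hk1]; ring
        _ ≤ E := Nat.mul_le_mul_right _ (by omega)
    have hkE : k1 ≤ E := (Nat.le_mul_of_pos_left _ (by omega)).trans hwk
    have hAE : 2 * q + p + 10 ≤ E := Nat.le_mul_of_pos_right _ (Nat.pow_pos (by omega))
    have hwE : w ≤ E := by
      calc w = w ^ 1 := (pow_one w).symm
        _ ≤ w ^ (d + 3) := Nat.pow_le_pow_right hw1 (by omega)
        _ ≤ E := Nat.le_mul_of_pos_left _ (by omega)
    have e1 : q * k1 + q * ((3 * w + 3) * k1) + q * k1 + q * (q + 3) + q * (2 * (w + q) + 2) +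
        (p + (w + q)) ≤ 16 * (q * E) := by
      have f1 : q * ((3 * w + 3) * k1) = 3 * (q * (w * k1)) + 3 * (q * k1) := by ring
      have f2 : q * (w * k1) ≤ q * E := Nat.mul_le_mul_left _ hwk
      have f3 : q * k1 ≤ q * E := Nat.mul_le_mul_left _ hkE
      have f4 : q * (q + 3) ≤ q * E := Nat.mul_le_mul_left _ (by omega)
      have f5 : q * (2 * (w + q) + 2) ≤ q * (3 * E) := Nat.mul_le_mul_left _ (by omega)
      have f6 : q * (3 * E) = 3 * (q * E) := by ring
      have f7 : p + (w + q) ≤ 2 * E := by omega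
      have f8 : E ≤ q * E := Nat.le_mul_of_pos_left _ (by omega)
      rw [f1]
      rw [f6] at f5
      generalize q * (w * k1) = z1 at *
      generalize q * k1 = z2 at *
      generalize q * E = z3 at *
      omega
    refine e1.trans ?_
    have hEE : E ≤ E * E := Nat.le_mul_of_pos_left _ (by omega)
    calc 16 * (q * E) ≤ 16 * (q * (E * E)) := by gcongr
      _ ≤ 81 * (q * (E * E)) := Nat.mul_le_mul_right _ (by norm_num)
      _ = q * (9 * E * (9 * E)) := by ring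

end NF

end Pool.Agent.Work.MP_c04246_lc
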